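import Pool.Agent.H5.DF.Defs

set_option autoImplicit false
open MeasureTheory Set Filter Topology
open scoped ENNReal NNReal FourierTransform

namespace Pool.Agent.H5.DF

/-!
Part EPP. Exponential polynomials with real frequencies.
`EP.lower`: write `P = Σ_{a ∈ s} c a exp(i a η)` with `s` nonempty and all `c a ≠ 0`; the vector of
the derivatives of order `0 … |s|-1` is a Vandermonde matrix (nodes `i a`, invertible) times the vector
`(c a exp(i a η))_a`, whose norm is bounded below on the real line.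
-/

/-- the exponential with frequency `a` -/
noncomputable def EPP_e (a : ℝ) (η : ℂ) : ℂ := Complex.exp (Complex.I * a * η)

theorem EPP_e_ne (a : ℝ) (η : ℂ) : EPP_e a η ≠ 0 := Complex.exp_ne_zero _

theorem EPP_e_add (a b : ℝ) (η : ℂ) : EPP_e (a + b) η = EPP_e a η * EPP_e b η := by
  unfold EPP_e
  rw [← Complex.exp_add]
  congr 1
  push_cast
  ring

theorem EPP_e_deriv (a : ℝ) (η : ℂ) :
    HasDerivAt (EPP_e a) (Complex.I * a * EPP_e a η) η := by
  unfold EPP_e
  have h1 : HasDerivAt (fun x : ℂ => Complex.I * a * x) (Complex.I * a) η := by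
    simpa using (hasDerivAt_id η).const_mul (Complex.I * a)
  have h2 := h1.cexp
  rwa [mul_comm (Complex.exp _)] at h2

theorem EPP_of_sum {ι : Type} (t : Finset ι) (c : ι → ℂ) (a : ι → ℝ) :
    EP (fun η => ∑ i ∈ t, c i * EPP_e (a i) η) := by
  classical
  refine ⟨t.image a, fun x => ∑ i ∈ t with a i = x, c i, fun η => ?_⟩
  show ∑ i ∈ t, c i * EPP_e (a i) η = _
  rw [← Finset.sum_fiberwise_of_maps_to (g := a) (t := t.image a)
    (fun i hi => Finset.mem_image_of_mem a hi)]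
  refine Finset.sum_congr rfl fun x _ => ?_
  rw [Finset.sum_mul]
  refine Finset.sum_congr rfl fun i hi => ?_
  rw [(Finset.mem_filter.1 hi).2]
  rfl

theorem EPP_exists {P : ℂ → ℂ} (hP : EP P) : ∃ (s : Finset ℝ) (c : ℝ → ℂ),
    P = fun η => ∑ a ∈ s, c a * EPP_e a η := by
  obtain ⟨s, c, h⟩ := hP
  exact ⟨s, c, funext h⟩

theorem EP.const (c : ℂ) : EP (fun _ => c) := by
  refine ⟨{0}, fun _ => c, fun η => ?_⟩
  simp

theorem EP.exp (a : ℝ) : EP (fun η => Complex.exp (Complex.I * a * η)) := by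
  refine ⟨{a}, fun _ => 1, fun η => ?_⟩
  simp

theorem EP.add {P Q : ℂ → ℂ} (hP : EP P) (hQ : EP Q) : EP (fun η => P η + Q η) := by
  obtain ⟨s, c, rfl⟩ := EPP_exists hP
  obtain ⟨t, d, rfl⟩ := EPP_exists hQ
  have := EPP_of_sum (s.disjSum t) (Sum.elim c d) (Sum.elim id id)
  convert this using 1
  funext η
  rw [Finset.sum_disjSum]
  rfl

theorem EP.mul {P Q : ℂ → ℂ} (hP : EP P) (hQ : EP Q) : EP (fun η => P η * Q η) := by
  obtain ⟨s, c, rfl⟩ := EPP_exists hP
  obtain ⟨t, d, rfl⟩ := EPP_exists hQ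
  have := EPP_of_sum (s ×ˢ t) (fun p => c p.1 * d p.2) (fun p => p.1 + p.2)
  convert this using 1
  funext η
  rw [Finset.sum_mul_sum, Finset.sum_product]
  refine Finset.sum_congr rfl fun a _ => Finset.sum_congr rfl fun b _ => ?_
  rw [EPP_e_add]
  ring

theorem EP.sub {P Q : ℂ → ℂ} (hP : EP P) (hQ : EP Q) : EP (fun η => P η - Q η) := by
  have h := hP.add ((EP.const (-1)).mul hQ)
  have e : (fun η => P η - Q η) = fun η => P η + (-1) * Q η := by
    funext η; ring
  rw [e]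
  exact h

theorem EPP_hasDerivAt (s : Finset ℝ) (c : ℝ → ℂ) (η : ℂ) :
    HasDerivAt (fun η => ∑ a ∈ s, c a * EPP_e a η)
      (∑ a ∈ s, (c a * (Complex.I * a)) * EPP_e a η) η := by
  apply HasDerivAt.fun_sum
  intro a _
  have := (EPP_e_deriv a η).const_mul (c a)
  rw [← mul_assoc] at this
  exact this

theorem EP.differentiable {P : ℂ → ℂ} (hP : EP P) : Differentiable ℂ P := by
  obtain ⟨s, c, rfl⟩ := EPP_exists hP
  exact fun η => (EPP_hasDerivAt s c η).differentiableAt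

theorem EPP_deriv (s : Finset ℝ) (c : ℝ → ℂ) :
    _root_.deriv (fun η => ∑ a ∈ s, c a * EPP_e a η) =
      fun η => ∑ a ∈ s, (c a * (Complex.I * a)) * EPP_e a η :=
  funext fun η => (EPP_hasDerivAt s c η).deriv

theorem EP.deriv {P : ℂ → ℂ} (hP : EP P) : EP (deriv P) := by
  obtain ⟨s, c, rfl⟩ := EPP_exists hP
  rw [EPP_deriv]
  exact EPP_of_sum s (fun a => c a * (Complex.I * a)) id

theorem EPP_iter (s : Finset ℝ) (i : ℕ) : ∀ c : ℝ → ℂ,
    iteratedDeriv i (fun η => ∑ a ∈ s, c a * EPP_e a η) =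
      fun η => ∑ a ∈ s, (c a * (Complex.I * a) ^ i) * EPP_e a η := by
  induction i with
  | zero =>
    intro c
    rw [iteratedDeriv_zero]
    funext η
    refine Finset.sum_congr rfl fun a _ => ?_
    rw [pow_zero, mul_one]
  | succ i ih =>
    intro c
    rw [iteratedDeriv_succ', EPP_deriv, ih]
    funext η
    refine Finset.sum_congr rfl fun a _ => ?_
    rw [pow_succ']
    ring

theorem EPP_norm (a : ℝ) (η : ℂ) : ‖EPP_e a η‖ = Real.exp (-(a * η.im)) := by
  unfold EPP_e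
  rw [Complex.norm_exp]
  congr 1
  simp

/-- exponential polynomials are bounded on strips -/
theorem EP.strip_bdd {P : ℂ → ℂ} (hP : EP P) (δ : ℝ) :
    ∃ C : ℝ, ∀ η : ℂ, |η.im| ≤ δ → ‖P η‖ ≤ C := by
  obtain ⟨s, c, rfl⟩ := EPP_exists hP
  refine ⟨∑ a ∈ s, ‖c a‖ * Real.exp (|a| * δ), fun η hη => ?_⟩
  refine (norm_sum_le _ _).trans (Finset.sum_le_sum fun a _ => ?_)
  rw [norm_mul, EPP_norm]
  have h1 : -(a * η.im) ≤ |a| * δ := by
    calc -(a * η.im) ≤ |-(a * η.im)| := le_abs_self _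
      _ = |a| * |η.im| := by rw [abs_neg, abs_mul]
      _ ≤ |a| * δ := by gcongr
  gcongr

/-- a separating polynomial -/
theorem EPP_sep (s : Finset ℝ) (f : ℝ → ℂ) (hf : Set.InjOn f s) (a₀ : ℝ) (ha : a₀ ∈ s) :
    ∃ q : Polynomial ℂ, q.eval (f a₀) ≠ 0 ∧ ∀ a ∈ s, a ≠ a₀ → q.eval (f a) = 0 := by
  classical
  refine ⟨∏ b ∈ s.erase a₀, (Polynomial.X - Polynomial.C (f b)), ?_, ?_⟩
  · rw [Polynomial.eval_prod, Finset.prod_ne_zero_iff]
    intro b hb
    rw [Polynomial.eval_sub, Polynomial.eval_X, Polynomial.eval_C, sub_ne_zero]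
    intro h
    exact (Finset.ne_of_mem_erase hb) (hf (Finset.mem_of_mem_erase hb) ha h.symm)
  · intro a has hne
    rw [Polynomial.eval_prod]
    apply Finset.prod_eq_zero (Finset.mem_erase.2 ⟨hne, has⟩)
    rw [Polynomial.eval_sub, Polynomial.eval_X, Polynomial.eval_C, sub_self]

/-- filtering by the separating polynomial -/
theorem EPP_filter (s : Finset ℝ) (f : ℝ → ℂ) (a₀ : ℝ) (ha : a₀ ∈ s) (q : Polynomial ℂ)
    (hq : ∀ a ∈ s, a ≠ a₀ → q.eval (f a) = 0) (g : ℝ → ℂ) :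
    ∑ i ∈ Finset.range (q.natDegree + 1), q.coeff i * ∑ a ∈ s, g a * f a ^ i =
      g a₀ * q.eval (f a₀) := by
  have h1 : ∑ i ∈ Finset.range (q.natDegree + 1), q.coeff i * ∑ a ∈ s, g a * f a ^ i =
      ∑ a ∈ s, g a * q.eval (f a) := by
    simp_rw [Finset.mul_sum]
    rw [Finset.sum_comm]
    refine Finset.sum_congr rfl fun a _ => ?_
    rw [Polynomial.eval_eq_sum_range, Finset.mul_sum]
    refine Finset.sum_congr rfl fun i _ => ?_
    ring
  rw [h1, Finset.sum_eq_single_of_mem a₀ ha]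
  intro a has hne
  rw [hq a has hne, mul_zero]

theorem EPP_exists_coef {P : ℂ → ℂ} (hP : EP P) (h : P ≠ fun _ => 0) :
    ∃ (s : Finset ℝ) (c : ℝ → ℂ), (P = fun η => ∑ a ∈ s, c a * EPP_e a η) ∧
      ∃ a₀ ∈ s, c a₀ ≠ 0 := by
  obtain ⟨s, c, hPc⟩ := EPP_exists hP
  refine ⟨s, c, hPc, ?_⟩
  by_contra hcon
  push Not at hcon
  apply h
  rw [hPc]
  funext η
  apply Finset.sum_eq_zero
  intro a ha
  rw [hcon a ha, zero_mul]

theorem EP.lower {P : ℂ → ℂ} (hP : EP P) (h : P ≠ fun _ => 0) :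
    ∃ (N : ℕ) (c : ℝ), 0 < c ∧ ∀ η : ℝ, ∃ i ≤ N, c ≤ ‖iteratedDeriv i P (η : ℂ)‖ := by
  obtain ⟨s, c, rfl, a₀, ha₀, hc₀⟩ := EPP_exists_coef hP h
  have hinj : Set.InjOn (fun a : ℝ => Complex.I * (a : ℂ)) s := by
    intro a _ b _ hab
    have h1 : (a : ℂ) = b := mul_left_cancel₀ Complex.I_ne_zero hab
    exact_mod_cast h1
  obtain ⟨q, hq0, hq⟩ := EPP_sep s _ hinj a₀ ha₀
  set B : ℝ := ∑ i ∈ Finset.range (q.natDegree + 1), ‖q.coeff i‖ with hB
  have hB0 : 0 ≤ B := Finset.sum_nonneg fun _ _ => norm_nonneg _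
  set A : ℝ := ‖c a₀‖ * ‖q.eval (Complex.I * (a₀ : ℂ))‖ with hA
  have hA0 : 0 < A := mul_pos (norm_pos_iff.2 hc₀) (norm_pos_iff.2 hq0)
  refine ⟨q.natDegree, A / (B + 1), by positivity, fun η => ?_⟩
  by_contra hcon
  push Not at hcon
  have h1 := EPP_filter s (fun a : ℝ => Complex.I * (a : ℂ)) a₀ ha₀ q hq
    (fun a => c a * EPP_e a η)
  have h2 : ∀ i, ∑ a ∈ s, c a * EPP_e a (η : ℂ) * (Complex.I * (a : ℂ)) ^ i =
      iteratedDeriv i (fun η => ∑ a ∈ s, c a * EPP_e a η) (η : ℂ) := by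
    intro i
    rw [EPP_iter]
    refine Finset.sum_congr rfl fun a _ => ?_
    ring
  simp only [h2] at h1
  have h3 : A = ‖c a₀ * EPP_e a₀ (η : ℂ) * q.eval (Complex.I * (a₀ : ℂ))‖ := by
    rw [norm_mul, norm_mul, EPP_norm]
    simp [hA]
  rw [← h1] at h3
  have h4 : A ≤ B * (A / (B + 1)) := by
    rw [h3]
    refine (norm_sum_le _ _).trans ?_
    rw [← h3, hB, Finset.sum_mul]
    refine Finset.sum_le_sum fun i hi => ?_
    rw [norm_mul]
    refine mul_le_mul_of_nonneg_left ?_ (norm_nonneg _)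
    exact (hcon i (Nat.lt_succ_iff.1 (Finset.mem_range.1 hi))).le
  have h5 : B * (A / (B + 1)) < A := by
    rw [mul_div_assoc', div_lt_iff₀ (by positivity)]
    nlinarith
  linarith

/-- an exponential polynomial which tends to `0` along the positive real axis vanishes -/
theorem EP.eq_zero_of_tendsto {P : ℂ → ℂ} (hP : EP P)
    (h : Tendsto (fun η : ℝ => P (η : ℂ)) atTop (𝓝 0)) : P = fun _ => 0 := by
  by_contra hne
  obtain ⟨s, c, rfl, a₀, ha₀, hc₀⟩ := EPP_exists_coef hP hne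
  set M : ℝ := ∑ a ∈ s, |a| with hM
  have hM0 : 0 ≤ M := Finset.sum_nonneg fun _ _ => abs_nonneg _
  set t : ℝ := 1 / (1 + M) with ht
  have ht0 : 0 < t := by positivity
  have hinj : Set.InjOn (fun a : ℝ => EPP_e a (t : ℂ)) s := by
    intro a ha b hb hab
    by_contra hne'
    unfold EPP_e at hab
    simp only at hab
    rw [Complex.exp_eq_exp_iff_exists_int] at hab
    obtain ⟨n, hn⟩ := hab
    have h1 : a * t = b * t + n * (2 * Real.pi) := by
      have h2 : Complex.I * ((a * t : ℝ) : ℂ) = Complex.I * ((b * t + n * (2 * Real.pi) : ℝ) : ℂ) := by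
        push_cast
        linear_combination hn
      have h3 := mul_left_cancel₀ Complex.I_ne_zero h2
      exact_mod_cast h3
    have h2 : |a| + |b| ≤ M := by
      classical
      have : ∑ x ∈ ({a, b} : Finset ℝ), |x| ≤ ∑ x ∈ s, |x| := by
        apply Finset.sum_le_sum_of_subset_of_nonneg
        · intro x hx
          rw [Finset.mem_insert, Finset.mem_singleton] at hx
          rcases hx with rfl | rfl
          · exact ha
          · exact hb
        · intro _ _ _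
          exact abs_nonneg _
      rwa [Finset.sum_pair hne'] at this
    have h3 : |(a - b) * t| < 1 := by
      rw [abs_mul, abs_of_pos ht0, ht, mul_one_div, div_lt_one (by positivity)]
      have := abs_sub a b
      linarith
    have h4 : (a - b) * t = n * (2 * Real.pi) := by linarith
    rw [h4, abs_mul, abs_of_pos (by positivity : (0 : ℝ) < 2 * Real.pi)] at h3
    have h5 : n = 0 := by
      by_contra hn0
      have h6 : (1 : ℝ) ≤ |(n : ℝ)| := by
        have := Int.one_le_abs hn0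
        exact_mod_cast this
      have := Real.pi_gt_three
      nlinarith
    rw [h5] at h4
    simp only [Int.cast_zero, zero_mul, mul_eq_zero] at h4
    rcases h4 with h4 | h4
    · exact hne' (by linarith)
    · exact ht0.ne' h4
  obtain ⟨q, hq0, hq⟩ := EPP_sep s _ hinj a₀ ha₀
  have h1 : ∀ η : ℝ, ∑ i ∈ Finset.range (q.natDegree + 1), q.coeff i *
      ∑ a ∈ s, c a * EPP_e a ((η + i * t : ℝ) : ℂ) =
        c a₀ * EPP_e a₀ (η : ℂ) * q.eval (EPP_e a₀ (t : ℂ)) := by
    intro η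
    rw [← EPP_filter s (fun a : ℝ => EPP_e a (t : ℂ)) a₀ ha₀ q hq
      (fun a => c a * EPP_e a (η : ℂ))]
    refine Finset.sum_congr rfl fun i _ => ?_
    congr 1
    refine Finset.sum_congr rfl fun a _ => ?_
    rw [mul_assoc]
    congr 1
    unfold EPP_e
    rw [← Complex.exp_nat_mul, ← Complex.exp_add]
    congr 1
    push_cast
    ring
  have h2 : Tendsto (fun η : ℝ => ∑ i ∈ Finset.range (q.natDegree + 1), q.coeff i *
      ∑ a ∈ s, c a * EPP_e a ((η + i * t : ℝ) : ℂ)) atTop (𝓝 0) := by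
    have h3 : (0 : ℂ) = ∑ i ∈ Finset.range (q.natDegree + 1), q.coeff i * 0 := by simp
    rw [h3]
    apply tendsto_finsetSum
    intro i _
    apply Tendsto.const_mul
    exact h.comp (tendsto_atTop_add_const_right _ _ tendsto_id)
  have h3 := h2.norm
  rw [norm_zero] at h3
  have h4 : (fun η : ℝ => ‖∑ i ∈ Finset.range (q.natDegree + 1), q.coeff i *
      ∑ a ∈ s, c a * EPP_e a ((η + i * t : ℝ) : ℂ)‖) =
        fun _ => ‖c a₀‖ * ‖q.eval (EPP_e a₀ (t : ℂ))‖ := by
    funext η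
    rw [h1, norm_mul, norm_mul, EPP_norm]
    simp
  rw [h4] at h3
  have h5 := tendsto_nhds_unique h3 tendsto_const_nhds
  have h6 : 0 < ‖c a₀‖ * ‖q.eval (EPP_e a₀ (t : ℂ))‖ :=
    mul_pos (norm_pos_iff.2 hc₀) (norm_pos_iff.2 hq0)
  rw [← h5] at h6
  exact lt_irrefl _ h6

end Pool.Agent.H5.DF
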