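import Pool.Agent.H5.DF.Defs
import Pool.Agent.H5.DF.Epp

set_option autoImplicit false
open MeasureTheory Set Filter Topology
open scoped ENNReal NNReal FourierTransform

namespace Pool.Agent.H5.DF

/-!
Part AEC. The class of functions with asymptotic expansions.
-/

theorem AEC_data {δ : ℝ} {F P₀ P₁ P₂ : ℂ → ℂ} (h : AE δ F P₀ P₁ P₂) :
    ∃ C R B : ℝ, 0 ≤ C ∧ 1 ≤ R ∧ 0 ≤ B ∧
      (∀ η : ℂ, |η.im| ≤ δ → R ≤ |η.re| →
        ‖F η - P₀ η - P₁ η / η - P₂ η / η ^ 2‖ ≤ C / |η.re| ^ 3) ∧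
      ∀ η : ℂ, |η.im| ≤ δ → ‖P₀ η‖ ≤ B ∧ ‖P₁ η‖ ≤ B ∧ ‖P₂ η‖ ≤ B := by
  obtain ⟨h0, h1, h2, C, R, hR, hC⟩ := h
  obtain ⟨B0, hB0⟩ := h0.strip_bdd δ
  obtain ⟨B1, hB1⟩ := h1.strip_bdd δ
  obtain ⟨B2, hB2⟩ := h2.strip_bdd δ
  refine ⟨max C 0, max R 1, max (max B0 B1) (max B2 0), le_max_right _ _, le_max_right _ _,
    (le_max_right _ _).trans (le_max_right _ _), ?_, ?_⟩
  · intro η hη hr
    have hx : 0 < |η.re| := lt_of_lt_of_le (lt_of_lt_of_le one_pos (le_max_right R 1)) hr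
    refine (hC η hη ((le_max_left _ _).trans hr)).trans ?_
    gcongr
    exact le_max_left _ _
  · intro η hη
    refine ⟨(hB0 η hη).trans ((le_max_left _ _).trans (le_max_left _ _)),
      (hB1 η hη).trans ((le_max_right _ _).trans (le_max_left _ _)),
      (hB2 η hη).trans ((le_max_left _ _).trans (le_max_right _ _))⟩

theorem AE.add {δ : ℝ} {F P₀ P₁ P₂ H Q₀ Q₁ Q₂ : ℂ → ℂ} (hF : AE δ F P₀ P₁ P₂)
    (hH : AE δ H Q₀ Q₁ Q₂) : AE δ (fun η => F η + H η) (fun η => P₀ η + Q₀ η)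
      (fun η => P₁ η + Q₁ η) (fun η => P₂ η + Q₂ η) := by
  obtain ⟨h0, h1, h2, C, R, hR, hC⟩ := hF
  obtain ⟨k0, k1, k2, C', R', hR', hC'⟩ := hH
  refine ⟨h0.add k0, h1.add k1, h2.add k2, C + C', max R R', lt_max_of_lt_left hR, ?_⟩
  intro η hη hr
  have e1 := hC η hη ((le_max_left _ _).trans hr)
  have e2 := hC' η hη ((le_max_right _ _).trans hr)
  have e3 : F η + H η - (P₀ η + Q₀ η) - (P₁ η + Q₁ η) / η - (P₂ η + Q₂ η) / η ^ 2 =
      (F η - P₀ η - P₁ η / η - P₂ η / η ^ 2) + (H η - Q₀ η - Q₁ η / η - Q₂ η / η ^ 2) := by ring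
  simp only [e3]
  refine (norm_add_le _ _).trans ?_
  rw [add_div]
  exact add_le_add e1 e2

theorem AE.sub {δ : ℝ} {F P₀ P₁ P₂ H Q₀ Q₁ Q₂ : ℂ → ℂ} (hF : AE δ F P₀ P₁ P₂)
    (hH : AE δ H Q₀ Q₁ Q₂) : AE δ (fun η => F η - H η) (fun η => P₀ η - Q₀ η)
      (fun η => P₁ η - Q₁ η) (fun η => P₂ η - Q₂ η) := by
  obtain ⟨h0, h1, h2, C, R, hR, hC⟩ := hF
  obtain ⟨k0, k1, k2, C', R', hR', hC'⟩ := hH
  refine ⟨h0.sub k0, h1.sub k1, h2.sub k2, C + C', max R R', lt_max_of_lt_left hR, ?_⟩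
  intro η hη hr
  have e1 := hC η hη ((le_max_left _ _).trans hr)
  have e2 := hC' η hη ((le_max_right _ _).trans hr)
  have e3 : F η - H η - (P₀ η - Q₀ η) - (P₁ η - Q₁ η) / η - (P₂ η - Q₂ η) / η ^ 2 =
      (F η - P₀ η - P₁ η / η - P₂ η / η ^ 2) - (H η - Q₀ η - Q₁ η / η - Q₂ η / η ^ 2) := by ring
  simp only [e3]
  refine (norm_sub_le _ _).trans ?_
  rw [add_div]
  exact add_le_add e1 e2

theorem AEC_inv {η : ℂ} (h : 1 ≤ |η.re|) : ‖η⁻¹‖ ≤ |η.re|⁻¹ ∧ |η.re|⁻¹ ≤ 1 ∧ 0 < |η.re|⁻¹ := by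
  have hx : 0 < |η.re| := lt_of_lt_of_le one_pos h
  refine ⟨?_, inv_le_one_of_one_le₀ h, inv_pos.2 hx⟩
  rw [norm_inv]
  exact inv_anti₀ hx (Complex.abs_re_le_norm η)

theorem AE.mul {δ : ℝ} {F P₀ P₁ P₂ H Q₀ Q₁ Q₂ : ℂ → ℂ} (hF : AE δ F P₀ P₁ P₂)
    (hH : AE δ H Q₀ Q₁ Q₂) : AE δ (fun η => F η * H η) (fun η => P₀ η * Q₀ η)
      (fun η => P₀ η * Q₁ η + P₁ η * Q₀ η)
      (fun η => P₀ η * Q₂ η + P₁ η * Q₁ η + P₂ η * Q₀ η) := by
  have h0 := hF.1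
  have h1 := hF.2.1
  have h2 := hF.2.2.1
  have k0 := hH.1
  have k1 := hH.2.1
  have k2 := hH.2.2.1
  obtain ⟨C, R, B, hC0, hR, hB, hC, hBB⟩ := AEC_data hF
  obtain ⟨C', R', B', hC0', hR', hB', hC', hBB'⟩ := AEC_data hH
  refine ⟨h0.mul k0, (h0.mul k1).add (h1.mul k0), ((h0.mul k2).add (h1.mul k1)).add (h2.mul k0),
    3 * (B * B') + C * (3 * B' + C') + (3 * B) * C', max R R',
    lt_of_lt_of_le (lt_of_lt_of_le one_pos hR) (le_max_left _ _), ?_⟩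
  intro η hη hr
  have e1 := hC η hη ((le_max_left _ _).trans hr)
  have e2 := hC' η hη ((le_max_right _ _).trans hr)
  obtain ⟨p0, p1, p2⟩ := hBB η hη
  obtain ⟨q0, q1, q2⟩ := hBB' η hη
  have hx1 : 1 ≤ |η.re| := (hR.trans (le_max_left _ _)).trans hr
  obtain ⟨i1, i2, i3⟩ := AEC_inv hx1
  have hη0 : η ≠ 0 := by
    rintro rfl
    simp at hx1
    linarith
  set x := |η.re|⁻¹ with hx
  set r := F η - P₀ η - P₁ η / η - P₂ η / η ^ 2 with hrdef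
  set s := H η - Q₀ η - Q₁ η / η - Q₂ η / η ^ 2 with hsdef
  have hdiv : ∀ c : ℝ, c / |η.re| ^ 3 = c * x ^ 3 := by
    intro c
    rw [hx, inv_pow, div_eq_mul_inv]
  rw [hdiv] at e1 e2 ⊢
  set u := η⁻¹ with hu
  have hrr : F η = P₀ η + P₁ η * u + P₂ η * u ^ 2 + r := by
    rw [hrdef, hu, div_eq_mul_inv, div_eq_mul_inv, inv_pow]
    ring
  have hss : H η = Q₀ η + Q₁ η * u + Q₂ η * u ^ 2 + s := by
    rw [hsdef, hu, div_eq_mul_inv, div_eq_mul_inv, inv_pow]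
    ring
  have hall : F η * H η - P₀ η * Q₀ η - (P₀ η * Q₁ η + P₁ η * Q₀ η) / η -
      (P₀ η * Q₂ η + P₁ η * Q₁ η + P₂ η * Q₀ η) / η ^ 2 =
      ((P₁ η * Q₂ η + P₂ η * Q₁ η) * u ^ 3 + P₂ η * Q₂ η * u ^ 4) +
      r * (Q₀ η + Q₁ η * u + Q₂ η * u ^ 2 + s) +
      (P₀ η + P₁ η * u + P₂ η * u ^ 2) * s := by
    rw [div_eq_mul_inv, div_eq_mul_inv, ← inv_pow, ← hu, hrr, hss]
    ring
  simp only [hall]
  have hu1 : ‖u‖ ≤ 1 := i1.trans i2
  have hu0 : 0 ≤ ‖u‖ := norm_nonneg _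
  have hux : ‖u‖ ≤ x := i1
  have hx0 : 0 ≤ x := i3.le
  have hx3 : x ^ 3 ≤ 1 := pow_le_one₀ hx0 i2
  have hx3' : 0 ≤ x ^ 3 := pow_nonneg hx0 3
  have n1 : ‖(P₁ η * Q₂ η + P₂ η * Q₁ η) * u ^ 3 + P₂ η * Q₂ η * u ^ 4‖ ≤ 3 * (B * B') * x ^ 3 := by
    have t3 : ‖u‖ ^ 3 ≤ x ^ 3 := pow_le_pow_left₀ hu0 hux 3
    have t4 : ‖u‖ ^ 4 ≤ x ^ 3 := by
      calc ‖u‖ ^ 4 = ‖u‖ * ‖u‖ ^ 3 := by ring
        _ ≤ 1 * x ^ 3 := mul_le_mul hu1 t3 (by positivity) zero_le_one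
        _ = x ^ 3 := one_mul _
    calc _ ≤ ‖(P₁ η * Q₂ η + P₂ η * Q₁ η) * u ^ 3‖ + ‖P₂ η * Q₂ η * u ^ 4‖ := norm_add_le _ _
      _ ≤ (B * B' + B * B') * x ^ 3 + (B * B') * x ^ 3 := by
        rw [norm_mul, norm_mul, norm_pow, norm_pow, norm_mul]
        refine add_le_add (mul_le_mul ((norm_add_le _ _).trans ?_) t3 (by positivity) (by positivity))
          (mul_le_mul (mul_le_mul p2 q2 (norm_nonneg _) hB) t4 (by positivity) (by positivity))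
        rw [norm_mul, norm_mul]
        exact add_le_add (mul_le_mul p1 q2 (norm_nonneg _) hB) (mul_le_mul p2 q1 (norm_nonneg _) hB)
      _ = _ := by ring
  have n0 : ∀ {a b c : ℂ} {K : ℝ}, ‖a‖ ≤ K → ‖b‖ ≤ K → ‖c‖ ≤ K → ‖a + b * u + c * u ^ 2‖ ≤ 3 * K := by
    intro a b c K ha hb hc
    have hK : 0 ≤ K := (norm_nonneg _).trans ha
    calc _ ≤ ‖a‖ + ‖b * u‖ + ‖c * u ^ 2‖ := norm_add₃_le
      _ ≤ K + K * 1 + K * 1 := by
        rw [norm_mul, norm_mul, norm_pow]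
        refine add_le_add (add_le_add ha (mul_le_mul hb hu1 hu0 hK))
          (mul_le_mul hc (pow_le_one₀ hu0 hu1) (by positivity) hK)
      _ = _ := by ring
  have n2 : ‖r * (Q₀ η + Q₁ η * u + Q₂ η * u ^ 2 + s)‖ ≤ C * (3 * B' + C') * x ^ 3 := by
    rw [norm_mul]
    have : ‖Q₀ η + Q₁ η * u + Q₂ η * u ^ 2 + s‖ ≤ 3 * B' + C' := by
      refine (norm_add_le _ _).trans (add_le_add (n0 q0 q1 q2) (e2.trans ?_))
      nlinarith
    calc ‖r‖ * ‖Q₀ η + Q₁ η * u + Q₂ η * u ^ 2 + s‖ ≤ (C * x ^ 3) * (3 * B' + C') :=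
          mul_le_mul e1 this (norm_nonneg _) (by positivity)
      _ = _ := by ring
  have n3 : ‖(P₀ η + P₁ η * u + P₂ η * u ^ 2) * s‖ ≤ (3 * B) * C' * x ^ 3 := by
    rw [norm_mul]
    calc _ ≤ (3 * B) * (C' * x ^ 3) := mul_le_mul (n0 p0 p1 p2) e2 (norm_nonneg _) (by positivity)
      _ = _ := by ring
  calc _ ≤ _ := norm_add₃_le
    _ ≤ 3 * (B * B') * x ^ 3 + C * (3 * B' + C') * x ^ 3 + (3 * B) * C' * x ^ 3 :=
      add_le_add (add_le_add n1 n2) n3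
    _ = _ := by ring

theorem AE.const (δ : ℝ) (c : ℂ) : AE δ (fun _ => c) (fun _ => c) (fun _ => 0) (fun _ => 0) := by
  refine ⟨EP.const c, EP.const 0, EP.const 0, 0, 1, one_pos, ?_⟩
  intro η _ _
  simp

/-- differentiation (Cauchy estimates in the strip) -/
theorem AE.deriv {δ δ' : ℝ} (h0 : 0 ≤ δ') (hδ : δ' < δ) {F P₀ P₁ P₂ : ℂ → ℂ}
    (hF : AE δ F P₀ P₁ P₂) (hd : DifferentiableOn ℂ F {η : ℂ | |η.im| < δ}) :
    AE δ' (deriv F) (deriv P₀) (deriv P₁) (fun η => deriv P₂ η - P₁ η) := by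
  have e0 := hF.1
  have e1 := hF.2.1
  have e2 := hF.2.2.1
  obtain ⟨C, R, B, hC0, hR, hB, hC, hBB⟩ := AEC_data hF
  refine ⟨e0.deriv, e1.deriv, e2.deriv.sub e1, ?_⟩
  set ρ := (δ - δ') / 2 with hρ
  have hρ0 : 0 < ρ := by rw [hρ]; linarith
  refine ⟨8 * C / ρ + 2 * B, R + 2 * ρ, by linarith, ?_⟩
  intro η hη hr
  have hx1 : 1 ≤ |η.re| := by linarith
  have hx0 : 0 < |η.re| := by linarith
  have hη0 : η ≠ 0 := by
    rintro rfl
    simp at hx1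
    linarith
  set r : ℂ → ℂ := fun η => F η - P₀ η - P₁ η / η - P₂ η / η ^ 2 with hrdef
  -- points of the ball
  have hball : ∀ z ∈ Metric.closedBall η ρ, |z.im| < δ ∧ |η.re| / 2 ≤ |z.re| ∧ R ≤ |z.re| := by
    intro z hz
    rw [Metric.mem_closedBall, dist_eq_norm] at hz
    have a1 : |(z - η).im| ≤ ρ := (Complex.abs_im_le_norm _).trans hz
    have a2 : |(z - η).re| ≤ ρ := (Complex.abs_re_le_norm _).trans hz
    rw [Complex.sub_im] at a1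
    rw [Complex.sub_re] at a2
    have a3 : |z.im| ≤ |η.im| + ρ := by
      have := abs_add_le (z.im - η.im) η.im
      rw [sub_add_cancel] at this
      linarith
    have a4 : |η.re| ≤ |z.re| + ρ := by
      have := abs_add_le (η.re - z.re) z.re
      rw [sub_add_cancel, abs_sub_comm] at this
      linarith
    refine ⟨by linarith, by linarith, by linarith⟩
  have hne : ∀ z ∈ Metric.closedBall η ρ, z ≠ 0 := by
    rintro z hz rfl
    have := (hball 0 hz).2.2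
    simp at this
    linarith
  have hFd : ∀ z ∈ Metric.closedBall η ρ, DifferentiableAt ℂ F z := by
    intro z hz
    refine hd.differentiableAt (IsOpen.mem_nhds ?_ (hball z hz).1)
    exact isOpen_lt (by fun_prop) continuous_const
  have hrd : ∀ z ∈ Metric.closedBall η ρ, DifferentiableAt ℂ r z := by
    intro z hz
    have hz0 := hne z hz
    have := (((hFd z hz).sub (e0.differentiable z)).sub
      ((e1.differentiable z).div differentiableAt_id hz0)).sub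
      ((e2.differentiable z).div (differentiableAt_id.pow 2) (pow_ne_zero 2 hz0))
    exact this
  have hcl : DiffContOnCl ℂ r (Metric.ball η ρ) := by
    refine DifferentiableOn.diffContOnCl ?_
    rw [closure_ball η hρ0.ne']
    exact fun z hz => (hrd z hz).differentiableWithinAt
  have hbound : ∀ z ∈ Metric.sphere η ρ, ‖r z‖ ≤ 8 * C / |η.re| ^ 3 := by
    intro z hz
    obtain ⟨b1, b2, b3⟩ := hball z (Metric.sphere_subset_closedBall hz)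
    refine (hC z b1.le b3).trans ?_
    have : |η.re| ^ 3 / 8 ≤ |z.re| ^ 3 := by
      calc |η.re| ^ 3 / 8 = (|η.re| / 2) ^ 3 := by ring
        _ ≤ _ := pow_le_pow_left₀ (by positivity) b2 3
    calc C / |z.re| ^ 3 ≤ C / (|η.re| ^ 3 / 8) := by gcongr
      _ = _ := by field_simp
  have hcau := Complex.norm_deriv_le_of_forall_mem_sphere_norm_le hρ0 hcl hbound
  have hmem : η ∈ Metric.closedBall η ρ := Metric.mem_closedBall_self hρ0.le
  have hder : _root_.deriv r η = _root_.deriv F η - _root_.deriv P₀ η - (_root_.deriv P₁ η * η - P₁ η) / η ^ 2 -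
      (_root_.deriv P₂ η * η ^ 2 - P₂ η * (2 * η)) / (η ^ 2) ^ 2 := by
    have d0 := (hFd η hmem).hasDerivAt
    have d1 := (e0.differentiable η).hasDerivAt
    have d2 := ((e1.differentiable η).hasDerivAt).div (hasDerivAt_id η) hη0
    have d3 := ((e2.differentiable η).hasDerivAt).div ((hasDerivAt_id η).pow 2)
      (pow_ne_zero 2 hη0)
    have := (((d0.sub d1).sub d2).sub d3).deriv
    refine Eq.trans ?_ (this.trans ?_)
    · rfl
    · simp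
  have hfin : _root_.deriv F η - _root_.deriv P₀ η - _root_.deriv P₁ η / η - (_root_.deriv P₂ η - P₁ η) / η ^ 2 =
      _root_.deriv r η - 2 * P₂ η / η ^ 3 := by
    rw [hder]
    field_simp
    ring
  simp only [hfin]
  obtain ⟨-, -, p2⟩ := hBB η (hη.trans hδ.le)
  have hlast : ‖2 * P₂ η / η ^ 3‖ ≤ 2 * B / |η.re| ^ 3 := by
    rw [norm_div, norm_mul, norm_pow]
    have : ‖(2 : ℂ)‖ = 2 := by simp
    rw [this]
    have h3 : |η.re| ≤ ‖η‖ := Complex.abs_re_le_norm η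
    gcongr
  calc _ ≤ _ := norm_sub_le _ _
    _ ≤ 8 * C / |η.re| ^ 3 / ρ + 2 * B / |η.re| ^ 3 := add_le_add hcau hlast
    _ = _ := by
      field_simp

theorem AEC_tendsto_of {f : ℝ → ℂ} {K R : ℝ} (h : ∀ x : ℝ, R ≤ x → ‖f x‖ ≤ K / x) :
    Tendsto f atTop (𝓝 0) := by
  rw [tendsto_zero_iff_norm_tendsto_zero]
  have hK : Tendsto (fun x : ℝ => K / x) atTop (𝓝 0) := tendsto_const_nhds.div_atTop tendsto_id
  refine squeeze_zero' (Eventually.of_forall fun _ => norm_nonneg _) ?_ hK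
  filter_upwards [eventually_ge_atTop R] with x hx using h x hx

/-- uniqueness of the coefficients -/
theorem AE.unique {δ : ℝ} (hδ : 0 ≤ δ) {P₀ P₁ P₂ Q₀ Q₁ Q₂ F : ℂ → ℂ} (h : AE δ F P₀ P₁ P₂)
    (h' : AE δ F Q₀ Q₁ Q₂) : P₀ = Q₀ ∧ P₁ = Q₁ ∧ P₂ = Q₂ := by
  have a0 := h.1
  have a1 := h.2.1
  have a2 := h.2.2.1
  have b0 := h'.1
  have b1 := h'.2.1
  have b2 := h'.2.2.1
  obtain ⟨C, R, B, hC0, hR, hB, hC, hBB⟩ := AEC_data h
  obtain ⟨C', R', B', hC0', hR', hB', hC', hBB'⟩ := AEC_data h'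
  -- the difference
  have hdiff : ∀ x : ℝ, max R R' ≤ x → ‖(P₀ x - Q₀ x) + (P₁ x - Q₁ x) / x +
      (P₂ x - Q₂ x) / (x : ℂ) ^ 2‖ ≤ (C + C') / x ^ 3 := by
    intro x hx
    have hx1 : 1 ≤ x := (hR.trans (le_max_left _ _)).trans hx
    have hx0 : 0 < x := by linarith
    have habs : |(x : ℂ).re| = x := by rw [Complex.ofReal_re, abs_of_pos hx0]
    have him : |(x : ℂ).im| ≤ δ := by simpa using hδ
    have t1 := hC x him (by rw [habs]; exact (le_max_left _ _).trans hx)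
    have t2 := hC' x him (by rw [habs]; exact (le_max_right _ _).trans hx)
    rw [habs] at t1 t2
    have : (P₀ x - Q₀ x) + (P₁ x - Q₁ x) / x + (P₂ x - Q₂ x) / (x : ℂ) ^ 2 =
      (F x - Q₀ x - Q₁ x / x - Q₂ x / (x : ℂ) ^ 2) - (F x - P₀ x - P₁ x / x - P₂ x / (x : ℂ) ^ 2) := by
      ring
    rw [this, add_comm C C', add_div]
    exact (norm_sub_le _ _).trans (add_le_add t2 t1)
  have hbd : ∀ x : ℝ, ‖P₀ x - Q₀ x‖ ≤ B + B' ∧ ‖P₁ x - Q₁ x‖ ≤ B + B' ∧ ‖P₂ x - Q₂ x‖ ≤ B + B' := by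
    intro x
    have him : |(x : ℂ).im| ≤ δ := by simpa using hδ
    obtain ⟨u0, u1, u2⟩ := hBB x him
    obtain ⟨v0, v1, v2⟩ := hBB' x him
    exact ⟨(norm_sub_le _ _).trans (add_le_add u0 v0), (norm_sub_le _ _).trans (add_le_add u1 v1),
      (norm_sub_le _ _).trans (add_le_add u2 v2)⟩
  -- step 0
  have s0 : (fun η => P₀ η - Q₀ η) = fun _ => 0 := by
    refine (a0.sub b0).eq_zero_of_tendsto (AEC_tendsto_of (K := (C + C') + 2 * (B + B')) (R := max R R') ?_)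
    intro x hx
    have hx1 : 1 ≤ x := (hR.trans (le_max_left _ _)).trans hx
    have hx0 : 0 < x := by linarith
    obtain ⟨w0, w1, w2⟩ := hbd x
    have hn : ‖(x : ℂ)‖ = x := by rw [Complex.norm_real, Real.norm_eq_abs, abs_of_pos hx0]
    have e : P₀ (x : ℂ) - Q₀ x = ((P₀ x - Q₀ x) + (P₁ x - Q₁ x) / x +
      (P₂ x - Q₂ x) / (x : ℂ) ^ 2) - (P₁ x - Q₁ x) / x - (P₂ x - Q₂ x) / (x : ℂ) ^ 2 := by ring
    rw [e]
    have g1 : ‖(P₁ x - Q₁ x) / (x : ℂ)‖ ≤ (B + B') / x := by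
      rw [norm_div, hn]; gcongr
    have g2 : ‖(P₂ x - Q₂ x) / (x : ℂ) ^ 2‖ ≤ (B + B') / x := by
      rw [norm_div, norm_pow, hn]
      calc _ ≤ (B + B') / x ^ 2 := by gcongr
        _ ≤ (B + B') / x := by
          gcongr
          nlinarith
    have g3 : (C + C') / x ^ 3 ≤ (C + C') / x := by
      gcongr
      nlinarith [pow_le_pow_right₀ hx1 (show 1 ≤ 3 by norm_num)]
    calc _ ≤ _ := norm_sub_le _ _
      _ ≤ _ := add_le_add (norm_sub_le _ _) le_rfl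
      _ ≤ (C + C') / x + (B + B') / x + (B + B') / x :=
        add_le_add (add_le_add ((hdiff x hx).trans g3) g1) g2
      _ = _ := by ring
  have s0' : ∀ x : ℂ, P₀ x - Q₀ x = 0 := fun x => congrFun s0 x
  have s1 : (fun η => P₁ η - Q₁ η) = fun _ => 0 := by
    refine (a1.sub b1).eq_zero_of_tendsto (AEC_tendsto_of (K := (C + C') + (B + B')) (R := max R R') ?_)
    intro x hx
    have hx1 : 1 ≤ x := (hR.trans (le_max_left _ _)).trans hx
    have hx0 : 0 < x := by linarith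
    have hxc : (x : ℂ) ≠ 0 := by exact_mod_cast hx0.ne'
    obtain ⟨w0, w1, w2⟩ := hbd x
    have hn : ‖(x : ℂ)‖ = x := by rw [Complex.norm_real, Real.norm_eq_abs, abs_of_pos hx0]
    have e : P₁ (x : ℂ) - Q₁ x = x * ((P₀ x - Q₀ x) + (P₁ x - Q₁ x) / x +
      (P₂ x - Q₂ x) / (x : ℂ) ^ 2) - (P₂ x - Q₂ x) / (x : ℂ) := by
      rw [s0' x]
      field_simp
      ring
    rw [e]
    have g2 : ‖(P₂ x - Q₂ x) / (x : ℂ)‖ ≤ (B + B') / x := by
      rw [norm_div, hn]; gcongr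
    have g3 : ‖(x : ℂ) * ((P₀ x - Q₀ x) + (P₁ x - Q₁ x) / x +
      (P₂ x - Q₂ x) / (x : ℂ) ^ 2)‖ ≤ (C + C') / x := by
      rw [norm_mul, hn]
      calc _ ≤ x * ((C + C') / x ^ 3) := by gcongr; exact hdiff x hx
        _ = (C + C') / x ^ 2 := by field_simp
        _ ≤ (C + C') / x := by
          gcongr
          nlinarith
    calc _ ≤ _ := norm_sub_le _ _
      _ ≤ (C + C') / x + (B + B') / x := add_le_add g3 g2
      _ = _ := by ring
  have s1' : ∀ x : ℂ, P₁ x - Q₁ x = 0 := fun x => congrFun s1 x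
  have s2 : (fun η => P₂ η - Q₂ η) = fun _ => 0 := by
    refine (a2.sub b2).eq_zero_of_tendsto (AEC_tendsto_of (K := (C + C')) (R := max R R') ?_)
    intro x hx
    have hx1 : 1 ≤ x := (hR.trans (le_max_left _ _)).trans hx
    have hx0 : 0 < x := by linarith
    have hxc : (x : ℂ) ≠ 0 := by exact_mod_cast hx0.ne'
    have hn : ‖(x : ℂ)‖ = x := by rw [Complex.norm_real, Real.norm_eq_abs, abs_of_pos hx0]
    have e : P₂ (x : ℂ) - Q₂ x = (x : ℂ) ^ 2 * ((P₀ x - Q₀ x) + (P₁ x - Q₁ x) / x +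
      (P₂ x - Q₂ x) / (x : ℂ) ^ 2) := by
      rw [s0' x, s1' x]
      field_simp
      ring
    rw [e, norm_mul, norm_pow, hn]
    calc _ ≤ x ^ 2 * ((C + C') / x ^ 3) := by gcongr; exact hdiff x hx
      _ = (C + C') / x := by field_simp
  have s2' : ∀ x : ℂ, P₂ x - Q₂ x = 0 := fun x => congrFun s2 x
  exact ⟨funext fun x => sub_eq_zero.1 (s0' x), funext fun x => sub_eq_zero.1 (s1' x),
    funext fun x => sub_eq_zero.1 (s2' x)⟩

/-- two functions which agree on the strip have the same expansions -/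
theorem AE.congr {δ : ℝ} {F H P₀ P₁ P₂ : ℂ → ℂ} (h : AE δ F P₀ P₁ P₂)
    (he : ∀ η : ℂ, |η.im| ≤ δ → F η = H η) : AE δ H P₀ P₁ P₂ := by
  obtain ⟨h0, h1, h2, C, R, hR, hC⟩ := h
  refine ⟨h0, h1, h2, C, R, hR, ?_⟩
  intro η hη hr
  rw [← he η hη]
  exact hC η hη hr

theorem AE.strip {δ δ' : ℝ} (hδ : δ' ≤ δ) {F P₀ P₁ P₂ : ℂ → ℂ} (h : AE δ F P₀ P₁ P₂) :
    AE δ' F P₀ P₁ P₂ := by
  obtain ⟨h0, h1, h2, C, R, hR, hC⟩ := h
  exact ⟨h0, h1, h2, C, R, hR, fun η hη hr => hC η (hη.trans hδ) hr⟩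

end Pool.Agent.H5.DF
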