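import Pool.Agent.H5.DF.Defs
import Pool.Agent.H5.DF.Aec

set_option autoImplicit false
open MeasureTheory Set Filter Topology
open scoped ENNReal NNReal FourierTransform

namespace Pool.Agent.H5.DF

/-!
Part AEE. Expansions of the entries of `E τ μ`, `μ ≠ 0`.
For `|re η|` large and `|im η| ≤ δ`: `ω = om μ η` is `± η sqrt(1 + μ²/η²)`, and `cos(τω)`, `sin(τω)/ω` are
even in `ω`; with `ω̃ = η sqrt(1+μ²/η²) = η + μ²/(2η) + O(η⁻³)`: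
`cos(τω̃) = cos(τη) - (τμ²/(2η)) sin(τη) - (τμ²)²/(8η²) cos(τη) + O(η⁻³)`,
`η sin(τω̃)/ω̃ = sin(τη) + (τμ²/(2η)) cos(τη) + O(η⁻²)-terms`, `sin(τω̃)/ω̃ = sin(τη)/η + …`.
Only the first order coefficients are needed explicitly.
-/

theorem aee_mk {δ : ℝ} {F P₀ P₁ P₂ : ℂ → ℂ} (h0 : EP P₀) (h1 : EP P₁) (h2 : EP P₂) {C R : ℝ}
    (hC : 0 ≤ C) (hR : 0 < R)
    (h : ∀ η : ℂ, R ≤ ‖η‖ → ‖F η - P₀ η - P₁ η / η - P₂ η / η ^ 2‖ ≤ C / ‖η‖ ^ 3) :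
    AE δ F P₀ P₁ P₂ := by
  refine ⟨h0, h1, h2, C, R, hR, fun η _ hη => ?_⟩
  have h3 : |η.re| ≤ ‖η‖ := Complex.abs_re_le_norm η
  refine (h η (hη.trans h3)).trans ?_
  have h4 : 0 < |η.re| := lt_of_lt_of_le hR hη
  gcongr

theorem aee_congr {δ : ℝ} {F H P₀ P₁ P₂ Q₀ Q₁ : ℂ → ℂ} (h : AE δ F P₀ P₁ P₂)
    (he : ∀ η : ℂ, η ≠ 0 → F η = H η) (h0 : ∀ η, P₀ η = Q₀ η) (h1 : ∀ η, P₁ η = Q₁ η) :
    AE δ H Q₀ Q₁ P₂ := by
  obtain rfl : P₀ = Q₀ := funext h0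
  obtain rfl : P₁ = Q₁ := funext h1
  obtain ⟨a, b, c, C, R, hR, hb⟩ := h
  refine ⟨a, b, c, C, R, hR, fun η h1 h2 => ?_⟩
  have hη : η ≠ 0 := by
    rintro rfl
    simp at h2
    linarith
  rw [← he η hη]
  exact hb η h1 h2

theorem aee_om_sq (μ : ℝ) (η : ℂ) : om μ η ^ 2 = η ^ 2 + (μ : ℂ) ^ 2 := by
  unfold om
  have := Complex.cpow_nat_inv_pow (η ^ 2 + (μ : ℂ) ^ 2) (n := 2) two_ne_zero
  simp [one_div]

/-- the root close to `η` -/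
noncomputable def aeeW (μ : ℝ) (η : ℂ) : ℂ :=
  if ‖om μ η - η‖ ≤ μ ^ 2 / ‖η‖ then om μ η else -om μ η

theorem aeeW_cases (μ : ℝ) (η : ℂ) : aeeW μ η = om μ η ∨ aeeW μ η = -om μ η := by
  unfold aeeW
  split_ifs
  · exact Or.inl rfl
  · exact Or.inr rfl

theorem aeeW_sq (μ : ℝ) (η : ℂ) : aeeW μ η ^ 2 = η ^ 2 + (μ : ℂ) ^ 2 := by
  rcases aeeW_cases μ η with h | h
  · rw [h, aee_om_sq]
  · rw [h, neg_sq, aee_om_sq]

theorem aeeW_near (μ : ℝ) {η : ℂ} (hη : η ≠ 0) : ‖aeeW μ η - η‖ ≤ μ ^ 2 / ‖η‖ := by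
  unfold aeeW
  split_ifs with h
  · exact h
  · push Not at h
    by_contra h2
    push Not at h2
    have hr : 0 < ‖η‖ := norm_pos_iff.mpr hη
    set b := μ ^ 2 / ‖η‖ with hb
    have hb0 : 0 ≤ b := by positivity
    have hbr : b * ‖η‖ = μ ^ 2 := by rw [hb]; field_simp
    have h3 : ‖om μ η - η‖ * ‖-om μ η - η‖ = μ ^ 2 := by
      rw [← norm_mul]
      have : (om μ η - η) * (-om μ η - η) = -((μ ^ 2 : ℝ) : ℂ) := by
        have := aee_om_sq μ η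
        push_cast
        linear_combination -this
      rw [this, norm_neg, Complex.norm_real, Real.norm_eq_abs, abs_of_nonneg (sq_nonneg μ)]
    have h4 : 2 * ‖η‖ ≤ ‖om μ η - η‖ + ‖-om μ η - η‖ := by
      have : (2 : ℂ) * η = -((om μ η - η) + (-om μ η - η)) := by ring
      have h5 : ‖(2 : ℂ) * η‖ ≤ ‖om μ η - η‖ + ‖-om μ η - η‖ := by
        rw [this, norm_neg]
        exact norm_add_le _ _
      simpa using h5
    rcases le_total ‖η‖ ‖om μ η - η‖ with h5 | h5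
    · nlinarith
    · have h6 : ‖η‖ ≤ ‖-om μ η - η‖ := by linarith
      nlinarith

/-- `d = w - η` -/
noncomputable def aeeD (μ : ℝ) (η : ℂ) : ℂ := aeeW μ η - η

theorem aeeD_eq (μ : ℝ) (η : ℂ) : aeeD μ η * (2 * η + aeeD μ η) = (μ : ℂ) ^ 2 := by
  have := aeeW_sq μ η
  unfold aeeD
  linear_combination this

theorem aeeD_bound (μ : ℝ) {η : ℂ} (hη : η ≠ 0) : ‖aeeD μ η‖ ≤ μ ^ 2 / ‖η‖ := aeeW_near μ hη

theorem aeeD_first (μ : ℝ) {η : ℂ} (hη : η ≠ 0) :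
    ‖aeeD μ η - (μ : ℂ) ^ 2 / (2 * η)‖ ≤ μ ^ 4 / ‖η‖ ^ 3 := by
  have h1 : aeeD μ η - (μ : ℂ) ^ 2 / (2 * η) = -(aeeD μ η ^ 2 / (2 * η)) := by
    have := aeeD_eq μ η
    field_simp
    linear_combination this
  have hr : 0 < ‖η‖ := norm_pos_iff.mpr hη
  rw [h1, norm_neg, norm_div, norm_pow, norm_mul]
  have h2 : ‖(2 : ℂ)‖ = 2 := by simp
  rw [h2]
  have h3 := aeeD_bound μ hη
  have h4 : ‖aeeD μ η‖ ^ 2 ≤ (μ ^ 2 / ‖η‖) ^ 2 := by gcongr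
  calc ‖aeeD μ η‖ ^ 2 / (2 * ‖η‖) ≤ (μ ^ 2 / ‖η‖) ^ 2 / (2 * ‖η‖) := by gcongr
    _ = (μ ^ 4 / ‖η‖ ^ 3) / 2 := by field_simp
    _ ≤ μ ^ 4 / ‖η‖ ^ 3 := by
        have : 0 ≤ μ ^ 4 / ‖η‖ ^ 3 := by positivity
        linarith

theorem aee_exp3 {x : ℂ} (hx : ‖x‖ ≤ 1) : ‖Complex.exp x - (1 + x + x ^ 2 / 2)‖ ≤ ‖x‖ ^ 3 := by
  have h := Complex.exp_bound hx (n := 3) (by norm_num)
  have h1 : ∑ m ∈ Finset.range 3, x ^ m / (m.factorial : ℂ) = 1 + x + x ^ 2 / 2 := by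
    simp [Finset.sum_range_succ, Nat.factorial]
  rw [h1] at h
  refine h.trans ?_
  have h2 : 0 ≤ ‖x‖ ^ 3 := by positivity
  have h3 : (((Nat.succ 3 : ℕ) : ℝ) * ((Nat.factorial 3 : ℕ) * ((3 : ℕ) : ℝ))⁻¹) ≤ 1 := by
    norm_num [Nat.factorial]
  exact mul_le_of_le_one_right h2 h3

theorem aee_cos {x : ℂ} (hx : ‖x‖ ≤ 1) : ‖Complex.cos x - (1 - x ^ 2 / 2)‖ ≤ ‖x‖ ^ 3 := by
  have h1 := aee_exp3 (x := x * Complex.I) (by simpa using hx)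
  have h2 := aee_exp3 (x := -x * Complex.I) (by simpa using hx)
  have e1 : ‖x * Complex.I‖ = ‖x‖ := by simp
  have e2 : ‖-x * Complex.I‖ = ‖x‖ := by simp
  rw [e1] at h1
  rw [e2] at h2
  have h3 : Complex.cos x - (1 - x ^ 2 / 2) =
      ((Complex.exp (x * Complex.I) - (1 + x * Complex.I + (x * Complex.I) ^ 2 / 2)) +
        (Complex.exp (-x * Complex.I) - (1 + -x * Complex.I + (-x * Complex.I) ^ 2 / 2))) / 2 := by
    rw [Complex.cos]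
    linear_combination (x ^ 2 / 2) * Complex.I_sq
  rw [h3, norm_div]
  have h4 := norm_add_le (Complex.exp (x * Complex.I) - (1 + x * Complex.I + (x * Complex.I) ^ 2 / 2))
    (Complex.exp (-x * Complex.I) - (1 + -x * Complex.I + (-x * Complex.I) ^ 2 / 2))
  have h5 : ‖(2 : ℂ)‖ = 2 := by simp
  rw [h5]
  linarith

theorem aee_sin {x : ℂ} (hx : ‖x‖ ≤ 1) : ‖Complex.sin x - x‖ ≤ ‖x‖ ^ 3 := by
  have h1 := aee_exp3 (x := x * Complex.I) (by simpa using hx)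
  have h2 := aee_exp3 (x := -x * Complex.I) (by simpa using hx)
  have e1 : ‖x * Complex.I‖ = ‖x‖ := by simp
  have e2 : ‖-x * Complex.I‖ = ‖x‖ := by simp
  rw [e1] at h1
  rw [e2] at h2
  have h3 : Complex.sin x - x =
      ((Complex.exp (-x * Complex.I) - (1 + -x * Complex.I + (-x * Complex.I) ^ 2 / 2)) -
        (Complex.exp (x * Complex.I) - (1 + x * Complex.I + (x * Complex.I) ^ 2 / 2))) * Complex.I / 2 := by
    rw [Complex.sin]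
    linear_combination (-x) * Complex.I_sq
  rw [h3, norm_div, norm_mul, Complex.norm_I, mul_one]
  have h4 := norm_sub_le (Complex.exp (-x * Complex.I) - (1 + -x * Complex.I + (-x * Complex.I) ^ 2 / 2))
    (Complex.exp (x * Complex.I) - (1 + x * Complex.I + (x * Complex.I) ^ 2 / 2))
  have h5 : ‖(2 : ℂ)‖ = 2 := by simp
  rw [h5]
  linarith

/-- radius -/
noncomputable def aeeR (τ μ : ℝ) : ℝ := 1 + |τ| * μ ^ 2 + 2 * μ ^ 2

theorem aeeR_pos (τ μ : ℝ) : 1 ≤ aeeR τ μ := by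
  unfold aeeR
  have : 0 ≤ |τ| * μ ^ 2 := by positivity
  have : 0 ≤ 2 * μ ^ 2 := by positivity
  linarith

theorem aee_x_le {τ μ : ℝ} {η : ℂ} (h : aeeR τ μ ≤ ‖η‖) :
    ‖(τ : ℂ) * aeeD μ η‖ ≤ |τ| * μ ^ 2 / ‖η‖ := by
  have h1 := aeeR_pos τ μ
  have hη : η ≠ 0 := by
    rintro rfl
    simp at h
    linarith
  rw [norm_mul, Complex.norm_real, Real.norm_eq_abs, mul_div_assoc]
  gcongr
  exact aeeD_bound μ hη

theorem aee_x_one {τ μ : ℝ} {η : ℂ} (h : aeeR τ μ ≤ ‖η‖) : ‖(τ : ℂ) * aeeD μ η‖ ≤ 1 := by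
  refine (aee_x_le h).trans ?_
  have h1 := aeeR_pos τ μ
  rw [div_le_one (by linarith)]
  unfold aeeR at h
  have : 0 ≤ 2 * μ ^ 2 := by positivity
  linarith

theorem aee_AE_cosd (τ μ δ : ℝ) : AE δ (fun η => Complex.cos (τ * aeeD μ η)) (fun _ => 1)
    (fun _ => 0) (fun _ => -((τ : ℂ) ^ 2 * (μ : ℂ) ^ 4 / 8)) := by
  refine aee_mk (EP.const _) (EP.const _) (EP.const _)
    (C := (|τ| * μ ^ 2) ^ 3 + τ ^ 2 * μ ^ 6) (R := aeeR τ μ) (by positivity)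
    (by linarith [aeeR_pos τ μ]) ?_
  intro η h
  have hR := aeeR_pos τ μ
  have hη : η ≠ 0 := by
    rintro rfl
    simp at h
    linarith
  have hr1 : 1 ≤ ‖η‖ := hR.trans h
  have hr : 0 < ‖η‖ := by linarith
  have e1 := aee_cos (aee_x_one h)
  have e2 := aee_x_le h
  have e3 := aeeD_first μ hη
  have e4 := aeeD_bound μ hη
  have e5 : Complex.cos (τ * aeeD μ η) - 1 - 0 / η - -((τ : ℂ) ^ 2 * (μ : ℂ) ^ 4 / 8) / η ^ 2 =
      (Complex.cos (τ * aeeD μ η) - (1 - (τ * aeeD μ η) ^ 2 / 2)) +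
        (-((τ : ℂ) ^ 2 / 2)) * ((aeeD μ η - (μ : ℂ) ^ 2 / (2 * η)) * (aeeD μ η + (μ : ℂ) ^ 2 / (2 * η))) := by
    field_simp
    ring
  rw [e5]
  have e6 : ‖aeeD μ η + (μ : ℂ) ^ 2 / (2 * η)‖ ≤ 2 * (μ ^ 2 / ‖η‖) := by
    refine (norm_add_le _ _).trans ?_
    have : ‖(μ : ℂ) ^ 2 / (2 * η)‖ ≤ μ ^ 2 / ‖η‖ := by
      rw [norm_div, norm_pow, norm_mul, Complex.norm_real, Real.norm_eq_abs, sq_abs]
      have h5 : ‖(2 : ℂ)‖ = 2 := by simp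
      rw [h5]
      gcongr
      linarith
    linarith
  have e7 : ‖(-((τ : ℂ) ^ 2 / 2)) * ((aeeD μ η - (μ : ℂ) ^ 2 / (2 * η)) *
      (aeeD μ η + (μ : ℂ) ^ 2 / (2 * η)))‖ ≤ τ ^ 2 * μ ^ 6 / ‖η‖ ^ 3 := by
    rw [norm_mul, norm_mul, norm_neg, norm_div, norm_pow, Complex.norm_real, Real.norm_eq_abs, sq_abs]
    have h5 : ‖(2 : ℂ)‖ = 2 := by simp
    rw [h5]
    calc τ ^ 2 / 2 * (‖aeeD μ η - (μ : ℂ) ^ 2 / (2 * η)‖ * ‖aeeD μ η + (μ : ℂ) ^ 2 / (2 * η)‖)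
        ≤ τ ^ 2 / 2 * ((μ ^ 4 / ‖η‖ ^ 3) * (2 * (μ ^ 2 / ‖η‖))) := by gcongr
      _ = τ ^ 2 * μ ^ 6 / ‖η‖ ^ 3 * (1 / ‖η‖) := by field_simp
      _ ≤ τ ^ 2 * μ ^ 6 / ‖η‖ ^ 3 * 1 := by
          gcongr
          rw [div_le_one hr]
          exact hr1
      _ = τ ^ 2 * μ ^ 6 / ‖η‖ ^ 3 := mul_one _
  have e8 : ‖(τ : ℂ) * aeeD μ η‖ ^ 3 ≤ (|τ| * μ ^ 2) ^ 3 / ‖η‖ ^ 3 := by
    rw [← div_pow]
    gcongr
  refine (norm_add_le _ _).trans ?_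
  rw [add_div]
  linarith [e1, e7, e8]

theorem aee_AE_sind (τ μ δ : ℝ) : AE δ (fun η => Complex.sin (τ * aeeD μ η)) (fun _ => 0)
    (fun _ => (τ : ℂ) * (μ : ℂ) ^ 2 / 2) (fun _ => 0) := by
  refine aee_mk (EP.const _) (EP.const _) (EP.const _)
    (C := (|τ| * μ ^ 2) ^ 3 + |τ| * μ ^ 4) (R := aeeR τ μ) (by positivity)
    (by linarith [aeeR_pos τ μ]) ?_
  intro η h
  have hR := aeeR_pos τ μ
  have hη : η ≠ 0 := by
    rintro rfl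
    simp at h
    linarith
  have hr1 : 1 ≤ ‖η‖ := hR.trans h
  have hr : 0 < ‖η‖ := by linarith
  have e1 := aee_sin (aee_x_one h)
  have e2 := aee_x_le h
  have e3 := aeeD_first μ hη
  have e5 : Complex.sin (τ * aeeD μ η) - 0 - (τ : ℂ) * (μ : ℂ) ^ 2 / 2 / η - 0 / η ^ 2 =
      (Complex.sin (τ * aeeD μ η) - τ * aeeD μ η) +
        (τ : ℂ) * (aeeD μ η - (μ : ℂ) ^ 2 / (2 * η)) := by
    field_simp
    ring
  rw [e5]
  have e7 : ‖(τ : ℂ) * (aeeD μ η - (μ : ℂ) ^ 2 / (2 * η))‖ ≤ |τ| * μ ^ 4 / ‖η‖ ^ 3 := by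
    rw [norm_mul, Complex.norm_real, Real.norm_eq_abs, mul_div_assoc]
    gcongr
  have e8 : ‖(τ : ℂ) * aeeD μ η‖ ^ 3 ≤ (|τ| * μ ^ 2) ^ 3 / ‖η‖ ^ 3 := by
    rw [← div_pow]
    gcongr
  refine (norm_add_le _ _).trans ?_
  rw [add_div]
  linarith [e1, e7, e8]

theorem aee_AE_quot (μ δ : ℝ) : AE δ (fun η => η / aeeW μ η) (fun _ => 1)
    (fun _ => 0) (fun _ => -((μ : ℂ) ^ 2 / 2)) := by
  refine aee_mk (EP.const _) (EP.const _) (EP.const _)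
    (C := 4 * μ ^ 4) (R := aeeR 0 μ) (by positivity)
    (by linarith [aeeR_pos 0 μ]) ?_
  intro η h
  have hR := aeeR_pos 0 μ
  have hη : η ≠ 0 := by
    rintro rfl
    simp at h
    linarith
  have hr1 : 1 ≤ ‖η‖ := hR.trans h
  have hr : 0 < ‖η‖ := by linarith
  have e4 := aeeD_bound μ hη
  have hRμ : 2 * μ ^ 2 ≤ ‖η‖ := by
    unfold aeeR at h
    simp at h
    linarith
  have hd2 : ‖aeeD μ η‖ ≤ ‖η‖ / 2 := by
    refine e4.trans ?_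
    rw [div_le_iff₀ hr]
    nlinarith
  have hw : aeeW μ η = η + aeeD μ η := by unfold aeeD; ring
  have hwn : ‖η‖ / 2 ≤ ‖aeeW μ η‖ := by
    rw [hw]
    have := norm_sub_le (η + aeeD μ η) (aeeD μ η)
    rw [add_sub_cancel_right] at this
    linarith
  have hw0 : aeeW μ η ≠ 0 := by
    intro h0
    rw [h0, norm_zero] at hwn
    linarith
  have e5 : η / aeeW μ η - 1 - 0 / η - -((μ : ℂ) ^ 2 / 2) / η ^ 2 =
      aeeD μ η ^ 2 * (3 * η + aeeD μ η) / (2 * aeeW μ η * η ^ 2) := by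
    have h1 := aeeD_eq μ η
    rw [← h1]
    field_simp
    rw [hw]
    ring
  rw [e5, norm_div, norm_mul, norm_mul, norm_mul, norm_pow, norm_pow]
  have h5 : ‖(2 : ℂ)‖ = 2 := by simp
  rw [h5]
  have e6 : ‖3 * η + aeeD μ η‖ ≤ 4 * ‖η‖ := by
    refine (norm_add_le _ _).trans ?_
    rw [norm_mul]
    have : ‖(3 : ℂ)‖ = 3 := by simp
    rw [this]
    linarith
  calc ‖aeeD μ η‖ ^ 2 * ‖3 * η + aeeD μ η‖ / (2 * ‖aeeW μ η‖ * ‖η‖ ^ 2)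
      ≤ (μ ^ 2 / ‖η‖) ^ 2 * (4 * ‖η‖) / (2 * (‖η‖ / 2) * ‖η‖ ^ 2) := by gcongr
    _ = 4 * μ ^ 4 / ‖η‖ ^ 3 * (1 / ‖η‖) := by field_simp
    _ ≤ 4 * μ ^ 4 / ‖η‖ ^ 3 * 1 := by
        gcongr
        rw [div_le_one hr]
        exact hr1
    _ = 4 * μ ^ 4 / ‖η‖ ^ 3 := mul_one _

theorem aee_EP_exp (τ : ℝ) : EP (fun η => Complex.exp (-(Complex.I * τ * η))) := by
  have := EP.exp (-τ)
  convert this using 3
  push_cast
  ring

theorem aee_EP_cos (τ : ℝ) : EP (fun η => Complex.cos (τ * η)) := by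
  have h := (EP.const (1 / 2)).mul ((EP.exp τ).add (aee_EP_exp τ))
  convert h using 2 with η
  rw [Complex.cos]
  have e1 : (τ : ℂ) * η * Complex.I = Complex.I * τ * η := by ring
  have e2 : -((τ : ℂ) * η) * Complex.I = -(Complex.I * τ * η) := by ring
  rw [e1, e2]
  ring

theorem aee_EP_sin (τ : ℝ) : EP (fun η => Complex.sin (τ * η)) := by
  have h := (EP.const (Complex.I / 2)).mul ((aee_EP_exp τ).sub (EP.exp τ))
  convert h using 2 with η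
  rw [Complex.sin]
  have e1 : (τ : ℂ) * η * Complex.I = Complex.I * τ * η := by ring
  have e2 : -((τ : ℂ) * η) * Complex.I = -(Complex.I * τ * η) := by ring
  rw [e1, e2]
  ring

theorem aee_AE_EP {P : ℂ → ℂ} (hP : EP P) (δ : ℝ) : AE δ P P (fun _ => 0) (fun _ => 0) := by
  refine aee_mk hP (EP.const _) (EP.const _) (C := 0) (R := 1) le_rfl one_pos ?_
  intro η _
  simp

theorem aee_AE_inv (δ : ℝ) : AE δ (fun η => 1 / η) (fun _ => 0) (fun _ => 1) (fun _ => 0) := by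
  refine aee_mk (EP.const _) (EP.const _) (EP.const _) (C := 0) (R := 1) le_rfl one_pos ?_
  intro η _
  simp

theorem aee_cosW (τ μ : ℝ) (η : ℂ) : Complex.cos (τ * aeeW μ η) = Complex.cos (τ * om μ η) := by
  rcases aeeW_cases μ η with h | h
  · rw [h]
  · rw [h, mul_neg, Complex.cos_neg]

theorem aee_sinW (τ μ : ℝ) (η : ℂ) :
    Complex.sin (τ * aeeW μ η) / aeeW μ η = Complex.sin (τ * om μ η) / om μ η := by
  rcases aeeW_cases μ η with h | h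
  · rw [h]
  · rw [h, mul_neg, Complex.sin_neg, neg_div_neg_eq]

theorem aeeC (τ μ δ : ℝ) : ∃ P₂ : ℂ → ℂ, AE δ (fun η => Complex.cos (τ * om μ η))
    (fun η => Complex.cos (τ * η)) (fun η => -((τ : ℂ) * μ ^ 2 / 2) * Complex.sin (τ * η)) P₂ := by
  have hc := aee_AE_EP (aee_EP_cos τ) δ
  have hs := aee_AE_EP (aee_EP_sin τ) δ
  have h := (hc.mul (aee_AE_cosd τ μ δ)).sub (hs.mul (aee_AE_sind τ μ δ))
  refine ⟨_, aee_congr h ?_ ?_ ?_⟩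
  · intro η _
    rw [← aee_cosW]
    have : (τ : ℂ) * aeeW μ η = τ * η + τ * aeeD μ η := by unfold aeeD; ring
    rw [this, Complex.cos_add]
  · intro η
    ring
  · intro η
    ring

theorem aeeS1 (τ μ δ : ℝ) : ∃ P₂ : ℂ → ℂ,
    AE δ (fun η => η * (Complex.sin (τ * om μ η) / om μ η))
    (fun η => Complex.sin (τ * η)) (fun η => ((τ : ℂ) * μ ^ 2 / 2) * Complex.cos (τ * η)) P₂ := by
  have hc := aee_AE_EP (aee_EP_cos τ) δ
  have hs := aee_AE_EP (aee_EP_sin τ) δ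
  have h := (aee_AE_quot μ δ).mul
    ((hs.mul (aee_AE_cosd τ μ δ)).add (hc.mul (aee_AE_sind τ μ δ)))
  refine ⟨_, aee_congr h ?_ ?_ ?_⟩
  · intro η _
    rw [← aee_sinW]
    have : (τ : ℂ) * aeeW μ η = τ * η + τ * aeeD μ η := by unfold aeeD; ring
    rw [this, Complex.sin_add]
    ring
  · intro η
    ring
  · intro η
    ring

theorem aeeS (τ μ δ : ℝ) : ∃ P₂ : ℂ → ℂ,
    AE δ (fun η => Complex.sin (τ * om μ η) / om μ η)
    (fun _ => 0) (fun η => Complex.sin (τ * η)) P₂ := by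
  obtain ⟨P₂, h⟩ := aeeS1 τ μ δ
  have h' := (aee_AE_inv δ).mul h
  refine ⟨_, aee_congr h' ?_ ?_ ?_⟩
  · intro η hη
    field_simp
  · intro η
    ring
  · intro η
    ring

theorem aee_exp_neg (τ : ℝ) (η : ℂ) :
    Complex.exp (-(Complex.I * τ * η)) = Complex.cos (τ * η) - Complex.I * Complex.sin (τ * η) := by
  have : -(Complex.I * τ * η) = -((τ : ℂ) * η) * Complex.I := by ring
  rw [this, Complex.exp_mul_I, Complex.cos_neg, Complex.sin_neg]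
  ring

theorem aee_exp_pos (τ : ℝ) (η : ℂ) :
    Complex.exp (Complex.I * τ * η) = Complex.cos (τ * η) + Complex.I * Complex.sin (τ * η) := by
  have : Complex.I * τ * η = ((τ : ℂ) * η) * Complex.I := by ring
  rw [this, Complex.exp_mul_I]
  ring

theorem AEE00 {τ μ : ℝ} (hμ : μ ≠ 0) (δ : ℝ) : ∃ P₂ : ℂ → ℂ,
    AE δ (fun η => E τ μ η 0 0) (fun η => Complex.exp (-(Complex.I * τ * η)))
      (fun η => -(Complex.I * (τ * μ ^ 2 / 2)) * Complex.exp (-(Complex.I * τ * η))) P₂ := by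
  obtain ⟨P, hP⟩ := aeeC τ μ δ
  obtain ⟨Q, hQ⟩ := aeeS1 τ μ δ
  refine ⟨_, aee_congr (hP.sub ((AE.const δ Complex.I).mul hQ)) ?_ ?_ ?_⟩
  · intro η _
    have : E τ μ η 0 0 = Complex.cos (τ * om μ η) -
      Complex.I * η * (Complex.sin (τ * om μ η) / om μ η) := rfl
    rw [this]
    ring
  · intro η
    rw [aee_exp_neg]
  · intro η
    rw [aee_exp_neg]
    linear_combination (-((τ : ℂ) * μ ^ 2 / 2) * Complex.sin (τ * η)) * Complex.I_sq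

theorem AEE11 {τ μ : ℝ} (hμ : μ ≠ 0) (δ : ℝ) : ∃ P₂ : ℂ → ℂ,
    AE δ (fun η => E τ μ η 1 1) (fun η => Complex.exp (Complex.I * τ * η))
      (fun η => (Complex.I * (τ * μ ^ 2 / 2)) * Complex.exp (Complex.I * τ * η)) P₂ := by
  obtain ⟨P, hP⟩ := aeeC τ μ δ
  obtain ⟨Q, hQ⟩ := aeeS1 τ μ δ
  refine ⟨_, aee_congr (hP.add ((AE.const δ Complex.I).mul hQ)) ?_ ?_ ?_⟩
  · intro η _
    have : E τ μ η 1 1 = Complex.cos (τ * om μ η) +
      Complex.I * η * (Complex.sin (τ * om μ η) / om μ η) := rfl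
    rw [this]
    ring
  · intro η
    rw [aee_exp_pos]
  · intro η
    rw [aee_exp_pos]
    linear_combination (-((τ : ℂ) * μ ^ 2 / 2) * Complex.sin (τ * η)) * Complex.I_sq

theorem AEE01 {τ μ : ℝ} (hμ : μ ≠ 0) (δ : ℝ) : ∃ P₂ : ℂ → ℂ,
    AE δ (fun η => E τ μ η 0 1) (fun _ => 0)
      (fun η => -(Complex.I * μ * Complex.sin (τ * η))) P₂ := by
  obtain ⟨Q, hQ⟩ := aeeS τ μ δ
  refine ⟨_, aee_congr ((AE.const δ (-(Complex.I * μ))).mul hQ) ?_ ?_ ?_⟩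
  · intro η _
    have : E τ μ η 0 1 = -(Complex.I * μ * (Complex.sin (τ * om μ η) / om μ η)) := rfl
    rw [this]
    ring
  · intro η
    ring
  · intro η
    ring

theorem AEE10 {τ μ : ℝ} (hμ : μ ≠ 0) (δ : ℝ) : ∃ P₂ : ℂ → ℂ,
    AE δ (fun η => E τ μ η 1 0) (fun _ => 0)
      (fun η => -(Complex.I * μ * Complex.sin (τ * η))) P₂ := by
  obtain ⟨Q, hQ⟩ := aeeS τ μ δ
  refine ⟨_, aee_congr ((AE.const δ (-(Complex.I * μ))).mul hQ) ?_ ?_ ?_⟩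
  · intro η _
    have : E τ μ η 1 0 = -(Complex.I * μ * (Complex.sin (τ * om μ η) / om μ η)) := rfl
    rw [this]
    ring
  · intro η
    ring
  · intro η
    ring

end Pool.Agent.H5.DF
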