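import Pool.Agent.H5.DF.Defs

set_option autoImplicit false
open MeasureTheory Set Filter Topology
open scoped ENNReal NNReal FourierTransform

namespace Pool.Agent.H5.DF

/-!
Part ALGE. Basic identities for `E τ μ η = exp(-iτ(ησ₃+μσ₁))`.
`om μ η ^ 2 = η² + μ²`, `om μ η ≠ 0` for `μ ≠ 0`, `|im η| < |μ|` (the real part of `η²+μ²` is
`> 0`); `E τ μ η = cos(τω) 1 - i (sin(τω)/ω) X`, `X = ησ₃+μσ₁`, `X² = ω² 1`.
For real `η`, `om μ η = sqrt(η²+μ²)` is real.
-/

theorem om_sq (μ : ℝ) (η : ℂ) : om μ η ^ 2 = η ^ 2 + (μ : ℂ) ^ 2 := by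
  have h := Complex.cpow_nat_inv_pow (η ^ 2 + (μ : ℂ) ^ 2) (n := 2) (by norm_num)
  unfold om
  rw [one_div]
  exact_mod_cast h

theorem om_ne {μ : ℝ} (hμ : μ ≠ 0) {η : ℂ} (hη : |η.im| < |μ|) : om μ η ≠ 0 := by
  intro h0
  have h := om_sq μ η
  rw [h0] at h
  have h1 : η.im ^ 2 < μ ^ 2 := sq_lt_sq.mpr hη
  have h2 : (η ^ 2 + (μ : ℂ) ^ 2).re = η.re ^ 2 - η.im ^ 2 + μ ^ 2 := by
    simp [pow_two]
  rw [← h] at h2
  simp at h2
  nlinarith [sq_nonneg η.re]

theorem om_real (μ η : ℝ) : om μ (η : ℂ) = ((Real.sqrt (η ^ 2 + μ ^ 2) : ℝ) : ℂ) := by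
  unfold om
  rw [Real.sqrt_eq_rpow, Complex.ofReal_cpow (by positivity)]
  push_cast
  rfl

theorem algE_om_neg (μ : ℝ) (η : ℂ) : om (-μ) η = om μ η := by
  unfold om
  push_cast
  rw [neg_sq]

/-- algebra: `(c - i s X)(c' - i s' X)` -/
theorem algE_mul (c c' s s' η μ : ℂ) :
    (!![c - Complex.I * η * s, -(Complex.I * μ * s); -(Complex.I * μ * s),
        c + Complex.I * η * s] : Mat) *
      !![c' - Complex.I * η * s', -(Complex.I * μ * s'); -(Complex.I * μ * s'),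
        c' + Complex.I * η * s'] =
      !![(c * c' - (η ^ 2 + μ ^ 2) * (s * s')) - Complex.I * η * (s * c' + c * s'),
        -(Complex.I * μ * (s * c' + c * s'));
        -(Complex.I * μ * (s * c' + c * s')),
        (c * c' - (η ^ 2 + μ ^ 2) * (s * s')) + Complex.I * η * (s * c' + c * s')] := by
  have hI : Complex.I ^ 2 = -1 := Complex.I_sq
  ext i j
  fin_cases i <;> fin_cases j <;>
    simp [Matrix.mul_apply, Fin.sum_univ_two] <;> ring_nf <;> simp only [hI] <;> ring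

theorem E_det {τ μ : ℝ} (hμ : μ ≠ 0) {η : ℂ} (hη : |η.im| < |μ|) : (E τ μ η).det = 1 := by
  have hne := om_ne hμ hη
  have hsq := om_sq μ η
  have hI : Complex.I ^ 2 = -1 := Complex.I_sq
  have hcs := Complex.sin_sq_add_cos_sq (τ * om μ η)
  have hs : (om μ η) ^ 2 * (Complex.sin (τ * om μ η) / om μ η) ^ 2 =
      Complex.sin (τ * om μ η) ^ 2 := by
    field_simp
  rw [hsq] at hs
  rw [E, Matrix.det_fin_two_of]
  generalize Complex.sin (τ * om μ η) / om μ η = s at hs ⊢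
  linear_combination hcs + hs - (η ^ 2 + (μ : ℂ) ^ 2) * s ^ 2 * hI

theorem E_add {τ τ' μ : ℝ} (hμ : μ ≠ 0) {η : ℂ} (hη : |η.im| < |μ|) :
    E (τ + τ') μ η = E τ μ η * E τ' μ η := by
  have hne := om_ne hμ hη
  have hsq := om_sq μ η
  unfold E
  rw [algE_mul, ← hsq]
  have h1 : ((τ + τ' : ℝ) : ℂ) * om μ η = τ * om μ η + τ' * om μ η := by push_cast; ring
  have hc : Complex.cos (((τ + τ' : ℝ) : ℂ) * om μ η) =
      Complex.cos (τ * om μ η) * Complex.cos (τ' * om μ η) - om μ η ^ 2 *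
        (Complex.sin (τ * om μ η) / om μ η * (Complex.sin (τ' * om μ η) / om μ η)) := by
    rw [h1, Complex.cos_add]
    field_simp
  have hs : Complex.sin (((τ + τ' : ℝ) : ℂ) * om μ η) / om μ η =
      Complex.sin (τ * om μ η) / om μ η * Complex.cos (τ' * om μ η) +
        Complex.cos (τ * om μ η) * (Complex.sin (τ' * om μ η) / om μ η) := by
    rw [h1, Complex.sin_add]
    field_simp
  rw [hc, hs]

theorem E_zero_time {μ : ℝ} (η : ℂ) : E 0 μ η = 1 := by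
  ext i j
  fin_cases i <;> fin_cases j <;> simp [E]

theorem E_s1 (τ μ : ℝ) (η : ℂ) : s1 * E (-τ) μ η * s1 = E τ (-μ) η := by
  unfold E
  rw [algE_om_neg]
  ext i j
  fin_cases i <;> fin_cases j <;>
    simp [s1, Matrix.mul_apply, Fin.sum_univ_two, neg_div] <;> ring

theorem E_s2 (τ μ : ℝ) (η : ℂ) : s2 * E (-τ) μ η * s2 = E τ μ η := by
  have hI : Complex.I ^ 2 = -1 := Complex.I_sq
  unfold E
  ext i j
  fin_cases i <;> fin_cases j <;>
    simp [s2, Matrix.mul_apply, Fin.sum_univ_two, neg_div] <;> ring_nf <;>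
    simp [hI, Complex.I_pow_three, Complex.I_pow_four] <;> ring

theorem E_s3 (τ μ : ℝ) (η : ℂ) : s3 * E τ μ η * s3 = E τ (-μ) η := by
  unfold E
  rw [algE_om_neg]
  ext i j
  fin_cases i <;> fin_cases j <;>
    simp [s3, Matrix.mul_apply, Fin.sum_univ_two]

theorem E_scale {c : ℝ} (hc : 0 < c) (τ μ : ℝ) (η : ℝ) :
    E (c * τ) (μ / c) (η : ℂ) = E τ μ ((c * η : ℝ) : ℂ) := by
  have hcC : (c : ℂ) ≠ 0 := by exact_mod_cast hc.ne'
  have h1 : om μ ((c * η : ℝ) : ℂ) = c * om (μ / c) (η : ℂ) := by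
    rw [om_real, om_real]
    have h2 : (c * η) ^ 2 + μ ^ 2 = c ^ 2 * (η ^ 2 + (μ / c) ^ 2) := by
      field_simp
    rw [h2, Real.sqrt_mul (sq_nonneg c), Real.sqrt_sq hc.le]
    push_cast
    rfl
  unfold E
  rw [h1]
  have h3 : ((c * τ : ℝ) : ℂ) * om (μ / c) (η : ℂ) = τ * (c * om (μ / c) (η : ℂ)) := by
    push_cast; ring
  rw [h3]
  generalize om (μ / c) (η : ℂ) = w
  generalize Complex.cos (τ * (c * w)) = C
  generalize Complex.sin (τ * (c * w)) = S
  have h4 : ((c * η : ℝ) : ℂ) * (S / (c * w)) = η * (S / w) := by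
    push_cast
    by_cases hw : w = 0
    · simp [hw]
    · field_simp
  have h5 : ((μ / c : ℝ) : ℂ) * (S / w) = μ * (S / (c * w)) := by
    push_cast
    by_cases hw : w = 0
    · simp [hw]
    · field_simp
  rw [mul_assoc Complex.I ((μ / c : ℝ) : ℂ), mul_assoc Complex.I ((c * η : ℝ) : ℂ), h4, h5,
    mul_assoc, mul_assoc Complex.I (μ : ℂ)]

theorem E_unitary {τ μ : ℝ} (hμ : μ ≠ 0) (η : ℝ) :
    (E τ μ (η : ℂ)).conjTranspose * E τ μ (η : ℂ) = 1 := by
  have hη : |((η : ℂ)).im| < |μ| := by simpa using abs_pos.mpr hμ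
  have hne := om_ne hμ hη
  have h1 : (E τ μ (η : ℂ)).conjTranspose = E (-τ) μ (η : ℂ) := by
    unfold E
    rw [om_real]
    generalize Real.sqrt (η ^ 2 + μ ^ 2) = w
    have hcos : (starRingEnd ℂ) (Complex.cos (τ * w)) = Complex.cos (τ * w) := by
      rw [← Complex.cos_conj]; simp
    have hsin : (starRingEnd ℂ) (Complex.sin (τ * w)) = Complex.sin (τ * w) := by
      rw [← Complex.sin_conj]; simp
    ext i j
    fin_cases i <;> fin_cases j <;>
      simp [Matrix.conjTranspose_apply, hcos, hsin, neg_div] <;> ring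
  rw [h1, ← E_add hμ hη, neg_add_cancel, E_zero_time]

/-- a `π`-pulse -/
theorem E_pi {τ μ : ℝ} (hμ : 0 < μ) (h : τ * μ = Real.pi / 2) :
    E τ μ 0 = (-Complex.I) • s1 ∧ E τ (-μ) 0 = Complex.I • s1 := by
  have hμC : (μ : ℂ) ≠ 0 := by exact_mod_cast hμ.ne'
  have h1 : om μ 0 = (μ : ℂ) := by
    have := om_real μ 0
    rw [Complex.ofReal_zero] at this
    rw [this]
    have h2 : (0 : ℝ) ^ 2 + μ ^ 2 = μ ^ 2 := by ring
    rw [h2, Real.sqrt_sq hμ.le]
  have h3 : (τ : ℂ) * μ = ((Real.pi / 2 : ℝ) : ℂ) := by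
    rw [← h]; push_cast; rfl
  have hc : Complex.cos ((τ : ℂ) * μ) = 0 := by
    rw [h3, ← Complex.ofReal_cos, Real.cos_pi_div_two]; simp
  have hs : Complex.sin ((τ : ℂ) * μ) = 1 := by
    rw [h3, ← Complex.ofReal_sin, Real.sin_pi_div_two]; simp
  constructor
  · unfold E
    rw [h1, hc, hs]
    ext i j
    fin_cases i <;> fin_cases j <;> simp [s1, hμC]
  · unfold E
    rw [algE_om_neg, h1, hc, hs]
    ext i j
    fin_cases i <;> fin_cases j <;> simp [s1, hμC]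

end Pool.Agent.H5.DF
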