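import Pool.Agent.H5.DF.Defs
import Pool.Agent.H5.DF.AlgE

set_option autoImplicit false
open MeasureTheory Set Filter Topology
open scoped ENNReal NNReal FourierTransform

namespace Pool.Agent.H5.DF

/-!
Part ALGM. Identities for `mono`: products, symmetries, unitarity.
-/

theorem mono_append (L₁ L₂ : List (ℝ × ℝ)) (η : ℂ) :
    mono (L₁ ++ L₂) η = mono L₂ η * mono L₁ η := by
  induction L₁ with
  | nil => simp [mono]
  | cons p L ih =>
    rw [List.cons_append, mono, mono, ih, mul_assoc]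

theorem dur_append (L₁ L₂ : List (ℝ × ℝ)) : dur (L₁ ++ L₂) = dur L₁ + dur L₂ := by
  induction L₁ with
  | nil => simp [dur]
  | cons p L ih =>
    rw [List.cons_append, dur, dur, ih, add_assoc]

theorem algM_dur_nonneg {L : List (ℝ × ℝ)} (hL : Adm L) : 0 ≤ dur L := by
  induction L with
  | nil => simp [dur]
  | cons p L ih =>
    have h1 := (hL p List.mem_cons_self).1
    have h2 := ih (fun q hq => hL q (List.mem_cons_of_mem _ hq))
    rw [dur]
    linarith

theorem dur_pos {L : List (ℝ × ℝ)} (hL : Adm L) (hne : L ≠ []) : 0 < dur L := by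
  cases L with
  | nil => exact absurd rfl hne
  | cons p L =>
    have h1 := (hL p List.mem_cons_self).1
    have h2 := algM_dur_nonneg (L := L) (fun q hq => hL q (List.mem_cons_of_mem _ hq))
    rw [dur]
    linarith

theorem mono_det {L : List (ℝ × ℝ)} (hL : Adm L) {η : ℂ} (hη : ∀ p ∈ L, |η.im| < |p.2|) :
    (mono L η).det = 1 := by
  induction L with
  | nil => simp [mono]
  | cons p L ih =>
    rw [mono, Matrix.det_mul, ih (fun q hq => hL q (List.mem_cons_of_mem _ hq))
      (fun q hq => hη q (List.mem_cons_of_mem _ hq)),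
      E_det (hL p List.mem_cons_self).2 (hη p List.mem_cons_self), one_mul]

theorem mono_unitary {L : List (ℝ × ℝ)} (hL : Adm L) (η : ℝ) :
    (mono L (η : ℂ)).conjTranspose * mono L (η : ℂ) = 1 := by
  induction L with
  | nil => simp [mono]
  | cons p L ih =>
    have ih' := ih (fun q hq => hL q (List.mem_cons_of_mem _ hq))
    have hE := E_unitary (τ := p.1) (hL p List.mem_cons_self).2 η
    rw [mono, Matrix.conjTranspose_mul]
    calc (E p.1 p.2 (η : ℂ)).conjTranspose * (mono L (η : ℂ)).conjTranspose *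
          (mono L (η : ℂ) * E p.1 p.2 (η : ℂ))
        = (E p.1 p.2 (η : ℂ)).conjTranspose * ((mono L (η : ℂ)).conjTranspose *
          mono L (η : ℂ)) * E p.1 p.2 (η : ℂ) := by simp only [mul_assoc]
      _ = 1 := by rw [ih', mul_one, hE]

/-- entries of a unitary matrix -/
theorem mono_entry_le {L : List (ℝ × ℝ)} (hL : Adm L) (η : ℝ) (i j : Fin 2) :
    ‖mono L (η : ℂ) i j‖ ≤ 1 := by
  have h := congrFun (congrFun (mono_unitary hL η) j) j
  rw [Matrix.mul_apply, Fin.sum_univ_two, Matrix.one_apply_eq, Matrix.conjTranspose_apply,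
    Matrix.conjTranspose_apply] at h
  have h2 : ‖mono L (η : ℂ) 0 j‖ ^ 2 + ‖mono L (η : ℂ) 1 j‖ ^ 2 = 1 := by
    have h3 : ∀ z : ℂ, star z * z = ((‖z‖ ^ 2 : ℝ) : ℂ) := by
      intro z
      have := Complex.conj_mul' z
      rw [show star z = (starRingEnd ℂ) z from rfl, this]
      push_cast
      rfl
    rw [h3, h3] at h
    exact_mod_cast h
  fin_cases i
  · show ‖mono L (η : ℂ) 0 j‖ ≤ 1
    nlinarith [sq_nonneg ‖mono L (η : ℂ) 1 j‖, norm_nonneg (mono L (η : ℂ) 0 j)]
  · show ‖mono L (η : ℂ) 1 j‖ ≤ 1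
    nlinarith [sq_nonneg ‖mono L (η : ℂ) 0 j‖, norm_nonneg (mono L (η : ℂ) 1 j)]

theorem algM_E_conjTranspose {τ μ : ℝ} (hμ : μ ≠ 0) (η : ℝ) :
    (E τ μ (η : ℂ)).conjTranspose = E (-τ) μ (η : ℂ) := by
  have hη : |((η : ℂ)).im| < |μ| := by simpa using abs_pos.mpr hμ
  have h1 := E_unitary (τ := τ) hμ η
  have h2 : E τ μ (η : ℂ) * E (-τ) μ (η : ℂ) = 1 := by
    rw [← E_add hμ hη, add_neg_cancel, E_zero_time]
  calc (E τ μ (η : ℂ)).conjTranspose
      = (E τ μ (η : ℂ)).conjTranspose * (E τ μ (η : ℂ) * E (-τ) μ (η : ℂ)) := by rw [h2, mul_one]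
    _ = E (-τ) μ (η : ℂ) := by rw [← mul_assoc, h1, one_mul]

theorem algM_s1_sq : s1 * s1 = 1 := by
  ext i j
  fin_cases i <;> fin_cases j <;> simp [s1, Matrix.mul_apply, Fin.sum_univ_two]

theorem algM_s2_sq : s2 * s2 = 1 := by
  ext i j
  fin_cases i <;> fin_cases j <;> simp [s2, Matrix.mul_apply, Fin.sum_univ_two]

theorem algM_s3_sq : s3 * s3 = 1 := by
  ext i j
  fin_cases i <;> fin_cases j <;> simp [s3, Matrix.mul_apply, Fin.sum_univ_two]

theorem algM_mono_cons_end (L : List (ℝ × ℝ)) (p : ℝ × ℝ) (η : ℂ) :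
    mono (L ++ [p]) η = E p.1 p.2 η * mono L η := by
  rw [mono_append]
  simp [mono]

theorem mono_reverse {L : List (ℝ × ℝ)} (hL : Adm L) (η : ℝ) :
    mono L.reverse (η : ℂ) = s2 * (mono L (η : ℂ)).conjTranspose * s2 := by
  induction L with
  | nil => simp [mono, algM_s2_sq]
  | cons p L ih =>
    have ih' := ih (fun q hq => hL q (List.mem_cons_of_mem _ hq))
    have hp := (hL p List.mem_cons_self).2
    rw [List.reverse_cons, algM_mono_cons_end, ih', mono, Matrix.conjTranspose_mul,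
      algM_E_conjTranspose hp, ← E_s2 p.1 p.2 (η : ℂ)]
    calc s2 * E (-p.1) p.2 (η : ℂ) * s2 * (s2 * (mono L (η : ℂ)).conjTranspose * s2)
        = s2 * E (-p.1) p.2 (η : ℂ) * (s2 * s2) * ((mono L (η : ℂ)).conjTranspose * s2) := by
          simp only [mul_assoc]
      _ = _ := by rw [algM_s2_sq, mul_one]; simp only [mul_assoc]

theorem mono_negL (L : List (ℝ × ℝ)) (η : ℂ) : mono (negL L) η = s3 * mono L η * s3 := by
  induction L with
  | nil => simp [mono, negL, algM_s3_sq]
  | cons p L ih =>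
    have h1 : negL (p :: L) = (p.1, -p.2) :: negL L := rfl
    rw [h1, mono, mono, ih]
    show s3 * mono L η * s3 * E p.1 (-p.2) η = _
    rw [← E_s3]
    calc s3 * mono L η * s3 * (s3 * E p.1 p.2 η * s3)
        = s3 * mono L η * (s3 * s3) * (E p.1 p.2 η * s3) := by simp only [mul_assoc]
      _ = _ := by rw [algM_s3_sq, mul_one]; simp only [mul_assoc]

theorem Adm_append {L₁ L₂ : List (ℝ × ℝ)} (h₁ : Adm L₁) (h₂ : Adm L₂) : Adm (L₁ ++ L₂) := by
  intro p hp
  rcases List.mem_append.mp hp with h | h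
  · exact h₁ p h
  · exact h₂ p h

theorem Adm_reverse {L : List (ℝ × ℝ)} (h : Adm L) : Adm L.reverse := by
  intro p hp
  exact h p (List.mem_reverse.mp hp)

theorem Adm_negL {L : List (ℝ × ℝ)} (h : Adm L) : Adm (negL L) := by
  intro p hp
  unfold negL at hp
  obtain ⟨q, hq, rfl⟩ := List.mem_map.mp hp
  exact ⟨(h q hq).1, neg_ne_zero.mpr (h q hq).2⟩

theorem algM_s3_conjTranspose : s3.conjTranspose = s3 := by
  ext i j
  fin_cases i <;> fin_cases j <;> simp [s3, Matrix.conjTranspose_apply]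

theorem algM_s2_s3 : s2 * s3 = Complex.I • s1 := by
  ext i j
  fin_cases i <;> fin_cases j <;> simp [s1, s2, s3, Matrix.mul_apply, Fin.sum_univ_two]

theorem algM_s3_s2 : s3 * s2 = (-Complex.I) • s1 := by
  ext i j
  fin_cases i <;> fin_cases j <;> simp [s1, s2, s3, Matrix.mul_apply, Fin.sum_univ_two]

theorem algM_conj_13 (M : Mat) :
    s2 * (s3 * M * s3).conjTranspose * s2 = s1 * M.conjTranspose * s1 := by
  rw [Matrix.conjTranspose_mul, Matrix.conjTranspose_mul, algM_s3_conjTranspose]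
  calc s2 * (s3 * (M.conjTranspose * s3)) * s2 = (s2 * s3) * M.conjTranspose * (s3 * s2) := by
        simp only [mul_assoc]
    _ = s1 * M.conjTranspose * s1 := by
        rw [algM_s2_s3, algM_s3_s2]
        simp only [smul_mul_assoc, mul_smul_comm, smul_smul]
        rw [show -Complex.I * Complex.I = 1 by rw [neg_mul, Complex.I_mul_I, neg_neg], one_smul]

theorem mono_revneg {L : List (ℝ × ℝ)} (hL : Adm L) (η : ℝ) :
    mono (negL L).reverse (η : ℂ) = s1 * (mono L (η : ℂ)).conjTranspose * s1 := by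
  rw [mono_reverse (Adm_negL hL), mono_negL]
  exact algM_conj_13 _

theorem mono_scL {c : ℝ} (hc : 0 < c) (L : List (ℝ × ℝ)) (η : ℝ) :
    mono (scL c L) (η : ℂ) = mono L ((c * η : ℝ) : ℂ) := by
  induction L with
  | nil => simp [mono, scL]
  | cons p L ih =>
    have h1 : scL c (p :: L) = (c * p.1, p.2 / c) :: scL c L := rfl
    rw [h1, mono, mono, ih]
    show _ * E (c * p.1) (p.2 / c) (η : ℂ) = _
    rw [E_scale hc]

theorem Adm_scL {L : List (ℝ × ℝ)} (h : Adm L) {c : ℝ} (hc : 0 < c) : Adm (scL c L) := by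
  intro p hp
  unfold scL at hp
  obtain ⟨q, hq, rfl⟩ := List.mem_map.mp hp
  exact ⟨mul_pos hc (h q hq).1, div_ne_zero (h q hq).2 hc.ne'⟩

theorem Adm_flatten {L : List (ℝ × ℝ)} (h : Adm L) (n : ℕ) :
    Adm (List.replicate n L).flatten := by
  intro p hp
  obtain ⟨l, hl, hpl⟩ := List.mem_flatten.mp hp
  rw [List.eq_of_mem_replicate hl] at hpl
  exact h p hpl

theorem mono_flatten (L : List (ℝ × ℝ)) (n : ℕ) (η : ℂ) :
    mono (List.replicate n L).flatten η = mono L η ^ n := by
  induction n with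
  | zero => simp [mono]
  | succ n ih =>
    rw [List.replicate_succ, List.flatten_cons, mono_append, ih, pow_succ]

end Pool.Agent.H5.DF
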