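import Pool.Agent.H5.DF.Defs
import Pool.Agent.H5.DF.AlgM
import Pool.Agent.H5.DF.Aee

set_option autoImplicit false
open MeasureTheory Set Filter Topology
open scoped ENNReal NNReal FourierTransform

namespace Pool.Agent.H5.DF

/-!
Part AEM. Expansions of the entries of `mono L` (induction on the list, `AE.mul`, `AE.add`), and
consequence of `det = 1` (`AE.unique`): at points `η` with `exp (i η T) = exp (-i η T) = e`,
`P₂⁰⁰ + P₂¹¹ = e (b01 b10 - cc²)`.
-/

theorem AEM_congr {δ : ℝ} {F H P₀ P₁ P₂ Q₀ Q₁ : ℂ → ℂ} (h : AE δ F P₀ P₁ P₂)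
    (hF : ∀ η, F η = H η) (h0 : ∀ η, P₀ η = Q₀ η) (h1 : ∀ η, P₁ η = Q₁ η) :
    AE δ H Q₀ Q₁ P₂ := by
  rw [← funext hF, ← funext h0, ← funext h1]
  exact h

theorem mono_AE {L : List (ℝ × ℝ)} (hL : Adm L) (δ : ℝ) : ∃ P00 P01 P10 P11 : ℂ → ℂ,
    AE δ (fun η => mono L η 0 0) (fun η => Complex.exp (-(Complex.I * dur L * η)))
      (fun η => -(Complex.I * cc L) * Complex.exp (-(Complex.I * dur L * η))) P00 ∧
    AE δ (fun η => mono L η 0 1) (fun _ => 0) (b01 L) P01 ∧
    AE δ (fun η => mono L η 1 0) (fun _ => 0) (b10 L) P10 ∧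
    AE δ (fun η => mono L η 1 1) (fun η => Complex.exp (Complex.I * dur L * η))
      (fun η => (Complex.I * cc L) * Complex.exp (Complex.I * dur L * η)) P11 := by
  induction L with
  | nil =>
    refine ⟨fun _ => 0, fun _ => 0, fun _ => 0, fun _ => 0, ?_, ?_, ?_, ?_⟩
    · exact AEM_congr (AE.const δ 1) (fun η => by simp [mono]) (fun η => by simp [dur])
        (fun η => by simp [cc])
    · exact AEM_congr (AE.const δ 0) (fun η => by simp [mono]) (fun η => rfl)
        (fun η => by simp [b01])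
    · exact AEM_congr (AE.const δ 0) (fun η => by simp [mono]) (fun η => rfl)
        (fun η => by simp [b10])
    · exact AEM_congr (AE.const δ 1) (fun η => by simp [mono]) (fun η => by simp [dur])
        (fun η => by simp [cc])
  | cons p L ih =>
    obtain ⟨P00, P01, P10, P11, h00, h01, h10, h11⟩ := ih (fun q hq => hL q (by simp [hq]))
    have hμ : p.2 ≠ 0 := (hL p (by simp)).2
    obtain ⟨Q00, g00⟩ := AEE00 (τ := p.1) hμ δ
    obtain ⟨Q11, g11⟩ := AEE11 (τ := p.1) hμ δ
    obtain ⟨Q01, g01⟩ := AEE01 (τ := p.1) hμ δ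
    obtain ⟨Q10, g10⟩ := AEE10 (τ := p.1) hμ δ
    have hm : ∀ (η : ℂ) (i j : Fin 2), mono (p :: L) η i j =
        mono L η i 0 * E p.1 p.2 η 0 j + mono L η i 1 * E p.1 p.2 η 1 j := by
      intro η i j
      show (mono L η * E p.1 p.2 η) i j = _
      rw [Matrix.mul_apply, Fin.sum_univ_two]
    have em : ∀ η : ℂ, Complex.exp (-(Complex.I * dur (p :: L) * η)) =
        Complex.exp (-(Complex.I * dur L * η)) * Complex.exp (-(Complex.I * p.1 * η)) := by
      intro η
      rw [← Complex.exp_add]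
      congr 1
      show -(Complex.I * ((p.1 + dur L : ℝ) : ℂ) * η) = _
      push_cast
      ring
    have ep : ∀ η : ℂ, Complex.exp (Complex.I * dur (p :: L) * η) =
        Complex.exp (Complex.I * dur L * η) * Complex.exp (Complex.I * p.1 * η) := by
      intro η
      rw [← Complex.exp_add]
      congr 1
      show Complex.I * ((p.1 + dur L : ℝ) : ℂ) * η = _
      push_cast
      ring
    have hc : (cc (p :: L) : ℂ) = p.1 * p.2 ^ 2 / 2 + cc L := by
      show (((p.1 * p.2 ^ 2 / 2 + cc L : ℝ)) : ℂ) = _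
      push_cast
      ring
    refine ⟨_, _, _, _, AEM_congr ((h00.mul g00).add (h01.mul g10)) ?_ ?_ ?_,
      AEM_congr ((h00.mul g01).add (h01.mul g11)) ?_ ?_ ?_,
      AEM_congr ((h10.mul g00).add (h11.mul g10)) ?_ ?_ ?_,
      AEM_congr ((h10.mul g01).add (h11.mul g11)) ?_ ?_ ?_⟩
    · intro η; exact (hm η 0 0).symm
    · intro η; rw [em]; ring
    · intro η; rw [em, hc]; ring
    · intro η; exact (hm η 0 1).symm
    · intro η; ring
    · intro η
      show _ = Complex.exp (-(Complex.I * dur L * η)) * (-(Complex.I * p.2 * Complex.sin (p.1 * η)))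
        + b01 L η * Complex.exp (Complex.I * p.1 * η)
      ring
    · intro η; exact (hm η 1 0).symm
    · intro η; ring
    · intro η
      show _ = Complex.exp (Complex.I * dur L * η) * (-(Complex.I * p.2 * Complex.sin (p.1 * η)))
        + b10 L η * Complex.exp (-(Complex.I * p.1 * η))
      ring
    · intro η; exact (hm η 1 1).symm
    · intro η; rw [ep]; ring
    · intro η; rw [ep, hc]; ring

/-- for real `η` the first order off-diagonal coefficients are conjugate up to sign -/
theorem b01_eq (L : List (ℝ × ℝ)) (η : ℝ) :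
    b01 L (η : ℂ) = -(starRingEnd ℂ) (b10 L (η : ℂ)) := by
  induction L with
  | nil => simp [b01, b10]
  | cons p L ih =>
    show Complex.exp (-(Complex.I * dur L * η)) * (-(Complex.I * p.2 * Complex.sin (p.1 * η)))
        + b01 L η * Complex.exp (Complex.I * p.1 * η) = -(starRingEnd ℂ)
      (Complex.exp (Complex.I * dur L * η) * (-(Complex.I * p.2 * Complex.sin (p.1 * η)))
        + b10 L η * Complex.exp (-(Complex.I * p.1 * η)))
    rw [ih]
    have h1 : (starRingEnd ℂ) (Complex.exp (Complex.I * dur L * η)) =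
        Complex.exp (-(Complex.I * dur L * η)) := by
      rw [← Complex.exp_conj]
      congr 1
      simp
    have h2 : (starRingEnd ℂ) (Complex.exp (-(Complex.I * p.1 * η))) =
        Complex.exp (Complex.I * p.1 * η) := by
      rw [← Complex.exp_conj]
      congr 1
      simp
    have h3 : (starRingEnd ℂ) (Complex.sin (p.1 * η)) = Complex.sin (p.1 * η) := by
      rw [← Complex.sin_conj]
      congr 1
      simp
    rw [map_add, map_mul, map_mul, map_neg, map_mul, map_mul, h1, h2, h3]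
    simp only [Complex.conj_I, Complex.conj_ofReal]
    ring

theorem AEM_delta {L : List (ℝ × ℝ)} (hL : Adm L) : ∃ δ : ℝ, 0 < δ ∧ ∀ p ∈ L, δ < |p.2| := by
  induction L with
  | nil => exact ⟨1, one_pos, fun p hp => absurd hp (by simp)⟩
  | cons q L ih =>
    obtain ⟨δ, h0, hδ⟩ := ih (fun q hq => hL q (by simp [hq]))
    have hq : 0 < |q.2| := abs_pos.2 (hL q (by simp)).2
    refine ⟨min δ (|q.2| / 2), lt_min h0 (by positivity), fun p hp => ?_⟩
    rw [List.mem_cons] at hp
    rcases hp with rfl | hp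
    · exact lt_of_le_of_lt (min_le_right _ _) (by linarith)
    · exact lt_of_le_of_lt (min_le_left _ _) (hδ p hp)

/-- expansion of the half trace, with the second coefficient at the resonances -/
theorem D_AE {L : List (ℝ × ℝ)} (hL : Adm L) (hne : L ≠ []) : ∃ δ : ℝ, 0 < δ ∧ ∃ P₂ : ℂ → ℂ,
    AE δ (D L) (fun η => Complex.cos (dur L * η)) (fun η => -(cc L) * Complex.sin (dur L * η)) P₂ ∧
    ∀ k : ℤ, P₂ ((Real.pi * k / dur L : ℝ) : ℂ) =
      -(((-1 : ℝ) ^ k : ℝ) : ℂ) / 2 *
        ((cc L ^ 2 + ‖b10 L ((Real.pi * k / dur L : ℝ) : ℂ)‖ ^ 2 : ℝ) : ℂ) := by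
  obtain ⟨δ, h0, hδ⟩ := AEM_delta hL
  obtain ⟨P00, P01, P10, P11, h00, h01, h10, h11⟩ := mono_AE hL δ
  refine ⟨δ, h0, _, AEM_congr ((AE.const δ (1 / 2)).mul (h00.add h11)) ?_ ?_ ?_, ?_⟩
  · intro η
    unfold D
    ring
  · intro η
    rw [Complex.cos]
    have e1 : (dur L : ℂ) * η * Complex.I = Complex.I * dur L * η := by ring
    have e2 : -((dur L : ℂ) * η) * Complex.I = -(Complex.I * dur L * η) := by ring
    rw [e1, e2]
    ring
  · intro η
    rw [Complex.sin]
    have e1 : (dur L : ℂ) * η * Complex.I = Complex.I * dur L * η := by ring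
    have e2 : -((dur L : ℂ) * η) * Complex.I = -(Complex.I * dur L * η) := by ring
    rw [e1, e2]
    have hI := Complex.I_sq
    linear_combination (0 : ℂ) * hI
  · -- the determinant
    have hdet := (h00.mul h11).sub (h01.mul h10)
    have h1 := hdet.congr (H := fun _ => (1 : ℂ)) (fun η hη => by
      have h2 := mono_det hL (η := η) (fun p hp => lt_of_le_of_lt hη (hδ p hp))
      rw [Matrix.det_fin_two] at h2
      exact h2)
    obtain ⟨_, _, hu⟩ := AE.unique h0.le h1 (AE.const δ 1)
    intro k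
    have hT : dur L ≠ 0 := (dur_pos hL hne).ne'
    set x : ℝ := Real.pi * k / dur L with hx
    have hxT : dur L * x = Real.pi * k := by
      rw [hx]; field_simp
    have hu' := congrFun hu (x : ℂ)
    beta_reduce at hu'
    have e1 : Complex.exp (Complex.I * dur L * x) = (((-1 : ℝ) ^ k : ℝ) : ℂ) := by
      have e2 : Complex.I * dur L * x = k * (Real.pi * Complex.I) := by
        have : (dur L : ℂ) * x = Real.pi * k := by exact_mod_cast hxT
        linear_combination Complex.I * this
      rw [e2, Complex.exp_int_mul, Complex.exp_pi_mul_I]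
      push_cast
      rfl
    have e2 : Complex.exp (-(Complex.I * dur L * x)) = (((-1 : ℝ) ^ k : ℝ) : ℂ) := by
      rw [Complex.exp_neg, e1]
      rcases Int.even_or_odd k with hk | hk
      · rw [hk.neg_one_zpow]; simp
      · rw [hk.neg_one_zpow]; norm_num
    have e3 : ((((-1 : ℝ) ^ k : ℝ) : ℂ)) * ((((-1 : ℝ) ^ k : ℝ) : ℂ)) = 1 := by
      rcases Int.even_or_odd k with hk | hk
      · rw [hk.neg_one_zpow]; simp
      · rw [hk.neg_one_zpow]; norm_num
    have e4 : b01 L (x : ℂ) * b10 L (x : ℂ) = -((‖b10 L (x : ℂ)‖ ^ 2 : ℝ) : ℂ) := by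
      rw [b01_eq]
      have := Complex.conj_mul' (b10 L (x : ℂ))
      push_cast
      linear_combination -this
    rw [e1, e2] at hu'
    push_cast at hu' e3 e4 ⊢
    have hI := Complex.I_sq
    linear_combination ((-1 : ℂ) ^ k / 2) * hu' +
      (-(P00 x + P11 x) / 2 - (-1 : ℂ) ^ k / 2 * (cc L : ℂ) ^ 2) * e3 +
      ((-1 : ℂ) ^ k / 2 * (cc L : ℂ) ^ 2 * ((-1 : ℂ) ^ k * (-1 : ℂ) ^ k)) * hI +
      ((-1 : ℂ) ^ k / 2) * e4

end Pool.Agent.H5.DF
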