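import Pool.Agent.H5.DF.Defs
import Pool.Agent.H5.DF.AlgM

set_option autoImplicit false
open MeasureTheory Set Filter Topology
open scoped ENNReal NNReal FourierTransform

namespace Pool.Agent.H5.DF

/-!
Part ANA. Analyticity of `mono L` in a strip, smoothness and bounds on the real line.
For `|im η| < |μ|` the real part of `η² + μ²` is positive, so `om μ` is analytic there.
Bounds on the real line: `|cos(τω)| ≤ 1`, `|sin(τω)/ω| ≤ min(τ, 1/|μ|)`, `|η/ω| ≤ 1`, and the same for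
all derivatives (or: `E` is bounded on the closed strip `|im η| ≤ |μ|/2`; Cauchy estimates).
-/

/-! ### general lemmas -/

theorem ana_isOpen_strip (δ : ℝ) : IsOpen {η : ℂ | |η.im| < δ} :=
  isOpen_lt (continuous_abs.comp Complex.continuous_im) continuous_const

/-- restriction to the real line of a function analytic in a strip -/
theorem ana_iteratedDeriv_ofReal {δ : ℝ} (hδ : 0 < δ) {f : ℂ → ℂ}
    (hf : DifferentiableOn ℂ f {η : ℂ | |η.im| < δ}) (m : ℕ) :
    iteratedDeriv m (fun η : ℝ => f (η : ℂ)) = fun η : ℝ => iteratedDeriv m f (η : ℂ) := by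
  induction m with
  | zero => ext η; simp
  | succ m ih =>
    ext η
    rw [iteratedDeriv_succ, ih, iteratedDeriv_succ]
    have hmem : (η : ℂ) ∈ {η : ℂ | |η.im| < δ} := by simpa using hδ
    have han : AnalyticAt ℂ f (η : ℂ) := hf.analyticAt ((ana_isOpen_strip δ).mem_nhds hmem)
    have hd : DifferentiableAt ℂ (iteratedDeriv m f) (η : ℂ) :=
      (han.iterated_deriv m |> fun h => by simpa [iteratedDeriv_eq_iterate] using h.differentiableAt)
    exact hd.hasDerivAt.comp_ofReal.deriv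

theorem ana_contDiff_ofReal {δ : ℝ} (hδ : 0 < δ) {f : ℂ → ℂ}
    (hf : DifferentiableOn ℂ f {η : ℂ | |η.im| < δ}) :
    ContDiff ℝ (⊤ : ℕ∞) (fun η : ℝ => f (η : ℂ)) := by
  rw [contDiff_iff_contDiffAt]
  intro η
  have hmem : (η : ℂ) ∈ {η : ℂ | |η.im| < δ} := by simpa using hδ
  have han : AnalyticAt ℂ f (η : ℂ) := hf.analyticAt ((ana_isOpen_strip δ).mem_nhds hmem)
  have h1 : ContDiffAt ℂ (⊤ : ℕ∞) f (η : ℂ) := han.contDiffAt
  exact (h1.restrict_scalars ℝ).comp η Complex.ofRealCLM.contDiff.contDiffAt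

/-- Cauchy estimates on the real line for a function bounded and analytic in a strip -/
theorem ana_deriv_bdd {δ C : ℝ} (hδ : 0 < δ) {f : ℂ → ℂ}
    (hf : DifferentiableOn ℂ f {η : ℂ | |η.im| < δ})
    (hC : ∀ η : ℂ, |η.im| < δ → ‖f η‖ ≤ C) (m : ℕ) (η : ℝ) :
    ‖iteratedDeriv m (fun η : ℝ => f (η : ℂ)) η‖ ≤ m.factorial * C / (δ / 2) ^ m := by
  rw [ana_iteratedDeriv_ofReal hδ hf m]
  have hsub : Metric.closedBall (η : ℂ) (δ / 2) ⊆ {η : ℂ | |η.im| < δ} := by
    intro z hz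
    have h1 : |(z - η).im| ≤ ‖z - η‖ := Complex.abs_im_le_norm _
    have h2 : ‖z - η‖ ≤ δ / 2 := by simpa [dist_eq_norm] using hz
    have h3 : (z - η).im = z.im := by simp
    rw [h3] at h1
    show |z.im| < δ
    linarith
  refine Complex.norm_iteratedDeriv_le_of_forall_mem_sphere_norm_le m (half_pos hδ) ?_ ?_
  · apply DifferentiableOn.diffContOnCl
    rw [closure_ball _ (half_pos hδ).ne']
    exact hf.mono hsub
  · intro z hz
    exact hC z (hsub (Metric.sphere_subset_closedBall hz))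

/-! ### the pulse matrices -/

theorem ana_slit {μ : ℝ} {η : ℂ} (hη : |η.im| < |μ|) :
    0 < (η ^ 2 + (μ : ℂ) ^ 2).re := by
  have h1 : η.im ^ 2 < μ ^ 2 := sq_lt_sq.mpr hη
  have h2 : (η ^ 2 + (μ : ℂ) ^ 2).re = η.re ^ 2 - η.im ^ 2 + μ ^ 2 := by
    simp [pow_two]
  rw [h2]
  nlinarith [sq_nonneg η.re]

theorem ana_om_differentiableOn {μ : ℝ} :
    DifferentiableOn ℂ (fun η => om μ η) {η : ℂ | |η.im| < |μ|} := by
  intro η hη
  have h1 : (η ^ 2 + (μ : ℂ) ^ 2) ∈ Complex.slitPlane := Or.inl (ana_slit hη)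
  have h2 : DifferentiableAt ℂ (fun η : ℂ => η ^ 2 + (μ : ℂ) ^ 2) η := by fun_prop
  exact (h2.cpow (differentiableAt_const _) h1).differentiableWithinAt

theorem E_differentiableOn {τ μ : ℝ} (hμ : μ ≠ 0) (i j : Fin 2) :
    DifferentiableOn ℂ (fun η => E τ μ η i j) {η : ℂ | |η.im| < |μ|} := by
  have hom : DifferentiableOn ℂ (fun η => om μ η) {η : ℂ | |η.im| < |μ|} :=
    ana_om_differentiableOn
  have hne : ∀ η ∈ {η : ℂ | |η.im| < |μ|}, om μ η ≠ 0 := fun η hη => om_ne hμ hη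
  have hc : DifferentiableOn ℂ (fun η => Complex.cos (τ * om μ η)) {η : ℂ | |η.im| < |μ|} :=
    Complex.differentiable_cos.comp_differentiableOn (hom.const_mul _)
  have hs : DifferentiableOn ℂ (fun η => Complex.sin (τ * om μ η)) {η : ℂ | |η.im| < |μ|} :=
    Complex.differentiable_sin.comp_differentiableOn (hom.const_mul _)
  have hso : DifferentiableOn ℂ (fun η => Complex.sin (τ * om μ η) / om μ η)
      {η : ℂ | |η.im| < |μ|} := hs.div hom hne
  have hid : DifferentiableOn ℂ (fun η : ℂ => Complex.I * η) {η : ℂ | |η.im| < |μ|} :=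
    (differentiable_id.const_mul _).differentiableOn
  fin_cases i <;> fin_cases j
  · exact hc.sub (hid.mul hso)
  · exact (hso.const_mul (Complex.I * μ)).neg
  · exact (hso.const_mul (Complex.I * μ)).neg
  · exact hc.add (hid.mul hso)

theorem ana_delta {L : List (ℝ × ℝ)} (hL : Adm L) :
    ∃ δ : ℝ, 0 < δ ∧ (∀ p ∈ L, δ ≤ |p.2|) := by
  induction L with
  | nil => exact ⟨1, one_pos, by simp⟩
  | cons p L ih =>
    obtain ⟨δ, hδ, h⟩ := ih (fun q hq => hL q (List.mem_cons_of_mem _ hq))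
    have hp : 0 < |p.2| := abs_pos.mpr (hL p List.mem_cons_self).2
    refine ⟨min δ |p.2|, lt_min hδ hp, ?_⟩
    intro q hq
    rcases List.mem_cons.mp hq with rfl | hq
    · exact min_le_right _ _
    · exact (min_le_left _ _).trans (h q hq)

theorem ana_mono_diffOn {L : List (ℝ × ℝ)} (hL : Adm L) {δ : ℝ} (hδ : ∀ p ∈ L, δ ≤ |p.2|) :
    ∀ i j, DifferentiableOn ℂ (fun η => mono L η i j) {η : ℂ | |η.im| < δ} := by
  induction L with
  | nil =>
    intro i j
    have : (fun η : ℂ => mono [] η i j) = fun _ => (1 : Mat) i j := by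
      ext η; simp [mono]
    rw [this]
    exact differentiableOn_const _
  | cons p L ih =>
    intro i j
    have ih' := ih (fun q hq => hL q (List.mem_cons_of_mem _ hq))
      (fun q hq => hδ q (List.mem_cons_of_mem _ hq))
    have hp := hδ p List.mem_cons_self
    have hE : ∀ i j, DifferentiableOn ℂ (fun η => E p.1 p.2 η i j) {η : ℂ | |η.im| < δ} :=
      fun i j => (E_differentiableOn (hL p List.mem_cons_self).2 i j).mono
        (fun η (hη : |η.im| < δ) => lt_of_lt_of_le hη hp)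
    have : (fun η : ℂ => mono (p :: L) η i j) = fun η =>
        mono L η i 0 * E p.1 p.2 η 0 j + mono L η i 1 * E p.1 p.2 η 1 j := by
      ext η
      simp [mono, Matrix.mul_apply, Fin.sum_univ_two]
    rw [this]
    exact ((ih' i 0).mul (hE 0 j)).add ((ih' i 1).mul (hE 1 j))

theorem mono_differentiableOn {L : List (ℝ × ℝ)} (hL : Adm L) :
    ∃ δ : ℝ, 0 < δ ∧ (∀ p ∈ L, δ ≤ |p.2|) ∧
      ∀ i j, DifferentiableOn ℂ (fun η => mono L η i j) {η : ℂ | |η.im| < δ} := by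
  obtain ⟨δ, hδ, h⟩ := ana_delta hL
  exact ⟨δ, hδ, h, ana_mono_diffOn hL h⟩

theorem ana_om_im (μ : ℝ) (η : ℂ) : |(om μ η).im| ≤ |η.im| := by
  have h := om_sq μ η
  set w := om μ η with hw
  have h1 : w.re ^ 2 - w.im ^ 2 = η.re ^ 2 - η.im ^ 2 + μ ^ 2 := by
    have := congrArg Complex.re h
    simpa [pow_two] using this
  have h2 : w.re * w.im = η.re * η.im := by
    have := congrArg Complex.im h
    simp [pow_two] at this
    linarith
  by_contra hlt
  push Not at hlt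
  have h3 : η.im ^ 2 < w.im ^ 2 := sq_lt_sq.mpr hlt
  have h4 : η.re ^ 2 < w.re ^ 2 := by nlinarith [sq_nonneg μ]
  have h5 : η.re ^ 2 * η.im ^ 2 < w.re ^ 2 * w.im ^ 2 :=
    mul_lt_mul'' h4 h3 (sq_nonneg _) (sq_nonneg _)
  have h6 : w.re ^ 2 * w.im ^ 2 = η.re ^ 2 * η.im ^ 2 := by
    rw [← mul_pow, ← mul_pow, h2]
  linarith

theorem ana_om_norm (μ : ℝ) (η : ℂ) : η.re ^ 2 - η.im ^ 2 + μ ^ 2 ≤ ‖om μ η‖ ^ 2 := by
  have h := om_sq μ η
  have h1 : (η ^ 2 + (μ : ℂ) ^ 2).re = η.re ^ 2 - η.im ^ 2 + μ ^ 2 := by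
    simp [pow_two]
  rw [← h1, ← norm_pow, h]
  exact Complex.re_le_norm _

theorem ana_norm_cos (z : ℂ) : ‖Complex.cos z‖ ≤ Real.exp |z.im| := by
  have h1 : ‖Complex.exp (z * Complex.I)‖ ≤ Real.exp |z.im| := by
    rw [Complex.norm_exp]; apply Real.exp_le_exp.mpr; simpa using neg_le_abs z.im
  have h2 : ‖Complex.exp (-z * Complex.I)‖ ≤ Real.exp |z.im| := by
    rw [Complex.norm_exp]; apply Real.exp_le_exp.mpr; simpa using le_abs_self z.im
  rw [Complex.cos, norm_div]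
  have h3 : ‖(2 : ℂ)‖ = 2 := by simp
  rw [h3, div_le_iff₀ (by norm_num)]
  calc _ ≤ _ := norm_add_le _ _
    _ ≤ _ := by linarith

theorem ana_norm_sin (z : ℂ) : ‖Complex.sin z‖ ≤ Real.exp |z.im| := by
  have h1 : ‖Complex.exp (z * Complex.I)‖ ≤ Real.exp |z.im| := by
    rw [Complex.norm_exp]; apply Real.exp_le_exp.mpr; simpa using neg_le_abs z.im
  have h2 : ‖Complex.exp (-z * Complex.I)‖ ≤ Real.exp |z.im| := by
    rw [Complex.norm_exp]; apply Real.exp_le_exp.mpr; simpa using le_abs_self z.im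
  rw [Complex.sin, norm_div, norm_mul]
  have h3 : ‖(2 : ℂ)‖ = 2 := by simp
  rw [h3, div_le_iff₀ (by norm_num), Complex.norm_I, mul_one]
  calc _ ≤ _ := norm_sub_le _ _
    _ ≤ _ := by linarith

theorem ana_E_bdd {τ μ : ℝ} (hμ : μ ≠ 0) {η : ℂ} (hη : |η.im| ≤ |μ| / 2) (i j : Fin 2) :
    ‖E τ μ η i j‖ ≤ 2 * Real.exp (|τ| * |η.im|) := by
  set w := om μ η with hw
  have hlt : |η.im| < |μ| := by have := abs_pos.mpr hμ; linarith
  have hwne : w ≠ 0 := om_ne hμ hlt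
  have hwpos : 0 < ‖w‖ := norm_pos_iff.mpr hwne
  have him : |(τ * w).im| ≤ |τ| * |η.im| := by
    have : ((τ : ℂ) * w).im = τ * w.im := by simp
    rw [this, abs_mul]
    exact mul_le_mul_of_nonneg_left (ana_om_im μ η) (abs_nonneg _)
  have hcos : ‖Complex.cos (τ * w)‖ ≤ Real.exp (|τ| * |η.im|) :=
    (ana_norm_cos _).trans (Real.exp_le_exp.mpr him)
  have hsin : ‖Complex.sin (τ * w)‖ ≤ Real.exp (|τ| * |η.im|) :=
    (ana_norm_sin _).trans (Real.exp_le_exp.mpr him)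
  have hn := ana_om_norm μ η
  rw [← hw] at hn
  have h4 : η.im ^ 2 ≤ μ ^ 2 / 4 := by
    have := pow_le_pow_left₀ (abs_nonneg _) hη 2
    rw [div_pow, sq_abs, sq_abs] at this
    linarith
  have hηw : ‖η‖ ≤ ‖w‖ := by
    apply le_of_sq_le_sq _ hwpos.le
    rw [← Complex.normSq_eq_norm_sq, Complex.normSq_apply]
    nlinarith [sq_nonneg μ]
  have hμw : |μ| ≤ 2 * ‖w‖ := by
    apply le_of_sq_le_sq _ (by positivity)
    rw [sq_abs, mul_pow]
    nlinarith [sq_nonneg μ, sq_nonneg η.re]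
  have he : 0 < Real.exp (|τ| * |η.im|) := Real.exp_pos _
  have hA : ‖Complex.I * η * (Complex.sin (τ * w) / w)‖ ≤ Real.exp (|τ| * |η.im|) := by
    rw [norm_mul, norm_mul, norm_div, Complex.norm_I, one_mul, mul_div_assoc', div_le_iff₀ hwpos,
      mul_comm (Real.exp _)]
    exact mul_le_mul hηw hsin (norm_nonneg _) hwpos.le
  have hB : ‖-(Complex.I * μ * (Complex.sin (τ * w) / w))‖ ≤ 2 * Real.exp (|τ| * |η.im|) := by
    rw [norm_neg, norm_mul, norm_mul, norm_div, Complex.norm_I, one_mul, Complex.norm_real,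
      Real.norm_eq_abs, mul_div_assoc', div_le_iff₀ hwpos]
    calc |μ| * ‖Complex.sin (τ * w)‖ ≤ (2 * ‖w‖) * Real.exp (|τ| * |η.im|) :=
          mul_le_mul hμw hsin (norm_nonneg _) (by positivity)
      _ = _ := by ring
  fin_cases i <;> fin_cases j
  · show ‖Complex.cos (τ * w) - Complex.I * η * (Complex.sin (τ * w) / w)‖ ≤ _
    exact (norm_sub_le _ _).trans (by linarith)
  · exact hB
  · exact hB
  · show ‖Complex.cos (τ * w) + Complex.I * η * (Complex.sin (τ * w) / w)‖ ≤ _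
    exact (norm_add_le _ _).trans (by linarith)

theorem ana_mono_bdd {L : List (ℝ × ℝ)} (hL : Adm L) {δ : ℝ} (hδ : ∀ p ∈ L, δ ≤ |p.2| / 2) :
    ∃ C : ℝ, 0 < C ∧ ∀ η : ℂ, |η.im| ≤ δ → ∀ i j, ‖mono L η i j‖ ≤ C := by
  induction L with
  | nil =>
    refine ⟨1, one_pos, ?_⟩
    intro η _ i j
    fin_cases i <;> fin_cases j <;> simp [mono]
  | cons p L ih =>
    obtain ⟨C, hC, h⟩ := ih (fun q hq => hL q (List.mem_cons_of_mem _ hq))
      (fun q hq => hδ q (List.mem_cons_of_mem _ hq))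
    have hp := hδ p List.mem_cons_self
    refine ⟨2 * (C * (2 * Real.exp (|p.1| * δ))), by positivity, ?_⟩
    intro η hη i j
    have hE : ∀ i j, ‖E p.1 p.2 η i j‖ ≤ 2 * Real.exp (|p.1| * δ) := by
      intro i j
      refine (ana_E_bdd (hL p List.mem_cons_self).2 (hη.trans hp) i j).trans ?_
      have : Real.exp (|p.1| * |η.im|) ≤ Real.exp (|p.1| * δ) :=
        Real.exp_le_exp.mpr (mul_le_mul_of_nonneg_left hη (abs_nonneg _))
      linarith
    have hm : mono (p :: L) η i j =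
        mono L η i 0 * E p.1 p.2 η 0 j + mono L η i 1 * E p.1 p.2 η 1 j := by
      simp [mono, Matrix.mul_apply, Fin.sum_univ_two]
    rw [hm]
    have h0 : ‖mono L η i 0 * E p.1 p.2 η 0 j‖ ≤ C * (2 * Real.exp (|p.1| * δ)) := by
      rw [norm_mul]; exact mul_le_mul (h η hη i 0) (hE 0 j) (norm_nonneg _) hC.le
    have h1 : ‖mono L η i 1 * E p.1 p.2 η 1 j‖ ≤ C * (2 * Real.exp (|p.1| * δ)) := by
      rw [norm_mul]; exact mul_le_mul (h η hη i 1) (hE 1 j) (norm_nonneg _) hC.le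
    exact (norm_add_le _ _).trans (by linarith)

/-- `mono L` is bounded on a strip -/
theorem mono_strip_bdd {L : List (ℝ × ℝ)} (hL : Adm L) :
    ∃ δ C : ℝ, 0 < δ ∧ ∀ η : ℂ, |η.im| ≤ δ → ∀ i j, ‖mono L η i j‖ ≤ C := by
  obtain ⟨δ, hδ, h⟩ := ana_delta hL
  obtain ⟨C, _, hC⟩ := ana_mono_bdd hL (δ := δ / 2) (fun p hp => by linarith [h p hp])
  exact ⟨δ / 2, C, half_pos hδ, hC⟩

/-- `mono L` is analytic and bounded on a common open strip -/
theorem ana_mono_strip {L : List (ℝ × ℝ)} (hL : Adm L) :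
    ∃ δ C : ℝ, 0 < δ ∧ (∀ p ∈ L, δ < |p.2|) ∧
      (∀ i j, DifferentiableOn ℂ (fun η => mono L η i j) {η : ℂ | |η.im| < δ}) ∧
      ∀ η : ℂ, |η.im| < δ → ∀ i j, ‖mono L η i j‖ ≤ C := by
  obtain ⟨δ, hδ, h⟩ := ana_delta hL
  obtain ⟨C, _, hC⟩ := ana_mono_bdd hL (δ := δ / 2) (fun p hp => by linarith [h p hp])
  refine ⟨δ / 2, C, half_pos hδ, fun p hp => by linarith [h p hp],
    ana_mono_diffOn hL (fun p hp => by linarith [h p hp]), fun η hη => hC η hη.le⟩

theorem mono_contDiff {L : List (ℝ × ℝ)} (hL : Adm L) (i j : Fin 2) :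
    ContDiff ℝ (⊤ : ℕ∞) (fun η : ℝ => mono L (η : ℂ) i j) := by
  obtain ⟨δ, C, hδ, _, hd, _⟩ := ana_mono_strip hL
  exact ana_contDiff_ofReal hδ (hd i j)

theorem mono_deriv_bdd {L : List (ℝ × ℝ)} (hL : Adm L) (m : ℕ) :
    ∃ C : ℝ, ∀ (η : ℝ) (i j : Fin 2),
      ‖iteratedDeriv m (fun η : ℝ => mono L (η : ℂ) i j) η‖ ≤ C := by
  obtain ⟨δ, C, hδ, _, hd, hC⟩ := ana_mono_strip hL
  exact ⟨m.factorial * C / (δ / 2) ^ m, fun η i j =>
    ana_deriv_bdd hδ (hd i j) (fun z hz => hC z hz i j) m η⟩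

end Pool.Agent.H5.DF
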