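import Pool.Agent.H5.DF.Defs
import Pool.Agent.H5.DF.AlgM
import Pool.Agent.H5.DF.Ana

set_option autoImplicit false
open MeasureTheory Set Filter Topology
open scoped ENNReal NNReal FourierTransform

namespace Pool.Agent.H5.DF

/-!
Part ANA2. The half trace and the function `G` on the real line.
`M ∈ SU(2)`: `M₁₁ = conj M₀₀` (from `M* M = 1`, `det M = 1`), so the half trace is real with absolute
value `≤ 1`.  Smoothness and bounds of all derivatives from `mono_contDiff`, `mono_deriv_bdd` (Leibniz).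
`D L` is analytic in a strip and real on the real line, so complex derivatives at real points are the
real derivatives (`HasDerivAt.real_of_complex`, `HasDerivAt.comp_ofReal`).
-/

/-! ### general lemmas -/

/-- smooth functions with all derivatives bounded -/
def ana2_Bd (f : ℝ → ℝ) : Prop :=
  ContDiff ℝ (⊤ : ℕ∞) f ∧ ∀ m : ℕ, ∃ C : ℝ, ∀ η : ℝ, |iteratedDeriv m f η| ≤ C

theorem ana2_Bd.deriv {f : ℝ → ℝ} (hf : ana2_Bd f) : ana2_Bd (deriv f) := by
  refine ⟨(contDiff_infty_iff_deriv.1 hf.1).2, fun m => ?_⟩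
  obtain ⟨C, hC⟩ := hf.2 (m + 1)
  refine ⟨C, fun η => ?_⟩
  rw [← iteratedDeriv_succ']
  exact hC η

theorem ana2_Bd.mul {f g : ℝ → ℝ} (hf : ana2_Bd f) (hg : ana2_Bd g) :
    ana2_Bd (fun η => f η * g η) := by
  refine ⟨hf.1.mul hg.1, fun m => ?_⟩
  choose A hA using hf.2
  choose B hB using hg.2
  refine ⟨∑ i ∈ Finset.range (m + 1), (m.choose i : ℝ) * A i * B (m - i), fun η => ?_⟩
  have h := norm_iteratedFDeriv_mul_le hf.1 hg.1 η (n := m) (by exact_mod_cast le_top)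
  rw [norm_iteratedFDeriv_eq_norm_iteratedDeriv, Real.norm_eq_abs] at h
  refine h.trans (Finset.sum_le_sum fun i _ => ?_)
  rw [norm_iteratedFDeriv_eq_norm_iteratedDeriv, norm_iteratedFDeriv_eq_norm_iteratedDeriv,
    Real.norm_eq_abs, Real.norm_eq_abs]
  have hAi : 0 ≤ A i := (abs_nonneg _).trans (hA i η)
  have hBi : 0 ≤ B (m - i) := (abs_nonneg _).trans (hB (m - i) η)
  have h1 : (m.choose i : ℝ) * |iteratedDeriv i f η| ≤ (m.choose i : ℝ) * A i :=
    mul_le_mul_of_nonneg_left (hA i η) (by positivity)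
  exact mul_le_mul h1 (hB (m - i) η) (abs_nonneg _) (by positivity)

theorem ana2_Bd.add {f g : ℝ → ℝ} (hf : ana2_Bd f) (hg : ana2_Bd g) :
    ana2_Bd (fun η => f η + g η) := by
  refine ⟨hf.1.add hg.1, fun m => ?_⟩
  obtain ⟨A, hA⟩ := hf.2 m
  obtain ⟨B, hB⟩ := hg.2 m
  refine ⟨A + B, fun η => ?_⟩
  have h1 : iteratedDeriv m (fun η => f η + g η) η = iteratedDeriv m f η + iteratedDeriv m g η := by
    have := iteratedDeriv_add (n := m) (x := η) (f := f) (g := g)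
      ((hf.1.of_le (by exact_mod_cast le_top)).contDiffAt)
      ((hg.1.of_le (by exact_mod_cast le_top)).contDiffAt)
    simpa [Pi.add_def] using this
  rw [h1]
  exact (abs_add_le _ _).trans (add_le_add (hA η) (hB η))

theorem ana2_Bd.const (c : ℝ) : ana2_Bd (fun _ => c) := by
  refine ⟨contDiff_const, fun m => ⟨|c|, fun η => ?_⟩⟩
  rw [iteratedDeriv_const]
  split_ifs
  · exact le_rfl
  · simp

theorem ana2_iteratedDeriv_cast {g : ℝ → ℝ} (hg : ContDiff ℝ (⊤ : ℕ∞) g) (m : ℕ) :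
    iteratedDeriv m (fun η : ℝ => ((g η : ℝ) : ℂ)) =
      fun η : ℝ => ((iteratedDeriv m g η : ℝ) : ℂ) := by
  induction m with
  | zero => ext η; simp
  | succ m ih =>
    ext η
    rw [iteratedDeriv_succ, ih, iteratedDeriv_succ]
    have hd : DifferentiableAt ℝ (iteratedDeriv m g) η :=
      (hg.differentiable_iteratedDeriv m (by exact_mod_cast WithTop.coe_lt_top m)).differentiableAt
    exact hd.hasDerivAt.ofReal_comp.deriv

theorem ana2_iteratedDeriv_real {δ : ℝ} (hδ : 0 < δ) {f : ℂ → ℂ}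
    (hf : DifferentiableOn ℂ f {η : ℂ | |η.im| < δ}) {g : ℝ → ℝ}
    (hfg : ∀ η : ℝ, f (η : ℂ) = ((g η : ℝ) : ℂ)) (m : ℕ) (η : ℝ) :
    iteratedDeriv m f (η : ℂ) = ((iteratedDeriv m g η : ℝ) : ℂ) := by
  have h1 : (fun η : ℝ => f (η : ℂ)) = fun η : ℝ => ((g η : ℝ) : ℂ) := funext hfg
  have hg : ContDiff ℝ (⊤ : ℕ∞) g := by
    have h2 := ana_contDiff_ofReal hδ hf
    rw [h1] at h2
    have h3 := Complex.reCLM.contDiff.comp h2
    exact h3
  have h4 := congrFun (ana_iteratedDeriv_ofReal hδ hf m) η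
  rw [h1, ana2_iteratedDeriv_cast hg m] at h4
  exact h4.symm

/-! ### the half trace -/

theorem ana2_SU2 {M : Mat} (h1 : M.conjTranspose * M = 1) (h2 : M.det = 1) :
    M 1 1 = star (M 0 0) := by
  have h3 : M * M.conjTranspose = 1 := mul_eq_one_comm.mp h1
  have h4 : M.conjTranspose = M.adjugate := by
    calc M.conjTranspose = (M.adjugate * M) * M.conjTranspose := by
          rw [Matrix.adjugate_mul, h2, one_smul, one_mul]
      _ = M.adjugate * (M * M.conjTranspose) := by rw [mul_assoc]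
      _ = M.adjugate := by rw [h3, mul_one]
  have h5 := congrFun (congrFun h4 0) 0
  rw [Matrix.adjugate_fin_two] at h5
  simpa using h5.symm

/-- `mono L η` is in `SU(2)` for real `η`: the half trace is real. -/
theorem D_real {L : List (ℝ × ℝ)} (hL : Adm L) (η : ℝ) : D L (η : ℂ) = ((Dr L η : ℝ) : ℂ) := by
  have hdet : (mono L (η : ℂ)).det = 1 :=
    mono_det hL (fun p hp => by simpa using abs_pos.mpr (hL p hp).2)
  have h := ana2_SU2 (mono_unitary hL η) hdet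
  have h2 : D L (η : ℂ) = (((mono L (η : ℂ) 0 0).re : ℝ) : ℂ) := by
    unfold D
    rw [h]
    have := Complex.add_conj (mono L (η : ℂ) 0 0)
    rw [show star (mono L (η : ℂ) 0 0) = (starRingEnd ℂ) (mono L (η : ℂ) 0 0) from rfl, this]
    push_cast
    ring
  rw [Dr, h2, Complex.ofReal_re]

theorem Dr_abs_le {L : List (ℝ × ℝ)} (hL : Adm L) (η : ℝ) : |Dr L η| ≤ 1 := by
  have h0 := mono_entry_le hL η 0 0
  have h1 := mono_entry_le hL η 1 1
  have h2 : ‖D L (η : ℂ)‖ ≤ 1 := by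
    unfold D
    rw [norm_div]
    have h3 : ‖(2 : ℂ)‖ = 2 := by simp
    rw [h3, div_le_iff₀ (by norm_num)]
    exact (norm_add_le _ _).trans (by linarith)
  exact (Complex.abs_re_le_norm _).trans h2

theorem ana2_D_strip {L : List (ℝ × ℝ)} (hL : Adm L) :
    ∃ δ C : ℝ, 0 < δ ∧ DifferentiableOn ℂ (D L) {η : ℂ | |η.im| < δ} ∧
      ∀ η : ℂ, |η.im| < δ → ‖D L η‖ ≤ C := by
  obtain ⟨δ, C, hδ, _, hd, hC⟩ := ana_mono_strip hL
  refine ⟨δ, C, hδ, ?_, ?_⟩
  · exact ((hd 0 0).add (hd 1 1)).div_const 2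
  · intro η hη
    unfold D
    rw [norm_div]
    have h3 : ‖(2 : ℂ)‖ = 2 := by simp
    rw [h3, div_le_iff₀ (by norm_num)]
    exact (norm_add_le _ _).trans (by linarith [hC η hη 0 0, hC η hη 1 1])

theorem ana2_Dr_Bd {L : List (ℝ × ℝ)} (hL : Adm L) : ana2_Bd (Dr L) := by
  obtain ⟨δ, C, hδ, hd, hC⟩ := ana2_D_strip hL
  have hsm : ContDiff ℝ (⊤ : ℕ∞) (Dr L) := by
    have h2 := ana_contDiff_ofReal hδ hd
    have h3 := Complex.reCLM.contDiff.comp h2
    exact h3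
  refine ⟨hsm, fun m => ⟨m.factorial * C / (δ / 2) ^ m, fun η => ?_⟩⟩
  have h1 := ana_deriv_bdd hδ hd hC m η
  have h2 : (fun η : ℝ => D L (η : ℂ)) = fun η : ℝ => ((Dr L η : ℝ) : ℂ) := funext (D_real hL)
  rw [h2, ana2_iteratedDeriv_cast hsm m, Complex.norm_real, Real.norm_eq_abs] at h1
  exact h1

theorem Dr_contDiff {L : List (ℝ × ℝ)} (hL : Adm L) : ContDiff ℝ (⊤ : ℕ∞) (Dr L) :=
  (ana2_Dr_Bd hL).1

theorem Dr_deriv_bdd {L : List (ℝ × ℝ)} (hL : Adm L) (m : ℕ) :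
    ∃ C : ℝ, ∀ η : ℝ, |iteratedDeriv m (Dr L) η| ≤ C :=
  (ana2_Dr_Bd hL).2 m

theorem ana2_G_Bd {L : List (ℝ × ℝ)} (hL : Adm L) : ana2_Bd (G L) := by
  have h0 := ana2_Dr_Bd hL
  have h1 := h0.deriv
  have h2 := h1.deriv
  have h3 : ana2_Bd (fun η => 1 + (-1) * (Dr L η * Dr L η)) :=
    (ana2_Bd.const 1).add ((ana2_Bd.const (-1)).mul (h0.mul h0))
  have h4 := (h2.mul h3).add (h0.mul (h1.mul h1))
  have h5 : G L = fun η => deriv (deriv (Dr L)) η * (1 + (-1) * (Dr L η * Dr L η)) +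
      Dr L η * (deriv (Dr L) η * deriv (Dr L) η) := by
    ext η
    unfold G
    ring
  rw [h5]
  exact h4

theorem G_contDiff {L : List (ℝ × ℝ)} (hL : Adm L) : ContDiff ℝ (⊤ : ℕ∞) (G L) :=
  (ana2_G_Bd hL).1

theorem G_deriv_bdd {L : List (ℝ × ℝ)} (hL : Adm L) (m : ℕ) :
    ∃ C : ℝ, ∀ η : ℝ, |iteratedDeriv m (G L) η| ≤ C :=
  (ana2_G_Bd hL).2 m

/-- complex and real versions of `G` -/
theorem Gc_real {L : List (ℝ × ℝ)} (hL : Adm L) (η : ℝ) : Gc L (η : ℂ) = ((G L η : ℝ) : ℂ) := by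
  obtain ⟨δ, C, hδ, hd, hC⟩ := ana2_D_strip hL
  have h1 := ana2_iteratedDeriv_real hδ hd (D_real hL) 1 η
  have h2 := ana2_iteratedDeriv_real hδ hd (D_real hL) 2 η
  rw [iteratedDeriv_one, iteratedDeriv_one] at h1
  rw [iteratedDeriv_succ, iteratedDeriv_one, iteratedDeriv_succ, iteratedDeriv_one] at h2
  unfold Gc G
  rw [h1, h2, D_real hL]
  push_cast
  ring

theorem ana2_Gc_differentiableOn {L : List (ℝ × ℝ)} {δ : ℝ}
    (hd : DifferentiableOn ℂ (D L) {η : ℂ | |η.im| < δ}) :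
    DifferentiableOn ℂ (Gc L) {η : ℂ | |η.im| < δ} := by
  have h1 : DifferentiableOn ℂ (deriv (D L)) {η : ℂ | |η.im| < δ} :=
    hd.deriv (ana_isOpen_strip δ)
  have h2 : DifferentiableOn ℂ (deriv (deriv (D L))) {η : ℂ | |η.im| < δ} :=
    h1.deriv (ana_isOpen_strip δ)
  exact (h2.mul ((differentiableOn_const 1).sub (hd.pow 2))).add (hd.mul (h1.pow 2))

theorem Gc_iteratedDeriv {L : List (ℝ × ℝ)} (hL : Adm L) (m : ℕ) (η : ℝ) :
    iteratedDeriv m (Gc L) (η : ℂ) = ((iteratedDeriv m (G L) η : ℝ) : ℂ) := by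
  obtain ⟨δ, C, hδ, hd, hC⟩ := ana2_D_strip hL
  exact ana2_iteratedDeriv_real hδ (ana2_Gc_differentiableOn hd) (Gc_real hL) m η

end Pool.Agent.H5.DF
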