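import Mathlib

set_option autoImplicit false
open MeasureTheory Set Filter Topology
open scoped ENNReal NNReal FourierTransform

/-!
The notions of the statement for `MP_24bb3f_an` (time-periodically forced Dirac equation).
-/

namespace Pool.Agent.H5.DF

/-- spinors -/
abbrev V := EuclideanSpace ℂ (Fin 2)

/-- complex 2 × 2 matrices -/
abbrev Mat := Matrix (Fin 2) (Fin 2) ℂ

/-- third Pauli matrix -/
def s3 : Mat := !![1, 0; 0, -1]

/-- action of a matrix on a spinor -/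
noncomputable def act (A : Mat) (v : V) : V := WithLp.toLp 2 (A.mulVec (WithLp.ofLp v))

/-- `ν` is a (measurable) bounded, `T`-periodic, Hermitian-valued forcing. -/
structure Forcing (T : ℝ) (ν : ℝ → Mat) : Prop where
  meas : ∀ i j, Measurable fun t => ν t i j
  bdd : ∃ C : ℝ, ∀ t i j, ‖ν t i j‖ ≤ C
  per : ∀ t, ν (t + T) = ν t
  herm : ∀ t, (ν t).IsHermitian

/-- `L²(ℝ; ℂ²)` -/
def L2 : Type := Lp V 2 (volume : Measure ℝ)

/-- an element of `L²` as a function -/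
noncomputable def toFn (f : L2) : ℝ → V :=
  (show Lp V 2 (volume : Measure ℝ) from f : Lp V 2 (volume : Measure ℝ))

/-- the Fourier transform (Plancherel) on `L²(ℝ; ℂ²)` -/
noncomputable def FT (f : L2) : L2 :=
  (𝓕 (show Lp V 2 (volume : Measure ℝ) from f) : Lp V 2 (volume : Measure ℝ))

/-- `u` is (a version of) the Fourier transform of `f ∈ L²` -/
def FTis (f : L2) (u : ℝ → V) : Prop := toFn (FT f) =ᵐ[volume] u

/-- the Fourier transform of an integrable function, `∫ exp(-2πixξ) g(x) dx` -/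
noncomputable def FT1 (g : ℝ → V) : ℝ → V := 𝓕 g

/-- the Fourier symbol of `i σ₃ ∂_x + ν(s)` (`∂_x` becomes `2 π i ξ`) -/
noncomputable def Ham (ν : ℝ → Mat) (ξ s : ℝ) : Mat := (-(2 * Real.pi * ξ) : ℂ) • s3 + ν s

/-- `i F' = Ham F` on `[0, ∞)`, integrated form -/
def Ode (ν : ℝ → Mat) (ξ : ℝ) (F : ℝ → V) : Prop :=
  ContinuousOn F (Ici 0) ∧
    ∀ t, 0 ≤ t → F t = F 0 - Complex.I • ∫ s in (0 : ℝ)..t, act (Ham ν ξ s) (F s)

/-- `α` solves `i ∂_t α = (i σ₃ ∂_x + ν(t)) α` for `t ≥ 0` with initial value `f`, in `L²(ℝ; ℂ²)`. -/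
def Solves (ν : ℝ → Mat) (f : L2) (α : ℝ → L2) : Prop :=
  ∃ F : ℝ → ℝ → V, (∀ t, 0 ≤ t → FTis (α t) (F t)) ∧ FTis f (F 0) ∧
    ∀ ξ : ℝ, Ode ν ξ fun t => F t ξ

/-- the symbol of `⟨i∂_x⟩^r` (`i∂_x` is `-2πξ` on the Fourier side) -/
noncomputable def Jap (r ξ : ℝ) : ℂ := (((1 + (2 * Real.pi * ξ) ^ 2) ^ (r / 2) : ℝ) : ℂ)

/-- `g = ⟨i∂_x⟩^r f`, `g` integrable -/
def IsJap (r : ℝ) (f : L2) (g : ℝ → V) : Prop :=
  MemLp g 1 volume ∧ FT1 g =ᵐ[volume] fun ξ => Jap r ξ • toFn (FT f) ξ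

/-- `‖u‖_{L^∞}` -/
noncomputable def supNorm (u : L2) : ℝ≥0∞ := eLpNorm (toFn u) ⊤ volume

/-- `‖g‖_{L¹}` -/
noncomputable def oneNorm (g : ℝ → V) : ℝ≥0∞ := eLpNorm g 1 volume

/-- the decay estimate of order `(r, σ)` with constant `c` -/
def DecayWith (ν : ℝ → Mat) (r σ c : ℝ) : Prop :=
  ∀ (f : L2) (g : ℝ → V) (α : ℝ → L2), IsJap r f g → Solves ν f α →
    ∀ t : ℝ, 0 < t → supNorm (α t) ≤ ENNReal.ofReal (c / t ^ σ) * oneNorm g

/-- a decay estimate of order `(r, σ)` holds -/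
def DecayEstimate (ν : ℝ → Mat) (r σ : ℝ) : Prop := ∃ c : ℝ, DecayWith ν r σ c

/-- `ν` is dispersive -/
def IsDispersive (ν : ℝ → Mat) : Prop := ∃ r σ : ℝ, 0 ≤ r ∧ 0 < σ ∧ DecayEstimate ν r σ

end Pool.Agent.H5.DF
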