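import Pool.Agent.H5.DF.Defs
import Pool.Agent.H5.DF.AlgM
import Pool.Agent.H5.DF.Ana

set_option autoImplicit false
open MeasureTheory Set Filter Topology
open scoped ENNReal NNReal FourierTransform

namespace Pool.Agent.H5.DF

/-!
Part COEF. Calculus of leading coefficients at `η = 0`, first half.
`coef_exists`: `mono L` is smooth, `mono L η - 1 = O(η^j)`, so it is `η^j C + O(η^{j+1})` (Taylor);
unitarity gives `C + C* = 0`, `det = 1` gives `tr C = 0` (as `j ≥ 1`), so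
`C = -i (e₁ σ₁ + e₂ σ₂ + e₃ σ₃)` with real `e`.  In `Coef` only `|η| ≤ 1` matters and everything is
bounded there, so `O(η^{j+1})` near `0` is enough.
`coef_append`: multiply; `2 j ≥ j + 1`.
-/

/-- the leading coefficient of an analytic function -/
theorem COEF_factor {F : ℂ → ℂ} (hF : AnalyticAt ℂ F 0) {j : ℕ} {C : ℝ}
    (h : ∀ η : ℝ, |η| ≤ 1 → ‖F (η : ℂ)‖ ≤ C * |η| ^ j) (n : ℕ) (hn : n ≤ j) :
    ∃ g : ℂ → ℂ, AnalyticAt ℂ g 0 ∧ ∀ᶠ z in 𝓝 (0 : ℂ), F z = z ^ n * g z := by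
  induction n with
  | zero => exact ⟨F, hF, Eventually.of_forall fun z => by simp⟩
  | succ n ih =>
    obtain ⟨g, hg, he⟩ := ih (by omega)
    -- `g 0 = 0`
    have hg0 : g 0 = 0 := by
      have hcoe : Tendsto (fun η : ℝ => (η : ℂ)) (𝓝[>] 0) (𝓝 0) := by
        have : Tendsto (fun η : ℝ => (η : ℂ)) (𝓝 0) (𝓝 ((0 : ℝ) : ℂ)) :=
          Complex.continuous_ofReal.continuousAt
        rw [Complex.ofReal_zero] at this
        exact this.mono_left nhdsWithin_le_nhds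
      have h1 : Tendsto (fun η : ℝ => ‖g (η : ℂ)‖) (𝓝[>] 0) (𝓝 ‖g 0‖) :=
        (hg.continuousAt.tendsto.comp hcoe).norm
      have h2 : Tendsto (fun η : ℝ => |C| * η) (𝓝[>] 0) (𝓝 (|C| * 0)) :=
        ((continuous_const.mul continuous_id).tendsto 0).mono_left nhdsWithin_le_nhds
      have h3 : ‖g 0‖ ≤ |C| * 0 := by
        refine le_of_tendsto_of_tendsto h1 h2 ?_
        have he' := hcoe.eventually he
        have hlt : ∀ᶠ η : ℝ in 𝓝[>] 0, η ∈ Set.Ioo (0 : ℝ) 1 := Ioo_mem_nhdsGT one_pos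
        filter_upwards [he', hlt] with η h4 h5
        have h6 := h η (by rw [abs_of_pos h5.1]; exact h5.2.le)
        rw [h4, norm_mul, norm_pow, Complex.norm_real, Real.norm_eq_abs, abs_of_pos h5.1] at h6
        have h7 : 0 < η ^ n := pow_pos h5.1 n
        have h8 : C * η ^ j ≤ |C| * (η ^ n * η) := by
          rw [← pow_succ]
          have h9 : η ^ j ≤ η ^ (n + 1) := pow_le_pow_of_le_one h5.1.le h5.2.le hn
          calc C * η ^ j ≤ |C| * η ^ j := by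
                exact mul_le_mul_of_nonneg_right (le_abs_self C) (pow_nonneg h5.1.le j)
            _ ≤ _ := by gcongr
        have h10 : η ^ n * ‖g (η : ℂ)‖ ≤ η ^ n * (|C| * η) := by
          refine (h6.trans h8).trans (le_of_eq ?_)
          ring
        exact le_of_mul_le_mul_left h10 h7
      simp only [mul_zero] at h3
      exact norm_le_zero_iff.1 h3
    obtain ⟨p, hp⟩ := hg
    refine ⟨dslope g 0, ⟨p.fslope, hp.has_fpower_series_dslope_fslope⟩, ?_⟩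
    filter_upwards [he] with z hz
    rw [hz, pow_succ, mul_assoc]
    congr 1
    have := sub_smul_dslope g 0 z
    rw [sub_zero, hg0, sub_zero, smul_eq_mul] at this
    exact this.symm

theorem COEF_lead {F : ℂ → ℂ} (hF : AnalyticAt ℂ F 0) {j : ℕ} {C : ℝ}
    (h : ∀ η : ℝ, |η| ≤ 1 → ‖F (η : ℂ)‖ ≤ C * |η| ^ j) :
    ∃ (c : ℂ) (K : ℝ), ∀ η : ℝ, |η| ≤ 1 → ‖F (η : ℂ) - (η : ℂ) ^ j * c‖ ≤ K * |η| ^ (j + 1) := by
  obtain ⟨g, hg, he⟩ := COEF_factor hF h j le_rfl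
  have hO := hg.differentiableAt.isBigO_sub
  obtain ⟨K, hK⟩ := hO.bound
  obtain ⟨r, hr, hball⟩ := Metric.eventually_nhds_iff.1 (he.and hK)
  have hCn : 0 ≤ C := by
    have := h 1 (by simp)
    simp only [abs_one, one_pow, mul_one] at this
    exact (norm_nonneg _).trans this
  refine ⟨g 0, max K ((C + ‖g 0‖) / min r 1), ?_⟩
  have hr1 : 0 < min r 1 := lt_min hr one_pos
  intro η hη
  by_cases hc : |η| < r
  · have hd : dist (η : ℂ) 0 < r := by
      rw [dist_zero_right, Complex.norm_real, Real.norm_eq_abs]; exact hc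
    obtain ⟨h1, h2⟩ := hball hd
    rw [sub_zero, Complex.norm_real, Real.norm_eq_abs] at h2
    rw [h1, ← mul_sub, norm_mul, norm_pow, Complex.norm_real, Real.norm_eq_abs]
    calc |η| ^ j * ‖g η - g 0‖ ≤ |η| ^ j * (K * |η|) := by gcongr
      _ = K * |η| ^ (j + 1) := by ring
      _ ≤ _ := by gcongr; exact le_max_left _ _
  · have hc : min r 1 ≤ |η| := (min_le_left _ _).trans (not_lt.1 hc)
    have h1 : ‖F (η : ℂ) - (η : ℂ) ^ j * g 0‖ ≤ (C + ‖g 0‖) * |η| ^ j := by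
      refine (norm_sub_le _ _).trans ?_
      rw [norm_mul, norm_pow, Complex.norm_real, Real.norm_eq_abs, add_mul]
      refine add_le_add (h η hη) (le_of_eq (mul_comm _ _))
    refine h1.trans ?_
    calc (C + ‖g 0‖) * |η| ^ j = ((C + ‖g 0‖) / min r 1) * (|η| ^ j * min r 1) := by
          field_simp
      _ ≤ ((C + ‖g 0‖) / min r 1) * (|η| ^ j * |η|) := by gcongr
      _ = ((C + ‖g 0‖) / min r 1) * |η| ^ (j + 1) := by rw [pow_succ]
      _ ≤ _ := by gcongr; exact le_max_right _ _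

theorem COEF_zero {a : ℂ} {j : ℕ} {K : ℝ}
    (h : ∀ η : ℝ, 0 < η → η ≤ 1 → ‖(η : ℂ) ^ j * a‖ ≤ K * η ^ (j + 1)) : a = 0 := by
  have h1 : ∀ η : ℝ, 0 < η → η ≤ 1 → ‖a‖ ≤ K * η := by
    intro η h0 h1
    have h2 := h η h0 h1
    rw [norm_mul, norm_pow, Complex.norm_real, Real.norm_eq_abs, abs_of_pos h0] at h2
    have h3 : 0 < η ^ j := pow_pos h0 j
    have h4 : η ^ j * ‖a‖ ≤ η ^ j * (K * η) := h2.trans (le_of_eq (by ring))
    exact le_of_mul_le_mul_left h4 h3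
  have h2 : Tendsto (fun η : ℝ => K * η) (𝓝[>] 0) (𝓝 (K * 0)) :=
    ((continuous_const.mul continuous_id).tendsto 0).mono_left nhdsWithin_le_nhds
  have h3 : ‖a‖ ≤ K * 0 := by
    refine ge_of_tendsto h2 ?_
    have hlt : ∀ᶠ η : ℝ in 𝓝[>] 0, η ∈ Set.Ioo (0 : ℝ) 1 := Ioo_mem_nhdsGT one_pos
    filter_upwards [hlt] with η h5 using h1 η h5.1 h5.2.le
  simp only [mul_zero] at h3
  exact norm_le_zero_iff.1 h3

theorem COEF_bound {ι : Type*} [Fintype ι] (P : ι → ℝ → ℝ → Prop)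
    (hmono : ∀ i C C' η, C ≤ C' → P i C η → P i C' η)
    (h : ∀ i, ∃ C : ℝ, ∀ η : ℝ, |η| ≤ 1 → P i C η) :
    ∃ C : ℝ, 0 ≤ C ∧ ∀ η : ℝ, |η| ≤ 1 → ∀ i, P i C η := by
  choose C hC using h
  refine ⟨∑ i, |C i|, Finset.sum_nonneg fun _ _ => abs_nonneg _, ?_⟩
  intro η hη i
  exact hmono i _ _ η ((le_abs_self _).trans
    (Finset.single_le_sum (f := fun i => |C i|) (fun _ _ => abs_nonneg _) (Finset.mem_univ i)))
    (hC i η hη)

theorem COEF_analytic {L : List (ℝ × ℝ)} (hL : Adm L) (i k : Fin 2) :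
    AnalyticAt ℂ (fun z => (mono L z - 1) i k) 0 := by
  obtain ⟨δ, hδ, -, hd⟩ := mono_differentiableOn hL
  have hopen : IsOpen {η : ℂ | |η.im| < δ} := isOpen_lt (by fun_prop) continuous_const
  have h0 : (0 : ℂ) ∈ {η : ℂ | |η.im| < δ} := by simpa using hδ
  have h1 : DifferentiableOn ℂ (fun z => (mono L z - 1) i k) {η : ℂ | |η.im| < δ} := by
    have : (fun z => (mono L z - 1) i k) = fun z => mono L z i k - (1 : Mat) i k := by
      funext z
      rw [Matrix.sub_apply]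
    rw [this]
    exact (hd i k).sub (differentiableOn_const _)
  exact h1.analyticAt (hopen.mem_nhds h0)

/-- the sigma combination -/
theorem COEF_S (e₁ e₂ e₃ : ℝ) :
    ((e₁ : ℂ) • s1 + (e₂ : ℂ) • s2 + (e₃ : ℂ) • s3 : Mat) =
      !![(e₃ : ℂ), e₁ - Complex.I * e₂; e₁ + Complex.I * e₂, -(e₃ : ℂ)] := by
  ext i k
  fin_cases i <;> fin_cases k <;> simp [s1, s2, s3] <;> ring

theorem coef_exists {j : ℕ} (hj : 1 ≤ j) {L : List (ℝ × ℝ)} (hL : Adm L) (h : NearId j L) :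
    ∃ e₁ e₂ e₃ : ℝ, Coef j L e₁ e₂ e₃ := by
  obtain ⟨C, hC⟩ := h
  have hC0 : 0 ≤ C := by
    have := hC 1 (by simp) 0 0
    simp only [abs_one, one_pow, mul_one] at this
    exact (norm_nonneg _).trans this
  have hlead : ∀ i k : Fin 2, ∃ (c : ℂ) (K : ℝ), ∀ η : ℝ, |η| ≤ 1 →
      ‖(mono L (η : ℂ) - 1) i k - (η : ℂ) ^ j * c‖ ≤ K * |η| ^ (j + 1) := fun i k =>
    COEF_lead (COEF_analytic hL i k) fun η hη => hC η hη i k
  choose c K₀ hK₀ using hlead
  obtain ⟨K, hK0, hK⟩ : ∃ K : ℝ, 0 ≤ K ∧ ∀ η : ℝ, |η| ≤ 1 → ∀ p : Fin 2 × Fin 2,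
      ‖(mono L (η : ℂ) - 1) p.1 p.2 - (η : ℂ) ^ j * c p.1 p.2‖ ≤ K * |η| ^ (j + 1) := by
    refine COEF_bound (fun (p : Fin 2 × Fin 2) (C : ℝ) (η : ℝ) => ‖(mono L (η : ℂ) - 1) p.1 p.2 - (η : ℂ) ^ j * c p.1 p.2‖ ≤
      C * |η| ^ (j + 1)) ?_ ?_
    · intro p C C' η hc hp
      refine hp.trans ?_
      gcongr
    · intro p
      exact ⟨K₀ p.1 p.2, hK₀ p.1 p.2⟩
  -- products are small
  have hprod : ∀ η : ℝ, 0 < η → η ≤ 1 → ∀ {a b : ℂ}, ‖a‖ ≤ C * η ^ j → ‖b‖ ≤ C * η ^ j →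
      ‖a * b‖ ≤ C ^ 2 * η ^ (j + 1) := by
    intro η h0 h1 a b ha hb
    rw [norm_mul]
    calc ‖a‖ * ‖b‖ ≤ (C * η ^ j) * (C * η ^ j) := by gcongr
      _ = C ^ 2 * η ^ (j + j) := by rw [pow_add]; ring
      _ ≤ C ^ 2 * η ^ (j + 1) := by
        have : η ^ (j + j) ≤ η ^ (j + 1) := pow_le_pow_of_le_one h0.le h1 (by omega)
        gcongr
  have hCa : ∀ η : ℝ, 0 < η → η ≤ 1 → ∀ i k, ‖(mono L (η : ℂ) - 1) i k‖ ≤ C * η ^ j := by
    intro η h0 h1 i k
    have := hC η (by rw [abs_of_pos h0]; exact h1) i k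
    rwa [abs_of_pos h0] at this
  have hKa : ∀ η : ℝ, 0 < η → η ≤ 1 → ∀ i k,
      ‖(mono L (η : ℂ) - 1) i k - (η : ℂ) ^ j * c i k‖ ≤ K * η ^ (j + 1) := by
    intro η h0 h1 i k
    have := hK η (by rw [abs_of_pos h0]; exact h1) (i, k)
    rwa [abs_of_pos h0] at this
  -- unitarity
  have huni : ∀ i k : Fin 2, c i k + (starRingEnd ℂ) (c k i) = 0 := by
    intro i k
    refine COEF_zero (j := j) (K := 2 * C ^ 2 + 2 * K) ?_
    intro η h0 h1
    have hu := mono_unitary hL η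
    set X : Mat := mono L (η : ℂ) - 1 with hX
    have hM : mono L (η : ℂ) = 1 + X := by rw [hX]; abel
    rw [hM] at hu
    have hu2 : X + X.conjTranspose + X.conjTranspose * X = 0 := by
      have : (1 + X).conjTranspose * (1 + X) = 1 + (X + X.conjTranspose + X.conjTranspose * X) := by
        rw [Matrix.conjTranspose_add, Matrix.conjTranspose_one]
        noncomm_ring
      rw [this] at hu
      exact add_eq_left.1 hu
    have hu3 := congrFun (congrFun hu2 i) k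
    simp only [Matrix.add_apply, Matrix.conjTranspose_apply, Matrix.mul_apply, Fin.sum_univ_two,
      Matrix.zero_apply] at hu3
    have e : (η : ℂ) ^ j * (c i k + (starRingEnd ℂ) (c k i)) =
        -(X i k - (η : ℂ) ^ j * c i k) - (starRingEnd ℂ) (X k i - (η : ℂ) ^ j * c k i) -
        (star (X 0 i) * X 0 k + star (X 1 i) * X 1 k) := by
      have hr : (starRingEnd ℂ) ((η : ℂ) ^ j) = (η : ℂ) ^ j := by
        rw [map_pow, Complex.conj_ofReal]
      rw [map_sub, map_mul, hr]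
      have : star (X k i) = (starRingEnd ℂ) (X k i) := rfl
      rw [this] at hu3
      linear_combination hu3
    rw [e]
    calc _ ≤ ‖-(X i k - (η : ℂ) ^ j * c i k)‖ + ‖(starRingEnd ℂ) (X k i - (η : ℂ) ^ j * c k i)‖ +
          ‖star (X 0 i) * X 0 k + star (X 1 i) * X 1 k‖ :=
          (norm_sub_le _ _).trans (add_le_add (norm_sub_le _ _) le_rfl)
      _ ≤ K * η ^ (j + 1) + K * η ^ (j + 1) + (C ^ 2 * η ^ (j + 1) + C ^ 2 * η ^ (j + 1)) := by
        refine add_le_add (add_le_add ?_ ?_) ?_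
        · rw [norm_neg]; exact hKa η h0 h1 i k
        · rw [RCLike.norm_conj]; exact hKa η h0 h1 k i
        · refine (norm_add_le _ _).trans (add_le_add ?_ ?_)
          · exact hprod η h0 h1 (by rw [norm_star]; exact hCa η h0 h1 0 i) (hCa η h0 h1 0 k)
          · exact hprod η h0 h1 (by rw [norm_star]; exact hCa η h0 h1 1 i) (hCa η h0 h1 1 k)
      _ = _ := by ring
  -- trace
  have htr : c 0 0 + c 1 1 = 0 := by
    refine COEF_zero (j := j) (K := 2 * C ^ 2 + 2 * K) ?_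
    intro η h0 h1
    have hdet := mono_det hL (η := (η : ℂ)) (by
      intro p hp
      rw [Complex.ofReal_im, abs_zero]
      exact abs_pos.2 (hL p hp).2)
    set X : Mat := mono L (η : ℂ) - 1 with hX
    have hM : mono L (η : ℂ) = 1 + X := by rw [hX]; abel
    rw [hM, Matrix.det_fin_two] at hdet
    simp only [Matrix.add_apply, Matrix.one_apply_eq, ne_eq, zero_ne_one, not_false_eq_true,
      Matrix.one_apply_ne, one_ne_zero, zero_add] at hdet
    have e : (η : ℂ) ^ j * (c 0 0 + c 1 1) =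
        -(X 0 0 - (η : ℂ) ^ j * c 0 0) - (X 1 1 - (η : ℂ) ^ j * c 1 1) -
        (X 0 0 * X 1 1 - X 0 1 * X 1 0) := by
      linear_combination hdet
    rw [e]
    calc _ ≤ ‖-(X 0 0 - (η : ℂ) ^ j * c 0 0)‖ + ‖X 1 1 - (η : ℂ) ^ j * c 1 1‖ +
          ‖X 0 0 * X 1 1 - X 0 1 * X 1 0‖ :=
          (norm_sub_le _ _).trans (add_le_add (norm_sub_le _ _) le_rfl)
      _ ≤ K * η ^ (j + 1) + K * η ^ (j + 1) + (C ^ 2 * η ^ (j + 1) + C ^ 2 * η ^ (j + 1)) := by
        refine add_le_add (add_le_add ?_ ?_) ?_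
        · rw [norm_neg]; exact hKa η h0 h1 0 0
        · exact hKa η h0 h1 1 1
        · refine (norm_sub_le _ _).trans (add_le_add ?_ ?_)
          · exact hprod η h0 h1 (hCa η h0 h1 0 0) (hCa η h0 h1 1 1)
          · exact hprod η h0 h1 (hCa η h0 h1 0 1) (hCa η h0 h1 1 0)
      _ = _ := by ring
  -- the real coefficients
  have h00 := huni 0 0
  have h01 := huni 1 0
  have r00 : (c 0 0).re = 0 := by
    have := congrArg Complex.re h00
    simp only [Complex.add_re, Complex.conj_re, Complex.zero_re] at this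
    linarith
  have hc00 : c 0 0 = -(Complex.I * ((-(c 0 0).im : ℝ) : ℂ)) := by
    apply Complex.ext <;> simp [r00]
  have hc11 : c 1 1 = Complex.I * ((-(c 0 0).im : ℝ) : ℂ) := by
    have : c 1 1 = -c 0 0 := by linear_combination htr
    rw [this]
    nth_rewrite 1 [hc00]
    ring
  have hc01 : c 0 1 = -(Complex.I * (((-(c 0 1).im : ℝ) : ℂ) - Complex.I * ((-(c 0 1).re : ℝ) : ℂ))) := by
    apply Complex.ext <;> simp
  have hc10 : c 1 0 = -(Complex.I * (((-(c 0 1).im : ℝ) : ℂ) + Complex.I * ((-(c 0 1).re : ℝ) : ℂ))) := by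
    have : c 1 0 = -(starRingEnd ℂ) (c 0 1) := by linear_combination h01
    rw [this]
    apply Complex.ext <;> simp
  refine ⟨-(c 0 1).im, -(c 0 1).re, -(c 0 0).im, K, ?_⟩
  intro η hη i k
  rw [COEF_S, Matrix.add_apply, Matrix.smul_apply, smul_eq_mul]
  have hk := hK η hη (i, k)
  refine le_trans (le_of_eq ?_) hk
  congr 1
  rw [sub_eq_add_neg]
  congr 1
  fin_cases i <;> fin_cases k
  · simp only [Fin.zero_eta, Fin.isValue, Matrix.of_apply, Matrix.cons_val', Matrix.cons_val_zero,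
      Matrix.cons_val_fin_one]
    rw [hc00]
    simp only [Complex.neg_im, Complex.mul_im, Complex.I_re, Complex.ofReal_im, Complex.I_im, Complex.ofReal_re]
    push_cast
    ring
  · simp only [Fin.zero_eta, Fin.mk_one, Fin.isValue, Matrix.of_apply, Matrix.cons_val', Matrix.cons_val_zero,
      Matrix.cons_val_fin_one, Matrix.cons_val_one]
    nth_rewrite 3 [hc01]
    ring
  · simp only [Fin.zero_eta, Fin.mk_one, Fin.isValue, Matrix.of_apply, Matrix.cons_val', Matrix.cons_val_zero,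
      Matrix.cons_val_fin_one, Matrix.cons_val_one]
    rw [hc10]
    ring
  · simp only [Fin.zero_eta, Fin.mk_one, Fin.isValue, Matrix.of_apply, Matrix.cons_val', Matrix.cons_val_zero,
      Matrix.cons_val_fin_one, Matrix.cons_val_one]
    rw [hc11]
    ring

theorem nearId_of_coef {j : ℕ} {L : List (ℝ × ℝ)} {e₁ e₂ e₃ : ℝ} (he : Coef j L e₁ e₂ e₃) :
    NearId j L := by
  obtain ⟨C, hC⟩ := he
  have hC0 : 0 ≤ C := by
    have := hC 1 (by simp) 0 0
    simp only [abs_one, one_pow, mul_one] at this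
    exact (norm_nonneg _).trans this
  set S : Mat := (e₁ : ℂ) • s1 + (e₂ : ℂ) • s2 + (e₃ : ℂ) • s3 with hS
  refine ⟨C + ∑ p : Fin 2 × Fin 2, ‖S p.1 p.2‖, ?_⟩
  intro η hη i k
  have h1 : ‖(mono L (η : ℂ) - 1 + (Complex.I * (η : ℂ) ^ j) • S) i k‖ ≤ C * |η| ^ (j + 1) := by
    rw [hS]
    exact hC η hη i k
  clear_value S
  generalize hR : mono L (η : ℂ) - 1 = R at h1 ⊢
  have h2 : R i k = (R + (Complex.I * (η : ℂ) ^ j) • S) i k -
      (Complex.I * (η : ℂ) ^ j) * S i k := by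
    rw [Matrix.add_apply, Matrix.smul_apply, smul_eq_mul]
    ring
  rw [h2]
  have h3 : ‖S i k‖ ≤ ∑ p : Fin 2 × Fin 2, ‖S p.1 p.2‖ :=
    Finset.single_le_sum (f := fun p : Fin 2 × Fin 2 => ‖S p.1 p.2‖) (fun _ _ => norm_nonneg _)
      (Finset.mem_univ (i, k))
  refine (norm_sub_le _ _).trans ?_
  rw [add_mul]
  refine add_le_add (h1.trans ?_) ?_
  · have : |η| ^ (j + 1) ≤ |η| ^ j := pow_le_pow_of_le_one (abs_nonneg _) hη (Nat.le_succ j)
    gcongr
  · rw [norm_mul, norm_mul, Complex.norm_I, one_mul, norm_pow, Complex.norm_real, Real.norm_eq_abs,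
      mul_comm]
    gcongr

theorem coef_append {j : ℕ} (hj : 1 ≤ j) {L₁ L₂ : List (ℝ × ℝ)} (h₁ : Adm L₁) (h₂ : Adm L₂)
    {e₁ e₂ e₃ f₁ f₂ f₃ : ℝ} (he : Coef j L₁ e₁ e₂ e₃) (hf : Coef j L₂ f₁ f₂ f₃) :
    Coef j (L₁ ++ L₂) (e₁ + f₁) (e₂ + f₂) (e₃ + f₃) := by
  obtain ⟨N₁, hN₁⟩ := nearId_of_coef he
  obtain ⟨N₂, hN₂⟩ := nearId_of_coef hf
  obtain ⟨C₁, hC₁⟩ := he
  obtain ⟨C₂, hC₂⟩ := hf
  have n1 : 0 ≤ N₁ := by
    have := hN₁ 1 (by simp) 0 0
    simp only [abs_one, one_pow, mul_one] at this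
    exact (norm_nonneg _).trans this
  have n2 : 0 ≤ N₂ := by
    have := hN₂ 1 (by simp) 0 0
    simp only [abs_one, one_pow, mul_one] at this
    exact (norm_nonneg _).trans this
  refine ⟨C₁ + C₂ + 2 * (N₂ * N₁), ?_⟩
  intro η hη i k
  set X₁ : Mat := mono L₁ (η : ℂ) - 1 with hX₁
  set X₂ : Mat := mono L₂ (η : ℂ) - 1 with hX₂
  have hM : mono (L₁ ++ L₂) (η : ℂ) - 1 + (Complex.I * (η : ℂ) ^ j) •
      (((e₁ + f₁ : ℝ) : ℂ) • s1 + ((e₂ + f₂ : ℝ) : ℂ) • s2 + ((e₃ + f₃ : ℝ) : ℂ) • s3) =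
      (X₁ + (Complex.I * (η : ℂ) ^ j) • ((e₁ : ℂ) • s1 + (e₂ : ℂ) • s2 + (e₃ : ℂ) • s3)) +
      (X₂ + (Complex.I * (η : ℂ) ^ j) • ((f₁ : ℂ) • s1 + (f₂ : ℂ) • s2 + (f₃ : ℂ) • s3)) +
      X₂ * X₁ := by
    rw [mono_append]
    have e1 : mono L₁ (η : ℂ) = 1 + X₁ := by rw [hX₁]; abel
    have e2 : mono L₂ (η : ℂ) = 1 + X₂ := by rw [hX₂]; abel
    rw [e1, e2]
    push_cast
    have e3 : (1 + X₂) * (1 + X₁) = 1 + X₁ + X₂ + X₂ * X₁ := by noncomm_ring
    rw [e3]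
    module
  rw [hM, Matrix.add_apply, Matrix.add_apply]
  refine (norm_add₃_le).trans ?_
  rw [add_mul, add_mul]
  refine add_le_add (add_le_add (hC₁ η hη i k) (hC₂ η hη i k)) ?_
  rw [Matrix.mul_apply, Fin.sum_univ_two]
  have hp : ∀ m : Fin 2, ‖X₂ i m * X₁ m k‖ ≤ (N₂ * N₁) * |η| ^ (j + 1) := by
    intro m
    rw [norm_mul]
    calc ‖X₂ i m‖ * ‖X₁ m k‖ ≤ (N₂ * |η| ^ j) * (N₁ * |η| ^ j) := by
          gcongr
          · exact hN₂ η hη i m
          · exact hN₁ η hη m k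
      _ = N₂ * N₁ * |η| ^ (j + j) := by rw [pow_add]; ring
      _ ≤ _ := by
        have : |η| ^ (j + j) ≤ |η| ^ (j + 1) :=
          pow_le_pow_of_le_one (abs_nonneg _) hη (by omega)
        gcongr
  calc _ ≤ ‖X₂ i 0 * X₁ 0 k‖ + ‖X₂ i 1 * X₁ 1 k‖ := norm_add_le _ _
    _ ≤ (N₂ * N₁) * |η| ^ (j + 1) + (N₂ * N₁) * |η| ^ (j + 1) := add_le_add (hp 0) (hp 1)
    _ = _ := by ring

theorem nearId_succ_of_coef {j : ℕ} {L : List (ℝ × ℝ)} (he : Coef j L 0 0 0) :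
    NearId (j + 1) L := by
  obtain ⟨C, hC⟩ := he
  refine ⟨C, ?_⟩
  intro η hη i k
  have := hC η hη i k
  simpa using this

theorem nearId_mono {j k : ℕ} (hjk : j ≤ k) {L : List (ℝ × ℝ)} (h : NearId k L) :
    NearId j L := by
  obtain ⟨C, hC⟩ := h
  have hC0 : 0 ≤ C := by
    have := hC 1 (by simp) 0 0
    simp only [abs_one, one_pow, mul_one] at this
    exact (norm_nonneg _).trans this
  refine ⟨C, ?_⟩
  intro η hη i l
  refine (hC η hη i l).trans ?_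
  have : |η| ^ k ≤ |η| ^ j := pow_le_pow_of_le_one (abs_nonneg _) hη hjk
  gcongr

theorem nearId_one_append {L₁ L₂ : List (ℝ × ℝ)} (h₁ : Adm L₁) (h₂ : Adm L₂)
    (n₁ : NearId 1 L₁) (n₂ : NearId 1 L₂) : NearId 1 (L₁ ++ L₂) := by
  obtain ⟨e₁, e₂, e₃, he⟩ := coef_exists le_rfl h₁ n₁
  obtain ⟨f₁, f₂, f₃, hf⟩ := coef_exists le_rfl h₂ n₂
  exact nearId_of_coef (coef_append le_rfl h₁ h₂ he hf)

end Pool.Agent.H5.DF
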