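import Pool.Agent.H5.DF.Defs
import Pool.Agent.H5.DF.AlgM
import Pool.Agent.H5.DF.Ana
import Pool.Agent.H5.DF.Coef

set_option autoImplicit false
open MeasureTheory Set Filter Topology
open scoped ENNReal NNReal FourierTransform

namespace Pool.Agent.H5.DF

/-!
Part COE2. Calculus of leading coefficients at `η = 0`, second half: symmetries (`mono_reverse`,
`mono_negL`, `mono_revneg`, `mono_scL`; for `coef_scL` and `|c η| > 1` use that all entries are bounded)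
and conjugation by a `π`-pulse: with `g = E τ μ`, `mono` of the long list is
`(mono H * E τ (-μ) * g) * (g⁻¹ * M^n * g)`, the first factor is `mono` of the list in `hf`;
`M^n = 1 - i n η^j (e·σ) + O(η^{j+1})`, `g(η) = g(0) + O(η)`, `g(0) = -i σ₁` (`E_pi`),
`σ₁ (e·σ) σ₁ = e₁ σ₁ - e₂ σ₂ - e₃ σ₃`.
-/

/-- matrix functions which are `O(η^m)` on `[-1,1]` -/
def CoeO (m : ℕ) (R : ℝ → Mat) : Prop :=
  ∃ C : ℝ, ∀ η : ℝ, |η| ≤ 1 → ∀ i k, ‖R η i k‖ ≤ C * |η| ^ m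

theorem CoeO.nonneg {m : ℕ} {R : ℝ → Mat} (h : CoeO m R) :
    ∃ C : ℝ, 0 ≤ C ∧ ∀ η : ℝ, |η| ≤ 1 → ∀ i k, ‖R η i k‖ ≤ C * |η| ^ m := by
  obtain ⟨C, hC⟩ := h
  refine ⟨|C|, abs_nonneg _, fun η hη i k => (hC η hη i k).trans ?_⟩
  gcongr
  exact le_abs_self C

theorem coe2_mul_le {A B : Mat} {a b : ℝ} (hA : ∀ i j, ‖A i j‖ ≤ a) (hB : ∀ i j, ‖B i j‖ ≤ b)
    (i j : Fin 2) : ‖(A * B) i j‖ ≤ 2 * (a * b) := by
  rw [Matrix.mul_apply, Fin.sum_univ_two]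
  have ha : 0 ≤ a := (norm_nonneg _).trans (hA 0 0)
  refine (norm_add_le _ _).trans ?_
  rw [norm_mul, norm_mul]
  have h1 := mul_le_mul (hA i 0) (hB 0 j) (norm_nonneg _) ha
  have h2 := mul_le_mul (hA i 1) (hB 1 j) (norm_nonneg _) ha
  linarith

theorem CoeO.add {m : ℕ} {R S : ℝ → Mat} (hR : CoeO m R) (hS : CoeO m S) :
    CoeO m (fun η => R η + S η) := by
  obtain ⟨C, hC⟩ := hR
  obtain ⟨D, hD⟩ := hS
  refine ⟨C + D, fun η hη i k => ?_⟩
  show ‖(R η + S η) i k‖ ≤ _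
  rw [Matrix.add_apply]
  refine (norm_add_le _ _).trans ?_
  have h1 := hC η hη i k
  have h2 := hD η hη i k
  linarith

theorem CoeO.mul {m n : ℕ} {R S : ℝ → Mat} (hR : CoeO m R) (hS : CoeO n S) :
    CoeO (m + n) (fun η => R η * S η) := by
  obtain ⟨C, hC⟩ := hR
  obtain ⟨D, hD⟩ := hS
  refine ⟨2 * (C * D), fun η hη i k => ?_⟩
  refine (coe2_mul_le (hC η hη) (hD η hη) i k).trans (le_of_eq ?_)
  rw [pow_add]
  ring

theorem CoeO.mono {m n : ℕ} (hmn : m ≤ n) {R : ℝ → Mat} (hR : CoeO n R) : CoeO m R := by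
  obtain ⟨C, hC0, hC⟩ := hR.nonneg
  refine ⟨C, fun η hη i k => (hC η hη i k).trans ?_⟩
  have : |η| ^ n ≤ |η| ^ m := pow_le_pow_of_le_one (abs_nonneg _) hη hmn
  gcongr

theorem CoeO.congr {m : ℕ} {R S : ℝ → Mat} (hR : CoeO m R) (h : ∀ η, S η = R η) : CoeO m S := by
  obtain ⟨C, hC⟩ := hR
  exact ⟨C, fun η hη i k => by rw [h]; exact hC η hη i k⟩

theorem CoeO.const (X : Mat) : CoeO 0 (fun _ => X) := by
  refine ⟨‖X 0 0‖ + ‖X 0 1‖ + ‖X 1 0‖ + ‖X 1 1‖, fun η _ i k => ?_⟩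
  rw [pow_zero, mul_one]
  have h1 := norm_nonneg (X 0 0)
  have h2 := norm_nonneg (X 0 1)
  have h3 := norm_nonneg (X 1 0)
  have h4 := norm_nonneg (X 1 1)
  fin_cases i <;> fin_cases k <;> simp <;> linarith

theorem CoeO.smul {m j : ℕ} {R : ℝ → Mat} (hR : CoeO m R) :
    CoeO (j + m) (fun η => (Complex.I * (η : ℂ) ^ j) • R η) := by
  obtain ⟨C, hC⟩ := hR
  refine ⟨C, fun η hη i k => ?_⟩
  show ‖((Complex.I * (η : ℂ) ^ j) • R η) i k‖ ≤ _
  rw [Matrix.smul_apply, smul_eq_mul, norm_mul, norm_mul, Complex.norm_I, norm_pow,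
    Complex.norm_real, Real.norm_eq_abs, one_mul, pow_add]
  calc |η| ^ j * ‖R η i k‖ ≤ |η| ^ j * (C * |η| ^ m) := by
        gcongr
        exact hC η hη i k
    _ = _ := by ring

theorem CoeO.conjT {m : ℕ} {R : ℝ → Mat} (hR : CoeO m R) : CoeO m (fun η => (R η).conjTranspose) := by
  obtain ⟨C, hC⟩ := hR
  refine ⟨C, fun η hη i k => ?_⟩
  show ‖((R η).conjTranspose) i k‖ ≤ _
  rw [Matrix.conjTranspose_apply, norm_star]
  exact hC η hη k i

/-- the real linear combination of Pauli matrices -/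
def coeX (e₁ e₂ e₃ : ℝ) : Mat := (e₁ : ℂ) • s1 + (e₂ : ℂ) • s2 + (e₃ : ℂ) • s3

/-- first order expansion -/
def CoeE (j : ℕ) (A : ℝ → Mat) (X : Mat) : Prop :=
  CoeO (j + 1) (fun η => A η - 1 + (Complex.I * (η : ℂ) ^ j) • X)

theorem coe2_iff {j : ℕ} {L : List (ℝ × ℝ)} {e₁ e₂ e₃ : ℝ} :
    Coef j L e₁ e₂ e₃ ↔ CoeE j (fun η => mono L (η : ℂ)) (coeX e₁ e₂ e₃) := Iff.rfl

theorem CoeE.bdd {j : ℕ} {A : ℝ → Mat} {X : Mat} (h : CoeE j A X) : CoeO 0 A := by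
  have h1 : CoeO 0 (fun η => A η - 1 + (Complex.I * (η : ℂ) ^ j) • X) := CoeO.mono (Nat.zero_le _) h
  have h2 : CoeO 0 (fun η : ℝ => (Complex.I * (η : ℂ) ^ j) • (-X)) :=
    CoeO.mono (Nat.zero_le _) (CoeO.smul (j := j) (CoeO.const (-X)))
  refine ((h1.add h2).add (CoeO.const 1)).congr fun η => ?_
  rw [smul_neg]
  abel

theorem CoeE.mul {j : ℕ} (hj : 1 ≤ j) {A B : ℝ → Mat} {X Y : Mat} (hA : CoeE j A X)
    (hB : CoeE j B Y) : CoeE j (fun η => A η * B η) (X + Y) := by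
  have h1 := CoeO.mul hA hB.bdd
  have h2 : CoeO 0 (fun η : ℝ => (1 : Mat) + (Complex.I * (η : ℂ) ^ j) • (-X)) :=
    (CoeO.const 1).add (CoeO.mono (Nat.zero_le _) (CoeO.smul (j := j) (CoeO.const (-X))))
  have h3 := CoeO.mul h2 hB
  have h4 : CoeO (j + (j + 0)) (fun η : ℝ => (Complex.I * (η : ℂ) ^ j) • ((Complex.I * (η : ℂ) ^ j) • (X * Y))) :=
    CoeO.smul (j := j) (CoeO.smul (j := j) (CoeO.const (X * Y)))
  have h5 := ((h1.mono (by omega : j + 1 ≤ j + 1 + 0)).add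
    (h3.mono (by omega : j + 1 ≤ 0 + (j + 1)))).add (h4.mono (by omega : j + 1 ≤ j + (j + 0)))
  refine h5.congr fun η => ?_
  simp only [smul_neg, add_mul, sub_mul, mul_add, mul_sub, neg_mul, Matrix.smul_mul,
    Matrix.mul_smul, one_mul, mul_one, smul_add]
  abel

theorem coe2_unitary_bdd {U : ℝ → Mat} (hU : ∀ η, (U η).conjTranspose * U η = 1) : CoeO 0 U := by
  refine ⟨1, fun η _ i k => ?_⟩
  rw [pow_zero, mul_one]
  have h1 := congrFun (congrFun (hU η) k) k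
  rw [Matrix.mul_apply, Fin.sum_univ_two, Matrix.one_apply_eq] at h1
  simp only [Matrix.conjTranspose_apply] at h1
  have h2 : ∀ z : ℂ, star z * z = ((‖z‖ ^ 2 : ℝ) : ℂ) := fun z => by
    rw [Complex.star_def, ← Complex.normSq_eq_conj_mul_self, Complex.normSq_eq_norm_sq]
  rw [h2, h2] at h1
  have h3 : ‖U η 0 k‖ ^ 2 + ‖U η 1 k‖ ^ 2 = 1 := by exact_mod_cast h1
  have h4 : ‖U η i k‖ ^ 2 ≤ 1 := by
    fin_cases i
    · show ‖U η 0 k‖ ^ 2 ≤ 1
      nlinarith [sq_nonneg ‖U η 1 k‖]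
    · show ‖U η 1 k‖ ^ 2 ≤ 1
      nlinarith [sq_nonneg ‖U η 0 k‖]
  nlinarith [norm_nonneg (U η i k)]

theorem coe2_s22 : s2 * s2 = 1 := by
  ext i j
  fin_cases i <;> fin_cases j <;> simp [s2, Matrix.mul_apply]

theorem coe2_s33 : s3 * s3 = 1 := by
  ext i j
  fin_cases i <;> fin_cases j <;> simp [s3, Matrix.mul_apply]

theorem coe2_s11 : s1 * s1 = 1 := by
  ext i j
  fin_cases i <;> fin_cases j <;> simp [s1, Matrix.mul_apply]

theorem coe2_X_herm (e₁ e₂ e₃ : ℝ) : (coeX e₁ e₂ e₃).conjTranspose = coeX e₁ e₂ e₃ := by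
  ext i j
  fin_cases i <;> fin_cases j <;> simp [coeX, s1, s2, s3]

theorem coe2_s2X (e₁ e₂ e₃ : ℝ) : s2 * coeX e₁ e₂ e₃ * s2 = -coeX e₁ (-e₂) e₃ := by
  ext i j
  fin_cases i <;> fin_cases j <;>
    simp [coeX, s1, s2, s3, Matrix.mul_apply, Fin.sum_univ_two] <;> ring_nf <;>
    simp [Complex.I_sq] <;> ring

theorem coe2_s3X (e₁ e₂ e₃ : ℝ) : s3 * coeX e₁ e₂ e₃ * s3 = coeX (-e₁) (-e₂) e₃ := by
  ext i j
  fin_cases i <;> fin_cases j <;>
    simp [coeX, s1, s2, s3, Matrix.mul_apply, Fin.sum_univ_two] <;> ring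

theorem coe2_s1X (e₁ e₂ e₃ : ℝ) : s1 * coeX e₁ e₂ e₃ * s1 = coeX e₁ (-e₂) (-e₃) := by
  ext i j
  fin_cases i <;> fin_cases j <;>
    simp [coeX, s1, s2, s3, Matrix.mul_apply, Fin.sum_univ_two]

theorem coef_reverse {j : ℕ} {L : List (ℝ × ℝ)} (hL : Adm L) {e₁ e₂ e₃ : ℝ}
    (he : Coef j L e₁ e₂ e₃) : Coef j L.reverse e₁ (-e₂) e₃ := by
  rw [coe2_iff] at he ⊢
  have h1 := CoeO.mul (CoeO.mul (CoeO.const s2) (CoeO.conjT he)) (CoeO.const s2)
  refine (h1.mono (by omega : j + 1 ≤ 0 + (j + 1) + 0)).congr fun η => ?_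
  beta_reduce
  rw [mono_reverse hL]
  simp only [Matrix.conjTranspose_add, Matrix.conjTranspose_sub, Matrix.conjTranspose_smul,
    Matrix.conjTranspose_one, coe2_X_herm, mul_add, add_mul, mul_sub, sub_mul, mul_one,
    Matrix.mul_smul, Matrix.smul_mul, coe2_s22, coe2_s2X]
  have : star (Complex.I * (η : ℂ) ^ j) = -(Complex.I * (η : ℂ) ^ j) := by
    simp
  rw [this, neg_smul, smul_neg, neg_neg]

theorem coef_negL {j : ℕ} {L : List (ℝ × ℝ)} (hL : Adm L) {e₁ e₂ e₃ : ℝ}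
    (he : Coef j L e₁ e₂ e₃) : Coef j (negL L) (-e₁) (-e₂) e₃ := by
  rw [coe2_iff] at he ⊢
  have h1 := CoeO.mul (CoeO.mul (CoeO.const s3) he) (CoeO.const s3)
  refine (h1.mono (by omega : j + 1 ≤ 0 + (j + 1) + 0)).congr fun η => ?_
  beta_reduce
  rw [mono_negL]
  simp only [mul_add, add_mul, mul_sub, sub_mul, mul_one,
    Matrix.mul_smul, Matrix.smul_mul, coe2_s33, coe2_s3X]

theorem coef_revneg {j : ℕ} {L : List (ℝ × ℝ)} (hL : Adm L) {e₁ e₂ e₃ : ℝ}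
    (he : Coef j L e₁ e₂ e₃) : Coef j (negL L).reverse (-e₁) e₂ e₃ := by
  have := coef_reverse (Adm_negL hL) (coef_negL hL he)
  rwa [neg_neg] at this

theorem coef_scL {j : ℕ} {L : List (ℝ × ℝ)} (hL : Adm L) {e₁ e₂ e₃ : ℝ}
    (he : Coef j L e₁ e₂ e₃) {c : ℝ} (hc : 0 < c) :
    Coef j (scL c L) (c ^ j * e₁) (c ^ j * e₂) (c ^ j * e₃) := by
  rw [coe2_iff] at he ⊢
  obtain ⟨C, hC0, hC⟩ := CoeO.nonneg he
  obtain ⟨D, hD0, hD⟩ := CoeO.nonneg (CoeO.const (coeX e₁ e₂ e₃))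
  have eX : ∀ η : ℝ, (Complex.I * (η : ℂ) ^ j) • coeX (c ^ j * e₁) (c ^ j * e₂) (c ^ j * e₃) =
      (Complex.I * ((c * η : ℝ) : ℂ) ^ j) • coeX e₁ e₂ e₃ := by
    intro η
    unfold coeX
    simp only [smul_add, smul_smul]
    congr 1
    · congr 1
      · congr 1
        push_cast
        ring
      · congr 1
        push_cast
        ring
    · congr 1
      push_cast
      ring
  refine ⟨(C + 2 + D) * c ^ (j + 1), fun η hη i k => ?_⟩
  show ‖(mono (scL c L) (η : ℂ) - 1 + (Complex.I * (η : ℂ) ^ j) •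
    coeX (c ^ j * e₁) (c ^ j * e₂) (c ^ j * e₃)) i k‖ ≤ _
  rw [eX, mono_scL hc]
  have e1 : (C + 2 + D) * c ^ (j + 1) * |η| ^ (j + 1) = (C + 2 + D) * |c * η| ^ (j + 1) := by
    rw [abs_mul, abs_of_pos hc, mul_pow]
    ring
  rw [e1]
  by_cases h : |c * η| ≤ 1
  · refine (hC (c * η) h i k).trans ?_
    gcongr
    linarith
  · push Not at h
    rw [Matrix.add_apply, Matrix.sub_apply, Matrix.smul_apply, smul_eq_mul]
    have h1 := mono_entry_le hL (c * η) i k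
    have h2 : ‖(1 : Mat) i k‖ ≤ 1 := by
      rw [Matrix.one_apply]
      split_ifs <;> simp
    have h3 : ‖coeX e₁ e₂ e₃ i k‖ ≤ D := by
      have := hD 0 (by simp) i k
      simpa using this
    have h4 : (1 : ℝ) ≤ |c * η| ^ (j + 1) := one_le_pow₀ h.le
    have h5 : |c * η| ^ j ≤ |c * η| ^ (j + 1) := pow_le_pow_right₀ h.le (Nat.le_succ j)
    refine (norm_add_le _ _).trans ?_
    have h6 := norm_sub_le (mono L ((c * η : ℝ) : ℂ) i k) ((1 : Mat) i k)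
    have h7 : ‖Complex.I * ((c * η : ℝ) : ℂ) ^ j * coeX e₁ e₂ e₃ i k‖ ≤
        |c * η| ^ (j + 1) * D := by
      rw [norm_mul, norm_mul, Complex.norm_I, norm_pow, Complex.norm_real, Real.norm_eq_abs,
        one_mul]
      exact mul_le_mul h5 h3 (norm_nonneg _) (by positivity)
    nlinarith

theorem coe2_lip {L : List (ℝ × ℝ)} (hL : Adm L) :
    CoeO 1 (fun η => mono L (η : ℂ) - mono L 0) := by
  obtain ⟨C, hC⟩ := mono_deriv_bdd hL 1
  refine ⟨C, fun η _ i k => ?_⟩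
  have h1 : Differentiable ℝ (fun η : ℝ => mono L (η : ℂ) i k) :=
    (mono_contDiff hL i k).differentiable (by simp)
  have h2 := Convex.norm_image_sub_le_of_norm_deriv_le (𝕜 := ℝ)
    (f := fun η : ℝ => mono L (η : ℂ) i k) (C := C) (s := Set.univ) (x := 0) (y := η)
    (fun x _ => h1 x) (fun x _ => by
      have := hC x i k
      rwa [iteratedDeriv_one] at this) convex_univ (mem_univ _) (mem_univ _)
  simpa using h2

/-- the pulse followed by its mirror pulse is the identity at `η = 0` -/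
theorem nearId_one_pulse {τ μ : ℝ} (hτ : 0 < τ) (hμ : 0 < μ) (hτμ : τ * μ = Real.pi / 2) :
    NearId 1 ([(τ, μ)] ++ [(τ, -μ)]) := by
  have hadm : Adm ([(τ, μ)] ++ [(τ, -μ)]) := by
    intro p hp
    simp only [List.cons_append, List.nil_append, List.mem_cons, List.not_mem_nil, or_false] at hp
    rcases hp with rfl | rfl
    · exact ⟨hτ, hμ.ne'⟩
    · exact ⟨hτ, neg_ne_zero.2 hμ.ne'⟩
  obtain ⟨C, hC⟩ := coe2_lip hadm
  have h0 : mono ([(τ, μ)] ++ [(τ, -μ)]) 0 = 1 := by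
    obtain ⟨h1, h2⟩ := E_pi hμ hτμ
    show (1 * E τ (-μ) 0) * E τ μ 0 = 1
    rw [h1, h2, one_mul, Matrix.smul_mul, Matrix.mul_smul, coe2_s11, smul_smul]
    simp
  refine ⟨C, fun η hη i k => ?_⟩
  have := hC η hη i k
  rwa [h0] at this

theorem coe2_flatten {j : ℕ} (hj : 1 ≤ j) {L : List (ℝ × ℝ)} (hL : Adm L)
    {e₁ e₂ e₃ : ℝ} (he : Coef j L e₁ e₂ e₃) (n : ℕ) :
    Coef j (List.replicate n L).flatten (n * e₁) (n * e₂) (n * e₃) := by
  induction n with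
  | zero =>
    refine ⟨0, fun η _ i k => ?_⟩
    simp [mono]
  | succ n ih =>
    have h1 := coef_append hj hL (Adm_flatten hL n) he ih
    rw [List.replicate_succ, List.flatten_cons]
    have e1 : ∀ e : ℝ, ((n + 1 : ℕ) : ℝ) * e = e + n * e := fun e => by
      push_cast
      ring
    rw [e1, e1, e1]
    exact h1

/-- conjugation by a `π`-pulse: with `g = E τ μ`, `τ μ = π/2`,
`mono = (mono H * g♯ * g) * (g⁻¹ * M^n * g)`, and `g(0) = -i σ₁`. -/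
theorem coef_conj {j : ℕ} (hj : 1 ≤ j) {τ μ : ℝ} (hτ : 0 < τ) (hμ : 0 < μ)
    (hτμ : τ * μ = Real.pi / 2) {L H : List (ℝ × ℝ)} (hL : Adm L) (hH : Adm H)
    {e₁ e₂ e₃ f₁ f₂ f₃ : ℝ} (he : Coef j L e₁ e₂ e₃)
    (hf : Coef j ([(τ, μ)] ++ [(τ, -μ)] ++ H) f₁ f₂ f₃) (n : ℕ) :
    Coef j ([(τ, μ)] ++ (List.replicate n L).flatten ++ [(τ, -μ)] ++ H)
      (f₁ + n * e₁) (f₂ - n * e₂) (f₃ - n * e₃) := by
  have hn := coe2_flatten hj hL he n
  rw [coe2_iff] at hn hf ⊢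
  set Q : List (ℝ × ℝ) := (List.replicate n L).flatten
  have hga : Adm [(τ, μ)] := by
    intro p hp
    rw [List.mem_singleton] at hp
    subst hp
    exact ⟨hτ, hμ.ne'⟩
  have hU : ∀ η : ℝ, (E τ μ (η : ℂ)).conjTranspose * E τ μ (η : ℂ) = 1 :=
    fun η => E_unitary hμ.ne' η
  have hU' : ∀ η : ℝ, E τ μ (η : ℂ) * (E τ μ (η : ℂ)).conjTranspose = 1 :=
    fun η => mul_eq_one_comm.1 (hU η)
  have hg0 : CoeO 0 (fun η : ℝ => E τ μ (η : ℂ)) := coe2_unitary_bdd hU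
  have hgH0 : CoeO 0 (fun η : ℝ => (E τ μ (η : ℂ)).conjTranspose) := hg0.conjT
  have hmonog : ∀ η : ℂ, mono [(τ, μ)] η = E τ μ η := fun η => by
    show 1 * E τ μ η = E τ μ η
    rw [one_mul]
  have hlip : CoeO 1 (fun η : ℝ => E τ μ (η : ℂ) - (-Complex.I) • s1) := by
    have h1 := coe2_lip hga
    refine h1.congr fun η => ?_
    rw [hmonog, hmonog, (E_pi hμ hτμ).1]
  have hlipH : CoeO 1 (fun η : ℝ => (E τ μ (η : ℂ)).conjTranspose - Complex.I • s1) := by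
    refine hlip.conjT.congr fun η => ?_
    rw [Matrix.conjTranspose_sub, Matrix.conjTranspose_smul]
    have : (s1 : Mat).conjTranspose = s1 := by
      ext i j
      fin_cases i <;> fin_cases j <;> simp [s1]
    rw [this]
    simp
  set X := coeX (n * e₁) (n * e₂) (n * e₃) with hX
  -- gᴴ X g = s1 X s1 + O(η)
  have hXg : CoeO 1 (fun η : ℝ => (E τ μ (η : ℂ)).conjTranspose * X * E τ μ (η : ℂ) -
      s1 * X * s1) := by
    have a1 := (hlipH.mul (CoeO.const X)).mul hg0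
    have a2 := ((CoeO.const (Complex.I • s1)).mul (CoeO.const X)).mul hlip
    refine (a1.add (a2.mono (by norm_num))).congr fun η => ?_
    simp only [sub_mul, mul_sub, Matrix.smul_mul, Matrix.mul_smul, neg_smul, smul_neg, smul_smul,
      mul_neg, mul_assoc]
    simp
  -- conjugated power
  have hconj : CoeE j (fun η : ℝ => (E τ μ (η : ℂ)).conjTranspose * mono Q (η : ℂ) * E τ μ (η : ℂ))
      (s1 * X * s1) := by
    have a1 := (hgH0.mul hn).mul hg0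
    have a2 := CoeO.smul (j := j) (hXg.conjT.conjT)
    have a2' : CoeO (j + 1) (fun η : ℝ => (Complex.I * (η : ℂ) ^ j) •
        (-((E τ μ (η : ℂ)).conjTranspose * X * E τ μ (η : ℂ) - s1 * X * s1))) := by
      refine CoeO.smul (j := j) (m := 1) ?_
      obtain ⟨C, hC⟩ := hXg
      refine ⟨C, fun η hη i k => ?_⟩
      beta_reduce
      rw [Matrix.neg_apply, norm_neg]
      exact hC η hη i k
    have a3 := (a1.mono (by omega : j + 1 ≤ 0 + (j + 1) + 0)).add a2'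
    refine a3.congr fun η => ?_
    have hUη := hU η
    simp only [sub_mul, mul_sub, add_mul, mul_add, Matrix.smul_mul, Matrix.mul_smul, mul_one,
      smul_neg, smul_sub, hUη]
    abel
  have hprod := CoeE.mul hj hf hconj
  refine CoeO.congr hprod fun η => ?_
  have e1 : mono ([(τ, μ)] ++ Q ++ [(τ, -μ)] ++ H) (η : ℂ) =
      mono H (η : ℂ) * (E τ (-μ) (η : ℂ) * (mono Q (η : ℂ) * E τ μ (η : ℂ))) := by
    rw [mono_append, mono_append, mono_append, hmonog]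
    show _ * (1 * E τ (-μ) (η : ℂ) * _) = _
    rw [one_mul]
  have e2 : mono ([(τ, μ)] ++ [(τ, -μ)] ++ H) (η : ℂ) =
      mono H (η : ℂ) * (E τ (-μ) (η : ℂ) * E τ μ (η : ℂ)) := by
    rw [mono_append, mono_append, hmonog]
    show _ * (1 * E τ (-μ) (η : ℂ) * _) = _
    rw [one_mul]
  have e3 : mono ([(τ, μ)] ++ Q ++ [(τ, -μ)] ++ H) (η : ℂ) =
      mono ([(τ, μ)] ++ [(τ, -μ)] ++ H) (η : ℂ) *
        ((E τ μ (η : ℂ)).conjTranspose * mono Q (η : ℂ) * E τ μ (η : ℂ)) := by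
    rw [e1, e2]
    have : E τ μ (η : ℂ) * ((E τ μ (η : ℂ)).conjTranspose * mono Q (η : ℂ) * E τ μ (η : ℂ)) =
        mono Q (η : ℂ) * E τ μ (η : ℂ) := by
      rw [← mul_assoc, ← mul_assoc, hU' η, one_mul]
    rw [mul_assoc, mul_assoc, this]
  have e4 : coeX (f₁ + n * e₁) (f₂ - n * e₂) (f₃ - n * e₃) = coeX f₁ f₂ f₃ + s1 * X * s1 := by
    rw [hX, coe2_s1X]
    unfold coeX
    push_cast
    module
  rw [e4]
  beta_reduce
  rw [e3]

end Pool.Agent.H5.DF
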