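import Pool.Agent.H5.DF.Defs

set_option autoImplicit false
open MeasureTheory Set Filter Topology
open scoped ENNReal NNReal FourierTransform

namespace Pool.Agent.H5.DF

/-!
Part DAT. The data: a fixed nonnegative smooth compactly supported `χ` (a `ContDiffBump`, as a
Schwartz function), `φ = 𝓕⁻ χ` (Schwartz, integrable), `g(x) = h φ(h x) e₀`, `𝓕 g ξ = χ(ξ/h) e₀`
(scaling of the Fourier integral), `‖g‖₁ = ‖φ‖₁`.
-/

open scoped SchwartzMap ContDiff in
theorem data_exists : ∃ (χ : ℝ → ℝ) (K : ℝ), Continuous χ ∧ (∀ x, 0 ≤ χ x) ∧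
    (∀ x, 1 < |x| → χ x = 0) ∧ 0 < (∫ x, χ x) ∧ 0 ≤ K ∧
    ∀ h : ℝ, 0 < h → ∃ g : ℝ → V, MemLp g 1 volume ∧
      eLpNorm g 1 volume ≤ ENNReal.ofReal K ∧
      ∀ ξ, (𝓕 g : ℝ → V) ξ = ((χ (ξ / h) : ℝ) : ℂ) • (EuclideanSpace.single 0 (1 : ℂ) : V) := by
  set b : ContDiffBump (0 : ℝ) := ⟨1 / 2, 1, by norm_num, by norm_num⟩ with hb
  have hbc : ContDiff ℝ ∞ (fun x => (b x : ℂ)) := Complex.ofRealCLM.contDiff.comp b.contDiff
  have hbs : HasCompactSupport (fun x => (b x : ℂ)) :=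
    b.hasCompactSupport.comp_left (g := fun r : ℝ => (r : ℂ)) Complex.ofReal_zero
  set X : 𝓢(ℝ, ℂ) := hbs.toSchwartzMap hbc with hX
  have hXa : ∀ x, X x = (b x : ℂ) := fun x => rfl
  set φ : 𝓢(ℝ, ℂ) := 𝓕⁻ X with hφ
  have hφi : Integrable (φ : ℝ → ℂ) volume := φ.integrable
  have hφF : ∀ ξ, (𝓕 (φ : ℝ → ℂ) : ℝ → ℂ) ξ = (b ξ : ℂ) := by
    intro ξ
    have h1 : (𝓕 (φ : ℝ → ℂ) : ℝ → ℂ) = ((𝓕 φ : 𝓢(ℝ, ℂ)) : ℝ → ℂ) := (SchwartzMap.fourier_coe φ).symm
    rw [h1, hφ, FourierTransform.fourier_fourierInv_eq, hXa]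
  refine ⟨b, ∫ x, ‖φ x‖, b.continuous, fun x => b.nonneg, fun x hx => ?_, b.integral_pos,
    integral_nonneg fun x => norm_nonneg _, fun h hh => ?_⟩
  · apply b.zero_of_le_dist
    rw [Real.dist_eq, sub_zero]
    exact hx.le
  have hh0 : h ≠ 0 := hh.ne'
  set a : ℝ → ℂ := fun x => (h : ℂ) * φ (h * x) with ha
  set e0 : V := EuclideanSpace.single 0 (1 : ℂ) with he0
  have hai : Integrable a volume := (hφi.comp_mul_left' hh0).const_mul _
  have hgi : Integrable (fun x => a x • e0) volume := hai.smul_const _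
  have hne : ‖e0‖ = 1 := by rw [he0, PiLp.norm_single, norm_one]
  refine ⟨fun x => a x • e0, memLp_one_iff_integrable.2 hgi, ?_, fun ξ => ?_⟩
  · rw [eLpNorm_one_eq_lintegral_enorm, ← ofReal_integral_norm_eq_lintegral_enorm hgi]
    apply ENNReal.ofReal_le_ofReal
    have e1 : ∀ x, ‖a x • e0‖ = h * ‖φ (h * x)‖ := by
      intro x
      rw [norm_smul, hne, mul_one, ha]
      simp only
      rw [norm_mul, Complex.norm_real, Real.norm_eq_abs, abs_of_pos hh]
    simp only [e1]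
    rw [integral_const_mul, Measure.integral_comp_mul_left (fun y => ‖φ y‖) h, abs_of_pos (inv_pos.2 hh),
      smul_eq_mul, ← mul_assoc, mul_inv_cancel₀ hh0, one_mul]
  · rw [Real.fourier_real_eq_integral_exp_smul]
    have e1 : ∀ x : ℝ, Complex.exp (((-2 * Real.pi * x * ξ : ℝ) : ℂ) * Complex.I) • (a x • e0) =
        (Complex.exp (((-2 * Real.pi * x * ξ : ℝ) : ℂ) * Complex.I) * a x) • e0 := by
      intro x
      rw [smul_smul]
    have e2 : ∫ x : ℝ, Complex.exp (((-2 * Real.pi * x * ξ : ℝ) : ℂ) * Complex.I) * a x =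
        (b (ξ / h) : ℂ) := by
      rw [← hφF, Real.fourier_real_eq_integral_exp_smul]
      have e3 : ∀ x : ℝ, Complex.exp (((-2 * Real.pi * x * ξ : ℝ) : ℂ) * Complex.I) * a x =
          (h : ℂ) * (fun y : ℝ => Complex.exp (((-2 * Real.pi * y * (ξ / h) : ℝ) : ℂ) * Complex.I) • φ y) (h * x) := by
        intro x
        simp only [ha, smul_eq_mul]
        have : -2 * Real.pi * (h * x) * (ξ / h) = -2 * Real.pi * x * ξ := by field_simp
        rw [this]
        ring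
      simp only [e3]
      rw [integral_const_mul, Measure.integral_comp_mul_left
        (fun y : ℝ => Complex.exp (((-2 * Real.pi * y * (ξ / h) : ℝ) : ℂ) * Complex.I) • φ y) h,
        abs_of_pos (inv_pos.2 hh), Complex.real_smul, ← mul_assoc, Complex.ofReal_inv,
        mul_inv_cancel₀ (Complex.ofReal_ne_zero.2 hh0), one_mul]
    calc ∫ x : ℝ, Complex.exp (((-2 * Real.pi * x * ξ : ℝ) : ℂ) * Complex.I) • (a x • e0)
        = ∫ x : ℝ, (Complex.exp (((-2 * Real.pi * x * ξ : ℝ) : ℂ) * Complex.I) * a x) • e0 := by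
          simp only [e1]
      _ = (b (ξ / h) : ℂ) • e0 := by rw [integral_smul_const, e2]

end Pool.Agent.H5.DF
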