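import Pool.Agent.H5.DF.Base

set_option autoImplicit false
open MeasureTheory Set Filter Topology
open scoped ENNReal NNReal FourierTransform

/-!
Definitions for `MP_24bb3f_an` (time-periodically forced Dirac equation, arbitrarily slow decay).
-/

namespace Pool.Agent.H5.DF

/-- first Pauli matrix -/
def s1 : Mat := !![0, 1; 1, 0]

/-- second Pauli matrix -/
def s2 : Mat := !![0, -Complex.I; Complex.I, 0]

/-- `α` solves `i ∂_t α = (i σ₃ ∂_x + ν(t)) α` for `t ≥ 0` with initial value `f`, in `L²(ℝ; ℂ²)`.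
After the Fourier transform (`∂_x` becomes `2 π i ξ`) the equation is the family of ordinary
differential equations `i ∂_t F(t, ξ) = (-2 π ξ σ₃ + ν(t)) F(t, ξ)`, `F(t, ·)` the Fourier transform
of `α(t)`; as `ν` is only bounded and measurable they are written in integrated form. -/
def IsSol (ν : ℝ → Mat) (f : Lp V 2 (volume : Measure ℝ)) (α : ℝ → Lp V 2 (volume : Measure ℝ)) :
    Prop :=
  ∃ F : ℝ → ℝ → V,
    (∀ t, 0 ≤ t → (𝓕 (α t) : Lp V 2 (volume : Measure ℝ)) =ᵐ[volume] F t) ∧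
    ((𝓕 f : Lp V 2 (volume : Measure ℝ)) =ᵐ[volume] F 0) ∧
    ∀ ξ : ℝ, ContinuousOn (fun t => F t ξ) (Ici 0) ∧
      ∀ t, 0 ≤ t → F t ξ = F 0 ξ - Complex.I •
        ∫ s in (0 : ℝ)..t, act ((-(2 * Real.pi * ξ) : ℂ) • s3 + ν s) (F s ξ)

/-- A decay estimate of order `(r, σ)` holds for `ν`:
`‖α(t)‖_∞ ≤ c t^{-σ} ‖⟨i∂_x⟩^r f‖_1` for all `t > 0` and all data `f ∈ L²` for which
`g = ⟨i∂_x⟩^r f` (Fourier multiplier `(1 + (2πξ)²)^{r/2}`) is in `L¹`. -/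
def Decay (ν : ℝ → Mat) (r σ : ℝ) : Prop :=
  ∃ c : ℝ, ∀ (f : Lp V 2 (volume : Measure ℝ)) (g : ℝ → V) (α : ℝ → Lp V 2 (volume : Measure ℝ)),
    MemLp g 1 volume →
    ((𝓕 g : ℝ → V) =ᵐ[volume] fun ξ =>
      (((1 + (2 * Real.pi * ξ) ^ 2) ^ (r / 2) : ℝ) : ℂ) •
        ((𝓕 f : Lp V 2 (volume : Measure ℝ)) : ℝ → V) ξ) →
    IsSol ν f α → ∀ t : ℝ, 0 < t →
      eLpNorm (α t) ⊤ volume ≤ ENNReal.ofReal (c / t ^ σ) * eLpNorm g 1 volume

/-- `ν` is dispersive. -/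
def Dispersive (ν : ℝ → Mat) : Prop := ∃ r σ : ℝ, 0 ≤ r ∧ 0 < σ ∧ Decay ν r σ

/-! ### piecewise constant forcings `m(t) σ₁`, coded by lists of pairs (duration, mass) -/

/-- `ω = sqrt (η² + μ²)` (principal branch; for real `η` the nonnegative square root). -/
noncomputable def om (μ : ℝ) (η : ℂ) : ℂ := (η ^ 2 + (μ : ℂ) ^ 2) ^ (1 / 2 : ℂ)

/-- `E τ μ η = exp (- i τ (η σ₃ + μ σ₁))` for `μ ≠ 0` (and `η` near the real axis). -/
noncomputable def E (τ μ : ℝ) (η : ℂ) : Mat :=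
  !![Complex.cos (τ * om μ η) - Complex.I * η * (Complex.sin (τ * om μ η) / om μ η),
     -(Complex.I * μ * (Complex.sin (τ * om μ η) / om μ η));
     -(Complex.I * μ * (Complex.sin (τ * om μ η) / om μ η)),
     Complex.cos (τ * om μ η) + Complex.I * η * (Complex.sin (τ * om μ η) / om μ η)]

/-- total duration -/
def dur : List (ℝ × ℝ) → ℝ
  | [] => 0
  | p :: L => p.1 + dur L

/-- monodromy matrix: the first pair of the list acts first -/
noncomputable def mono : List (ℝ × ℝ) → ℂ → Mat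
  | [], _ => 1
  | p :: L, η => mono L η * E p.1 p.2 η

/-- value at time `t ∈ [0, dur L)` of the piecewise constant mass -/
noncomputable def seg : List (ℝ × ℝ) → ℝ → ℝ
  | [], _ => 0
  | p :: L, t => if t < p.1 then p.2 else seg L (t - p.1)

/-- propagator at time `t ∈ [0, dur L]` -/
noncomputable def part : List (ℝ × ℝ) → ℝ → ℂ → Mat
  | [], _, _ => 1
  | p :: L, t, η => if t ≤ p.1 then E t p.2 η else part L (t - p.1) η * E p.1 p.2 η

/-- admissible lists: positive durations, nonzero masses -/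
def Adm (L : List (ℝ × ℝ)) : Prop := ∀ p ∈ L, 0 < p.1 ∧ p.2 ≠ 0

/-- the mass takes both signs -/
def Mixed (L : List (ℝ × ℝ)) : Prop := (∃ p ∈ L, 0 < p.2) ∧ ∃ p ∈ L, p.2 < 0

/-- the periodic mass -/
noncomputable def mass (L : List (ℝ × ℝ)) (t : ℝ) : ℝ := seg L (dur L * Int.fract (t / dur L))

/-- the forcing `m(t) σ₁` -/
noncomputable def nu (L : List (ℝ × ℝ)) (t : ℝ) : Mat := ((mass L t : ℝ) : ℂ) • s1

/-- the propagator of `nu L`: `i ∂_t U = (η σ₃ + m(t) σ₁) U`, `U(0) = 1` (for `t ≥ 0`) -/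
noncomputable def prop (L : List (ℝ × ℝ)) (t : ℝ) (η : ℂ) : Mat :=
  part L (dur L * Int.fract (t / dur L)) η * mono L η ^ ⌊t / dur L⌋.toNat

/-- half trace of the monodromy -/
noncomputable def D (L : List (ℝ × ℝ)) (η : ℂ) : ℂ := (mono L η 0 0 + mono L η 1 1) / 2

/-- half trace, real version -/
noncomputable def Dr (L : List (ℝ × ℝ)) (η : ℝ) : ℝ := (D L η).re

/-- the discriminant of dispersion: `θ'' = - G / (1 - D²)^{3/2}` for `θ = arccos D`. -/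
noncomputable def G (L : List (ℝ × ℝ)) (η : ℝ) : ℝ :=
  deriv (deriv (Dr L)) η * (1 - Dr L η ^ 2) + Dr L η * deriv (Dr L) η ^ 2

/-- complex version of `G` -/
noncomputable def Gc (L : List (ℝ × ℝ)) (η : ℂ) : ℂ :=
  deriv (deriv (D L)) η * (1 - D L η ^ 2) + D L η * deriv (D L) η ^ 2

/-- closeness to the identity of order `j` at `η = 0` -/
def NearId (j : ℕ) (L : List (ℝ × ℝ)) : Prop :=
  ∃ C : ℝ, ∀ η : ℝ, |η| ≤ 1 → ∀ i k, ‖(mono L (η : ℂ) - 1) i k‖ ≤ C * |η| ^ j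

/-- leading coefficient: `mono L η = 1 - i η^j (e₁ σ₁ + e₂ σ₂ + e₃ σ₃) + O(η^{j+1})` -/
def Coef (j : ℕ) (L : List (ℝ × ℝ)) (e₁ e₂ e₃ : ℝ) : Prop :=
  ∃ C : ℝ, ∀ η : ℝ, |η| ≤ 1 → ∀ i k,
    ‖(mono L (η : ℂ) - 1 + (Complex.I * (η : ℂ) ^ j) •
      ((e₁ : ℂ) • s1 + (e₂ : ℂ) • s2 + (e₃ : ℂ) • s3)) i k‖ ≤ C * |η| ^ (j + 1)

/-- same list, masses negated -/
def negL (L : List (ℝ × ℝ)) : List (ℝ × ℝ) := L.map fun p => (p.1, -p.2)

/-- scaling: `mono (scL c L) η = mono L (c η)` -/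
noncomputable def scL (c : ℝ) (L : List (ℝ × ℝ)) : List (ℝ × ℝ) := L.map fun p => (c * p.1, p.2 / c)

/-- exponential polynomials with real frequencies -/
def EP (P : ℂ → ℂ) : Prop :=
  ∃ (s : Finset ℝ) (c : ℝ → ℂ), ∀ η : ℂ, P η = ∑ a ∈ s, c a * Complex.exp (Complex.I * a * η)

/-- asymptotic expansion to third order in a strip of half width `δ` -/
def AE (δ : ℝ) (F P₀ P₁ P₂ : ℂ → ℂ) : Prop :=
  EP P₀ ∧ EP P₁ ∧ EP P₂ ∧ ∃ C R : ℝ, 0 < R ∧ ∀ η : ℂ, |η.im| ≤ δ → R ≤ |η.re| →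
    ‖F η - P₀ η - P₁ η / η - P₂ η / η ^ 2‖ ≤ C / |η.re| ^ 3

/-- `c = (1/2) Σ τ μ²` -/
noncomputable def cc : List (ℝ × ℝ) → ℝ
  | [] => 0
  | p :: L => p.1 * p.2 ^ 2 / 2 + cc L

/-- first order coefficient of `mono L η 1 0` -/
noncomputable def b10 : List (ℝ × ℝ) → ℂ → ℂ
  | [], _ => 0
  | p :: L, η => Complex.exp (Complex.I * dur L * η) * (-(Complex.I * p.2 * Complex.sin (p.1 * η)))
      + b10 L η * Complex.exp (-(Complex.I * p.1 * η))

/-- first order coefficient of `mono L η 0 1` -/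
noncomputable def b01 : List (ℝ × ℝ) → ℂ → ℂ
  | [], _ => 0
  | p :: L, η => Complex.exp (-(Complex.I * dur L * η)) * (-(Complex.I * p.2 * Complex.sin (p.1 * η)))
      + b01 L η * Complex.exp (Complex.I * p.1 * η)

end Pool.Agent.H5.DF
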