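import Pool.Agent.H5.DF.Defs
import Pool.Agent.H5.DF.Coef
import Pool.Agent.H5.DF.Coe2

set_option autoImplicit false
open MeasureTheory Set Filter Topology
open scoped ENNReal NNReal FourierTransform

namespace Pool.Agent.H5.DF

/-!
Part DEG. Monodromies arbitrarily close to the identity at `η = 0`.
Paper proof. Claim (by induction on `j ≥ 1`): for every admissible `L` with `NearId 1 L` there is an
admissible `H` with `NearId 1 H` and `NearId j (L ++ H)`.
`j = 1`: `H = L`.  Step: `K = L ++ H` has `Coef j K e₁ e₂ e₃` (`coef_exists`).  It is enough to find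
an admissible `N` with `Coef j N (-e₁) (-e₂) (-e₃)` (then `H ++ N` works: `coef_append`,
`nearId_succ_of_coef`).  If `e₃ = 0`: `N = negL K`.  If `e₃ ≠ 0`: with the pulse pair
`P = [(1, π/2)] ++ [(1, -π/2)]` (`nearId_one_pulse`) and `H'` with `NearId j (P ++ H')` (induction
hypothesis), `Coef j (P ++ H') f`, `coef_conj` with `L := K` and `n` large gives an admissible `Q` with
third coefficient `q₃ = f₃ - n e₃` of sign opposite to `e₃`.  `Q ++ Q.reverse ++ negL Q ++
(negL Q).reverse` has coefficient `(0, 0, 4 q₃)`; scaling by `c` with `c^j * 4 q₃ = -2 e₃` and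
appending `negL K` (coefficient `(-e₁, -e₂, e₃)`) gives `N`.
Start with `L = P` (which is `Mixed`).
-/

/-- the pulse pair -/
noncomputable def degP : List (ℝ × ℝ) := [(1, Real.pi / 2)] ++ [(1, -(Real.pi / 2))]

theorem degP_adm : Adm degP := by
  intro p hp
  have hpi := Real.pi_pos
  unfold degP at hp
  simp only [List.cons_append, List.nil_append, List.mem_cons, List.not_mem_nil, or_false] at hp
  rcases hp with rfl | rfl
  · exact ⟨one_pos, by positivity⟩
  · refine ⟨one_pos, ?_⟩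
    have : (Real.pi / 2 : ℝ) ≠ 0 := by positivity
    simpa using this

theorem degP_near : NearId 1 degP :=
  nearId_one_pulse one_pos (by positivity) (one_mul _)

theorem deg_step {j : ℕ} (hj : 1 ≤ j)
    (IH : ∀ L : List (ℝ × ℝ), Adm L → NearId 1 L → ∃ H, Adm H ∧ NearId 1 H ∧ NearId j (L ++ H))
    {K : List (ℝ × ℝ)} (hK : Adm K) {e₁ e₂ e₃ : ℝ} (he : Coef j K e₁ e₂ e₃) :
    ∃ N, Adm N ∧ Coef j N (-e₁) (-e₂) (-e₃) := by
  by_cases h3 : e₃ = 0
  · refine ⟨negL K, Adm_negL hK, ?_⟩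
    have := coef_negL hK he
    rw [h3] at this ⊢
    simpa using this
  obtain ⟨H', hH', -, hnear⟩ := IH degP degP_adm degP_near
  obtain ⟨f₁, f₂, f₃, hf⟩ := coef_exists hj (Adm_append degP_adm hH') hnear
  obtain ⟨n, hn⟩ := exists_nat_gt (e₃ * f₃ / e₃ ^ 2)
  have he3 : 0 < e₃ ^ 2 := by positivity
  rw [div_lt_iff₀ he3] at hn
  have hpi := Real.pi_pos
  have hQ := coef_conj hj (τ := 1) (μ := Real.pi / 2) one_pos (by positivity) (one_mul _) hK hH'
    he hf n
  set Q : List (ℝ × ℝ) :=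
    [((1 : ℝ), Real.pi / 2)] ++ (List.replicate n K).flatten ++ [((1 : ℝ), -(Real.pi / 2))] ++ H'
    with hQdef
  have hQadm : Adm Q := by
    have a1 : Adm [((1 : ℝ), Real.pi / 2)] := fun p hp => degP_adm p (by
      unfold degP
      exact List.mem_append_left _ hp)
    have a2 : Adm [((1 : ℝ), -(Real.pi / 2))] := fun p hp => degP_adm p (by
      unfold degP
      exact List.mem_append_right _ hp)
    exact Adm_append (Adm_append (Adm_append a1 (Adm_flatten hK n)) a2) hH'
  set q₁ := f₁ + n * e₁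
  set q₂ := f₂ - n * e₂
  set q₃ := f₃ - n * e₃ with hq3
  have hsign : e₃ * q₃ < 0 := by
    rw [hq3]
    nlinarith
  have hq0 : q₃ ≠ 0 := by
    rintro h
    rw [h] at hsign
    simp at hsign
  -- symmetrisation
  have hS := coef_append hj (Adm_append (Adm_append hQadm (Adm_reverse hQadm)) (Adm_negL hQadm))
    (Adm_reverse (Adm_negL hQadm))
    (coef_append hj (Adm_append hQadm (Adm_reverse hQadm)) (Adm_negL hQadm)
      (coef_append hj hQadm (Adm_reverse hQadm) hQ (coef_reverse hQadm hQ)) (coef_negL hQadm hQ))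
    (coef_revneg hQadm hQ)
  have hSadm := Adm_append (Adm_append (Adm_append hQadm (Adm_reverse hQadm)) (Adm_negL hQadm))
    (Adm_reverse (Adm_negL hQadm))
  have z1 : q₁ + q₁ + -q₁ + -q₁ = 0 := by ring
  have z2 : q₂ + -q₂ + -q₂ + q₂ = 0 := by ring
  have z3 : q₃ + q₃ + q₃ + q₃ = 4 * q₃ := by ring
  rw [z1, z2, z3] at hS
  set S := Q ++ Q.reverse ++ negL Q ++ (negL Q).reverse
  -- scaling
  have hpos : 0 < -(e₃ / (2 * q₃)) := by
    rw [neg_pos]
    have : e₃ / (2 * q₃) = (e₃ * q₃) / (2 * q₃ ^ 2) := by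
      field_simp
    rw [this]
    exact div_neg_of_neg_of_pos hsign (by positivity)
  set c : ℝ := (-(e₃ / (2 * q₃))) ^ (1 / (j : ℝ)) with hc
  have hcpos : 0 < c := Real.rpow_pos_of_pos hpos _
  have hj0 : (j : ℝ) ≠ 0 := by
    have : 0 < j := hj
    positivity
  have hcj : c ^ j = -(e₃ / (2 * q₃)) := by
    rw [hc, ← Real.rpow_natCast, ← Real.rpow_mul hpos.le, one_div, inv_mul_cancel₀ hj0,
      Real.rpow_one]
  have hsc := coef_scL hSadm hS hcpos
  have w1 : c ^ j * 0 = 0 := mul_zero _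
  have w3 : c ^ j * (4 * q₃) = -(2 * e₃) := by
    rw [hcj]
    field_simp
    ring
  rw [w1, w3] at hsc
  refine ⟨negL K ++ scL c S, Adm_append (Adm_negL hK) (Adm_scL hSadm hcpos), ?_⟩
  have := coef_append hj (Adm_negL hK) (Adm_scL hSadm hcpos) (coef_negL hK he) hsc
  have y1 : -e₁ + 0 = -e₁ := by ring
  have y2 : -e₂ + 0 = -e₂ := by ring
  have y3 : e₃ + -(2 * e₃) = -e₃ := by ring
  rwa [y1, y2, y3] at this

theorem deg_main (j : ℕ) (hj : 1 ≤ j) : ∀ L : List (ℝ × ℝ), Adm L → NearId 1 L →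
    ∃ H, Adm H ∧ NearId 1 H ∧ NearId j (L ++ H) := by
  induction j, hj using Nat.le_induction with
  | base => exact fun L hL h => ⟨L, hL, h, nearId_one_append hL hL h h⟩
  | succ j hj IH =>
    intro L hL h
    obtain ⟨H, hH, hH1, hnear⟩ := IH L hL h
    obtain ⟨e₁, e₂, e₃, he⟩ := coef_exists hj (Adm_append hL hH) hnear
    obtain ⟨N, hN, hNc⟩ := deg_step hj IH (Adm_append hL hH) he
    have hN1 : NearId 1 N := nearId_mono hj (nearId_of_coef hNc)
    refine ⟨H ++ N, Adm_append hH hN, nearId_one_append hH hN hH1 hN1, ?_⟩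
    have h1 := coef_append hj (Adm_append hL hH) hN he hNc
    have y1 : e₁ + -e₁ = 0 := by ring
    have y2 : e₂ + -e₂ = 0 := by ring
    have y3 : e₃ + -e₃ = 0 := by ring
    rw [y1, y2, y3, List.append_assoc] at h1
    exact nearId_succ_of_coef h1

theorem near_id_exists (k : ℕ) : ∃ L : List (ℝ × ℝ), Adm L ∧ Mixed L ∧ NearId k L := by
  obtain ⟨H, hH, -, hn⟩ := deg_main (k + 1) (Nat.le_add_left 1 k) degP degP_adm degP_near
  have hpi := Real.pi_pos
  refine ⟨degP ++ H, Adm_append degP_adm hH, ⟨⟨(1, Real.pi / 2), ?_, by positivity⟩,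
    ⟨(1, -(Real.pi / 2)), ?_, ?_⟩⟩, nearId_mono (Nat.le_succ k) hn⟩
  · unfold degP
    simp
  · unfold degP
    simp
  · have : (0 : ℝ) < Real.pi / 2 := by positivity
    linarith

end Pool.Agent.H5.DF
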