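import Pool.Agent.H5.DF.Defs
import Pool.Agent.H5.DF.AlgE

set_option autoImplicit false
open MeasureTheory Set Filter Topology
open scoped ENNReal NNReal FourierTransform

namespace Pool.Agent.H5.DF

/-!
Part EDB. Derivative in `η` of `E τ μ η`, bounded by `C (1+|τ|)`; continuity of the derivative.
Real-variable computation with `ω = sqrt(η²+μ²) ≥ |μ| > 0` (`om_real`), `ω' = η/ω`, `|η/ω| ≤ 1`:
`(cos τω)' = -τ (η/ω) sin τω`, `(sin(τω)/ω)' = τ cos(τω) η/ω² - sin(τω) η/ω³`,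
`(η sin(τω)/ω)' = sin(τω)/ω + η (sin(τω)/ω)'`.  (Smoothness also follows from part ANA.)
-/

/-- the real frequency -/
noncomputable def edw (μ η : ℝ) : ℝ := Real.sqrt (η ^ 2 + μ ^ 2)

/-- `sin(τω)/ω` -/
noncomputable def edS (τ μ η : ℝ) : ℝ := Real.sin (τ * edw μ η) / edw μ η

lemma edw_pos {μ : ℝ} (hμ : μ ≠ 0) (η : ℝ) : 0 < edw μ η := by
  unfold edw
  apply Real.sqrt_pos.mpr
  positivity

lemma abs_mu_le_edw (μ η : ℝ) : |μ| ≤ edw μ η := by
  unfold edw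
  rw [← Real.sqrt_sq_eq_abs]
  apply Real.sqrt_le_sqrt
  nlinarith [sq_nonneg η]

lemma abs_eta_le_edw (μ η : ℝ) : |η| ≤ edw μ η := by
  unfold edw
  rw [← Real.sqrt_sq_eq_abs]
  apply Real.sqrt_le_sqrt
  nlinarith [sq_nonneg μ]

lemma E_entries (τ μ η : ℝ) : E τ μ (η : ℂ) =
    !![((Real.cos (τ * edw μ η) : ℝ) : ℂ) - Complex.I * ((η * edS τ μ η : ℝ) : ℂ),
       -(Complex.I * ((μ * edS τ μ η : ℝ) : ℂ));
       -(Complex.I * ((μ * edS τ μ η : ℝ) : ℂ)),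
       ((Real.cos (τ * edw μ η) : ℝ) : ℂ) + Complex.I * ((η * edS τ μ η : ℝ) : ℂ)] := by
  have h : om μ (η : ℂ) = ((edw μ η : ℝ) : ℂ) := om_real μ η
  unfold E edS
  rw [h]
  push_cast
  ext i j
  fin_cases i <;> fin_cases j <;> simp <;> ring

lemma edw_contDiff {μ : ℝ} (hμ : μ ≠ 0) : ContDiff ℝ (⊤ : ℕ∞) (edw μ) := by
  unfold edw
  apply ContDiff.sqrt
  · fun_prop
  · intro x
    positivity

lemma edcos_contDiff {μ : ℝ} (hμ : μ ≠ 0) (τ : ℝ) :
    ContDiff ℝ (⊤ : ℕ∞) (fun η => Real.cos (τ * edw μ η)) :=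
  Real.contDiff_cos.comp (contDiff_const.mul (edw_contDiff hμ))

lemma edS_contDiff {μ : ℝ} (hμ : μ ≠ 0) (τ : ℝ) : ContDiff ℝ (⊤ : ℕ∞) (edS τ μ) := by
  unfold edS
  apply ContDiff.div
  · exact Real.contDiff_sin.comp (contDiff_const.mul (edw_contDiff hμ))
  · exact edw_contDiff hμ
  · intro x
    exact (edw_pos hμ x).ne'

lemma ofReal_contDiff {f : ℝ → ℝ} (hf : ContDiff ℝ (⊤ : ℕ∞) f) :
    ContDiff ℝ (⊤ : ℕ∞) (fun η => ((f η : ℝ) : ℂ)) :=
  Complex.ofRealCLM.contDiff.comp hf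

theorem E_contDiff {μ : ℝ} (hμ : μ ≠ 0) (τ : ℝ) (i j : Fin 2) :
    ContDiff ℝ (⊤ : ℕ∞) (fun η : ℝ => E τ μ (η : ℂ) i j) := by
  have h1 := ofReal_contDiff (edcos_contDiff hμ τ)
  have h2 := ofReal_contDiff (contDiff_id.mul (edS_contDiff hμ τ))
  have h3 := ofReal_contDiff ((contDiff_const (c := μ)).mul (edS_contDiff hμ τ))
  have e : (fun η : ℝ => E τ μ (η : ℂ) i j) = fun η : ℝ =>
    (!![((Real.cos (τ * edw μ η) : ℝ) : ℂ) - Complex.I * ((η * edS τ μ η : ℝ) : ℂ),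
       -(Complex.I * ((μ * edS τ μ η : ℝ) : ℂ));
       -(Complex.I * ((μ * edS τ μ η : ℝ) : ℂ)),
       ((Real.cos (τ * edw μ η) : ℝ) : ℂ) + Complex.I * ((η * edS τ μ η : ℝ) : ℂ)] :
        Matrix (Fin 2) (Fin 2) ℂ) i j := by
    funext η
    rw [E_entries]
  rw [e]
  fin_cases i <;> fin_cases j
  · exact h1.sub (contDiff_const.mul h2)
  · exact (contDiff_const.mul h3).neg
  · exact (contDiff_const.mul h3).neg
  · exact h1.add (contDiff_const.mul h2)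

lemma edw_hasDerivAt {μ : ℝ} (hμ : μ ≠ 0) (η : ℝ) :
    HasDerivAt (edw μ) (η / edw μ η) η := by
  have h1 : HasDerivAt (fun x : ℝ => x ^ 2 + μ ^ 2) (2 * η) η := by
    have := (hasDerivAt_pow 2 η).add_const (μ ^ 2)
    simpa using this
  have h2 := h1.sqrt (by positivity)
  rw [mul_div_mul_left _ _ (two_ne_zero)] at h2
  exact h2

lemma edcos_hasDerivAt {μ : ℝ} (hμ : μ ≠ 0) (τ η : ℝ) :
    HasDerivAt (fun x => Real.cos (τ * edw μ x))
      (-Real.sin (τ * edw μ η) * (τ * (η / edw μ η))) η :=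
  ((edw_hasDerivAt hμ η).const_mul τ).cos

lemma edS_hasDerivAt {μ : ℝ} (hμ : μ ≠ 0) (τ η : ℝ) :
    HasDerivAt (edS τ μ)
      ((Real.cos (τ * edw μ η) * (τ * (η / edw μ η)) * edw μ η -
        Real.sin (τ * edw μ η) * (η / edw μ η)) / edw μ η ^ 2) η :=
  (((edw_hasDerivAt hμ η).const_mul τ).sin).div (edw_hasDerivAt hμ η) (edw_pos hμ η).ne'

lemma abs_edS_le {μ : ℝ} (hμ : μ ≠ 0) (τ η : ℝ) : |edS τ μ η| ≤ 1 / |μ| := by
  unfold edS
  rw [abs_div, abs_of_pos (edw_pos hμ η)]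
  apply div_le_div₀ zero_le_one (Real.abs_sin_le_one _) (abs_pos.mpr hμ) (abs_mu_le_edw μ η)

lemma abs_dcos_le {μ : ℝ} (hμ : μ ≠ 0) (τ η : ℝ) :
    |(-Real.sin (τ * edw μ η) * (τ * (η / edw μ η)))| ≤ |τ| := by
  have hw := edw_pos hμ η
  rw [abs_mul, abs_mul, abs_neg, abs_div, abs_of_pos hw]
  have h1 : |η| / edw μ η ≤ 1 := (div_le_one hw).mpr (abs_eta_le_edw μ η)
  have h0 : 0 ≤ |η| / edw μ η := by positivity
  have h2 := Real.abs_sin_le_one (τ * edw μ η)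
  calc |Real.sin (τ * edw μ η)| * (|τ| * (|η| / edw μ η)) ≤ 1 * (|τ| * 1) := by
        gcongr
    _ = |τ| := by ring

/-- `x · S'` is bounded by `|τ| + 1/|μ|` for `|x| ≤ ω` -/
lemma abs_mul_dS_le {μ : ℝ} (hμ : μ ≠ 0) (τ η x : ℝ) (hx : |x| ≤ edw μ η) :
    |x * ((Real.cos (τ * edw μ η) * (τ * (η / edw μ η)) * edw μ η -
        Real.sin (τ * edw μ η) * (η / edw μ η)) / edw μ η ^ 2)| ≤ |τ| + 1 / |μ| := by
  have hw := edw_pos hμ η
  have h1 : |η| / edw μ η ≤ 1 := (div_le_one hw).mpr (abs_eta_le_edw μ η)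
  have hx1 : |x| / edw μ η ≤ 1 := (div_le_one hw).mpr hx
  have h0 : 0 ≤ |η| / edw μ η := by positivity
  have h0x : 0 ≤ |x| / edw μ η := by positivity
  have hs := Real.abs_sin_le_one (τ * edw μ η)
  have hc := Real.abs_cos_le_one (τ * edw μ η)
  have e : x * ((Real.cos (τ * edw μ η) * (τ * (η / edw μ η)) * edw μ η -
        Real.sin (τ * edw μ η) * (η / edw μ η)) / edw μ η ^ 2) =
      Real.cos (τ * edw μ η) * τ * (η / edw μ η) * (x / edw μ η) -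
        Real.sin (τ * edw μ η) * (η / edw μ η) * (x / edw μ η) * (1 / edw μ η) := by
    field_simp
  rw [e]
  refine (abs_sub _ _).trans ?_
  have a1 : |Real.cos (τ * edw μ η) * τ * (η / edw μ η) * (x / edw μ η)| ≤ |τ| := by
    rw [abs_mul, abs_mul, abs_mul, abs_div, abs_div, abs_of_pos hw]
    calc |Real.cos (τ * edw μ η)| * |τ| * (|η| / edw μ η) * (|x| / edw μ η)
        ≤ 1 * |τ| * 1 * 1 := by gcongr
      _ = |τ| := by ring
  have a2 : |Real.sin (τ * edw μ η) * (η / edw μ η) * (x / edw μ η) * (1 / edw μ η)| ≤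
      1 / |μ| := by
    rw [abs_mul, abs_mul, abs_mul, abs_div, abs_div, abs_div, abs_of_pos hw, abs_one]
    have hm : 1 / edw μ η ≤ 1 / |μ| :=
      one_div_le_one_div_of_le (abs_pos.mpr hμ) (abs_mu_le_edw μ η)
    have hm0 : 0 ≤ 1 / edw μ η := by positivity
    calc |Real.sin (τ * edw μ η)| * (|η| / edw μ η) * (|x| / edw μ η) * (1 / edw μ η)
        ≤ 1 * 1 * 1 * (1 / |μ|) := by gcongr
      _ = 1 / |μ| := by ring
  linarith

theorem E_deriv_bdd {μ : ℝ} (hμ : μ ≠ 0) : ∃ C : ℝ, 0 ≤ C ∧ ∀ (τ η : ℝ) (i j : Fin 2),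
    ‖deriv (fun η : ℝ => E τ μ (η : ℂ) i j) η‖ ≤ C * (1 + |τ|) := by
  have hμ' : 0 < |μ| := abs_pos.mpr hμ
  refine ⟨2 + 2 / |μ|, by positivity, ?_⟩
  intro τ η i j
  set d1 := (-Real.sin (τ * edw μ η) * (τ * (η / edw μ η))) with hd1
  set dS := ((Real.cos (τ * edw μ η) * (τ * (η / edw μ η)) * edw μ η -
        Real.sin (τ * edw μ η) * (η / edw μ η)) / edw μ η ^ 2) with hdS
  have h1 : HasDerivAt (fun x : ℝ => ((Real.cos (τ * edw μ x) : ℝ) : ℂ)) (d1 : ℂ) η :=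
    (edcos_hasDerivAt hμ τ η).ofReal_comp
  have h2 : HasDerivAt (fun x : ℝ => ((x * edS τ μ x : ℝ) : ℂ))
      ((1 * edS τ μ η + η * dS : ℝ) : ℂ) η :=
    ((hasDerivAt_id η).mul (edS_hasDerivAt hμ τ η)).ofReal_comp
  have h3 : HasDerivAt (fun x : ℝ => ((μ * edS τ μ x : ℝ) : ℂ)) ((μ * dS : ℝ) : ℂ) η :=
    ((edS_hasDerivAt hμ τ η).const_mul μ).ofReal_comp
  have b1 : |d1| ≤ |τ| := abs_dcos_le hμ τ η
  have b2 : |1 * edS τ μ η + η * dS| ≤ |τ| + 2 / |μ| := by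
    refine (abs_add_le _ _).trans ?_
    rw [one_mul]
    have := abs_edS_le hμ τ η
    have h := abs_mul_dS_le hμ τ η η (abs_eta_le_edw μ η)
    have e : (2 : ℝ) / |μ| = 1 / |μ| + 1 / |μ| := by ring
    rw [e]
    linarith
  have b3 : |μ * dS| ≤ |τ| + 1 / |μ| := abs_mul_dS_le hμ τ η μ (abs_mu_le_edw μ η)
  have e : (fun η : ℝ => E τ μ (η : ℂ) i j) = fun η : ℝ =>
    (!![((Real.cos (τ * edw μ η) : ℝ) : ℂ) - Complex.I * ((η * edS τ μ η : ℝ) : ℂ),
       -(Complex.I * ((μ * edS τ μ η : ℝ) : ℂ));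
       -(Complex.I * ((μ * edS τ μ η : ℝ) : ℂ)),
       ((Real.cos (τ * edw μ η) : ℝ) : ℂ) + Complex.I * ((η * edS τ μ η : ℝ) : ℂ)] :
        Matrix (Fin 2) (Fin 2) ℂ) i j := by
    funext η
    rw [E_entries]
  rw [e]
  have hτ : 0 ≤ |τ| := abs_nonneg τ
  have hm2 : 0 ≤ 2 / |μ| := by positivity
  have hm1 : 1 / |μ| ≤ 2 / |μ| := by gcongr; norm_num
  have key : ∀ u v : ℝ, |u| ≤ |τ| → |v| ≤ |τ| + 2 / |μ| →
      |u| + |v| ≤ (2 + 2 / |μ|) * (1 + |τ|) := by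
    intro u v hu hv
    nlinarith [mul_nonneg hm2 hτ]
  fin_cases i <;> fin_cases j
  · have H := (h1.sub (h2.const_mul Complex.I)).deriv
    refine le_trans (le_of_eq (congrArg norm H)) ?_
    refine (norm_sub_le _ _).trans ?_
    rw [norm_mul, Complex.norm_I, one_mul, Complex.norm_real, Complex.norm_real,
      Real.norm_eq_abs, Real.norm_eq_abs]
    exact key _ _ b1 b2
  · have H := ((h3.const_mul Complex.I).neg).deriv
    refine le_trans (le_of_eq (congrArg norm H)) ?_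
    rw [norm_neg, norm_mul, Complex.norm_I, one_mul, Complex.norm_real, Real.norm_eq_abs]
    have := key 0 (μ * dS) (by simp) (b3.trans (by linarith))
    simpa using this
  · have H := ((h3.const_mul Complex.I).neg).deriv
    refine le_trans (le_of_eq (congrArg norm H)) ?_
    rw [norm_neg, norm_mul, Complex.norm_I, one_mul, Complex.norm_real, Real.norm_eq_abs]
    have := key 0 (μ * dS) (by simp) (b3.trans (by linarith))
    simpa using this
  · have H := (h1.add (h2.const_mul Complex.I)).deriv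
    refine le_trans (le_of_eq (congrArg norm H)) ?_
    refine (norm_add_le _ _).trans ?_
    rw [norm_mul, Complex.norm_I, one_mul, Complex.norm_real, Complex.norm_real,
      Real.norm_eq_abs, Real.norm_eq_abs]
    exact key _ _ b1 b2

end Pool.Agent.H5.DF
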