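import Pool.Agent.H5.DF.Defs

set_option autoImplicit false
open MeasureTheory Set Filter Topology
open scoped ENNReal NNReal FourierTransform SchwartzMap ContDiff

namespace Pool.Agent.H5.DF

/-!
Part FL. The `L²` Fourier transform of a function in `L¹ ∩ L²` is given by the integral.
Paper proof: `MeasureTheory.Lp.fourier_toTemperedDistribution_eq` (file
`Mathlib/Analysis/Fourier/LpSpace.lean`): for Schwartz `φ`, `∫ (𝓕 h₂) φ = ∫ h (𝓕 φ)`, and
`VectorFourier.integral_fourierIntegral_smul_eq_flip` (or `Real.…`) gives `= ∫ (𝓕 h) φ`; so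
`𝓕 h₂ - 𝓕 h` is locally integrable and integrates to `0` against smooth compactly supported
functions (`ae_eq_zero_of_integral_contDiff_smul_eq_zero`).  Same for the inverse.  (Alternatively:
density of Schwartz functions in `L¹ ∩ L²`.)
-/

lemma fl_flip (g : 𝓢(ℝ, ℂ)) {h : ℝ → V} (hi : Integrable h volume) :
    ∫ x, (𝓕 g) x • h x = ∫ x, g x • (𝓕 h : ℝ → V) x := by
  have := VectorFourier.integral_fourierIntegral_smul_eq_flip (μ := volume) (ν := volume)
    (L := innerₗ ℝ) (f := (g : ℝ → ℂ)) (g := h) Real.continuous_fourierChar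
    (innerSL ℝ).continuous₂ g.integrable hi
  rw [flip_innerₗ] at this
  exact this

lemma fl_cont {h : ℝ → V} (hi : Integrable h volume) : Continuous (𝓕 h : ℝ → V) :=
  VectorFourier.fourierIntegral_continuous Real.continuous_fourierChar
    (innerSL ℝ).continuous₂ hi

lemma fl_ae {a b : ℝ → V} (ha : LocallyIntegrable a volume) (hb : LocallyIntegrable b volume)
    (h : ∀ g : 𝓢(ℝ, ℂ), ∫ x, g x • a x = ∫ x, g x • b x) : a =ᵐ[volume] b := by
  refine ae_eq_of_integral_contDiff_smul_eq ha hb fun φ hφ hs => ?_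
  have h1 : ContDiff ℝ ∞ (fun x => (φ x : ℂ)) := Complex.ofRealCLM.contDiff.comp hφ
  have h2 : HasCompactSupport (fun x => (φ x : ℂ)) := hs.comp_left (g := fun r : ℝ => (r : ℂ)) Complex.ofReal_zero
  have := h (h2.toSchwartzMap h1)
  simpa using this

theorem fourier_toLp {h : ℝ → V} (h1 : MemLp h 1 volume) (h2 : MemLp h 2 volume) :
    (𝓕 (h2.toLp h) : Lp V 2 (volume : Measure ℝ)) =ᵐ[volume] (𝓕 h : ℝ → V) := by
  have hi : Integrable h volume := memLp_one_iff_integrable.1 h1
  refine fl_ae ((Lp.memLp _).locallyIntegrable (by norm_num)) (fl_cont hi).locallyIntegrable fun g => ?_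
  have e1 := DFunLike.congr_fun (Lp.fourier_toTemperedDistribution_eq (h2.toLp h)) g
  rw [TemperedDistribution.fourier_apply, Lp.toTemperedDistribution_apply, Lp.toTemperedDistribution_apply] at e1
  rw [← e1, ← fl_flip g hi]
  apply integral_congr_ae
  filter_upwards [h2.coeFn_toLp] with x hx
  rw [hx]

theorem fourierInv_toLp {h : ℝ → V} (h1 : MemLp h 1 volume) (h2 : MemLp h 2 volume) :
    (𝓕⁻ (h2.toLp h) : Lp V 2 (volume : Measure ℝ)) =ᵐ[volume] (𝓕⁻ h : ℝ → V) := by
  have hi : Integrable h volume := memLp_one_iff_integrable.1 h1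
  have hin : Integrable (fun x => h (-x)) volume := hi.comp_neg
  rw [Real.fourierInv_eq_fourier_comp_neg]
  refine fl_ae ((Lp.memLp _).locallyIntegrable (by norm_num)) (fl_cont hin).locallyIntegrable fun g => ?_
  have e1 := DFunLike.congr_fun (Lp.fourierInv_toTemperedDistribution_eq (h2.toLp h)) g
  rw [TemperedDistribution.fourierInv_apply, Lp.toTemperedDistribution_apply, Lp.toTemperedDistribution_apply] at e1
  rw [← e1, ← fl_flip g hin]
  have e2 : ∫ x, (𝓕⁻ g : 𝓢(ℝ, ℂ)) x • (h2.toLp h) x = ∫ x, (𝓕⁻ g : 𝓢(ℝ, ℂ)) x • h x := by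
    apply integral_congr_ae
    filter_upwards [h2.coeFn_toLp] with x hx
    rw [hx]
  rw [e2, ← integral_neg_eq_self (fun x => (𝓕⁻ g : 𝓢(ℝ, ℂ)) x • h x)]
  apply integral_congr_ae
  filter_upwards with x
  congr 1
  rw [SchwartzMap.fourierInv_coe, SchwartzMap.fourier_coe, Real.fourierInv_eq_fourier_neg, neg_neg]

/-- an `L²` function whose Fourier transform is integrable is given by the inversion formula -/
theorem eq_fourierInv {u : Lp V 2 (volume : Measure ℝ)} {H : ℝ → V} (h1 : MemLp H 1 volume)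
    (h2 : MemLp H 2 volume)
    (hu : (𝓕 u : Lp V 2 (volume : Measure ℝ)) =ᵐ[volume] H) : u =ᵐ[volume] (𝓕⁻ H : ℝ → V) := by
  have e1 : (𝓕 u : Lp V 2 (volume : Measure ℝ)) = h2.toLp H := by
    apply Lp.ext
    filter_upwards [hu, h2.coeFn_toLp] with x hx hx2
    rw [hx, hx2]
  have e2 : u = 𝓕⁻ (h2.toLp H) := by
    rw [← e1, FourierTransform.fourierInv_fourier_eq]
  rw [e2]
  exact fourierInv_toLp h1 h2

end Pool.Agent.H5.DF
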