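import Pool.Agent.H5.DF.Defs
import Pool.Agent.H5.DF.AlgM

set_option autoImplicit false
open MeasureTheory Set Filter Topology
open scoped ENNReal NNReal FourierTransform

namespace Pool.Agent.H5.DF

/-!
Part FOR. `nu L` is a forcing: `seg L` is measurable and takes finitely many values,
`Int.fract ((t+T)/T) = Int.fract (t/T)`.
-/

theorem seg_measurable (L : List (ℝ × ℝ)) : Measurable (seg L) := by
  induction L with
  | nil =>
    have : seg [] = fun _ => (0 : ℝ) := by funext t; rfl
    rw [this]
    exact measurable_const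
  | cons p L ih =>
    have : seg (p :: L) = fun t => if t < p.1 then p.2 else seg L (t - p.1) := by
      funext t; rfl
    rw [this]
    exact Measurable.ite (measurableSet_lt measurable_id measurable_const) measurable_const
      (ih.comp (measurable_id.sub_const _))

theorem seg_bdd (L : List (ℝ × ℝ)) : ∃ C : ℝ, ∀ t, |seg L t| ≤ C := by
  induction L with
  | nil => exact ⟨0, fun t => by simp [seg]⟩
  | cons p L ih =>
    obtain ⟨C, hC⟩ := ih
    refine ⟨max |p.2| C, fun t => ?_⟩
    simp only [seg]
    split_ifs
    · exact le_max_left _ _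
    · exact (hC _).trans (le_max_right _ _)

theorem mass_measurable (L : List (ℝ × ℝ)) : Measurable (mass L) := by
  have h : Measurable fun t : ℝ => dur L * Int.fract (t / dur L) :=
    (measurable_fract.comp (measurable_id.div_const _)).const_mul _
  exact (seg_measurable L).comp h

theorem mass_bdd (L : List (ℝ × ℝ)) : ∃ C : ℝ, ∀ t, |mass L t| ≤ C := by
  obtain ⟨C, hC⟩ := seg_bdd L
  exact ⟨C, fun t => hC _⟩

theorem forcing {L : List (ℝ × ℝ)} (hL : Adm L) (hne : L ≠ []) :
    0 < dur L ∧ Forcing (dur L) (nu L) := by
  have hd := dur_pos hL hne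
  refine ⟨hd, ?_, ?_, ?_, ?_⟩
  · intro i j
    have h : (fun t => nu L t i j) = fun t => ((mass L t : ℝ) : ℂ) * s1 i j := by
      funext t
      simp [nu]
    rw [h]
    exact (Complex.measurable_ofReal.comp (mass_measurable L)).mul_const _
  · obtain ⟨C, hC⟩ := mass_bdd L
    refine ⟨C, fun t i j => ?_⟩
    have h : nu L t i j = ((mass L t : ℝ) : ℂ) * s1 i j := by simp [nu]
    rw [h, norm_mul, Complex.norm_real, Real.norm_eq_abs]
    have h1 : ‖s1 i j‖ ≤ 1 := by
      fin_cases i <;> fin_cases j <;> simp [s1]
    have h2 : 0 ≤ C := (abs_nonneg _).trans (hC t)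
    calc |mass L t| * ‖s1 i j‖ ≤ C * 1 :=
          mul_le_mul (hC t) h1 (norm_nonneg _) h2
      _ = C := mul_one C
  · intro t
    have h : mass L (t + dur L) = mass L t := by
      unfold mass
      congr 2
      rw [add_div, div_self hd.ne', Int.fract_add_one]
    unfold nu
    rw [h]
  · intro t
    unfold nu Matrix.IsHermitian
    rw [Matrix.conjTranspose_smul]
    have h1 : s1.conjTranspose = s1 := by
      ext i j
      fin_cases i <;> fin_cases j <;> simp [s1]
    rw [h1]
    simp

end Pool.Agent.H5.DF
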