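import Pool.Agent.H5.DF.Defs

set_option autoImplicit false
open MeasureTheory Set Filter Topology
open scoped ENNReal NNReal FourierTransform

namespace Pool.Agent.H5.DF

/-!
Part RES. Non-vanishing of the first order off-diagonal coefficient at some resonance.
Paper proof: `b10 L η = exp(i η T) Σ_j (μ_j/2)(exp(-2iη t_j) - exp(-2iη t_{j-1}))`, `t_j` the partial
sums of the durations.  At `η = πk/T` this is, up to a unimodular factor, `(1/2) Σ_x J_x exp(-2πik x/T)`,
`x` in the finite set of the jump points of the `T`-periodic piecewise constant mass `m` in `ℝ/Tℤ` and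
`J_x` the jump.  Since `m` takes both signs there is at least one point with `J_x ≠ 0`; if all
Fourier coefficients vanished (Vandermonde, or averaging over `k`, or uniqueness of Fourier
coefficients of `m`), all `J_x` would be `0`.  (Alternative: it is `-iη ∫₀ᵀ m(t) exp(-2iηt) dt`.)
-/

theorem RES_dur_nonneg : ∀ {L : List (ℝ × ℝ)}, Adm L → 0 ≤ dur L
  | [], _ => le_refl _
  | p :: L, h => by
      have h1 := (h p (by simp)).1
      have h2 : 0 ≤ dur L := RES_dur_nonneg (fun q hq => h q (by simp [hq]))
      simp only [dur]; linarith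

theorem RES_adm_tail {p : ℝ × ℝ} {L : List (ℝ × ℝ)} (h : Adm (p :: L)) : Adm L :=
  fun q hq => h q (by simp [hq])

theorem RES_pieces (p : ℝ × ℝ) (L : List (ℝ × ℝ)) (h : Adm (p :: L)) (g : ℝ → ℝ → ℂ)
    (hc : Continuous (g p.2))
    (hi : IntervalIntegrable (fun t => g (seg L t) (t + p.1)) volume 0 (dur L)) :
    IntervalIntegrable (fun t => g (seg (p :: L) t) t) volume 0 p.1 ∧
    IntervalIntegrable (fun t => g (seg (p :: L) t) t) volume p.1 (dur (p :: L)) ∧
    ∫ t in (0:ℝ)..p.1, g (seg (p :: L) t) t = ∫ t in (0:ℝ)..p.1, g p.2 t ∧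
    ∫ t in p.1..(dur (p :: L)), g (seg (p :: L) t) t
      = ∫ t in (0:ℝ)..(dur L), g (seg L t) (t + p.1) := by
  have hp : 0 < p.1 := (h p (by simp)).1
  have hL : 0 ≤ dur L := RES_dur_nonneg (RES_adm_tail h)
  have e1 : ∀ᵐ t ∂(volume : Measure ℝ), t ∈ Set.uIoc (0:ℝ) p.1 →
      g p.2 t = g (seg (p :: L) t) t := by
    have : ∀ᵐ t ∂(volume : Measure ℝ), t ≠ p.1 := by
      simp [ae_iff, measure_singleton]
    filter_upwards [this] with t ht htt
    rw [Set.uIoc_of_le hp.le] at htt
    have : t < p.1 := lt_of_le_of_ne htt.2 ht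
    simp [seg, this]
  have e2 : ∀ t ∈ Set.uIoc p.1 (dur (p :: L)),
      g (seg L (t - p.1)) ((t - p.1) + p.1) = g (seg (p :: L) t) t := by
    intro t ht
    rw [Set.uIoc_of_le (by simp only [dur]; linarith)] at ht
    have : ¬ t < p.1 := not_lt.mpr ht.1.le
    simp [seg, this]
  have hi2 : IntervalIntegrable (fun t => g (seg L (t - p.1)) ((t - p.1) + p.1)) volume
      p.1 (dur (p :: L)) := by
    have := hi.comp_sub_right p.1
    simpa [dur, add_comm] using this
  refine ⟨?_, ?_, ?_, ?_⟩
  · refine (hc.intervalIntegrable 0 p.1).congr_ae ?_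
    rw [Filter.EventuallyEq, ae_restrict_iff' measurableSet_uIoc]
    exact e1
  · refine hi2.congr ?_
    intro t ht
    exact e2 t ht
  · refine intervalIntegral.integral_congr_ae ?_
    filter_upwards [e1] with t ht htt
    exact (ht htt).symm
  · rw [show (∫ t in p.1..(dur (p :: L)), g (seg (p :: L) t) t) =
      ∫ t in p.1..(dur (p :: L)), g (seg L (t - p.1)) ((t - p.1) + p.1) from ?_]
    · rw [intervalIntegral.integral_comp_sub_right (fun t => g (seg L t) (t + p.1)) p.1]
      simp [dur]
    · refine intervalIntegral.integral_congr_ae ?_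
      filter_upwards with t ht
      exact (e2 t ht).symm

theorem RES_ii : ∀ (L : List (ℝ × ℝ)), Adm L → ∀ g : ℝ → ℝ → ℂ, (∀ m, Continuous (g m)) →
    IntervalIntegrable (fun t => g (seg L t) t) volume 0 (dur L)
  | [], _, g, hg => by simp [dur]
  | p :: L, h, g, hg => by
      have := RES_pieces p L h g (hg _)
        (RES_ii L (RES_adm_tail h) (fun m t => g m (t + p.1)) (fun m => (hg m).comp (by fun_prop)))
      exact this.1.trans this.2.1

theorem RES_int (p : ℝ × ℝ) (L : List (ℝ × ℝ)) (h : Adm (p :: L)) (g : ℝ → ℝ → ℂ)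
    (hg : ∀ m, Continuous (g m)) :
    ∫ t in (0:ℝ)..(dur (p :: L)), g (seg (p :: L) t) t =
      (∫ t in (0:ℝ)..p.1, g p.2 t) + ∫ t in (0:ℝ)..(dur L), g (seg L t) (t + p.1) := by
  have := RES_pieces p L h g (hg _)
    (RES_ii L (RES_adm_tail h) (fun m t => g m (t + p.1)) (fun m => (hg m).comp (by fun_prop)))
  rw [← this.2.2.1, ← this.2.2.2, intervalIntegral.integral_add_adjacent_intervals this.1 this.2.1]

/-- first moment -/
noncomputable def RES_M1 : List (ℝ × ℝ) → ℝ
  | [] => 0
  | p :: L => p.1 * p.2 + RES_M1 L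

/-- second moment -/
noncomputable def RES_M2 : List (ℝ × ℝ) → ℝ
  | [] => 0
  | p :: L => p.1 * p.2 ^ 2 + RES_M2 L

theorem RES_int1 : ∀ (L : List (ℝ × ℝ)), Adm L →
    ∫ t in (0:ℝ)..(dur L), ((seg L t : ℝ) : ℂ) = (RES_M1 L : ℝ)
  | [], _ => by simp [dur, RES_M1]
  | p :: L, h => by
      rw [RES_int p L h (fun m _ => (m : ℂ)) (fun m => continuous_const),
        RES_int1 L (RES_adm_tail h)]
      simp [RES_M1]

theorem RES_int2 : ∀ (L : List (ℝ × ℝ)), Adm L →
    ∫ t in (0:ℝ)..(dur L), (((seg L t) ^ 2 : ℝ) : ℂ) = (RES_M2 L : ℝ)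
  | [], _ => by simp [dur, RES_M2]
  | p :: L, h => by
      rw [RES_int p L h (fun m _ => ((m ^ 2 : ℝ) : ℂ)) (fun m => continuous_const),
        RES_int2 L (RES_adm_tail h)]
      simp [RES_M2]

theorem RES_b10 (η : ℂ) (hη : η ≠ 0) : ∀ (L : List (ℝ × ℝ)), Adm L →
    b10 L η = -(Complex.I * η) * Complex.exp (Complex.I * η * dur L) *
      ∫ t in (0:ℝ)..(dur L), ((seg L t : ℝ) : ℂ) * Complex.exp (-(2 * Complex.I * η) * t)
  | [], _ => by simp [dur, b10]
  | p :: L, h => by
      have hc : (-(2 * Complex.I * η)) ≠ 0 := by simp [hη]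
      rw [RES_int p L h (fun m t => (m : ℂ) * Complex.exp (-(2 * Complex.I * η) * t))
        (fun m => by fun_prop)]
      simp only [b10, dur]
      rw [RES_b10 η hη L (RES_adm_tail h)]
      have h2 : ∫ t in (0:ℝ)..(dur L), ((seg L t : ℝ) : ℂ) *
          Complex.exp (-(2 * Complex.I * η) * ((t + p.1 : ℝ) : ℂ)) =
          Complex.exp (-(2 * Complex.I * η) * p.1) * ∫ t in (0:ℝ)..(dur L),
            ((seg L t : ℝ) : ℂ) * Complex.exp (-(2 * Complex.I * η) * t) := by
        rw [← intervalIntegral.integral_const_mul]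
        congr 1
        ext t
        push_cast
        rw [mul_add, Complex.exp_add]
        ring
      rw [h2, intervalIntegral.integral_const_mul, integral_exp_mul_complex hc]
      generalize (∫ t in (0:ℝ)..(dur L), ((seg L t : ℝ) : ℂ) *
        Complex.exp (-(2 * Complex.I * η) * t)) = J
      have e1 : Complex.exp (-(2 * Complex.I * η) * p.1) =
          Complex.exp (-(Complex.I * p.1 * η)) * Complex.exp (-(Complex.I * p.1 * η)) := by
        rw [← Complex.exp_add]; congr 1; ring
      have e2 : Complex.exp (Complex.I * η * ((p.1 + dur L : ℝ) : ℂ)) =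
          Complex.exp (Complex.I * η * dur L) * Complex.exp (Complex.I * p.1 * η) := by
        rw [← Complex.exp_add]; congr 1; push_cast; ring
      have e3 : Complex.exp (Complex.I * p.1 * η) * Complex.exp (-(Complex.I * p.1 * η)) = 1 := by
        rw [← Complex.exp_add]; simp
      have e4 : Complex.sin (p.1 * η) = (Complex.exp (-(Complex.I * p.1 * η)) -
          Complex.exp (Complex.I * p.1 * η)) * Complex.I / 2 := by
        rw [Complex.sin]
        congr 3
        · congr 1; ring
        · congr 1; ring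
      have e5 : Complex.exp (Complex.I * dur L * η) = Complex.exp (Complex.I * η * dur L) := by
        congr 1; ring
      rw [e1, e2, e4, e5]
      simp only [Complex.ofReal_zero, mul_zero, Complex.exp_zero]
      generalize Complex.exp (Complex.I * η * dur L) = X at *
      generalize hY : Complex.exp (Complex.I * p.1 * η) = Y at *
      generalize hZ : Complex.exp (-(Complex.I * p.1 * η)) = Z at *
      have hY0 : Y ≠ 0 := by rw [← hY]; exact Complex.exp_ne_zero _
      have hI : Complex.I ^ 2 = -1 := Complex.I_sq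
      field_simp
      have hZ' : Z = Y⁻¹ := by field_simp; linear_combination e3
      subst hZ'
      field_simp
      ring_nf
      simp only [Complex.I_sq]
      ring

theorem RES_var : ∀ (L : List (ℝ × ℝ)), Adm L → ∀ a : ℝ,
    0 ≤ RES_M2 L - 2 * a * RES_M1 L + a ^ 2 * dur L ∧
    (RES_M2 L - 2 * a * RES_M1 L + a ^ 2 * dur L = 0 → ∀ p ∈ L, p.2 = a)
  | [], _, a => by simp [RES_M1, RES_M2, dur]
  | p :: L, h, a => by
      have hp := (h p (by simp)).1
      obtain ⟨h1, h2⟩ := RES_var L (RES_adm_tail h) a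
      have h3 : 0 ≤ p.1 * (p.2 - a) ^ 2 := by positivity
      simp only [RES_M1, RES_M2, dur]
      constructor
      · nlinarith
      · intro h0 q hq
        have h4 : p.1 * (p.2 - a) ^ 2 = 0 := by nlinarith
        have h5 : RES_M2 L - 2 * a * RES_M1 L + a ^ 2 * dur L = 0 := by nlinarith
        rcases List.mem_cons.mp hq with rfl | hq
        · have : (q.2 - a) ^ 2 = 0 := by
            rcases mul_eq_zero.mp h4 with h | h
            · linarith
            · exact h
          have := pow_eq_zero_iff (two_ne_zero) |>.mp this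
          linarith
        · exact h2 h5 q hq

theorem RES_meas : ∀ (L : List (ℝ × ℝ)), Measurable (seg L)
  | [] => by
      have : seg [] = fun _ => 0 := by ext t; simp [seg]
      rw [this]; exact measurable_const
  | p :: L => by
      have : seg (p :: L) = fun t => if t < p.1 then p.2 else seg L (t - p.1) := by
        ext t; simp [seg]
      rw [this]
      exact Measurable.ite (measurableSet_lt measurable_id measurable_const) measurable_const
        ((RES_meas L).comp (measurable_id.sub_const _))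

theorem RES_bdd : ∀ (L : List (ℝ × ℝ)), ∃ C : ℝ, ∀ t, |seg L t| ≤ C
  | [] => ⟨0, by simp [seg]⟩
  | p :: L => by
      obtain ⟨C, hC⟩ := RES_bdd L
      refine ⟨max |p.2| C, fun t => ?_⟩
      simp only [seg]
      split_ifs
      · exact le_max_left _ _
      · exact (hC _).trans (le_max_right _ _)

theorem b10_ne {L : List (ℝ × ℝ)} (hL : Adm L) (hM : Mixed L) :
    ∃ k : ℤ, b10 L ((Real.pi * k / dur L : ℝ) : ℂ) ≠ 0 := by
  by_contra hcon
  push Not at hcon
  obtain ⟨⟨p, hp, hp2⟩, ⟨q, hq, hq2⟩⟩ := hM
  have hT : 0 < dur L := by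
    cases L with
    | nil => simp at hp
    | cons a L =>
      have h1 := (hL a (by simp)).1
      have h2 := RES_dur_nonneg (RES_adm_tail hL)
      simp only [dur]; linarith
  have hfc : ∀ k : ℤ, k ≠ 0 → fourierCoeffOn hT (fun t => ((seg L t : ℝ) : ℂ)) k = 0 := by
    intro k hk
    have hη : ((Real.pi * k / dur L : ℝ) : ℂ) ≠ 0 := by
      have : (Real.pi * k / dur L : ℝ) ≠ 0 := by
        have : (k : ℝ) ≠ 0 := by exact_mod_cast hk
        positivity
      exact_mod_cast this
    have h1 := hcon k
    rw [RES_b10 _ hη L hL] at h1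
    have h2 : (∫ t in (0:ℝ)..(dur L), ((seg L t : ℝ) : ℂ) *
        Complex.exp (-(2 * Complex.I * ((Real.pi * k / dur L : ℝ) : ℂ)) * t)) = 0 := by
      rcases mul_eq_zero.mp h1 with h | h
      · exfalso
        rcases mul_eq_zero.mp h with h | h
        · simp only [neg_eq_zero, mul_eq_zero, Complex.I_ne_zero, false_or] at h
          exact hη h
        · exact Complex.exp_ne_zero _ h
      · exact h
    rw [fourierCoeffOn_eq_integral]
    have h3 : (∫ x in (0:ℝ)..(dur L), fourier (-k) (x : AddCircle (dur L - 0)) •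
        ((seg L x : ℝ) : ℂ)) = 0 := by
      rw [← h2]
      congr 1
      ext t
      rw [fourier_coe_apply, smul_eq_mul, mul_comm]
      congr 2
      push_cast
      have : (dur L : ℂ) ≠ 0 := by exact_mod_cast hT.ne'
      simp only [sub_zero]
      field_simp
    rw [h3, smul_zero]
  have hmem : MemLp (fun t => ((seg L t : ℝ) : ℂ)) 2 (volume.restrict (Ioc 0 (dur L))) := by
    obtain ⟨C, hC⟩ := RES_bdd L
    refine MemLp.of_bound ?_ C ?_
    · exact (Complex.measurable_ofReal.comp (RES_meas L)).aestronglyMeasurable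
    · filter_upwards with t
      simpa using hC t
  have hP := hasSum_sq_fourierCoeffOn hT hmem
  have hS : HasSum (fun i => ‖fourierCoeffOn hT (fun t => ((seg L t : ℝ) : ℂ)) i‖ ^ 2)
      (‖fourierCoeffOn hT (fun t => ((seg L t : ℝ) : ℂ)) 0‖ ^ 2) := by
    refine hasSum_single 0 ?_
    intro k hk
    rw [hfc k hk]; simp
  have hE := hP.unique hS
  have h0 : fourierCoeffOn hT (fun t => ((seg L t : ℝ) : ℂ)) 0 =
      ((RES_M1 L / dur L : ℝ) : ℂ) := by
    rw [fourierCoeffOn_eq_integral]
    simp only [neg_zero, fourier_zero, one_smul, sub_zero]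
    rw [RES_int1 L hL]
    rw [Complex.real_smul]
    push_cast
    field_simp
  have h2 : (∫ x in (0:ℝ)..(dur L), ‖((seg L x : ℝ) : ℂ)‖ ^ 2) = RES_M2 L := by
    have h3 := RES_int2 L hL
    rw [intervalIntegral.integral_ofReal] at h3
    have h4 := Complex.ofReal_injective h3
    rw [← h4]
    congr 1
    ext t
    simp
  rw [h0, h2] at hE
  simp only [sub_zero, smul_eq_mul, Complex.norm_real, Real.norm_eq_abs, sq_abs] at hE
  have hv := (RES_var L hL (RES_M1 L / dur L)).2 (by
    have hT' : dur L ≠ 0 := hT.ne'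
    have : RES_M2 L = dur L * (RES_M1 L / dur L) ^ 2 := by
      rw [← hE]; field_simp
    rw [this]
    field_simp
    ring)
  have e1 := hv p hp
  have e2 := hv q hq
  linarith

end Pool.Agent.H5.DF
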