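import Pool.Agent.H5.DF.Defs
import Pool.Agent.H5.DF.Aem
import Pool.Agent.H5.DF.Res
import Pool.Agent.H5.DF.Ana
import Pool.Agent.H5.DF.Ana2

set_option autoImplicit false
open MeasureTheory Set Filter Topology
open scoped ENNReal NNReal FourierTransform

namespace Pool.Agent.H5.DF

/-!
Part GAE. Expansion of `Gc L`; it is not identically `0` to second order.
Paper proof: `D L` is analytic in a strip, so `AE.deriv` twice gives expansions of `D'`, `D''`, and
`Gc` has an expansion with `G₂ = Δ₀''(-2Δ₀Δ₂ - Δ₁²) + Δ₁''(-2Δ₀Δ₁) + (Δ₂''-2Δ₁')(1-Δ₀²) +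
Δ₀(Δ₁'² + 2Δ₀'(Δ₂'-Δ₁)) + 2Δ₁Δ₀'Δ₁' + Δ₂Δ₀'²`.  At `η = πk/T`: `Δ₀ = e = (-1)^k`, `Δ₀' = 0`, `Δ₀'' = -T²e`,
`Δ₁ = 0`, `Δ₁' = -cTe`, `Δ₂ = -(e/2)(c² + |b10|²)`, so `G₂ = 2T²Δ₂ + e c² T² = -T² e |b10|²`.
-/

theorem gae_dur_pos {L : List (ℝ × ℝ)} (hL : Adm L) (hne : L ≠ []) : 0 < dur L := by
  cases L with
  | nil => exact absurd rfl hne
  | cons p L =>
    have h0 : ∀ L : List (ℝ × ℝ), Adm L → 0 ≤ dur L := by
      intro L
      induction L with
      | nil => intro _; exact le_rfl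
      | cons q L ih =>
        intro h
        have h1 := (h q List.mem_cons_self).1
        have h2 := ih fun r hr => h r (List.mem_cons_of_mem _ hr)
        simp only [dur]
        linarith
    have h1 := (hL p List.mem_cons_self).1
    have h2 := h0 L fun r hr => hL r (List.mem_cons_of_mem _ hr)
    simp only [dur]
    linarith

theorem gae_deriv_cos (T : ℝ) : deriv (fun η : ℂ => Complex.cos (T * η)) =
    fun η => -(T : ℂ) * Complex.sin (T * η) := by
  funext η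
  have h := ((hasDerivAt_id η).const_mul (T : ℂ)).ccos
  have h2 := h.deriv
  simp only [id] at h2
  rw [h2]
  ring

theorem gae_deriv_sin (a T : ℝ) : deriv (fun η : ℂ => -(a : ℂ) * Complex.sin (T * η)) =
    fun η => -(a * T : ℂ) * Complex.cos (T * η) := by
  funext η
  have h := (((hasDerivAt_id η).const_mul (T : ℂ)).csin).const_mul (-(a : ℂ))
  have h2 := h.deriv
  simp only [id] at h2
  rw [h2]
  ring

theorem Gc_AE {L : List (ℝ × ℝ)} (hL : Adm L) (hM : Mixed L) : ∃ (δ : ℝ) (P₀ P₁ P₂ : ℂ → ℂ),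
    0 < δ ∧ AE δ (Gc L) P₀ P₁ P₂ ∧ DifferentiableOn ℂ (Gc L) {η : ℂ | |η.im| < 2 * δ} ∧
    P₂ ≠ fun _ => 0 := by
  have hne : L ≠ [] := by
    rintro rfl
    obtain ⟨⟨p, hp, _⟩, _⟩ := hM
    exact absurd hp List.not_mem_nil
  have hT := gae_dur_pos hL hne
  obtain ⟨δ1, hδ1, _, hdiff⟩ := mono_differentiableOn hL
  obtain ⟨δ2, hδ2, P₂, hAE, hP₂⟩ := D_AE hL hne
  obtain ⟨k, hk⟩ := b10_ne hL hM
  set δ0 := min δ1 δ2 with hδ0
  have hδ0p : 0 < δ0 := lt_min hδ1 hδ2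
  have hopen : IsOpen {η : ℂ | |η.im| < δ0} :=
    isOpen_lt (continuous_abs.comp Complex.continuous_im) continuous_const
  have hDd : DifferentiableOn ℂ (D L) {η : ℂ | |η.im| < δ0} := by
    have hsub : {η : ℂ | |η.im| < δ0} ⊆ {η : ℂ | |η.im| < δ1} := by
      intro η hη
      have hη' : |η.im| < δ0 := hη
      show |η.im| < δ1
      exact lt_of_lt_of_le hη' (min_le_left _ _)
    have h1 := ((hdiff 0 0).mono hsub).add ((hdiff 1 1).mono hsub)
    exact h1.div_const 2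
  have hD'd : DifferentiableOn ℂ (deriv (D L)) {η : ℂ | |η.im| < δ0} := hDd.deriv hopen
  have hD''d : DifferentiableOn ℂ (deriv (deriv (D L))) {η : ℂ | |η.im| < δ0} := hD'd.deriv hopen
  have a1 : AE δ0 (D L) _ _ P₂ := hAE.strip (min_le_right _ _)
  have b1 := a1.deriv (δ' := 3 * δ0 / 4) (by linarith) (by linarith) hDd
  have hsub2 : {η : ℂ | |η.im| < 3 * δ0 / 4} ⊆ {η : ℂ | |η.im| < δ0} := by
    intro η hη
    have hη' : |η.im| < 3 * δ0 / 4 := hη
    show |η.im| < δ0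
    linarith
  have c1 := b1.deriv (δ' := δ0 / 2) (by linarith) (by linarith) (hD'd.mono hsub2)
  have a2 := a1.strip (δ' := δ0 / 2) (by linarith)
  have b2 := b1.strip (δ' := δ0 / 2) (by linarith)
  have e1 := (AE.const (δ0 / 2) 1).sub (a2.mul a2)
  have e2 := c1.mul e1
  have e3 := a2.mul (b2.mul b2)
  have e4 := e2.add e3
  have e5 : AE (δ0 / 2) (Gc L) _ _ _ := e4.congr (H := Gc L) (fun η _ => by unfold Gc; ring)
  refine ⟨δ0 / 2, _, _, _, by linarith, e5, ?_, ?_⟩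
  · have hs : {η : ℂ | |η.im| < 2 * (δ0 / 2)} = {η : ℂ | |η.im| < δ0} := by
      rw [mul_div_cancel₀ δ0 (two_ne_zero)]
    rw [hs]
    have hG : Gc L = fun η => deriv (deriv (D L)) η * (1 - D L η ^ 2) + D L η * deriv (D L) η ^ 2 :=
      rfl
    rw [hG]
    exact (hD''d.mul ((differentiableOn_const 1).sub (hDd.pow 2))).add (hDd.mul (hD'd.pow 2))
  · intro h0
    have hx := congrFun h0 ((Real.pi * k / dur L : ℝ) : ℂ)
    have hTx : (dur L : ℂ) * ((Real.pi * k / dur L : ℝ) : ℂ) = (k : ℂ) * Real.pi := by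
      push_cast
      have : (dur L : ℂ) ≠ 0 := by exact_mod_cast hT.ne'
      field_simp
    have hcos : Complex.cos ((dur L : ℂ) * ((Real.pi * k / dur L : ℝ) : ℂ)) = (-1 : ℂ) ^ k := by
      have h1 : ((k : ℂ) * (Real.pi : ℂ)) = (((k : ℝ) * Real.pi : ℝ) : ℂ) := by push_cast; rfl
      rw [hTx, h1, ← Complex.ofReal_cos, Real.cos_int_mul_pi]
      push_cast
      rfl
    have hsin : Complex.sin ((dur L : ℂ) * ((Real.pi * k / dur L : ℝ) : ℂ)) = 0 := by
      rw [hTx, Complex.sin_int_mul_pi]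
    have he : ((-1 : ℂ) ^ k) * ((-1 : ℂ) ^ k) = 1 := by
      rw [← mul_zpow]
      norm_num
    have hdd : deriv (deriv (fun η : ℂ => Complex.cos (dur L * η))) =
        fun η => -(dur L * dur L : ℂ) * Complex.cos (dur L * η) := by
      rw [gae_deriv_cos]
      exact gae_deriv_sin _ _
    simp only [gae_deriv_cos, gae_deriv_sin, hcos, hsin] at hx
    rw [hP₂ k] at hx
    have he2 : (((-1 : ℝ) ^ k : ℝ) : ℂ) = (-1 : ℂ) ^ k := by push_cast; rfl
    rw [he2] at hx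
    set e : ℂ := (-1 : ℂ) ^ k with hedef
    have hTc : (dur L : ℂ) ≠ 0 := by exact_mod_cast hT.ne'
    have hb : (((‖b10 L ((Real.pi * k / dur L : ℝ) : ℂ)‖ : ℝ) : ℂ)) ≠ 0 := by
      exact_mod_cast (norm_ne_zero_iff.mpr hk)
    have hene : e ≠ 0 := left_ne_zero_of_mul_eq_one he
    have key : -((dur L : ℂ) ^ 2) * e * ((‖b10 L ((Real.pi * k / dur L : ℝ) : ℂ)‖ : ℝ) : ℂ) ^ 2 = 0 := by
      rw [← hx]
      push_cast
      have he3 : e ^ 2 = 1 := by rw [sq]; exact he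
      have he4 : e ^ 3 = e := by rw [pow_succ, he3, one_mul]
      ring_nf
      simp only [he3, he4]
      ring
    have := mul_ne_zero (mul_ne_zero (neg_ne_zero.mpr (pow_ne_zero 2 hTc)) hene) (pow_ne_zero 2 hb)
    exact this key

end Pool.Agent.H5.DF
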