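import Pool.Agent.H5.DF.Defs
import Pool.Agent.H5.DF.Epp
import Pool.Agent.H5.DF.Aec

set_option autoImplicit false
open MeasureTheory Set Filter Topology
open scoped ENNReal NNReal FourierTransform

namespace Pool.Agent.H5.DF

/-!
Part LOW. Uniform nondegeneracy from the expansion.
Paper proof: let `l ∈ {0,1,2}` be minimal with `P_l ≠ 0`.  Cauchy estimates in the strip (discs of radius
`δ/2` around real points) give `iteratedDeriv i F η = η^{-l} iteratedDeriv i P_l η + O(|η|^{-l-1})` for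
real `|η|` large; `EP.lower` gives the lower bound for `|η| ≥ R`.  On `[-R,R]` `F` is analytic on a
neighbourhood and not identically zero, so at every point some derivative is non-zero (identity
theorem on the strip, which is connected) and by compactness and continuity finitely many orders and a
positive lower bound suffice.
-/

/-- the open strip -/
def lowS (δ : ℝ) : Set ℂ := {η : ℂ | |η.im| < δ}

theorem lowS_open (δ : ℝ) : IsOpen (lowS δ) :=
  isOpen_lt (Complex.continuous_im.abs) continuous_const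

theorem lowS_conv (δ : ℝ) : IsPreconnected (lowS δ) := by
  have h : Convex ℝ (lowS δ) := by
    have e : lowS δ = Complex.imLm ⁻¹' (Ioo (-δ) δ) := by
      ext z
      simp [lowS, abs_lt]
    rw [e]
    exact (convex_Ioo _ _).linear_preimage _
  exact h.isPreconnected

theorem lowS_real {δ : ℝ} (hδ : 0 < δ) (η : ℝ) : (η : ℂ) ∈ lowS δ := by
  simp [lowS, hδ]

theorem low_an {δ : ℝ} {F : ℂ → ℂ} (hd : DifferentiableOn ℂ F (lowS δ)) :
    AnalyticOnNhd ℂ F (lowS δ) := hd.analyticOnNhd (lowS_open δ)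

theorem low_id {δ : ℝ} {F : ℂ → ℂ} (hd : AnalyticOnNhd ℂ F (lowS δ)) (i : ℕ) :
    AnalyticOnNhd ℂ (iteratedDeriv i F) (lowS δ) := by
  have := hd.iterated_deriv i
  rwa [← iteratedDeriv_eq_iterate] at this

theorem low_mulz {δ : ℝ} {F : ℂ → ℂ} (hd : AnalyticOnNhd ℂ F (lowS δ)) (i : ℕ) :
    ∀ z ∈ lowS δ, iteratedDeriv i (fun w => w * F w) z =
      z * iteratedDeriv i F z + i * iteratedDeriv (i - 1) F z := by
  induction i with
  | zero => intro z _; simp
  | succ i ih =>
    intro z hz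
    have h1 : iteratedDeriv i (fun w => w * F w) =ᶠ[𝓝 z]
        fun w => w * iteratedDeriv i F w + i * iteratedDeriv (i - 1) F w := by
      filter_upwards [(lowS_open δ).mem_nhds hz] with w hw using ih w hw
    rw [iteratedDeriv_succ, h1.deriv_eq]
    have h2 : HasDerivAt (iteratedDeriv i F) (iteratedDeriv (i + 1) F z) z := by
      rw [iteratedDeriv_succ]
      exact ((low_id hd i) z hz).differentiableAt.hasDerivAt
    have h3 : HasDerivAt (iteratedDeriv (i - 1) F) (iteratedDeriv (i - 1 + 1) F z) z := by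
      rw [iteratedDeriv_succ]
      exact ((low_id hd (i - 1)) z hz).differentiableAt.hasDerivAt
    have h4 := ((hasDerivAt_id z).mul h2).add (h3.const_mul (i : ℂ))
    have h5 : deriv (fun w => w * iteratedDeriv i F w + i * iteratedDeriv (i - 1) F w) z
        = 1 * iteratedDeriv i F z + id z * iteratedDeriv (i + 1) F z
          + i * iteratedDeriv (i - 1 + 1) F z := h4.deriv
    rw [h5]
    rcases Nat.eq_zero_or_pos i with h0 | h0
    · subst h0
      simp
      ring
    · rw [Nat.sub_add_cancel h0, Nat.add_sub_cancel]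
      push_cast
      simp only [id]
      ring

theorem low_step {δ : ℝ} (hδ : 0 < δ) {F : ℂ → ℂ} (hd : AnalyticOnNhd ℂ F (lowS δ)) {N m : ℕ}
    {c : ℝ} (hc : 0 < c) (η : ℝ)
    (h : ∃ i ≤ N, c / (1 + |η|) ^ m ≤ ‖iteratedDeriv i (fun w => w * F w) (η : ℂ)‖) :
    ∃ i ≤ N, c / (N + 1) / (1 + |η|) ^ (m + 1) ≤ ‖iteratedDeriv i F (η : ℂ)‖ := by
  by_contra hcon
  push Not at hcon
  obtain ⟨i, hi, h⟩ := h
  rw [low_mulz hd i _ (lowS_real hδ η)] at h
  have h1 := hcon i hi
  have h2 := hcon (i - 1) (by omega)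
  set ε : ℝ := c / (N + 1) / (1 + |η|) ^ (m + 1) with hε
  have hε0 : 0 < ε := by positivity
  have h3 : ‖(η : ℂ) * iteratedDeriv i F η + i * iteratedDeriv (i - 1) F η‖ ≤
      |η| * ε + N * ε := by
    refine (norm_add_le _ _).trans (add_le_add ?_ ?_)
    · rw [norm_mul, Complex.norm_real, Real.norm_eq_abs]
      exact mul_le_mul_of_nonneg_left h1.le (abs_nonneg _)
    · rw [norm_mul, Complex.norm_natCast]
      exact mul_le_mul (by exact_mod_cast hi) h2.le (norm_nonneg _) (Nat.cast_nonneg _)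
  have h4 : c / (1 + |η|) ^ m = (N + 1) * (1 + |η|) * ε := by
    rw [hε]
    field_simp
    ring
  have h5 : |η| * ε + N * ε < (N + 1) * (1 + |η|) * ε := by
    have : (0 : ℝ) ≤ N * |η| * ε := by positivity
    nlinarith
  linarith

/-- lower bound far away -/
theorem low_base {δ : ℝ} (hδ : 0 < δ) {F P : ℂ → ℂ} (hd : AnalyticOnNhd ℂ F (lowS (2 * δ)))
    (hP : EP P) (hne : P ≠ fun _ => 0) {C R : ℝ} (hC : 0 ≤ C)
    (h : ∀ z : ℂ, |z.im| ≤ δ → R ≤ |z.re| → ‖F z - P z‖ ≤ C / |z.re|) :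
    ∃ (N : ℕ) (c R' : ℝ), 0 < c ∧ ∀ η : ℝ, R' ≤ |η| → ∃ i ≤ N,
      c ≤ ‖iteratedDeriv i F (η : ℂ)‖ := by
  obtain ⟨N, c, hc, hlow⟩ := hP.lower hne
  set M : ℝ := ∑ i ∈ Finset.range (N + 1), (i.factorial : ℝ) * (2 * C) / (δ / 2) ^ i with hM
  have hM0 : 0 ≤ M := Finset.sum_nonneg fun i _ => by positivity
  refine ⟨N, c / 2, max (|R| + δ) (2 * M / c), by positivity, fun η hη => ?_⟩
  have hη1 : |R| + δ ≤ |η| := (le_max_left _ _).trans hη
  have hη2 : 2 * M / c ≤ |η| := (le_max_right _ _).trans hη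
  have hη0 : 0 < |η| := lt_of_lt_of_le (by positivity) hη1
  obtain ⟨i, hi, h1⟩ := hlow η
  refine ⟨i, hi, ?_⟩
  have hball : ∀ z ∈ Metric.closedBall (η : ℂ) (δ / 2), |z.im| ≤ δ / 2 ∧ |η| - δ / 2 ≤ |z.re| := by
    intro z hz
    rw [Metric.mem_closedBall, dist_eq_norm] at hz
    have h2 := (Complex.abs_im_le_norm (z - η)).trans hz
    have h3 := (Complex.abs_re_le_norm (z - η)).trans hz
    rw [Complex.sub_im, Complex.ofReal_im, sub_zero] at h2
    rw [Complex.sub_re, Complex.ofReal_re] at h3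
    refine ⟨h2, ?_⟩
    have h4 := abs_sub_abs_le_abs_sub η z.re
    rw [abs_sub_comm] at h4
    linarith
  have hPd : AnalyticOnNhd ℂ P (lowS (2 * δ)) := low_an hP.differentiable.differentiableOn
  have hsub : ∀ z ∈ Metric.closedBall (η : ℂ) (δ / 2), z ∈ lowS (2 * δ) := fun z hz => by
    have := (hball z hz).1
    change |z.im| < 2 * δ
    linarith
  have h2 : ‖iteratedDeriv i (F - P) (η : ℂ)‖ ≤ i.factorial * (2 * C / |η|) / (δ / 2) ^ i := by
    refine Complex.norm_iteratedDeriv_le_of_forall_mem_sphere_norm_le i (by positivity) ?_ ?_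
    · refine DifferentiableOn.diffContOnCl ?_
      rw [closure_ball _ (by positivity)]
      intro z hz
      exact (((hd z (hsub z hz)).sub (hPd z (hsub z hz))).differentiableAt).differentiableWithinAt
    · intro z hz
      have hz' := Metric.sphere_subset_closedBall hz
      obtain ⟨h3, h4⟩ := hball z hz'
      have h5 : |η| / 2 ≤ |z.re| := by linarith [abs_nonneg R]
      have h6 : R ≤ |z.re| := by linarith [le_abs_self R]
      refine (h z (by linarith) h6).trans ?_
      rw [div_le_div_iff₀ (by linarith) hη0]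
      nlinarith
  have h3 : iteratedDeriv i (F - P) (η : ℂ) = iteratedDeriv i F η - iteratedDeriv i P η := by
    have hη' : (η : ℂ) ∈ lowS (2 * δ) := lowS_real (by positivity) η
    exact iteratedDeriv_sub (hd _ hη').contDiffAt (hPd _ hη').contDiffAt
  rw [h3] at h2
  have h4 : i.factorial * (2 * C / |η|) / (δ / 2) ^ i ≤ M / |η| := by
    have h5 : (i.factorial : ℝ) * (2 * C) / (δ / 2) ^ i ≤ M :=
      Finset.single_le_sum (f := fun i => (i.factorial : ℝ) * (2 * C) / (δ / 2) ^ i)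
        (fun i _ => by positivity) (Finset.mem_range.mpr (by omega))
    calc i.factorial * (2 * C / |η|) / (δ / 2) ^ i
        = ((i.factorial : ℝ) * (2 * C) / (δ / 2) ^ i) / |η| := by ring
      _ ≤ M / |η| := by gcongr
  have h5 : M / |η| ≤ c / 2 := by
    rw [div_le_iff₀ hη0]
    rw [div_le_iff₀ hc] at hη2
    linarith
  have h6 : ‖iteratedDeriv i P (η : ℂ)‖ - ‖iteratedDeriv i F (η : ℂ)‖ ≤
      ‖iteratedDeriv i F (η : ℂ) - iteratedDeriv i P (η : ℂ)‖ := by
    rw [norm_sub_rev]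
    exact norm_sub_norm_le _ _
  linarith

theorem low_nonzero {δ : ℝ} {F : ℂ → ℂ} (hd : AnalyticOnNhd ℂ F (lowS δ)) {z w : ℂ}
    (hz : z ∈ lowS δ) (hw : w ∈ lowS δ) {i : ℕ} (hi : iteratedDeriv i F w ≠ 0) :
    ∃ j, iteratedDeriv j F z ≠ 0 := by
  by_contra hcon
  push Not at hcon
  have h1 : analyticOrderAt F z = ⊤ := by
    rw [ENat.eq_top_iff_forall_ge]
    intro m
    rw [natCast_le_analyticOrderAt_iff_iteratedDeriv_eq_zero (hd z hz)]
    exact fun j _ => hcon j
  have h2 : F =ᶠ[𝓝 z] 0 := analyticOrderAt_eq_top.mp h1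
  have h3 := hd.eqOn_zero_of_preconnected_of_eventuallyEq_zero (lowS_conv δ) hz h2
  have h4 : F =ᶠ[𝓝 w] fun _ => 0 := by
    filter_upwards [(lowS_open δ).mem_nhds hw] with v hv using h3 hv
  apply hi
  rw [h4.iteratedDeriv_eq]
  simp

theorem low_cpt {δ : ℝ} (hδ : 0 < δ) {F : ℂ → ℂ} (hd : AnalyticOnNhd ℂ F (lowS δ)) {w : ℂ}
    (hw : w ∈ lowS δ) {i : ℕ} (hi : iteratedDeriv i F w ≠ 0) (R : ℝ) :
    ∃ (N : ℕ) (c : ℝ), 0 < c ∧ ∀ η : ℝ, |η| ≤ R → ∃ i ≤ N, c ≤ ‖iteratedDeriv i F (η : ℂ)‖ := by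
  rcases lt_or_ge R 0 with hR | hR
  · exact ⟨0, 1, one_pos, fun η hη => absurd ((abs_nonneg η).trans hη) (not_le.mpr hR)⟩
  set S : ℕ → ℝ → ℝ := fun N η => ∑ i ∈ Finset.range (N + 1), ‖iteratedDeriv i F (η : ℂ)‖ with hS
  have hcont : ∀ N, Continuous (S N) := fun N => by
    refine continuous_finsetSum _ fun i _ => Continuous.norm ?_
    rw [continuous_iff_continuousAt]
    intro η
    exact ContinuousAt.comp (f := fun η : ℝ => (η : ℂ)) (g := iteratedDeriv i F)
      ((low_id hd i) _ (lowS_real hδ η)).continuousAt Complex.continuous_ofReal.continuousAt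
  have hmono : ∀ η, Monotone fun N => S N η := fun η N N' h =>
    Finset.sum_le_sum_of_subset_of_nonneg (Finset.range_mono (by omega)) fun _ _ _ => norm_nonneg _
  obtain ⟨N, hN⟩ := (isCompact_Icc (a := -R) (b := R)).elim_directed_cover
    (fun N => {η | 0 < S N η}) (fun N => isOpen_lt continuous_const (hcont N)) (by
      intro η _
      obtain ⟨j, hj⟩ := low_nonzero hd (lowS_real hδ η) hw hi
      refine mem_iUnion.mpr ⟨j, ?_⟩
      have h1 : ‖iteratedDeriv j F (η : ℂ)‖ ≤ S j η :=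
        Finset.single_le_sum (f := fun i => ‖iteratedDeriv i F (η : ℂ)‖)
          (fun _ _ => norm_nonneg _) (Finset.mem_range.mpr (by omega))
      exact lt_of_lt_of_le (norm_pos_iff.mpr hj) h1) (by
      intro a b
      refine ⟨max a b, fun η hη => ?_, fun η hη => ?_⟩
      · exact lt_of_lt_of_le hη (hmono η (le_max_left a b))
      · exact lt_of_lt_of_le hη (hmono η (le_max_right a b)))
  obtain ⟨x, hx, hmin⟩ := (isCompact_Icc (a := -R) (b := R)).exists_isMinOn
    ⟨0, by constructor <;> linarith⟩ (hcont N).continuousOn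
  have hx0 : 0 < S N x := hN hx
  refine ⟨N, S N x / (N + 1), by positivity, fun η hη => ?_⟩
  by_contra hcon
  push Not at hcon
  have h1 : S N x ≤ S N η := hmin (abs_le.mp hη)
  have h2 : S N η < ∑ i ∈ Finset.range (N + 1), S N x / (N + 1) :=
    Finset.sum_lt_sum_of_nonempty ⟨0, by simp⟩ fun i hi =>
      hcon i (by have := Finset.mem_range.mp hi; omega)
  rw [Finset.sum_const, Finset.card_range, nsmul_eq_mul] at h2
  have h3 : ((N + 1 : ℕ) : ℝ) * (S N x / (N + 1)) = S N x := by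
    push_cast
    field_simp
  linarith

theorem low_far {δ : ℝ} (hδ : 0 < δ) {F P₀ P₁ P₂ : ℂ → ℂ} (h : AE δ F P₀ P₁ P₂)
    (hd : AnalyticOnNhd ℂ F (lowS (2 * δ)))
    (hne : ¬ (P₀ = (fun _ => 0) ∧ P₁ = (fun _ => 0) ∧ P₂ = fun _ => 0)) :
    ∃ (N : ℕ) (c R' : ℝ), 0 < c ∧ ∀ η : ℝ, R' ≤ |η| → ∃ i ≤ N,
      c / (1 + |η|) ^ 2 ≤ ‖iteratedDeriv i F (η : ℂ)‖ := by
  obtain ⟨h0, h1, h2, C, R, hR, hb⟩ := h
  obtain ⟨C1, hC1⟩ := h1.strip_bdd δ
  obtain ⟨C2, hC2⟩ := h2.strip_bdd δ
  have hC10 : 0 ≤ C1 := (norm_nonneg _).trans (hC1 0 (by simpa using hδ.le))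
  have hC20 : 0 ≤ C2 := (norm_nonneg _).trans (hC2 0 (by simpa using hδ.le))
  have hC0 : 0 ≤ C := by
    have h3 := (norm_nonneg _).trans (hb (R : ℂ) (by simpa using hδ.le) (by simp [abs_of_pos hR]))
    have h4 : (0 : ℝ) < |((R : ℂ)).re| ^ 3 := by
      rw [Complex.ofReal_re, abs_of_pos hR]; positivity
    by_contra hcon
    push Not at hcon
    exact absurd h3 (not_le.mpr (div_neg_of_neg_of_pos hcon h4))
  have h2δ : 0 < 2 * δ := by positivity
  have hzan : AnalyticOnNhd ℂ (fun w => w * F w) (lowS (2 * δ)) := fun z hz =>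
    analyticAt_id.mul (hd z hz)
  have hzzan : AnalyticOnNhd ℂ (fun w => w * (w * F w)) (lowS (2 * δ)) := fun z hz =>
    analyticAt_id.mul (hzan z hz)
  -- norms in the strip
  have hnorm : ∀ z : ℂ, |z.im| ≤ δ → 1 ≤ |z.re| → |z.re| ≤ ‖z‖ ∧ ‖z‖ ≤ (1 + δ) * |z.re| := by
    intro z hz hz1
    refine ⟨Complex.abs_re_le_norm z, (Complex.norm_le_abs_re_add_abs_im z).trans ?_⟩
    nlinarith
  by_cases hP0 : P₀ = fun _ => 0
  · by_cases hP1 : P₁ = fun _ => 0
    · -- `z² F ~ P₂`
      have hP2 : P₂ ≠ fun _ => 0 := fun h => hne ⟨hP0, hP1, h⟩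
      obtain ⟨N, c, R', hc, H⟩ := low_base hδ hzzan h2 hP2 (C := (1 + δ) ^ 2 * C) (R := max R 1)
        (by positivity) (by
          intro z hz hzR
          have hR1 : R ≤ |z.re| := (le_max_left _ _).trans hzR
          have hR2 : 1 ≤ |z.re| := (le_max_right _ _).trans hzR
          obtain ⟨n1, n2⟩ := hnorm z hz hR2
          have hz0 : z ≠ 0 := by
            rintro rfl
            simp at hR2
            linarith
          have h3 := hb z hz hR1
          rw [hP0, hP1] at h3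
          have e : z * (z * F z) - P₂ z = z ^ 2 * (F z - 0 - 0 / z - P₂ z / z ^ 2) := by
            field_simp
            ring
          rw [e, norm_mul, norm_pow]
          have hre : 0 < |z.re| := by linarith
          calc ‖z‖ ^ 2 * ‖F z - 0 - 0 / z - P₂ z / z ^ 2‖
              ≤ ((1 + δ) * |z.re|) ^ 2 * (C / |z.re| ^ 3) := by gcongr
            _ = (1 + δ) ^ 2 * C / |z.re| := by field_simp)
      refine ⟨N, c / (N + 1) / (N + 1), R', by positivity, fun η hη => ?_⟩
      have h4 : ∃ i ≤ N, c / (1 + |η|) ^ 0 ≤ ‖iteratedDeriv i (fun w => w * (w * F w)) (η : ℂ)‖ := by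
        simpa using H η hη
      exact low_step h2δ hd (by positivity) η (low_step h2δ hzan hc η h4)
    · -- `z F ~ P₁`
      obtain ⟨N, c, R', hc, H⟩ := low_base hδ hzan h1 hP1 (C := (1 + δ) * C + C2) (R := max R 1)
        (by positivity) (by
          intro z hz hzR
          have hR1 : R ≤ |z.re| := (le_max_left _ _).trans hzR
          have hR2 : 1 ≤ |z.re| := (le_max_right _ _).trans hzR
          obtain ⟨n1, n2⟩ := hnorm z hz hR2
          have hz0 : z ≠ 0 := by
            rintro rfl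
            simp at hR2
            linarith
          have h3 := hb z hz hR1
          rw [hP0] at h3
          have e : z * F z - P₁ z = z * (F z - 0 - P₁ z / z - P₂ z / z ^ 2) + P₂ z / z := by
            field_simp
            ring
          have hre : 0 < |z.re| := by linarith
          rw [e, add_div]
          refine (norm_add_le _ _).trans (add_le_add ?_ ?_)
          · rw [norm_mul]
            calc ‖z‖ * ‖F z - 0 - P₁ z / z - P₂ z / z ^ 2‖
                ≤ ((1 + δ) * |z.re|) * (C / |z.re| ^ 3) := by gcongr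
              _ = (1 + δ) * C / |z.re| * (1 / |z.re|) := by field_simp
              _ ≤ (1 + δ) * C / |z.re| * 1 := by
                  gcongr
                  rw [div_le_one hre]
                  exact hR2
              _ = (1 + δ) * C / |z.re| := mul_one _
          · rw [norm_div]
            have := hC2 z hz
            gcongr)
      refine ⟨N, c / (N + 1), R', by positivity, fun η hη => ?_⟩
      have h4 : ∃ i ≤ N, c / (1 + |η|) ^ 0 ≤ ‖iteratedDeriv i (fun w => w * F w) (η : ℂ)‖ := by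
        simpa using H η hη
      obtain ⟨i, hi, h5⟩ := low_step h2δ hd hc η h4
      refine ⟨i, hi, le_trans ?_ h5⟩
      have h6 : (1 : ℝ) ≤ 1 + |η| := by linarith [abs_nonneg η]
      exact div_le_div_of_nonneg_left (by positivity) (by positivity)
        (pow_le_pow_right₀ h6 (by norm_num))
  · -- `F ~ P₀`
    obtain ⟨N, c, R', hc, H⟩ := low_base hδ hd h0 hP0 (C := C + C1 + C2) (R := max R 1)
      (by positivity) (by
        intro z hz hzR
        have hR1 : R ≤ |z.re| := (le_max_left _ _).trans hzR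
        have hR2 : 1 ≤ |z.re| := (le_max_right _ _).trans hzR
        obtain ⟨n1, n2⟩ := hnorm z hz hR2
        have h3 := hb z hz hR1
        have hre : 0 < |z.re| := by linarith
        have e : F z - P₀ z = (F z - P₀ z - P₁ z / z - P₂ z / z ^ 2) + P₁ z / z + P₂ z / z ^ 2 := by
          ring
        rw [e, add_div, add_div]
        have hle : |z.re| ≤ |z.re| ^ 3 := by
          nlinarith [mul_self_nonneg (|z.re| - 1), mul_nonneg hre.le (sq_nonneg (|z.re| - 1))]
        have hle2 : |z.re| ≤ ‖z‖ ^ 2 := by nlinarith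
        refine (norm_add_le _ _).trans (add_le_add ((norm_add_le _ _).trans (add_le_add ?_ ?_)) ?_)
        · exact h3.trans (div_le_div_of_nonneg_left hC0 hre hle)
        · rw [norm_div]
          have := hC1 z hz
          gcongr
        · rw [norm_div, norm_pow]
          have := hC2 z hz
          gcongr)
    refine ⟨N, c, R', hc, fun η hη => ?_⟩
    obtain ⟨i, hi, h5⟩ := H η hη
    refine ⟨i, hi, le_trans ?_ h5⟩
    have h6 : (1 : ℝ) ≤ (1 + |η|) ^ 2 := one_le_pow₀ (by linarith [abs_nonneg η])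
    exact div_le_self hc.le h6

theorem lower_of_AE {δ : ℝ} (hδ : 0 < δ) {F P₀ P₁ P₂ : ℂ → ℂ} (h : AE δ F P₀ P₁ P₂)
    (hd : DifferentiableOn ℂ F {η : ℂ | |η.im| < 2 * δ})
    (hne : ¬ (P₀ = (fun _ => 0) ∧ P₁ = (fun _ => 0) ∧ P₂ = fun _ => 0)) :
    ∃ (N : ℕ) (c : ℝ), 0 < c ∧ ∀ η : ℝ, ∃ i ≤ N,
      c / (1 + |η|) ^ 2 ≤ ‖iteratedDeriv i F (η : ℂ)‖ := by
  have h2δ : 0 < 2 * δ := by positivity
  have han : AnalyticOnNhd ℂ F (lowS (2 * δ)) := low_an hd
  obtain ⟨N1, c1, R, hc1, H1⟩ := low_far hδ h han hne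
  obtain ⟨i, -, hi⟩ := H1 |R| (by rw [abs_abs]; exact le_abs_self R)
  have hi0 : iteratedDeriv i F ((|R| : ℝ) : ℂ) ≠ 0 := by
    intro h0
    rw [h0, norm_zero] at hi
    exact absurd hi (not_le.mpr (by positivity))
  obtain ⟨N2, c2, hc2, H2⟩ := low_cpt h2δ han (lowS_real h2δ |R|) hi0 R
  refine ⟨max N1 N2, min c1 c2, lt_min hc1 hc2, fun η => ?_⟩
  rcases le_total R |η| with hη | hη
  · obtain ⟨j, hj, h3⟩ := H1 η hη
    refine ⟨j, hj.trans (le_max_left _ _), le_trans ?_ h3⟩
    gcongr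
    exact min_le_left _ _
  · obtain ⟨j, hj, h3⟩ := H2 η hη
    refine ⟨j, hj.trans (le_max_right _ _), le_trans ?_ h3⟩
    have h6 : (1 : ℝ) ≤ (1 + |η|) ^ 2 := one_le_pow₀ (by linarith [abs_nonneg η])
    exact (div_le_self (lt_min hc1 hc2).le h6).trans (min_le_right _ _)

end Pool.Agent.H5.DF
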