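import Pool.Agent.H5.DF.Defs
import Pool.Agent.H5.DF.Gae
import Pool.Agent.H5.DF.Low
import Pool.Agent.H5.DF.Ana
import Pool.Agent.H5.DF.Ana2

set_option autoImplicit false
open MeasureTheory Set Filter Topology
open scoped ENNReal NNReal FourierTransform

namespace Pool.Agent.H5.DF

/-!
Part GLOW. `G_lower`: `Gc_AE`, `lower_of_AE`, `Gc_iteratedDeriv`.
`one_sub_sq_ge`: `F₂ = 1 - D² ≥ 0` has bounded second derivative, so `F₂'² ≤ C₂ F₂`
(for a nonnegative function with `|F₂''| ≤ C₂/2`: `0 ≤ F₂(η+h) ≤ F₂ + F₂' h + C₂ h²/4`, take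
`h = -2 F₂'/C₂`), i.e. `4 D² D'² ≤ C₂ (1-D²)`.
If `|D| ≥ 1/2`: `|D| D'² ≤ 2 D² D'² ≤ C₂ (1-D²)`; if `|D| < 1/2`: `1-D² ≥ 3/4` and `D'` is bounded.
`|D''| (1-D²) ≤ C (1-D²)`.
-/

theorem G_lower {L : List (ℝ × ℝ)} (hL : Adm L) (hM : Mixed L) :
    ∃ (N : ℕ) (c : ℝ), 0 < c ∧ ∀ η : ℝ, ∃ i ≤ N, c / (1 + |η|) ^ 2 ≤ |iteratedDeriv i (G L) η| := by
  obtain ⟨δ, P₀, P₁, P₂, hδ, hAE, hd, hne⟩ := Gc_AE hL hM
  obtain ⟨N, c, hc, h⟩ := lower_of_AE hδ hAE hd (fun h => hne h.2.2)
  refine ⟨N, c, hc, fun η => ?_⟩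
  obtain ⟨i, hi, h1⟩ := h η
  refine ⟨i, hi, ?_⟩
  rw [Gc_iteratedDeriv hL, Complex.norm_real, Real.norm_eq_abs] at h1
  exact h1

theorem glow_sq (g : ℝ → ℝ) (hg : Differentiable ℝ g) (hg' : Differentiable ℝ (deriv g))
    {K : ℝ} (hK : 0 < K) (hb : ∀ x, |deriv (deriv g) x| ≤ K) (h0 : ∀ x, 0 ≤ g x) (x : ℝ) :
    deriv g x ^ 2 ≤ 4 * K * g x := by
  have lip : ∀ y, |deriv g y - deriv g x| ≤ K * |y - x| := fun y =>
    Convex.norm_image_sub_le_of_norm_deriv_le (f := deriv g) (s := univ)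
      (fun z _ => hg' z) (fun z _ => hb z) convex_univ (mem_univ x) (mem_univ y)
  have key : ∀ h : ℝ, g (x + h) ≤ g x + deriv g x * h + K * h ^ 2 := by
    intro h
    have hd : ∀ y, HasDerivAt (fun y => g y - deriv g x * y) (deriv g y - deriv g x) y := by
      intro y
      have h1 := (hg y).hasDerivAt.fun_sub ((hasDerivAt_id y).const_mul (deriv g x))
      rw [mul_one] at h1
      exact h1
    have h1 := Convex.norm_image_sub_le_of_norm_deriv_le
      (f := fun y => g y - deriv g x * y) (s := uIcc x (x + h)) (C := K * |h|)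
      (x := x) (y := x + h)
      (fun z _ => (hd z).differentiableAt) (fun z hz => by
        rw [(hd z).deriv, Real.norm_eq_abs]
        refine (lip z).trans (mul_le_mul_of_nonneg_left ?_ hK.le)
        have h2 := abs_sub_left_of_mem_uIcc hz
        simpa using h2) (convex_uIcc _ _) left_mem_uIcc right_mem_uIcc
    rw [Real.norm_eq_abs, Real.norm_eq_abs] at h1
    have h2 : |x + h - x| = |h| := by congr 1; ring
    rw [h2] at h1
    have h3 := (abs_le.1 h1).2
    have h4 : K * |h| * |h| = K * h ^ 2 := by rw [mul_assoc, abs_mul_abs_self]; ring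
    rw [h4] at h3
    nlinarith
  have h1 := key (-(deriv g x) / (2 * K))
  have h2 := h0 (x + -(deriv g x) / (2 * K))
  have h3 : g x + deriv g x * (-(deriv g x) / (2 * K)) + K * (-(deriv g x) / (2 * K)) ^ 2
      = g x - deriv g x ^ 2 / (4 * K) := by
    field_simp
    ring
  rw [h3] at h1
  have h4 : deriv g x ^ 2 / (4 * K) ≤ g x := by linarith
  rw [div_le_iff₀ (by positivity)] at h4
  linarith

theorem one_sub_sq_ge {L : List (ℝ × ℝ)} (hL : Adm L) :
    ∃ c : ℝ, 0 < c ∧ ∀ η : ℝ, c * |G L η| ≤ 1 - Dr L η ^ 2 := by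
  obtain ⟨C, hC⟩ := Dr_deriv_bdd hL 2
  have hsm := Dr_contDiff hL
  have hd1 : Differentiable ℝ (Dr L) := hsm.differentiable (by norm_cast)
  have hd2 : Differentiable ℝ (deriv (Dr L)) := by
    have h1 : ContDiff ℝ 1 (deriv (Dr L)) :=
      ((contDiff_succ_iff_deriv (n := 1)).1 (hsm.of_le (by norm_cast))).2.2
    exact h1.differentiable (by norm_num)
  have hit : ∀ η, iteratedDeriv 2 (Dr L) η = deriv (deriv (Dr L)) η := by
    intro η
    rw [iteratedDeriv_succ, iteratedDeriv_one]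
  set K : ℝ := |C| + 1 with hK
  have hKpos : 0 < K := by positivity
  have hb : ∀ η, |deriv (deriv (Dr L)) η| ≤ K := fun η => by
    rw [← hit]
    exact (hC η).trans ((le_abs_self C).trans (by linarith))
  have hm : ∀ η, deriv (Dr L) η ^ 2 ≤ 4 * K * (1 - Dr L η) := by
    intro η
    have e1 : deriv (fun y => 1 - Dr L y) = fun y => - deriv (Dr L) y := by
      funext y
      simp
    have h1 := glow_sq (fun y => 1 - Dr L y) ((differentiable_const _).sub hd1)
      (by rw [e1]; exact hd2.neg) hKpos (fun y => by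
        rw [e1]
        simp only [deriv.fun_neg, abs_neg]
        exact hb y) (fun y => by linarith [(abs_le.1 (Dr_abs_le hL y)).2]) η
    rw [e1] at h1
    simpa using h1
  have hp : ∀ η, deriv (Dr L) η ^ 2 ≤ 4 * K * (1 + Dr L η) := by
    intro η
    have e1 : deriv (fun y => 1 + Dr L y) = fun y => deriv (Dr L) y := by
      funext y
      simp
    have h1 := glow_sq (fun y => 1 + Dr L y) ((differentiable_const _).add hd1)
      (by rw [e1]; exact hd2) hKpos (fun y => by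
        rw [e1]
        exact hb y) (fun y => by linarith [(abs_le.1 (Dr_abs_le hL y)).1]) η
    rw [e1] at h1
    simpa using h1
  refine ⟨1 / (5 * K), by positivity, fun η => ?_⟩
  have hab := abs_le.1 (Dr_abs_le hL η)
  have hsq : 0 ≤ 1 - Dr L η ^ 2 := by nlinarith [hab.1, hab.2]
  have hD : deriv (Dr L) η ^ 2 ≤ 4 * K * (1 - Dr L η ^ 2) := by
    by_cases h : 0 ≤ Dr L η
    · have h1 : 1 - Dr L η ≤ 1 - Dr L η ^ 2 := by nlinarith [hab.1, hab.2]
      exact (hm η).trans (mul_le_mul_of_nonneg_left h1 (by positivity))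
    · have h1 : 1 + Dr L η ≤ 1 - Dr L η ^ 2 := by nlinarith [hab.1, hab.2]
      exact (hp η).trans (mul_le_mul_of_nonneg_left h1 (by positivity))
  have hG : |G L η| ≤ 5 * K * (1 - Dr L η ^ 2) := by
    unfold G
    refine (abs_add_le _ _).trans ?_
    rw [abs_mul, abs_mul, abs_of_nonneg hsq, abs_of_nonneg (sq_nonneg (deriv (Dr L) η))]
    have h1 : |deriv (deriv (Dr L)) η| * (1 - Dr L η ^ 2) ≤ K * (1 - Dr L η ^ 2) :=
      mul_le_mul_of_nonneg_right (hb η) hsq
    have h2 : |Dr L η| * deriv (Dr L) η ^ 2 ≤ 1 * (4 * K * (1 - Dr L η ^ 2)) :=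
      mul_le_mul (Dr_abs_le hL η) hD (sq_nonneg _) zero_le_one
    linarith
  rw [div_mul_eq_mul_div, one_mul, div_le_iff₀ (by positivity)]
  linarith

end Pool.Agent.H5.DF
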