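import Pool.Agent.H5.DF.Defs
import Pool.Agent.H5.DF.Edb
import Pool.Agent.H5.DF.AlgE
import Pool.Agent.H5.DF.AlgM

set_option autoImplicit false
open MeasureTheory Set Filter Topology
open scoped ENNReal NNReal FourierTransform

namespace Pool.Agent.H5.DF

/-!
Part PRB. Basic facts on `part` and `prop`.
`part L s η` is a product of matrices `E τ μ η` (`E_unitary`, `E_contDiff`, `E_deriv_bdd`), so it is
unitary, smooth in `η`, with derivative bounded uniformly for `s ∈ [0, dur L]`.
`prop_decomp`: `n = ⌊t / dur L⌋`, `s = t - n dur L = dur L * Int.fract (t / dur L)`.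
-/

theorem prb_unit_mul {A B : Mat} (hA : A.conjTranspose * A = 1) (hB : B.conjTranspose * B = 1) :
    (A * B).conjTranspose * (A * B) = 1 := by
  rw [Matrix.conjTranspose_mul]
  calc B.conjTranspose * A.conjTranspose * (A * B)
      = B.conjTranspose * (A.conjTranspose * A) * B := by simp only [Matrix.mul_assoc]
    _ = 1 := by rw [hA, Matrix.mul_one, hB]

theorem prb_unit_pow {A : Mat} (hA : A.conjTranspose * A = 1) (n : ℕ) :
    (A ^ n).conjTranspose * (A ^ n) = 1 := by
  induction n with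
  | zero => simp
  | succ n ih => rw [pow_succ]; exact prb_unit_mul ih hA

theorem prb_unit_entry {A : Mat} (hA : A.conjTranspose * A = 1) (i j : Fin 2) : ‖A i j‖ ≤ 1 := by
  have h := congrFun (congrFun hA j) j
  rw [Matrix.mul_apply, Fin.sum_univ_two, Matrix.one_apply_eq] at h
  simp only [Matrix.conjTranspose_apply] at h
  have h2 : ‖A 0 j‖ ^ 2 + ‖A 1 j‖ ^ 2 = 1 := by
    have e0 : star (A 0 j) * A 0 j = ((‖A 0 j‖ ^ 2 : ℝ) : ℂ) := by
      have := Complex.conj_mul' (A 0 j)
      push_cast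
      exact this
    have e1 : star (A 1 j) * A 1 j = ((‖A 1 j‖ ^ 2 : ℝ) : ℂ) := by
      have := Complex.conj_mul' (A 1 j)
      push_cast
      exact this
    rw [e0, e1] at h
    exact_mod_cast h
  have h3 : ‖A i j‖ ^ 2 ≤ 1 := by
    fin_cases i
    · show ‖A 0 j‖ ^ 2 ≤ 1
      nlinarith [sq_nonneg ‖A 1 j‖]
    · show ‖A 1 j‖ ^ 2 ≤ 1
      nlinarith [sq_nonneg ‖A 0 j‖]
  nlinarith [norm_nonneg (A i j)]

theorem prb_adm_tail {p : ℝ × ℝ} {L : List (ℝ × ℝ)} (h : Adm (p :: L)) : Adm L :=
  fun q hq => h q (List.mem_cons_of_mem _ hq)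

theorem prb_adm_head {p : ℝ × ℝ} {L : List (ℝ × ℝ)} (h : Adm (p :: L)) : 0 < p.1 ∧ p.2 ≠ 0 :=
  h p List.mem_cons_self

theorem part_unitary {L : List (ℝ × ℝ)} (hL : Adm L) (s η : ℝ) :
    (part L s (η : ℂ)).conjTranspose * part L s (η : ℂ) = 1 := by
  induction L generalizing s with
  | nil => simp [part]
  | cons p L ih =>
    unfold part
    split_ifs with h
    · exact E_unitary (prb_adm_head hL).2 η
    · exact prb_unit_mul (ih (prb_adm_tail hL) _) (E_unitary (prb_adm_head hL).2 η)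

theorem part_entry_le {L : List (ℝ × ℝ)} (hL : Adm L) (s η : ℝ) (i j : Fin 2) :
    ‖part L s (η : ℂ) i j‖ ≤ 1 :=
  prb_unit_entry (part_unitary hL s η) i j

theorem part_zero {L : List (ℝ × ℝ)} (hL : Adm L) (η : ℂ) : part L 0 η = 1 := by
  cases L with
  | nil => rfl
  | cons p L =>
    unfold part
    rw [if_pos (prb_adm_head hL).1.le]
    exact E_zero_time η

theorem part_dur {L : List (ℝ × ℝ)} (hL : Adm L) (η : ℂ) : part L (dur L) η = mono L η := by
  induction L with
  | nil => rfl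
  | cons p L ih =>
    have hd : dur (p :: L) = p.1 + dur L := rfl
    have hm : mono (p :: L) η = mono L η * E p.1 p.2 η := rfl
    rw [hd, hm]
    unfold part
    split_ifs with h
    · have : L = [] := by
        by_contra hne
        have := dur_pos (prb_adm_tail hL) hne
        linarith
      subst this
      simp [dur, mono]
    · rw [add_sub_cancel_left, ih (prb_adm_tail hL)]

theorem part_contDiff {L : List (ℝ × ℝ)} (hL : Adm L) (s : ℝ) (i j : Fin 2) :
    ContDiff ℝ (⊤ : ℕ∞) (fun η : ℝ => part L s (η : ℂ) i j) := by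
  induction L generalizing s i j with
  | nil =>
    unfold part
    exact contDiff_const
  | cons p L ih =>
    unfold part
    by_cases h : s ≤ p.1
    · simp only [if_pos h]
      exact E_contDiff (prb_adm_head hL).2 s i j
    · simp only [if_neg h, Matrix.mul_apply, Fin.sum_univ_two]
      exact ((ih (prb_adm_tail hL) _ i 0).mul (E_contDiff (prb_adm_head hL).2 _ 0 j)).add
        ((ih (prb_adm_tail hL) _ i 1).mul (E_contDiff (prb_adm_head hL).2 _ 1 j))

theorem prb_E_entry {τ μ : ℝ} (hμ : μ ≠ 0) (η : ℝ) (i j : Fin 2) : ‖E τ μ (η : ℂ) i j‖ ≤ 1 :=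
  prb_unit_entry (E_unitary hμ η) i j

theorem part_deriv_bdd {L : List (ℝ × ℝ)} (hL : Adm L) : ∃ C : ℝ, 0 ≤ C ∧
    ∀ s ∈ Icc 0 (dur L), ∀ (η : ℝ) (i j : Fin 2),
      ‖deriv (fun η : ℝ => part L s (η : ℂ) i j) η‖ ≤ C := by
  induction L with
  | nil =>
    refine ⟨0, le_rfl, fun s _ η i j => ?_⟩
    unfold part
    simp
  | cons p L ih =>
    obtain ⟨C, hC, hb⟩ := ih (prb_adm_tail hL)
    obtain ⟨K, hK, hE⟩ := E_deriv_bdd (prb_adm_head hL).2
    have hp := (prb_adm_head hL).1
    have hKp : 0 ≤ K * (1 + |p.1|) := by positivity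
    refine ⟨2 * (C + K * (1 + |p.1|)), by positivity, fun s hs η i j => ?_⟩
    have hd : dur (p :: L) = p.1 + dur L := rfl
    rw [hd] at hs
    unfold part
    by_cases h : s ≤ p.1
    · simp only [if_pos h]
      refine (hE s η i j).trans ?_
      have h1 : K * (1 + |s|) ≤ K * (1 + |p.1|) := by
        apply mul_le_mul_of_nonneg_left _ hK
        rw [abs_of_nonneg hs.1, abs_of_pos hp]
        linarith
      linarith
    · simp only [if_neg h, Matrix.mul_apply, Fin.sum_univ_two]
      push Not at h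
      have hs' : s - p.1 ∈ Icc 0 (dur L) := ⟨by linarith, by linarith [hs.2]⟩
      have dP : ∀ a b, DifferentiableAt ℝ (fun η : ℝ => part L (s - p.1) (η : ℂ) a b) η :=
        fun a b => ((part_contDiff (prb_adm_tail hL) _ a b).differentiable (by simp)).differentiableAt
      have dE : ∀ a b, DifferentiableAt ℝ (fun η : ℝ => E p.1 p.2 (η : ℂ) a b) η :=
        fun a b => ((E_contDiff (prb_adm_head hL).2 _ a b).differentiable (by simp)).differentiableAt
      have key : ∀ k : Fin 2, ‖deriv (fun η : ℝ => part L (s - p.1) (η : ℂ) i k *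
          E p.1 p.2 (η : ℂ) k j) η‖ ≤ C + K * (1 + |p.1|) := by
        intro k
        have e : deriv (fun η : ℝ => part L (s - p.1) (η : ℂ) i k * E p.1 p.2 (η : ℂ) k j) η =
            deriv (fun η : ℝ => part L (s - p.1) (η : ℂ) i k) η * E p.1 p.2 (η : ℂ) k j +
            part L (s - p.1) (η : ℂ) i k * deriv (fun η : ℝ => E p.1 p.2 (η : ℂ) k j) η :=
          deriv_fun_mul (dP i k) (dE k j)
        rw [e]
        refine (norm_add_le _ _).trans ?_
        rw [norm_mul, norm_mul]
        have a1 := hb _ hs' η i k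
        have a2 := prb_E_entry (τ := p.1) (prb_adm_head hL).2 η k j
        have a3 := part_entry_le (prb_adm_tail hL) (s - p.1) η i k
        have a4 := hE p.1 η k j
        have b1 : ‖deriv (fun η : ℝ => part L (s - p.1) (η : ℂ) i k) η‖ * ‖E p.1 p.2 (η : ℂ) k j‖
            ≤ C * 1 := mul_le_mul a1 a2 (norm_nonneg _) hC
        have b2 : ‖part L (s - p.1) (η : ℂ) i k‖ * ‖deriv (fun η : ℝ => E p.1 p.2 (η : ℂ) k j) η‖
            ≤ 1 * (K * (1 + |p.1|)) := mul_le_mul a3 a4 (norm_nonneg _) zero_le_one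
        linarith
      have e : deriv (fun η : ℝ => part L (s - p.1) (η : ℂ) i 0 * E p.1 p.2 (η : ℂ) 0 j +
          part L (s - p.1) (η : ℂ) i 1 * E p.1 p.2 (η : ℂ) 1 j) η =
          deriv (fun η : ℝ => part L (s - p.1) (η : ℂ) i 0 * E p.1 p.2 (η : ℂ) 0 j) η +
          deriv (fun η : ℝ => part L (s - p.1) (η : ℂ) i 1 * E p.1 p.2 (η : ℂ) 1 j) η :=
        deriv_fun_add ((dP i 0).mul (dE 0 j)) ((dP i 1).mul (dE 1 j))
      rw [e]
      refine (norm_add_le _ _).trans ?_
      linarith [key 0, key 1]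

theorem prop_decomp {L : List (ℝ × ℝ)} (hL : Adm L) (hne : L ≠ []) {t : ℝ} (ht : 0 ≤ t) :
    ∃ (n : ℕ) (s : ℝ), 0 ≤ s ∧ s < dur L ∧ t = n * dur L + s ∧
      ∀ η : ℂ, prop L t η = part L s η * mono L η ^ n := by
  have hd := dur_pos hL hne
  have hfl : 0 ≤ ⌊t / dur L⌋ := Int.floor_nonneg.mpr (div_nonneg ht hd.le)
  refine ⟨⌊t / dur L⌋.toNat, dur L * Int.fract (t / dur L),
    mul_nonneg hd.le (Int.fract_nonneg _), ?_, ?_, fun η => rfl⟩
  · have := Int.fract_lt_one (t / dur L)
    nlinarith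
  · have e : ((⌊t / dur L⌋.toNat : ℕ) : ℝ) = (⌊t / dur L⌋ : ℝ) := by
      have := Int.toNat_of_nonneg hfl
      exact_mod_cast this
    rw [e, Int.fract]
    field_simp
    ring

/-- at multiples of the period -/
theorem prop_nat {L : List (ℝ × ℝ)} (hL : Adm L) (hne : L ≠ []) (n : ℕ) (η : ℂ) :
    prop L (n * dur L) η = mono L η ^ n := by
  have hd := dur_pos hL hne
  unfold prop
  have e : (n : ℝ) * dur L / dur L = n := by field_simp
  rw [e, Int.fract_natCast, mul_zero, part_zero hL, Int.floor_natCast, Int.toNat_natCast,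
    Matrix.one_mul]

theorem prop_zero {L : List (ℝ × ℝ)} (hL : Adm L) (η : ℂ) : prop L 0 η = 1 := by
  unfold prop
  rw [zero_div, Int.fract_zero, mul_zero, part_zero hL, Int.floor_zero]
  simp

theorem prop_entry_le {L : List (ℝ × ℝ)} (hL : Adm L) (t η : ℝ) (i j : Fin 2) :
    ‖prop L t (η : ℂ) i j‖ ≤ 1 := by
  unfold prop
  exact prb_unit_entry (prb_unit_mul (part_unitary hL _ η)
    (prb_unit_pow (mono_unitary hL η) _)) i j

theorem prop_continuous {L : List (ℝ × ℝ)} (hL : Adm L) (t : ℝ) (i j : Fin 2) :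
    Continuous (fun η : ℝ => prop L t (η : ℂ) i j) := by
  have h1 : Continuous (fun η : ℝ => part L (dur L * Int.fract (t / dur L)) (η : ℂ)) :=
    continuous_matrix fun a b => (part_contDiff hL _ a b).continuous
  have h2 : Continuous (fun η : ℝ => mono L (η : ℂ)) := by
    refine continuous_matrix fun a b => ?_
    have := (part_contDiff hL (dur L) a b).continuous
    simpa only [part_dur hL] using this
  have h3 : Continuous (fun η : ℝ => prop L t (η : ℂ)) := by
    unfold prop
    exact h1.mul (h2.pow _)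
  exact h3.matrix_elem i j

end Pool.Agent.H5.DF
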