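import Pool.Agent.H5.DF.Defs

set_option autoImplicit false
open MeasureTheory Set Filter Topology
open scoped ENNReal NNReal FourierTransform

namespace Pool.Agent.H5.DF

/-!
Part PAR1. Integral form of the sublevel set estimate on an interval where the `d`-th derivative is
`≥ κ` in absolute value.
Paper proof (induction on `d`, `F` fixed or general): `d = 0`: the whole interval satisfies
`lam ≤ κ ≤ |F|`, so the integral is `≤ δ`.  Step `d → d+1`: `|F^{(d+1)}| ≥ κ` on `[u,v]`, so `F^{(d)}` is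
strictly monotone there (the sign of `F^{(d+1)}` is constant), and
`{η ∈ [u,v] : |F^{(d)} η| < κ'}` is contained in an interval `[p,q]` with `q - p ≤ 2κ'/κ`, such that
`|F^{(d)}| ≥ κ'` on `[u,p]` and on `[q,v]` (each possibly degenerate or absent).
Take `κ' = κ^{(d+1)/(d+2)} lam^{1/(d+2)} ∈ [lam, κ]`: then `κ'/κ = (lam/κ)^{1/(d+2)}` and
`(lam/κ')^{1/(d+1)} = (lam/κ)^{1/(d+2)}`; total `≤ 2 C_d (δ + (lam/κ)^{1/(d+2)}) + 2 (lam/κ)^{1/(d+2)}`.
-/

lemma par1_sign {f : ℝ → ℝ} {u v κ : ℝ} (hc : ContinuousOn f (Icc u v)) (hκ : 0 < κ)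
    (h : ∀ x ∈ Icc u v, κ ≤ |f x|) :
    (∀ x ∈ Icc u v, κ ≤ f x) ∨ (∀ x ∈ Icc u v, f x ≤ -κ) := by
  by_contra hcon
  rw [not_or] at hcon
  obtain ⟨hc1, hc2⟩ := hcon
  push Not at hc1 hc2
  obtain ⟨x, hx, hx1⟩ := hc1
  obtain ⟨y, hy, hy1⟩ := hc2
  have hx2 : f x ≤ -κ := by
    rcases le_abs'.mp (h x hx) with h1 | h1
    · exact h1
    · linarith
  have hy2 : κ ≤ f y := by
    rcases le_abs'.mp (h y hy) with h1 | h1
    · linarith
    · exact h1
  have h1 := (isPreconnected_Icc (a := u) (b := v)).intermediate_value hx hy hc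
  obtain ⟨z, hz, hz0⟩ := h1 (show (0 : ℝ) ∈ Icc (f x) (f y) from ⟨by linarith, by linarith⟩)
  have h2 := h z hz
  rw [hz0, abs_zero] at h2
  linarith

lemma par1_incr {f f' : ℝ → ℝ} {u v κ : ℝ} (hd : ∀ x ∈ Icc u v, HasDerivAt f (f' x) x)
    (hf : ∀ x ∈ Icc u v, κ ≤ f' x) {x y : ℝ} (hx : x ∈ Icc u v) (hy : y ∈ Icc u v)
    (hxy : x ≤ y) : κ * (y - x) ≤ f y - f x := by
  rcases eq_or_lt_of_le hxy with h0 | h0
  · rw [h0]; simp
  · obtain ⟨c, hc, hc'⟩ := exists_hasDerivAt_eq_slope f f' h0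
      (fun t ht => (hd t ⟨hx.1.trans ht.1, ht.2.trans hy.2⟩).continuousAt.continuousWithinAt)
      (fun t ht => hd t ⟨hx.1.trans ht.1.le, ht.2.le.trans hy.2⟩)
    have h1 := hf c ⟨hx.1.trans hc.1.le, hc.2.le.trans hy.2⟩
    rw [hc', le_div_iff₀ (by linarith)] at h1
    exact h1

lemma par1_split_pos {f f' : ℝ → ℝ} {u v κ ρ : ℝ} (huv : u ≤ v) (hκ : 0 < κ) (hρ : 0 < ρ)
    (hd : ∀ x ∈ Icc u v, HasDerivAt f (f' x) x) (hf : ∀ x ∈ Icc u v, κ ≤ f' x) :
    ∃ p q, u ≤ p ∧ p ≤ q ∧ q ≤ v ∧ q - p ≤ 2 * ρ / κ ∧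
      (u < p → ∀ x ∈ Icc u p, ρ ≤ |f x|) ∧ (q < v → ∀ x ∈ Icc q v, ρ ≤ |f x|) := by
  have hmono : ∀ x ∈ Icc u v, ∀ y ∈ Icc u v, x ≤ y → f x ≤ f y := by
    intro x hx y hy hxy
    have := par1_incr hd hf hx hy hxy
    have h2 : 0 ≤ κ * (y - x) := mul_nonneg hκ.le (by linarith)
    linarith
  have hcont : ContinuousOn f (Icc u v) := fun t ht => (hd t ht).continuousAt.continuousWithinAt
  have hu : u ∈ Icc u v := ⟨le_rfl, huv⟩
  have hv : v ∈ Icc u v := ⟨huv, le_rfl⟩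
  by_cases c1 : f v ≤ -ρ
  · refine ⟨v, v, huv, le_rfl, le_rfl, ?_, ?_, ?_⟩
    · rw [sub_self]; positivity
    · intro _ x hx
      have := hmono x hx v hv hx.2
      rw [le_abs']
      left; linarith
    · intro h; exact absurd h (lt_irrefl _)
  by_cases c2 : ρ ≤ f u
  · refine ⟨u, u, le_rfl, le_rfl, huv, ?_, ?_, ?_⟩
    · rw [sub_self]; positivity
    · intro h; exact absurd h (lt_irrefl _)
    · intro _ x hx
      have := hmono u hu x hx hx.1
      rw [le_abs']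
      right; linarith
  push Not at c1 c2
  obtain ⟨p, hp, hp1, hp2⟩ : ∃ p ∈ Icc u v, -ρ ≤ f p ∧ (u < p → f p = -ρ) := by
    by_cases c3 : -ρ ≤ f u
    · exact ⟨u, hu, c3, fun h => absurd h (lt_irrefl _)⟩
    · push Not at c3
      obtain ⟨p, hp, hp1⟩ := intermediate_value_Icc huv hcont ⟨c3.le, c1.le⟩
      exact ⟨p, hp, by rw [hp1], fun _ => hp1⟩
  obtain ⟨q, hq, hq1, hq2⟩ : ∃ q ∈ Icc u v, f q ≤ ρ ∧ (q < v → f q = ρ) := by
    by_cases c3 : f v ≤ ρ
    · exact ⟨v, hv, c3, fun h => absurd h (lt_irrefl _)⟩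
    · push Not at c3
      obtain ⟨q, hq, hq1⟩ := intermediate_value_Icc huv hcont ⟨c2.le, c3.le⟩
      exact ⟨q, hq, by rw [hq1], fun _ => hq1⟩
  have hpq : p ≤ q := by
    by_contra hcon
    push Not at hcon
    have h1 := hp2 (lt_of_le_of_lt hq.1 hcon)
    have h2 := hq2 (lt_of_lt_of_le hcon hp.2)
    have h3 := hmono q hq p hp hcon.le
    linarith
  refine ⟨p, q, hp.1, hpq, hq.2, ?_, ?_, ?_⟩
  · have := par1_incr hd hf hp hq hpq
    rw [le_div_iff₀ hκ]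
    linarith
  · intro h x hx
    have h1 := hp2 h
    have h2 := hmono x ⟨hx.1, hx.2.trans hp.2⟩ p hp hx.2
    rw [le_abs']
    left; linarith
  · intro h x hx
    have h1 := hq2 h
    have h2 := hmono q hq x ⟨hq.1.trans hx.1, hx.2⟩ hx.1
    rw [le_abs']
    right; linarith

/-- the set where a function with derivative `≥ κ` in absolute value is small -/
lemma par1_split {f f' : ℝ → ℝ} {u v κ ρ : ℝ} (huv : u ≤ v) (hκ : 0 < κ) (hρ : 0 < ρ)
    (hd : ∀ x ∈ Icc u v, HasDerivAt f (f' x) x)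
    (hf : (∀ x ∈ Icc u v, κ ≤ f' x) ∨ (∀ x ∈ Icc u v, f' x ≤ -κ)) :
    ∃ p q, u ≤ p ∧ p ≤ q ∧ q ≤ v ∧ q - p ≤ 2 * ρ / κ ∧
      (u < p → ∀ x ∈ Icc u p, ρ ≤ |f x|) ∧ (q < v → ∀ x ∈ Icc q v, ρ ≤ |f x|) := by
  rcases hf with hf | hf
  · exact par1_split_pos huv hκ hρ hd hf
  · obtain ⟨p, q, h1, h2, h3, h4, h5, h6⟩ := par1_split_pos (f := fun x => -f x)
      (f' := fun x => -f' x) huv hκ hρ (fun x hx => (hd x hx).neg)
      (fun x hx => by have := hf x hx; linarith)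
    refine ⟨p, q, h1, h2, h3, h4, ?_, ?_⟩
    · intro h x hx
      have := h5 h x hx
      rwa [abs_neg] at this
    · intro h x hx
      have := h6 h x hx
      rwa [abs_neg] at this

lemma par1_zero {F : ℝ → ℝ} {Φ : ℝ → ℂ} {u v lam κ δ : ℝ} (huv : u ≤ v) (hlk : lam ≤ κ)
    (hsub : ∀ u' v' : ℝ, u ≤ u' → u' ≤ v' → v' ≤ v → (∀ η ∈ Icc u' v', lam ≤ |F η|) →
        ‖∫ η in u'..v', Φ η‖ ≤ δ)
    (hF : ∀ η ∈ Icc u v, κ ≤ |F η|) : ‖∫ η in u..v, Φ η‖ ≤ δ :=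
  hsub u v le_rfl huv le_rfl (fun η hη => hlk.trans (hF η hη))

theorem part_local (d : ℕ) : ∃ C : ℝ, 0 ≤ C ∧ ∀ (F : ℝ → ℝ), ContDiff ℝ (⊤ : ℕ∞) F →
    ∀ (Φ : ℝ → ℂ), Continuous Φ → ∀ (u v lam κ δ : ℝ), u ≤ v → 0 < lam → lam ≤ κ → 0 ≤ δ →
      (∀ η ∈ Icc u v, ‖Φ η‖ ≤ 1) →
      (∀ u' v' : ℝ, u ≤ u' → u' ≤ v' → v' ≤ v → (∀ η ∈ Icc u' v', lam ≤ |F η|) →
        ‖∫ η in u'..v', Φ η‖ ≤ δ) →
      (∀ η ∈ Icc u v, κ ≤ |iteratedDeriv d F η|) →
      ‖∫ η in u..v, Φ η‖ ≤ C * (δ + (lam / κ) ^ (1 / ((d : ℝ) + 1))) := by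
  induction d with
  | zero =>
    refine ⟨1, zero_le_one, ?_⟩
    intro F _ Φ _ u v lam κ δ huv hlam hlk hδ _ hsub hF
    have h1 := par1_zero huv hlk hsub (fun η hη => by
      have := hF η hη
      rwa [iteratedDeriv_zero] at this)
    have h2 : 0 ≤ (lam / κ) ^ (1 / (((0 : ℕ) : ℝ) + 1)) :=
      Real.rpow_nonneg (div_nonneg hlam.le (hlam.le.trans hlk)) _
    linarith
  | succ d ih =>
    obtain ⟨C, hC, ih⟩ := ih
    refine ⟨2 * C + 2, by linarith, ?_⟩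
    intro F hFs Φ hΦ u v lam κ δ huv hlam hlk hδ hΦ1 hsub hF
    have hκ : 0 < κ := hlam.trans_le hlk
    set r : ℝ := lam / κ with hr
    have hr0 : 0 < r := div_pos hlam hκ
    have hr1 : r ≤ 1 := (div_le_one hκ).mpr hlk
    have hd1 : (0 : ℝ) < (d : ℝ) + 1 := by positivity
    have hd2 : (0 : ℝ) < ((d + 1 : ℕ) : ℝ) + 1 := by positivity
    set R : ℝ := r ^ (1 / (((d + 1 : ℕ) : ℝ) + 1)) with hR
    have hR0 : 0 < R := Real.rpow_pos_of_pos hr0 _
    have hrR : r ≤ R := by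
      have h1 : (1 : ℝ) / (((d + 1 : ℕ) : ℝ) + 1) ≤ 1 := by
        rw [div_le_one hd2]
        have : (0 : ℝ) ≤ ((d + 1 : ℕ) : ℝ) := by positivity
        linarith
      calc r = r ^ (1 : ℝ) := (Real.rpow_one r).symm
        _ ≤ R := Real.rpow_le_rpow_of_exponent_ge hr0 hr1 h1
    have hρ : 0 < κ * R := mul_pos hκ hR0
    have hlρ : lam ≤ κ * R := by
      have h1 : lam = κ * r := by rw [hr]; field_simp
      rw [h1]
      exact mul_le_mul_of_nonneg_left hrR hκ.le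
    have hexp : (lam / (κ * R)) ^ (1 / ((d : ℝ) + 1)) = R := by
      have h1 : lam / (κ * R) = r ^ (1 - 1 / (((d + 1 : ℕ) : ℝ) + 1)) := by
        rw [Real.rpow_sub hr0, Real.rpow_one, ← hR, hr]
        field_simp
      rw [h1, ← Real.rpow_mul hr0.le, hR]
      congr 1
      push_cast
      have h2 : ((d : ℝ) + 1 + 1) ≠ 0 := by positivity
      have h3 : ((d : ℝ) + 1) ≠ 0 := by positivity
      field_simp
      ring
    -- the derivative
    have hder : ∀ x ∈ Icc u v, HasDerivAt (iteratedDeriv d F) (iteratedDeriv (d + 1) F x) x := by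
      intro x _
      rw [iteratedDeriv_succ]
      have h1 : Differentiable ℝ (iteratedDeriv d F) :=
        hFs.differentiable_iteratedDeriv d (by exact_mod_cast WithTop.coe_lt_top d)
      exact (h1 x).hasDerivAt
    have hcont : ContinuousOn (iteratedDeriv (d + 1) F) (Icc u v) :=
      (hFs.continuous_iteratedDeriv (d + 1) (by exact_mod_cast le_top)).continuousOn
    have hsign := par1_sign hcont hκ hF
    obtain ⟨p, q, hp, hpq, hq, hlen, hP, hQ⟩ := par1_split huv hκ hρ hder hsign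
    have hlen' : q - p ≤ 2 * R := by
      have h1 : 2 * (κ * R) / κ = 2 * R := by field_simp
      rwa [h1] at hlen
    have b1 : ‖∫ η in u..p, Φ η‖ ≤ C * (δ + R) := by
      rcases eq_or_lt_of_le hp with h0 | h0
      · rw [← h0, intervalIntegral.integral_same, norm_zero]; positivity
      · have := ih F hFs Φ hΦ u p lam (κ * R) δ hp hlam hlρ hδ
          (fun η hη => hΦ1 η ⟨hη.1, hη.2.trans (hpq.trans hq)⟩)
          (fun u' v' h1 h2 h3 h4 => hsub u' v' h1 h2 (h3.trans (hpq.trans hq)) h4) (hP h0)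
        rwa [hexp] at this
    have b3 : ‖∫ η in q..v, Φ η‖ ≤ C * (δ + R) := by
      rcases eq_or_lt_of_le hq with h0 | h0
      · rw [h0, intervalIntegral.integral_same, norm_zero]; positivity
      · have := ih F hFs Φ hΦ q v lam (κ * R) δ hq hlam hlρ hδ
          (fun η hη => hΦ1 η ⟨(hp.trans hpq).trans hη.1, hη.2⟩)
          (fun u' v' h1 h2 h3 h4 => hsub u' v' ((hp.trans hpq).trans h1) h2 h3 h4) (hQ h0)
        rwa [hexp] at this
    have b2 : ‖∫ η in p..q, Φ η‖ ≤ 2 * R := by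
      have := intervalIntegral.norm_integral_le_of_norm_le_const (a := p) (b := q)
        (f := Φ) (C := 1) (fun x hx => by
          rw [uIoc_of_le hpq] at hx
          exact hΦ1 x ⟨hp.trans hx.1.le, hx.2.trans hq⟩)
      rw [one_mul, abs_of_nonneg (by linarith)] at this
      exact this.trans hlen'
    have hi : ∀ a b, IntervalIntegrable Φ volume a b := fun a b => hΦ.intervalIntegrable a b
    rw [← intervalIntegral.integral_add_adjacent_intervals (hi u q) (hi q v),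
      ← intervalIntegral.integral_add_adjacent_intervals (hi u p) (hi p q)]
    have k1 := norm_add_le ((∫ η in u..p, Φ η) + ∫ η in p..q, Φ η) (∫ η in q..v, Φ η)
    have k2 := norm_add_le (∫ η in u..p, Φ η) (∫ η in p..q, Φ η)
    nlinarith

end Pool.Agent.H5.DF
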