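import Pool.Agent.H5.DF.Defs
import Pool.Agent.H5.DF.Par1

set_option autoImplicit false
open MeasureTheory Set Filter Topology
open scoped ENNReal NNReal FourierTransform

namespace Pool.Agent.H5.DF

/-!
Part PAR. Integral form of the sublevel set estimate on `[ℓ, ℓ+1]`.
Paper proof: for each `η ∈ [ℓ,ℓ+1]` some `i ≤ N` has `|F^{(i)}(η)| ≥ c/(1+|η|)² ≥ c₂/(1+|ℓ|)²`
(`1+|η| ≤ 2(1+|ℓ|)`), and as `|F^{(i+1)}| ≤ C'` everywhere (`hup`, maximum over `i ≤ N`),
`|F^{(i)}| ≥ κ := c₂/(2(1+|ℓ|)²)` on the interval of radius `κ/C'` around `η`.  Cut `[ℓ,ℓ+1]` in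
`K ≤ C₃ (1+|ℓ|)²` equal intervals of length `≤ κ/C'`; on each of them `part_local` applies with some
`d ≤ N` if `lam ≤ κ`, and `(lam/κ)^{1/(d+1)} ≤ (lam/κ)^{1/(N+1)}`; so the integral is
`≤ C₃ (1+|ℓ|)² C (δ + (lam/κ)^{1/(N+1)})`, and `κ^{-1/(N+1)} ≤ C₄ (1+|ℓ|)²`.  If `lam > κ`:
`‖∫‖ ≤ 1 ≤ (lam/κ)^{1/(N+1)}`.  (`A = 4`, `c₁ = 1/(N+1)`.)
-/

lemma par_lip {F : ℝ → ℝ} (hF : ContDiff ℝ (⊤ : ℕ∞) F) (i : ℕ) {C : ℝ}
    (hC : ∀ η, |iteratedDeriv (i + 1) F η| ≤ C) (x y : ℝ) :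
    |iteratedDeriv i F y - iteratedDeriv i F x| ≤ C * |y - x| := by
  have h1 : Differentiable ℝ (iteratedDeriv i F) :=
    hF.differentiable_iteratedDeriv i (by exact_mod_cast WithTop.coe_lt_top i)
  have := Convex.norm_image_sub_le_of_norm_deriv_le (𝕜 := ℝ) (f := iteratedDeriv i F)
    (C := C) (s := univ) (x := x) (y := y) (fun t _ => h1 t) (fun t _ => by
      rw [← iteratedDeriv_succ]
      exact hC t) convex_univ (mem_univ _) (mem_univ _)
  exact this

theorem part_int {F : ℝ → ℝ} (hF : ContDiff ℝ (⊤ : ℕ∞) F) {N : ℕ} {c : ℝ} (hc : 0 < c)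
    (hlow : ∀ η : ℝ, ∃ i ≤ N, c / (1 + |η|) ^ 2 ≤ |iteratedDeriv i F η|)
    (hup : ∀ i : ℕ, ∃ C : ℝ, ∀ η : ℝ, |iteratedDeriv i F η| ≤ C) :
    ∃ A C c₁ : ℝ, 0 ≤ A ∧ 0 ≤ C ∧ 0 < c₁ ∧
      ∀ (ℓ lam δ : ℝ) (Φ : ℝ → ℂ), 0 < lam → lam ≤ 1 → 0 ≤ δ →
        (∀ η ∈ Icc ℓ (ℓ + 1), ‖Φ η‖ ≤ 1) → Continuous Φ →
        (∀ u v : ℝ, ℓ ≤ u → u ≤ v → v ≤ ℓ + 1 → (∀ η ∈ Icc u v, lam ≤ |F η|) →
          ‖∫ η in u..v, Φ η‖ ≤ δ) →
        ‖∫ η in ℓ..(ℓ + 1), Φ η‖ ≤ C * (1 + |ℓ|) ^ A * (δ + lam ^ c₁) := by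
  classical
  choose Cb hCb0 hCb using part_local
  choose Cu hCu using hup
  set C' : ℝ := 1 + ∑ i ∈ Finset.range (N + 1), |Cu (i + 1)| with hC'
  have hC'1 : 1 ≤ C' := by
    have : 0 ≤ ∑ i ∈ Finset.range (N + 1), |Cu (i + 1)| :=
      Finset.sum_nonneg (fun i _ => abs_nonneg _)
    linarith
  have hC'i : ∀ i ≤ N, ∀ η, |iteratedDeriv (i + 1) F η| ≤ C' := by
    intro i hi η
    have h1 : |Cu (i + 1)| ≤ ∑ i ∈ Finset.range (N + 1), |Cu (i + 1)| :=
      Finset.single_le_sum (f := fun i => |Cu (i + 1)|) (fun i _ => abs_nonneg _)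
        (Finset.mem_range.mpr (by omega))
    have h2 := hCu (i + 1) η
    have h3 := le_abs_self (Cu (i + 1))
    linarith
  set Cm : ℝ := 1 + ∑ i ∈ Finset.range (N + 1), Cb i with hCm
  have hCm1 : 1 ≤ Cm := by
    have : 0 ≤ ∑ i ∈ Finset.range (N + 1), Cb i := Finset.sum_nonneg (fun i _ => hCb0 i)
    linarith
  have hCmi : ∀ i ≤ N, Cb i ≤ Cm := by
    intro i hi
    have h1 : Cb i ≤ ∑ i ∈ Finset.range (N + 1), Cb i :=
      Finset.single_le_sum (f := Cb) (fun i _ => hCb0 i) (Finset.mem_range.mpr (by omega))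
    linarith
  set c₁ : ℝ := 1 / ((N : ℝ) + 1) with hc₁
  have hN1 : (0 : ℝ) < (N : ℝ) + 1 := by positivity
  have hc₁0 : 0 < c₁ := by positivity
  have hc₁1 : c₁ ≤ 1 := by
    rw [hc₁, div_le_one hN1]
    have : (0 : ℝ) ≤ (N : ℝ) := by positivity
    linarith
  refine ⟨4, (8 * C' / c + 1) * (1 + 8 / c) * Cm, c₁, by norm_num, by positivity, hc₁0, ?_⟩
  intro ℓ lam δ Φ hlam hlam1 hδ hΦ1 hΦ hsub
  have hA : (1 + |ℓ|) ^ (4 : ℝ) = (1 + |ℓ|) ^ 4 := by
    rw [← Real.rpow_natCast]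
    norm_num
  rw [hA]
  set L : ℝ := 1 + |ℓ| with hL
  have hL1 : 1 ≤ L := by
    have := abs_nonneg ℓ
    linarith
  have hL0 : 0 < L := by linarith
  have hL2 : 1 ≤ L ^ 2 := one_le_pow₀ hL1
  set κ : ℝ := c / (8 * L ^ 2) with hκdef
  have hκ : 0 < κ := by positivity
  have hlow' : ∀ η ∈ Icc ℓ (ℓ + 1), ∃ i ≤ N, 2 * κ ≤ |iteratedDeriv i F η| := by
    intro η hη
    obtain ⟨i, hi, h1⟩ := hlow η
    refine ⟨i, hi, le_trans ?_ h1⟩
    have h2 : |η| ≤ |ℓ| + 1 := by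
      have h3 : |η - ℓ| ≤ 1 := by
        rw [abs_le]; constructor <;> linarith [hη.1, hη.2]
      have h4 : |η| ≤ |η - ℓ| + |ℓ| := by
        have := abs_add_le (η - ℓ) ℓ
        rwa [sub_add_cancel] at this
      linarith
    have h3 : 1 + |η| ≤ 2 * L := by
      have := abs_nonneg ℓ
      linarith
    have h4 : (1 + |η|) ^ 2 ≤ (2 * L) ^ 2 := by
      apply pow_le_pow_left₀ _ h3
      have := abs_nonneg η
      linarith
    have h5 : 2 * κ = c / (2 * L) ^ 2 := by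
      rw [hκdef]
      field_simp
      ring
    rw [h5]
    apply div_le_div_of_nonneg_left hc.le _ h4
    have := abs_nonneg η
    positivity
  -- (lam / κ) ^ c₁
  have hlk : (lam / κ) ^ c₁ ≤ (1 + 8 / c) * L ^ 2 * lam ^ c₁ := by
    rw [Real.div_rpow hlam.le hκ.le, div_eq_mul_inv, ← Real.inv_rpow hκ.le, mul_comm]
    apply mul_le_mul_of_nonneg_right _ (Real.rpow_nonneg hlam.le _)
    have h1 : κ⁻¹ = 8 / c * L ^ 2 := by
      rw [hκdef]; field_simp
    rw [h1]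
    have h2 : (8 / c * L ^ 2) ≤ (1 + 8 / c) * L ^ 2 := by
      have : 0 ≤ L ^ 2 := by positivity
      nlinarith
    have h3 : 1 ≤ (1 + 8 / c) * L ^ 2 := by
      have : 0 < 8 / c := by positivity
      exact one_le_mul_of_one_le_of_one_le (by linarith) hL2
    calc (8 / c * L ^ 2) ^ c₁ ≤ ((1 + 8 / c) * L ^ 2) ^ c₁ :=
          Real.rpow_le_rpow (by positivity) h2 hc₁0.le
      _ ≤ ((1 + 8 / c) * L ^ 2) ^ (1 : ℝ) := Real.rpow_le_rpow_of_exponent_le h3 hc₁1
      _ = (1 + 8 / c) * L ^ 2 := Real.rpow_one _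
  have hlc : 0 ≤ lam ^ c₁ := Real.rpow_nonneg hlam.le _
  have hC8 : 0 < 8 / c := by positivity
  have hC8' : 0 < 8 * C' / c := by positivity
  by_cases hcase : lam ≤ κ
  · -- the subdivision
    set K : ℕ := ⌈C' / κ⌉₊ with hK
    have hK1 : C' / κ ≤ K := Nat.le_ceil _
    have hK0 : (0 : ℝ) < K := lt_of_lt_of_le (by positivity) hK1
    have hK2 : (K : ℝ) ≤ (8 * C' / c + 1) * L ^ 2 := by
      have h1 : (K : ℝ) < C' / κ + 1 := Nat.ceil_lt_add_one (by positivity)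
      have h2 : C' / κ = 8 * C' / c * L ^ 2 := by
        rw [hκdef]; field_simp
      rw [h2] at h1
      nlinarith
    have hKinv : C' * (1 / K) ≤ κ := by
      rw [mul_one_div, div_le_iff₀ hK0]
      rw [div_le_iff₀ hκ] at hK1
      linarith
    set a : ℕ → ℝ := fun j => ℓ + j / K with ha
    have ha0 : a 0 = ℓ := by simp [ha]
    have haK : a K = ℓ + 1 := by
      simp only [ha]
      rw [div_self hK0.ne']
    have hmono : ∀ j, a j ≤ a (j + 1) := by
      intro j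
      simp only [ha]
      have : (j : ℝ) / K ≤ ((j + 1 : ℕ) : ℝ) / K := by
        apply div_le_div_of_nonneg_right _ hK0.le
        push_cast; linarith
      linarith
    have hstep : ∀ j, a (j + 1) - a j = 1 / K := by
      intro j
      simp only [ha]
      push_cast
      field_simp
      ring
    have hge : ∀ j, ℓ ≤ a j := by
      intro j
      simp only [ha]
      have : 0 ≤ (j : ℝ) / K := by positivity
      linarith
    have hle : ∀ j, j ≤ K → a j ≤ ℓ + 1 := by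
      intro j hj
      simp only [ha]
      have : (j : ℝ) / K ≤ 1 := by
        rw [div_le_one hK0]
        exact_mod_cast hj
      linarith
    have hpiece : ∀ j ∈ Finset.range K, ‖∫ η in a j..a (j + 1), Φ η‖ ≤
        Cm * (δ + (lam / κ) ^ c₁) := by
      intro j hj
      have hjK : j + 1 ≤ K := by
        have := Finset.mem_range.mp hj
        omega
      have hajI : a j ∈ Icc ℓ (ℓ + 1) := ⟨hge j, hle j (by omega)⟩
      obtain ⟨i, hi, h1⟩ := hlow' (a j) hajI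
      have h2 := hCb i F hF Φ hΦ (a j) (a (j + 1)) lam κ δ (hmono j) hlam hcase hδ
        (fun η hη => hΦ1 η ⟨(hge j).trans hη.1, hη.2.trans (hle _ hjK)⟩)
        (fun u' v' k1 k2 k3 k4 => hsub u' v' ((hge j).trans k1) k2 (k3.trans (hle _ hjK)) k4)
        (by
          intro η hη
          have k1 := par_lip hF i (hC'i i hi) (a j) η
          have k2 : |η - a j| ≤ 1 / K := by
            rw [abs_of_nonneg (by linarith [hη.1]), ← hstep j]
            linarith [hη.2]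
          have k3 : C' * |η - a j| ≤ κ :=
            (mul_le_mul_of_nonneg_left k2 (by linarith)).trans hKinv
          have k4 : |iteratedDeriv i F (a j)| ≤ |iteratedDeriv i F η| +
              |iteratedDeriv i F η - iteratedDeriv i F (a j)| := by
            have := abs_sub_abs_le_abs_sub (iteratedDeriv i F (a j)) (iteratedDeriv i F η)
            rw [abs_sub_comm] at this
            linarith
          linarith)
      refine h2.trans ?_
      have hr1 : lam / κ ≤ 1 := (div_le_one hκ).mpr hcase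
      have hr0 : 0 < lam / κ := div_pos hlam hκ
      have h3 : (lam / κ) ^ (1 / ((i : ℝ) + 1)) ≤ (lam / κ) ^ c₁ := by
        apply Real.rpow_le_rpow_of_exponent_ge hr0 hr1
        rw [hc₁]
        apply one_div_le_one_div_of_le (by positivity)
        have : (i : ℝ) ≤ N := by exact_mod_cast hi
        linarith
      have h4 : 0 ≤ δ + (lam / κ) ^ c₁ := add_nonneg hδ (Real.rpow_nonneg hr0.le _)
      calc Cb i * (δ + (lam / κ) ^ (1 / ((i : ℝ) + 1))) ≤ Cb i * (δ + (lam / κ) ^ c₁) :=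
            mul_le_mul_of_nonneg_left (by linarith) (hCb0 i)
        _ ≤ Cm * (δ + (lam / κ) ^ c₁) := mul_le_mul_of_nonneg_right (hCmi i hi) h4
    have hsum : ∫ η in ℓ..(ℓ + 1), Φ η = ∑ j ∈ Finset.range K, ∫ η in a j..a (j + 1), Φ η := by
      rw [intervalIntegral.sum_integral_adjacent_intervals
        (fun j _ => hΦ.intervalIntegrable _ _), ha0, haK]
    rw [hsum]
    have h5 : ‖∑ j ∈ Finset.range K, ∫ η in a j..a (j + 1), Φ η‖ ≤
        K * (Cm * (δ + (lam / κ) ^ c₁)) := by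
      have := norm_sum_le_of_le (Finset.range K) hpiece
      rwa [Finset.sum_const, Finset.card_range, nsmul_eq_mul] at this
    refine h5.trans ?_
    have h6 : δ + (lam / κ) ^ c₁ ≤ (1 + 8 / c) * L ^ 2 * (δ + lam ^ c₁) := by
      have : δ ≤ (1 + 8 / c) * L ^ 2 * δ := by
        have h3 : 1 ≤ (1 + 8 / c) * L ^ 2 := one_le_mul_of_one_le_of_one_le (by linarith) hL2
        exact le_mul_of_one_le_left hδ h3
      rw [mul_add]
      linarith
    have h7 : 0 ≤ δ + (lam / κ) ^ c₁ :=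
      add_nonneg hδ (Real.rpow_nonneg (div_nonneg hlam.le hκ.le) _)
    calc (K : ℝ) * (Cm * (δ + (lam / κ) ^ c₁)) ≤ ((8 * C' / c + 1) * L ^ 2) *
          (Cm * (δ + (lam / κ) ^ c₁)) := mul_le_mul_of_nonneg_right hK2 (by positivity)
      _ ≤ ((8 * C' / c + 1) * L ^ 2) * (Cm * ((1 + 8 / c) * L ^ 2 * (δ + lam ^ c₁))) := by
          apply mul_le_mul_of_nonneg_left _ (by positivity)
          exact mul_le_mul_of_nonneg_left h6 (by linarith)
      _ = (8 * C' / c + 1) * (1 + 8 / c) * Cm * L ^ 4 * (δ + lam ^ c₁) := by ring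
  · push Not at hcase
    have h1 : ‖∫ η in ℓ..(ℓ + 1), Φ η‖ ≤ 1 := by
      have := intervalIntegral.norm_integral_le_of_norm_le_const (a := ℓ) (b := ℓ + 1)
        (f := Φ) (C := 1) (fun x hx => by
          rw [uIoc_of_le (by linarith)] at hx
          exact hΦ1 x ⟨hx.1.le, hx.2⟩)
      rw [one_mul, add_sub_cancel_left, abs_one] at this
      exact this
    have h2 : 1 ≤ (lam / κ) ^ c₁ := by
      apply Real.one_le_rpow _ hc₁0.le
      rw [le_div_iff₀ hκ]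
      linarith
    have h3 : (1 + 8 / c) * L ^ 2 * lam ^ c₁ ≤
        (8 * C' / c + 1) * (1 + 8 / c) * Cm * L ^ 4 * (δ + lam ^ c₁) := by
      have k1 : (1 : ℝ) ≤ (8 * C' / c + 1) * Cm * L ^ 2 := by
        have e1 : 1 ≤ 8 * C' / c + 1 := by linarith
        have e2 : 1 ≤ (8 * C' / c + 1) * Cm := one_le_mul_of_one_le_of_one_le e1 (by linarith)
        exact one_le_mul_of_one_le_of_one_le e2 hL2
      have k2 : (8 * C' / c + 1) * (1 + 8 / c) * Cm * L ^ 4 * (δ + lam ^ c₁) =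
          ((8 * C' / c + 1) * Cm * L ^ 2) * ((1 + 8 / c) * L ^ 2 * (δ + lam ^ c₁)) := by ring
      rw [k2]
      have k3 : (1 + 8 / c) * L ^ 2 * lam ^ c₁ ≤ (1 + 8 / c) * L ^ 2 * (δ + lam ^ c₁) := by
        apply mul_le_mul_of_nonneg_left _ (by positivity)
        linarith
      have k4 : 0 ≤ (1 + 8 / c) * L ^ 2 * (δ + lam ^ c₁) := by positivity
      exact k3.trans (le_mul_of_one_le_left k4 k1)
    linarith

end Pool.Agent.H5.DF
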