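import Pool.Agent.H5.DF.Defs

set_option autoImplicit false
open MeasureTheory Set Filter Topology
open scoped ENNReal NNReal FourierTransform

namespace Pool.Agent.H5.DF

/-!
Part POW. Powers of a `2 × 2` matrix of determinant `1` (Cayley–Hamilton `M² = 2 cos θ M - 1`,
induction on `n` with `sin((n+2)θ) = 2 cos θ sin((n+1)θ) - sin(nθ)`), and the second form:
`M^n = (e^{inθ}(M - e^{-iθ}) - e^{-inθ}(M - e^{iθ}))/(2 i sin θ)`.
-/

lemma pow_ch (M : Mat) : M * M = M.trace • M - M.det • (1 : Mat) := by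
  ext i j
  rw [Matrix.mul_apply, Fin.sum_univ_two, Matrix.sub_apply, Matrix.smul_apply,
    Matrix.smul_apply, Matrix.trace_fin_two, Matrix.det_fin_two, smul_eq_mul, smul_eq_mul]
  fin_cases i <;> fin_cases j <;> simp <;> ring

theorem pow_formula {M : Mat} (hdet : M.det = 1) {θ : ℝ}
    (htr : M.trace = ((2 * Real.cos θ : ℝ) : ℂ)) (hs : Real.sin θ ≠ 0) (n : ℕ) :
    M ^ (n + 1) = (((Real.sin ((n + 1) * θ) / Real.sin θ : ℝ) : ℂ)) • M
      - (((Real.sin (n * θ) / Real.sin θ : ℝ) : ℂ)) • (1 : Mat) := by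
  induction n with
  | zero =>
    have h1 : Real.sin (((0 : ℕ) + 1) * θ) / Real.sin θ = 1 := by
      rw [Nat.cast_zero, zero_add, one_mul, div_self hs]
    have h2 : Real.sin (((0 : ℕ) : ℝ) * θ) / Real.sin θ = 0 := by
      rw [Nat.cast_zero, zero_mul, Real.sin_zero, zero_div]
    rw [h1, h2]
    simp
  | succ n ih =>
    have hrec : Real.sin (((n + 1 : ℕ) + 1) * θ) / Real.sin θ =
        2 * Real.cos θ * (Real.sin ((n + 1) * θ) / Real.sin θ) -
          Real.sin (n * θ) / Real.sin θ := by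
      have h1 : Real.sin (((n + 1 : ℕ) + 1) * θ) =
          2 * Real.cos θ * Real.sin ((n + 1) * θ) - Real.sin (n * θ) := by
        have e1 : (((n + 1 : ℕ) : ℝ) + 1) * θ = ((n : ℝ) + 1) * θ + θ := by push_cast; ring
        have e2 : (n : ℝ) * θ = ((n : ℝ) + 1) * θ - θ := by ring
        rw [e1, e2, Real.sin_add, Real.sin_sub]
        ring
      rw [h1]
      ring
    have hrec' : ((n + 1 : ℕ) : ℝ) = (n : ℝ) + 1 := by push_cast; ring
    rw [pow_succ, ih, sub_mul, smul_mul_assoc, smul_mul_assoc, one_mul, pow_ch M, hdet, htr,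
      one_smul, smul_sub, smul_smul, hrec, hrec']
    rw [Complex.ofReal_sub, sub_smul]
    have e3 : (((Real.sin ((n + 1) * θ) / Real.sin θ : ℝ) : ℂ)) * ((2 * Real.cos θ : ℝ) : ℂ) =
        ((2 * Real.cos θ * (Real.sin ((n + 1) * θ) / Real.sin θ) : ℝ) : ℂ) := by
      push_cast; ring
    rw [e3]
    abel

lemma pow_sin_cast (x : ℝ) : ((Real.sin x : ℝ) : ℂ) =
    (Complex.exp (Complex.I * ((x : ℝ) : ℂ)) - Complex.exp (Complex.I * ((-x : ℝ) : ℂ))) /
      (2 * Complex.I) := by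
  rw [Complex.ofReal_sin, Complex.sin]
  have e1 : -(x : ℂ) * Complex.I = Complex.I * ((-x : ℝ) : ℂ) := by push_cast; ring
  have e2 : (x : ℂ) * Complex.I = Complex.I * ((x : ℝ) : ℂ) := by ring
  rw [e1, e2]
  have hI := Complex.I_ne_zero
  rw [div_eq_div_iff (by norm_num) (mul_ne_zero two_ne_zero hI)]
  have h2 := Complex.I_mul_I
  linear_combination (2 : ℂ) * (Complex.exp (Complex.I * ((-x : ℝ) : ℂ)) -
    Complex.exp (Complex.I * ((x : ℝ) : ℂ))) * h2

theorem pow_formula_exp {M : Mat} (hdet : M.det = 1) {θ : ℝ}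
    (htr : M.trace = ((2 * Real.cos θ : ℝ) : ℂ)) (hs : Real.sin θ ≠ 0) {n : ℕ} (hn : 1 ≤ n)
    (i j : Fin 2) :
    (M ^ n) i j =
      Complex.exp (Complex.I * ((n * θ : ℝ) : ℂ)) *
          ((M i j - Complex.exp (-(Complex.I * θ)) * (1 : Mat) i j) /
            (2 * Complex.I * ((Real.sin θ : ℝ) : ℂ))) -
        Complex.exp (Complex.I * ((-(n * θ) : ℝ) : ℂ)) *
          ((M i j - Complex.exp (Complex.I * θ) * (1 : Mat) i j) /
            (2 * Complex.I * ((Real.sin θ : ℝ) : ℂ))) := by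
  obtain ⟨m, rfl⟩ : ∃ m, n = m + 1 := ⟨n - 1, by omega⟩
  rw [pow_formula hdet htr hs m, Matrix.sub_apply, Matrix.smul_apply, Matrix.smul_apply,
    smul_eq_mul, smul_eq_mul, Complex.ofReal_div, Complex.ofReal_div,
    pow_sin_cast ((m + 1) * θ), pow_sin_cast (m * θ)]
  have hsC : ((Real.sin θ : ℝ) : ℂ) ≠ 0 := Complex.ofReal_ne_zero.mpr hs
  have hI := Complex.I_ne_zero
  have e0 : ((m + 1 : ℕ) : ℝ) = (m : ℝ) + 1 := by push_cast; ring
  rw [e0]
  have e1 : Complex.exp (Complex.I * (((m : ℝ) * θ : ℝ) : ℂ)) =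
      Complex.exp (Complex.I * ((((m : ℝ) + 1) * θ : ℝ) : ℂ)) *
        Complex.exp (-(Complex.I * θ)) := by
    rw [← Complex.exp_add]
    congr 1
    push_cast; ring
  have e2 : Complex.exp (Complex.I * ((-((m : ℝ) * θ) : ℝ) : ℂ)) =
      Complex.exp (Complex.I * ((-(((m : ℝ) + 1) * θ) : ℝ) : ℂ)) *
        Complex.exp (Complex.I * θ) := by
    rw [← Complex.exp_add]
    congr 1
    push_cast; ring
  rw [e1, e2]
  field_simp
  ring

end Pool.Agent.H5.DF
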