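import Pool.Agent.H5.DF.Defs
import Pool.Agent.H5.DF.Ana
import Pool.Agent.H5.DF.Ana2
import Pool.Agent.H5.DF.Glow

set_option autoImplicit false
open MeasureTheory Set Filter Topology
open scoped ENNReal NNReal FourierTransform

namespace Pool.Agent.H5.DF

/-!
Part THE. The angle `θ = arccos D` at a point with `|G| ≥ lam`.
`1 - D² ≥ c |G| ≥ c lam > 0` (`one_sub_sq_ge`), so `arccos` is differentiable at `D`;
`θ' = -D'/sqrt(1-D²)`, `θ'' = -D''/(1-D²)^{1/2} - D D'²/(1-D²)^{3/2} = -G/(1-D²)^{3/2}`, and `1-D² ≤ 1`.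
-/

theorem theta_facts {L : List (ℝ × ℝ)} (hL : Adm L) : ∃ c C : ℝ, 0 < c ∧ 0 ≤ C ∧
    ∀ lam : ℝ, 0 < lam → lam ≤ 1 → ∀ η : ℝ, lam ≤ |G L η| →
      c * lam ≤ 1 - Dr L η ^ 2 ∧
      Real.sin (Real.arccos (Dr L η)) = Real.sqrt (1 - Dr L η ^ 2) ∧
      Real.cos (Real.arccos (Dr L η)) = Dr L η ∧
      HasDerivAt (fun y => Real.arccos (Dr L y))
        (-(deriv (Dr L) η) / Real.sqrt (1 - Dr L η ^ 2)) η ∧
      HasDerivAt (fun y => -(deriv (Dr L) y) / Real.sqrt (1 - Dr L y ^ 2))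
        (-(G L η) / Real.sqrt (1 - Dr L η ^ 2) ^ 3) η ∧
      lam ≤ |-(G L η) / Real.sqrt (1 - Dr L η ^ 2) ^ 3| ∧
      |-(deriv (Dr L) η) / Real.sqrt (1 - Dr L η ^ 2)| ≤ C / Real.sqrt lam := by
  obtain ⟨c, hc, hcG⟩ := one_sub_sq_ge hL
  obtain ⟨C1, hC1⟩ := Dr_deriv_bdd hL 1
  simp only [iteratedDeriv_one] at hC1
  have hC10 : 0 ≤ C1 := (abs_nonneg _).trans (hC1 0)
  refine ⟨c, C1 / Real.sqrt c, hc, by positivity, ?_⟩
  intro lam hlam hlam1 η hG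
  have hD1 := abs_le.1 (Dr_abs_le hL η)
  have hS : c * lam ≤ 1 - Dr L η ^ 2 :=
    (mul_le_mul_of_nonneg_left hG hc.le).trans (hcG η)
  have hS0 : 0 < 1 - Dr L η ^ 2 := lt_of_lt_of_le (by positivity) hS
  have hS1 : 1 - Dr L η ^ 2 ≤ 1 := by nlinarith [sq_nonneg (Dr L η)]
  have hsq0 : 0 < Real.sqrt (1 - Dr L η ^ 2) := Real.sqrt_pos.2 hS0
  have hsq1 : Real.sqrt (1 - Dr L η ^ 2) ≤ 1 := by
    rw [Real.sqrt_le_one]
    exact hS1
  have hsqsq : Real.sqrt (1 - Dr L η ^ 2) ^ 2 = 1 - Dr L η ^ 2 := Real.sq_sqrt hS0.le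
  have hcd := Dr_contDiff hL
  have hd1 : Differentiable ℝ (Dr L) := hcd.differentiable (by simp)
  have hcd' : ContDiff ℝ (⊤ : ℕ∞) (deriv (Dr L)) := by
    exact (contDiff_infty_iff_deriv.1 hcd).2
  have hd2 : Differentiable ℝ (deriv (Dr L)) := hcd'.differentiable (by simp)
  have hDη : HasDerivAt (Dr L) (deriv (Dr L) η) η := (hd1 η).hasDerivAt
  have hDη' : HasDerivAt (deriv (Dr L)) (deriv (deriv (Dr L)) η) η := (hd2 η).hasDerivAt
  have hne1 : Dr L η ≠ -1 := by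
    intro h
    rw [h] at hS0
    norm_num at hS0
  have hne2 : Dr L η ≠ 1 := by
    intro h
    rw [h] at hS0
    norm_num at hS0
  refine ⟨hS, Real.sin_arccos _, Real.cos_arccos hD1.1 hD1.2, ?_, ?_, ?_, ?_⟩
  · have h := (Real.hasDerivAt_arccos hne1 hne2).comp η hDη
    refine h.congr_deriv ?_
    ring
  · have h1 : HasDerivAt (fun y => 1 - Dr L y ^ 2) (-(2 * Dr L η * deriv (Dr L) η)) η := by
      have := (hDη.pow 2).const_sub 1
      refine this.congr_deriv ?_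
      simp
    have h2 := h1.sqrt hS0.ne'
    have h3 := hDη'.neg.div h2 hsq0.ne'
    refine (h3.congr_deriv ?_)
    simp only [Pi.neg_apply]
    unfold G
    have e3 : Real.sqrt (1 - Dr L η ^ 2) ^ 3 =
        (1 - Dr L η ^ 2) * Real.sqrt (1 - Dr L η ^ 2) := by
      calc Real.sqrt (1 - Dr L η ^ 2) ^ 3 =
            Real.sqrt (1 - Dr L η ^ 2) ^ 2 * Real.sqrt (1 - Dr L η ^ 2) := by ring
        _ = _ := by rw [hsqsq]
    rw [e3, hsqsq]
    rw [div_eq_div_iff hS0.ne' (by positivity)]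
    have e4 : deriv (Dr L) η * (-(2 * Dr L η * deriv (Dr L) η) /
        (2 * Real.sqrt (1 - Dr L η ^ 2))) * Real.sqrt (1 - Dr L η ^ 2) =
        -(Dr L η * deriv (Dr L) η ^ 2) := by
      field_simp
    have e5 : Real.sqrt (1 - Dr L η ^ 2) * Real.sqrt (1 - Dr L η ^ 2) = 1 - Dr L η ^ 2 :=
      Real.mul_self_sqrt hS0.le
    linear_combination (1 - Dr L η ^ 2) * e4 - (1 - Dr L η ^ 2) * deriv (deriv (Dr L)) η * e5
  · rw [abs_div, abs_neg, abs_of_pos (by positivity : 0 < Real.sqrt (1 - Dr L η ^ 2) ^ 3)]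
    refine hG.trans ?_
    rw [le_div_iff₀ (by positivity)]
    have : Real.sqrt (1 - Dr L η ^ 2) ^ 3 ≤ 1 := pow_le_one₀ hsq0.le hsq1
    nlinarith [abs_nonneg (G L η)]
  · rw [abs_div, abs_neg, abs_of_pos hsq0, div_div]
    have h1 : Real.sqrt c * Real.sqrt lam ≤ Real.sqrt (1 - Dr L η ^ 2) := by
      rw [← Real.sqrt_mul hc.le]
      exact Real.sqrt_le_sqrt hS
    have h2 : 0 < Real.sqrt c * Real.sqrt lam :=
      mul_pos (Real.sqrt_pos.2 hc) (Real.sqrt_pos.2 hlam)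
    exact div_le_div₀ hC10 (hC1 η) h2 h1

end Pool.Agent.H5.DF
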