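import Pool.Agent.H5.DF.Defs

set_option autoImplicit false
open MeasureTheory Set Filter Topology
open scoped ENNReal NNReal FourierTransform

namespace Pool.Agent.H5.DF

/-!
Part VDC. Van der Corput's second derivative test with amplitude.
Paper proof: `φ''` is continuous and nonvanishing, so of constant sign; `φ'` is strictly monotone.
`{|φ'| < ρ}` is an interval of length `≤ 2ρ/lam`; on the at most two remaining intervals integrate by
parts: `∫ e^{iφ} = [e^{iφ}/(iφ')] - ∫ e^{iφ} (1/(iφ'))'`, `∫ |(1/φ')'| = |[1/φ']| ≤ 1/ρ`: total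
`≤ 2ρ/lam + 6/ρ`, `ρ = sqrt lam`: `≤ 8/sqrt lam`.  Amplitude: `∫ e^{iφ} b = [b Ψ] - ∫ b' Ψ`,
`Ψ(x) = ∫_u^x e^{iφ}`.
-/

lemma vdc_sign {f : ℝ → ℝ} {u v κ : ℝ} (hc : ContinuousOn f (Icc u v)) (hκ : 0 < κ)
    (h : ∀ x ∈ Icc u v, κ ≤ |f x|) :
    (∀ x ∈ Icc u v, κ ≤ f x) ∨ (∀ x ∈ Icc u v, f x ≤ -κ) := by
  by_contra hcon
  rw [not_or] at hcon
  obtain ⟨hc1, hc2⟩ := hcon
  push Not at hc1 hc2
  obtain ⟨x, hx, hx1⟩ := hc1
  obtain ⟨y, hy, hy1⟩ := hc2
  have hx2 : f x ≤ -κ := by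
    rcases le_abs'.mp (h x hx) with h1 | h1
    · exact h1
    · linarith
  have hy2 : κ ≤ f y := by
    rcases le_abs'.mp (h y hy) with h1 | h1
    · linarith
    · exact h1
  have h1 := (isPreconnected_Icc (a := u) (b := v)).intermediate_value hx hy hc
  obtain ⟨z, hz, hz0⟩ := h1 (show (0 : ℝ) ∈ Icc (f x) (f y) from ⟨by linarith, by linarith⟩)
  have h2 := h z hz
  rw [hz0, abs_zero] at h2
  linarith

lemma vdc_incr {f f' : ℝ → ℝ} {u v κ : ℝ} (hd : ∀ x ∈ Icc u v, HasDerivAt f (f' x) x)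
    (hf : ∀ x ∈ Icc u v, κ ≤ f' x) {x y : ℝ} (hx : x ∈ Icc u v) (hy : y ∈ Icc u v)
    (hxy : x ≤ y) : κ * (y - x) ≤ f y - f x := by
  rcases eq_or_lt_of_le hxy with h0 | h0
  · rw [h0]; simp
  · obtain ⟨c, hc, hc'⟩ := exists_hasDerivAt_eq_slope f f' h0
      (fun t ht => (hd t ⟨hx.1.trans ht.1, ht.2.trans hy.2⟩).continuousAt.continuousWithinAt)
      (fun t ht => hd t ⟨hx.1.trans ht.1.le, ht.2.le.trans hy.2⟩)
    have h1 := hf c ⟨hx.1.trans hc.1.le, hc.2.le.trans hy.2⟩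
    rw [hc', le_div_iff₀ (by linarith)] at h1
    exact h1

lemma vdc_split_pos {f f' : ℝ → ℝ} {u v κ ρ : ℝ} (huv : u ≤ v) (hκ : 0 < κ) (hρ : 0 < ρ)
    (hd : ∀ x ∈ Icc u v, HasDerivAt f (f' x) x) (hf : ∀ x ∈ Icc u v, κ ≤ f' x) :
    ∃ p q, u ≤ p ∧ p ≤ q ∧ q ≤ v ∧ q - p ≤ 2 * ρ / κ ∧
      (u < p → ∀ x ∈ Icc u p, ρ ≤ |f x|) ∧ (q < v → ∀ x ∈ Icc q v, ρ ≤ |f x|) := by
  have hmono : ∀ x ∈ Icc u v, ∀ y ∈ Icc u v, x ≤ y → f x ≤ f y := by
    intro x hx y hy hxy
    have := vdc_incr hd hf hx hy hxy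
    have h2 : 0 ≤ κ * (y - x) := mul_nonneg hκ.le (by linarith)
    linarith
  have hcont : ContinuousOn f (Icc u v) := fun t ht => (hd t ht).continuousAt.continuousWithinAt
  have hu : u ∈ Icc u v := ⟨le_rfl, huv⟩
  have hv : v ∈ Icc u v := ⟨huv, le_rfl⟩
  by_cases c1 : f v ≤ -ρ
  · refine ⟨v, v, huv, le_rfl, le_rfl, ?_, ?_, ?_⟩
    · rw [sub_self]; positivity
    · intro _ x hx
      have := hmono x hx v hv hx.2
      rw [le_abs']
      left; linarith
    · intro h; exact absurd h (lt_irrefl _)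
  by_cases c2 : ρ ≤ f u
  · refine ⟨u, u, le_rfl, le_rfl, huv, ?_, ?_, ?_⟩
    · rw [sub_self]; positivity
    · intro h; exact absurd h (lt_irrefl _)
    · intro _ x hx
      have := hmono u hu x hx hx.1
      rw [le_abs']
      right; linarith
  push Not at c1 c2
  obtain ⟨p, hp, hp1, hp2⟩ : ∃ p ∈ Icc u v, -ρ ≤ f p ∧ (u < p → f p = -ρ) := by
    by_cases c3 : -ρ ≤ f u
    · exact ⟨u, hu, c3, fun h => absurd h (lt_irrefl _)⟩
    · push Not at c3
      obtain ⟨p, hp, hp1⟩ := intermediate_value_Icc huv hcont ⟨c3.le, c1.le⟩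
      exact ⟨p, hp, by rw [hp1], fun _ => hp1⟩
  obtain ⟨q, hq, hq1, hq2⟩ : ∃ q ∈ Icc u v, f q ≤ ρ ∧ (q < v → f q = ρ) := by
    by_cases c3 : f v ≤ ρ
    · exact ⟨v, hv, c3, fun h => absurd h (lt_irrefl _)⟩
    · push Not at c3
      obtain ⟨q, hq, hq1⟩ := intermediate_value_Icc huv hcont ⟨c2.le, c3.le⟩
      exact ⟨q, hq, by rw [hq1], fun _ => hq1⟩
  have hpq : p ≤ q := by
    by_contra hcon
    push Not at hcon
    have h1 := hp2 (lt_of_le_of_lt hq.1 hcon)
    have h2 := hq2 (lt_of_lt_of_le hcon hp.2)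
    have h3 := hmono q hq p hp hcon.le
    linarith
  refine ⟨p, q, hp.1, hpq, hq.2, ?_, ?_, ?_⟩
  · have := vdc_incr hd hf hp hq hpq
    rw [le_div_iff₀ hκ]
    linarith
  · intro h x hx
    have h1 := hp2 h
    have h2 := hmono x ⟨hx.1, hx.2.trans hp.2⟩ p hp hx.2
    rw [le_abs']
    left; linarith
  · intro h x hx
    have h1 := hq2 h
    have h2 := hmono q hq x ⟨hq.1.trans hx.1, hx.2⟩ hx.1
    rw [le_abs']
    right; linarith

/-- the set where a function with derivative `≥ κ` in absolute value is small -/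
lemma vdc_split {f f' : ℝ → ℝ} {u v κ ρ : ℝ} (huv : u ≤ v) (hκ : 0 < κ) (hρ : 0 < ρ)
    (hd : ∀ x ∈ Icc u v, HasDerivAt f (f' x) x)
    (hf : (∀ x ∈ Icc u v, κ ≤ f' x) ∨ (∀ x ∈ Icc u v, f' x ≤ -κ)) :
    ∃ p q, u ≤ p ∧ p ≤ q ∧ q ≤ v ∧ q - p ≤ 2 * ρ / κ ∧
      (u < p → ∀ x ∈ Icc u p, ρ ≤ |f x|) ∧ (q < v → ∀ x ∈ Icc q v, ρ ≤ |f x|) := by
  rcases hf with hf | hf
  · exact vdc_split_pos huv hκ hρ hd hf
  · obtain ⟨p, q, h1, h2, h3, h4, h5, h6⟩ := vdc_split_pos (f := fun x => -f x)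
      (f' := fun x => -f' x) huv hκ hρ (fun x hx => (hd x hx).neg)
      (fun x hx => by have := hf x hx; linarith)
    refine ⟨p, q, h1, h2, h3, h4, ?_, ?_⟩
    · intro h x hx
      have := h5 h x hx
      rwa [abs_neg] at this
    · intro h x hx
      have := h6 h x hx
      rwa [abs_neg] at this

lemma vdc_piece {a b ρ s : ℝ} (hab : a ≤ b) (hρ : 0 < ρ) (hs : s = 1 ∨ s = -1)
    {φ φ' φ'' : ℝ → ℝ} (h1 : ∀ x ∈ Icc a b, HasDerivAt φ (φ' x) x)
    (h2 : ∀ x ∈ Icc a b, HasDerivAt φ' (φ'' x) x) (h3 : ContinuousOn φ'' (Icc a b))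
    (h4 : ∀ x ∈ Icc a b, 0 ≤ s * φ'' x) (h5 : ∀ x ∈ Icc a b, ρ ≤ |φ' x|) :
    ‖∫ x in a..b, Complex.exp (Complex.I * φ x)‖ ≤ 4 / ρ := by
  have hne : ∀ x ∈ Icc a b, φ' x ≠ 0 := by
    intro x hx h0
    have := h5 x hx
    rw [h0, abs_zero] at this
    linarith
  have hu : uIcc a b = Icc a b := uIcc_of_le hab
  have hφc : ContinuousOn φ (Icc a b) := fun t ht => (h1 t ht).continuousAt.continuousWithinAt
  have hφ'c : ContinuousOn φ' (Icc a b) := fun t ht => (h2 t ht).continuousAt.continuousWithinAt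
  have hIne : ∀ x ∈ Icc a b, Complex.I * (φ' x : ℂ) ≠ 0 := fun x hx =>
    mul_ne_zero Complex.I_ne_zero (Complex.ofReal_ne_zero.mpr (hne x hx))
  have hφcC : ContinuousOn (fun x => (φ x : ℂ)) (Icc a b) :=
    Complex.continuous_ofReal.comp_continuousOn hφc
  have hφ'cC : ContinuousOn (fun x => (φ' x : ℂ)) (Icc a b) :=
    Complex.continuous_ofReal.comp_continuousOn hφ'c
  have hφ''cC : ContinuousOn (fun x => (φ'' x : ℂ)) (Icc a b) :=
    Complex.continuous_ofReal.comp_continuousOn h3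
  have hU : ∀ x ∈ Icc a b, HasDerivAt (fun x => Complex.exp (Complex.I * φ x))
      (Complex.exp (Complex.I * φ x) * (Complex.I * φ' x)) x := by
    intro x hx
    exact (((h1 x hx).ofReal_comp).const_mul Complex.I).cexp
  have hW : ∀ x ∈ Icc a b, HasDerivAt (fun x => (Complex.I * (φ' x : ℂ))⁻¹)
      (-(Complex.I * φ'' x) / (Complex.I * φ' x) ^ 2) x := by
    intro x hx
    exact (((h2 x hx).ofReal_comp).const_mul Complex.I).inv (hIne x hx)
  have hU'i : IntervalIntegrable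
      (fun x => Complex.exp (Complex.I * φ x) * (Complex.I * φ' x)) volume a b := by
    apply ContinuousOn.intervalIntegrable
    rw [hu]
    exact (Complex.continuous_exp.comp_continuousOn (continuousOn_const.mul hφcC)).mul
      (continuousOn_const.mul hφ'cC)
  have hW'i : IntervalIntegrable
      (fun x => -(Complex.I * φ'' x) / (Complex.I * (φ' x : ℂ)) ^ 2) volume a b := by
    apply ContinuousOn.intervalIntegrable
    rw [hu]
    exact ((continuousOn_const.mul hφ''cC).neg).div ((continuousOn_const.mul hφ'cC).pow 2)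
      (fun x hx => pow_ne_zero 2 (hIne x hx))
  have hparts := intervalIntegral.integral_mul_deriv_eq_deriv_mul (a := a) (b := b)
    (u := fun x => (Complex.I * (φ' x : ℂ))⁻¹) (v := fun x => Complex.exp (Complex.I * φ x))
    (fun x hx => hW x (hu ▸ hx)) (fun x hx => hU x (hu ▸ hx)) hW'i hU'i
  have hlhs : ∫ x in a..b, Complex.exp (Complex.I * φ x) =
      ∫ x in a..b, (Complex.I * (φ' x : ℂ))⁻¹ *
        (Complex.exp (Complex.I * φ x) * (Complex.I * φ' x)) := by
    apply intervalIntegral.integral_congr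
    intro x hx
    rw [hu] at hx
    have := hIne x hx
    change _ = (Complex.I * (φ' x : ℂ))⁻¹ *
        (Complex.exp (Complex.I * φ x) * (Complex.I * φ' x))
    rw [mul_comm (Complex.exp _), ← mul_assoc, inv_mul_cancel₀ this, one_mul]
  have hexp : ∀ x : ℝ, ‖Complex.exp (Complex.I * (x : ℂ))‖ = 1 := by
    intro x
    rw [mul_comm]
    exact Complex.norm_exp_ofReal_mul_I x
  have hWn : ∀ x ∈ Icc a b, ‖(Complex.I * (φ' x : ℂ))⁻¹‖ ≤ 1 / ρ := by
    intro x hx
    rw [norm_inv, norm_mul, Complex.norm_I, one_mul, Complex.norm_real, Real.norm_eq_abs,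
      ← one_div]
    exact one_div_le_one_div_of_le hρ (h5 x hx)
  have hinvn : ∀ x ∈ Icc a b, |(φ' x)⁻¹| ≤ 1 / ρ := by
    intro x hx
    rw [abs_inv, ← one_div]
    exact one_div_le_one_div_of_le hρ (h5 x hx)
  have hab1 : a ∈ Icc a b := ⟨le_rfl, hab⟩
  have hab2 : b ∈ Icc a b := ⟨hab, le_rfl⟩
  have hint : ‖∫ x in a..b, (-(Complex.I * φ'' x) / (Complex.I * (φ' x : ℂ)) ^ 2) *
      Complex.exp (Complex.I * φ x)‖ ≤ 2 / ρ := by
    have e1 : ∀ x ∈ Icc a b, ‖(-(Complex.I * φ'' x) / (Complex.I * (φ' x : ℂ)) ^ 2) *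
        Complex.exp (Complex.I * φ x)‖ = -s * (-φ'' x / φ' x ^ 2) := by
      intro x hx
      have h6 : |φ'' x| = s * φ'' x := by
        rcases hs with hs | hs
        · have := h4 x hx
          rw [hs, one_mul] at this ⊢
          exact abs_of_nonneg this
        · have := h4 x hx
          rw [hs] at this ⊢
          rw [abs_of_nonpos (by linarith)]
          ring
      rw [norm_mul, hexp, mul_one, norm_div, norm_neg, norm_mul, norm_pow, norm_mul,
        Complex.norm_I, one_mul, one_mul, Complex.norm_real, Complex.norm_real,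
        Real.norm_eq_abs, Real.norm_eq_abs, h6, sq_abs]
      ring
    calc _ ≤ ∫ x in a..b, ‖(-(Complex.I * φ'' x) / (Complex.I * (φ' x : ℂ)) ^ 2) *
        Complex.exp (Complex.I * φ x)‖ := intervalIntegral.norm_integral_le_integral_norm hab
      _ = ∫ x in a..b, -s * (-φ'' x / φ' x ^ 2) := by
        apply intervalIntegral.integral_congr
        intro x hx
        rw [hu] at hx
        exact e1 x hx
      _ = -s * (φ' b)⁻¹ - -s * (φ' a)⁻¹ := by
        apply intervalIntegral.integral_eq_sub_of_hasDerivAt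
          (f := fun x => -s * (φ' x)⁻¹)
        · intro x hx
          rw [hu] at hx
          exact ((h2 x hx).inv (hne x hx)).const_mul (-s)
        · apply ContinuousOn.intervalIntegrable
          rw [hu]
          exact continuousOn_const.mul ((h3.neg).div (hφ'c.pow 2)
            (fun x hx => pow_ne_zero 2 (hne x hx)))
      _ ≤ 2 / ρ := by
        have k1 := abs_le.mp (hinvn a hab1)
        have k2 := abs_le.mp (hinvn b hab2)
        have k3 : 2 / ρ = 1 / ρ + 1 / ρ := by ring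
        rw [k3]
        rcases hs with hs | hs <;> rw [hs] <;> linarith [k1.1, k1.2, k2.1, k2.2]
  rw [hlhs, hparts]
  have k4 : 4 / ρ = 1 / ρ * 1 + 1 / ρ * 1 + 2 / ρ := by ring
  rw [k4]
  refine (norm_sub_le _ _).trans (add_le_add ((norm_sub_le _ _).trans (add_le_add ?_ ?_)) hint)
  · rw [norm_mul, hexp]
    exact mul_le_mul_of_nonneg_right (hWn b hab2) zero_le_one
  · rw [norm_mul, hexp]
    exact mul_le_mul_of_nonneg_right (hWn a hab1) zero_le_one

lemma vdc_noamp {u v lam : ℝ} (huv : u ≤ v) (hlam : 0 < lam)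
    {φ φ' φ'' : ℝ → ℝ} (h1 : ∀ x ∈ Icc u v, HasDerivAt φ (φ' x) x)
    (h2 : ∀ x ∈ Icc u v, HasDerivAt φ' (φ'' x) x) (h3 : ContinuousOn φ'' (Icc u v))
    (h4 : ∀ x ∈ Icc u v, lam ≤ |φ'' x|) :
    ‖∫ x in u..v, Complex.exp (Complex.I * φ x)‖ ≤ 10 / Real.sqrt lam := by
  have hsq : 0 < Real.sqrt lam := Real.sqrt_pos.mpr hlam
  have hsign := vdc_sign h3 hlam h4
  obtain ⟨p, q, hp, hpq, hq, hlen, hP, hQ⟩ := vdc_split huv hlam hsq h2 hsign
  obtain ⟨s, hs, hs4⟩ : ∃ s : ℝ, (s = 1 ∨ s = -1) ∧ ∀ x ∈ Icc u v, 0 ≤ s * φ'' x := by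
    rcases hsign with h | h
    · exact ⟨1, Or.inl rfl, fun x hx => by have := h x hx; linarith⟩
    · exact ⟨-1, Or.inr rfl, fun x hx => by have := h x hx; linarith⟩
  have hexp : ∀ x : ℝ, ‖Complex.exp (Complex.I * (x : ℂ))‖ = 1 := by
    intro x
    rw [mul_comm]
    exact Complex.norm_exp_ofReal_mul_I x
  have hc : ContinuousOn (fun x => Complex.exp (Complex.I * φ x)) (Icc u v) := by
    apply Complex.continuous_exp.comp_continuousOn
    apply continuousOn_const.mul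
    exact Complex.continuous_ofReal.comp_continuousOn
      (fun t ht => (h1 t ht).continuousAt.continuousWithinAt)
  have hint : ∀ a b, u ≤ a → a ≤ b → b ≤ v →
      IntervalIntegrable (fun x => Complex.exp (Complex.I * φ x)) volume a b := by
    intro a b ha hab hb
    apply ContinuousOn.intervalIntegrable
    rw [uIcc_of_le hab]
    exact hc.mono (Icc_subset_Icc ha hb)
  have hI1 := hint u p le_rfl hp (hpq.trans hq)
  have hI2 := hint p q hp hpq hq
  have hI3 := hint q v (hp.trans hpq) hq le_rfl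
  rw [← intervalIntegral.integral_add_adjacent_intervals (hI1.trans hI2) hI3,
    ← intervalIntegral.integral_add_adjacent_intervals hI1 hI2]
  have b2 : ‖∫ x in p..q, Complex.exp (Complex.I * φ x)‖ ≤ 2 * Real.sqrt lam / lam := by
    have := intervalIntegral.norm_integral_le_of_norm_le_const (a := p) (b := q)
      (f := fun x => Complex.exp (Complex.I * φ x)) (C := 1) (fun x _ => (hexp _).le)
    rw [one_mul, abs_of_nonneg (by linarith)] at this
    exact this.trans hlen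
  have b1 : ‖∫ x in u..p, Complex.exp (Complex.I * φ x)‖ ≤ 4 / Real.sqrt lam := by
    rcases eq_or_lt_of_le hp with h0 | h0
    · rw [← h0, intervalIntegral.integral_same, norm_zero]; positivity
    · have hsub : ∀ x ∈ Icc u p, x ∈ Icc u v := fun x hx => ⟨hx.1, hx.2.trans (hpq.trans hq)⟩
      exact vdc_piece hp hsq hs (fun x hx => h1 x (hsub x hx)) (fun x hx => h2 x (hsub x hx))
        (h3.mono hsub) (fun x hx => hs4 x (hsub x hx)) (hP h0)
  have b3 : ‖∫ x in q..v, Complex.exp (Complex.I * φ x)‖ ≤ 4 / Real.sqrt lam := by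
    rcases eq_or_lt_of_le hq with h0 | h0
    · rw [h0, intervalIntegral.integral_same, norm_zero]; positivity
    · have hsub : ∀ x ∈ Icc q v, x ∈ Icc u v := fun x hx => ⟨(hp.trans hpq).trans hx.1, hx.2⟩
      exact vdc_piece hq hsq hs (fun x hx => h1 x (hsub x hx)) (fun x hx => h2 x (hsub x hx))
        (h3.mono hsub) (fun x hx => hs4 x (hsub x hx)) (hQ h0)
  have e2 : 2 * Real.sqrt lam / lam = 2 / Real.sqrt lam := by
    rw [div_eq_div_iff hlam.ne' hsq.ne']
    rw [mul_assoc, Real.mul_self_sqrt hlam.le]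
  rw [e2] at b2
  have e3 : 10 / Real.sqrt lam = 4 / Real.sqrt lam + 2 / Real.sqrt lam + 4 / Real.sqrt lam := by
    ring
  rw [e3]
  exact (norm_add_le _ _).trans (add_le_add ((norm_add_le _ _).trans (add_le_add b1 b2)) b3)

theorem vdc {u v lam B B' : ℝ} (huv : u ≤ v) (huv1 : v ≤ u + 1) (hlam : 0 < lam)
    {φ φ' φ'' : ℝ → ℝ} (h1 : ∀ x ∈ Icc u v, HasDerivAt φ (φ' x) x)
    (h2 : ∀ x ∈ Icc u v, HasDerivAt φ' (φ'' x) x) (h3 : ContinuousOn φ'' (Icc u v))
    (h4 : ∀ x ∈ Icc u v, lam ≤ |φ'' x|) {b b' : ℝ → ℂ}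
    (hb : ∀ x ∈ Icc u v, HasDerivAt b (b' x) x) (hb' : ContinuousOn b' (Icc u v))
    (hB : ∀ x ∈ Icc u v, ‖b x‖ ≤ B) (hB' : ∀ x ∈ Icc u v, ‖b' x‖ ≤ B') :
    ‖∫ x in u..v, Complex.exp (Complex.I * φ x) * b x‖ ≤ 16 / Real.sqrt lam * (B + B') := by
  have hsq : 0 < Real.sqrt lam := Real.sqrt_pos.mpr hlam
  have huI : u ∈ Icc u v := ⟨le_rfl, huv⟩
  have hvI : v ∈ Icc u v := ⟨huv, le_rfl⟩
  have hB0 : 0 ≤ B := (norm_nonneg _).trans (hB u huI)
  have hB'0 : 0 ≤ B' := (norm_nonneg _).trans (hB' u huI)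
  have hui : uIcc u v = Icc u v := uIcc_of_le huv
  have hc : ContinuousOn (fun x => Complex.exp (Complex.I * φ x)) (Icc u v) := by
    apply Complex.continuous_exp.comp_continuousOn
    apply continuousOn_const.mul
    exact Complex.continuous_ofReal.comp_continuousOn
      (fun t ht => (h1 t ht).continuousAt.continuousWithinAt)
  -- a continuous extension of the exponential
  set g : ℝ → ℂ := IccExtend huv ((Icc u v).restrict fun x => Complex.exp (Complex.I * φ x))
    with hg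
  have hgc : Continuous g := (continuousOn_iff_continuous_restrict.mp hc).Icc_extend'
  have hge : ∀ x ∈ Icc u v, g x = Complex.exp (Complex.I * φ x) := by
    intro x hx
    rw [hg, IccExtend_of_mem huv _ hx]
    rfl
  set Ψ : ℝ → ℂ := fun x => ∫ y in u..x, g y with hΨ
  have hΨd : ∀ x, HasDerivAt Ψ (g x) x := by
    intro x
    exact intervalIntegral.integral_hasDerivAt_right (hgc.intervalIntegrable _ _)
      (hgc.stronglyMeasurableAtFilter _ _) hgc.continuousAt
  have hΨb : ∀ x ∈ Icc u v, ‖Ψ x‖ ≤ 10 / Real.sqrt lam := by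
    intro x hx
    have e1 : Ψ x = ∫ y in u..x, Complex.exp (Complex.I * φ y) := by
      apply intervalIntegral.integral_congr
      intro y hy
      rw [uIcc_of_le hx.1] at hy
      exact hge y ⟨hy.1, hy.2.trans hx.2⟩
    rw [e1]
    have hsub : ∀ y ∈ Icc u x, y ∈ Icc u v := fun y hy => ⟨hy.1, hy.2.trans hx.2⟩
    exact vdc_noamp hx.1 hlam (fun y hy => h1 y (hsub y hy)) (fun y hy => h2 y (hsub y hy))
      (h3.mono hsub) (fun y hy => h4 y (hsub y hy))
  have hparts := intervalIntegral.integral_mul_deriv_eq_deriv_mul (a := u) (b := v)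
    (u := b) (v := Ψ) (u' := b') (v' := g) (fun x hx => hb x (hui ▸ hx)) (fun x _ => hΨd x)
    (ContinuousOn.intervalIntegrable (by rw [hui]; exact hb')) (hgc.intervalIntegrable _ _)
  have hl : ∫ x in u..v, Complex.exp (Complex.I * φ x) * b x = ∫ x in u..v, b x * g x := by
    apply intervalIntegral.integral_congr
    intro x hx
    rw [hui] at hx
    change Complex.exp (Complex.I * φ x) * b x = b x * g x
    rw [hge x hx, mul_comm]
  have hΨu : Ψ u = 0 := intervalIntegral.integral_same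
  rw [hl, hparts, hΨu, mul_zero, sub_zero]
  have k1 : ‖b v * Ψ v‖ ≤ B * (10 / Real.sqrt lam) := by
    rw [norm_mul]
    exact mul_le_mul (hB v hvI) (hΨb v hvI) (norm_nonneg _) hB0
  have k2 : ‖∫ x in u..v, b' x * Ψ x‖ ≤ B' * (10 / Real.sqrt lam) := by
    have := intervalIntegral.norm_integral_le_of_norm_le_const (a := u) (b := v)
      (f := fun x => b' x * Ψ x) (C := B' * (10 / Real.sqrt lam)) (by
        intro x hx
        rw [uIoc_of_le huv] at hx
        have hx' : x ∈ Icc u v := ⟨hx.1.le, hx.2⟩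
        rw [norm_mul]
        exact mul_le_mul (hB' x hx') (hΨb x hx') (norm_nonneg _) hB'0)
    refine this.trans ?_
    rw [abs_of_nonneg (by linarith)]
    have h0 : 0 ≤ B' * (10 / Real.sqrt lam) := by positivity
    nlinarith
  have k3 : 16 / Real.sqrt lam * (B + B') =
      B * (10 / Real.sqrt lam) + B' * (10 / Real.sqrt lam) +
        6 / Real.sqrt lam * (B + B') := by ring
  have k4 : 0 ≤ 6 / Real.sqrt lam * (B + B') := by positivity
  rw [k3]
  linarith [norm_sub_le (b v * Ψ v) (∫ x in u..v, b' x * Ψ x)]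

end Pool.Agent.H5.DF
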