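import Pool.Agent.H5.DF.Defs
import Pool.Agent.H5.DF.The
import Pool.Agent.H5.DF.Vdc
import Pool.Agent.H5.DF.Pow
import Pool.Agent.H5.DF.Ana
import Pool.Agent.H5.DF.Ana2
import Pool.Agent.H5.DF.AlgM

set_option autoImplicit false
open MeasureTheory Set Filter Topology
open scoped ENNReal NNReal FourierTransform

namespace Pool.Agent.H5.DF

/-!
Part WLO. The oscillatory integral on an interval where `|G| ≥ lam`.
With `θ = arccos D` (`theta_facts`), `M = mono L η`, `det M = 1`, `tr M = 2 cos θ` (`D_real`):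
`(M^n)_{ij} = e^{inθ} (M_{ij} - e^{-iθ}δ_{ij})/(2i sin θ) - e^{-inθ} (M_{ij} - e^{iθ}δ_{ij})/(2i sin θ)`
(`pow_formula_exp`).  Two applications of `vdc` with `φ = xη ± nθ`, `|φ''| = n|θ''| ≥ n lam` and
amplitudes `b± = a (M_{ij} - e^{∓iθ}δ_{ij})/(2i sin θ)`: `|b| ≤ B (c lam)^{-1/2}`,
`|b'| ≤ C B lam^{-3/2}` (`sin θ ≥ sqrt(c lam)`, `|θ'| ≤ C/sqrt lam`, `M'` bounded, `|M_{ij}| ≤ 1`), so the
integral is `≤ 2 · 16/sqrt(n lam) · C B lam^{-3/2}`.
-/

/-- amplitude -/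
noncomputable def wloAmp (L : List (ℝ × ℝ)) (s : ℝ) (i j : Fin 2) (η : ℝ) : ℂ :=
  (mono L (η : ℂ) i j - Complex.exp (-(Complex.I * ((s * Real.arccos (Dr L η) : ℝ) : ℂ))) *
    (1 : Mat) i j) / (2 * Complex.I * ((Real.sqrt (1 - Dr L η ^ 2) : ℝ) : ℂ))

/-- first derivative of `θ` -/
noncomputable def wloT (L : List (ℝ × ℝ)) (η : ℝ) : ℝ :=
  -(deriv (Dr L) η) / Real.sqrt (1 - Dr L η ^ 2)

/-- second derivative of `θ` -/
noncomputable def wloT2 (L : List (ℝ × ℝ)) (η : ℝ) : ℝ :=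
  -(G L η) / Real.sqrt (1 - Dr L η ^ 2) ^ 3

/-- derivative of the amplitude -/
noncomputable def wloAmp' (L : List (ℝ × ℝ)) (s : ℝ) (i j : Fin 2) (η : ℝ) : ℂ :=
  (deriv (fun η : ℝ => mono L (η : ℂ) i j) η -
      Complex.exp (-(Complex.I * ((s * Real.arccos (Dr L η) : ℝ) : ℂ))) *
        (-(Complex.I * ((s * wloT L η : ℝ) : ℂ))) * (1 : Mat) i j) /
      (2 * Complex.I * ((Real.sqrt (1 - Dr L η ^ 2) : ℝ) : ℂ)) -
    (mono L (η : ℂ) i j - Complex.exp (-(Complex.I * ((s * Real.arccos (Dr L η) : ℝ) : ℂ))) *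
      (1 : Mat) i j) * ((Dr L η * wloT L η : ℝ) : ℂ) /
      (2 * Complex.I * ((Real.sqrt (1 - Dr L η ^ 2) : ℝ) : ℂ) ^ 2)

theorem wlo_mono_hasDeriv {L : List (ℝ × ℝ)} (hL : Adm L) (i j : Fin 2) (η : ℝ) :
    HasDerivAt (fun η : ℝ => mono L (η : ℂ) i j) (deriv (fun η : ℝ => mono L (η : ℂ) i j) η) η :=
  (((mono_contDiff hL i j).differentiable (by simp)) η).hasDerivAt

theorem wlo_Dr_hasDeriv {L : List (ℝ × ℝ)} (hL : Adm L) (η : ℝ) :
    HasDerivAt (Dr L) (deriv (Dr L) η) η :=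
  (((Dr_contDiff hL).differentiable (by simp)) η).hasDerivAt

theorem wlo_amp_hasDeriv {L : List (ℝ × ℝ)} (hL : Adm L) (s : ℝ) (i j : Fin 2) {η : ℝ}
    (hpos : 0 < 1 - Dr L η ^ 2)
    (hθ : HasDerivAt (fun y => Real.arccos (Dr L y)) (wloT L η) η) :
    HasDerivAt (wloAmp L s i j) (wloAmp' L s i j η) η := by
  have hs : Real.sqrt (1 - Dr L η ^ 2) ≠ 0 := (Real.sqrt_pos.2 hpos).ne'
  have h1 : HasDerivAt (fun y : ℝ => Real.sqrt (1 - Dr L y ^ 2)) (Dr L η * wloT L η) η := by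
    have h2 := (((wlo_Dr_hasDeriv hL η).pow 2).const_sub 1).sqrt hpos.ne'
    refine HasDerivAt.congr_deriv (f := fun y : ℝ => Real.sqrt (1 - Dr L y ^ 2)) h2 ?_
    unfold wloT
    simp only [Nat.cast_ofNat, Nat.add_one_sub_one, pow_one, Pi.pow_apply]
    field_simp
  have h3 : HasDerivAt (fun y : ℝ => Complex.exp (-(Complex.I * ((s * Real.arccos (Dr L y) : ℝ) : ℂ))))
      (Complex.exp (-(Complex.I * ((s * Real.arccos (Dr L η) : ℝ) : ℂ))) *
        (-(Complex.I * ((s * wloT L η : ℝ) : ℂ)))) η :=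
    (((hθ.const_mul s).ofReal_comp.const_mul Complex.I).neg).cexp
  have hsc : ((Real.sqrt (1 - Dr L η ^ 2) : ℝ) : ℂ) ≠ 0 := by exact_mod_cast hs
  have h4 := ((wlo_mono_hasDeriv hL i j η).sub (h3.mul_const ((1 : Mat) i j))).div
    (h1.ofReal_comp.const_mul (2 * Complex.I)) (by
      simpa using hsc)
  refine HasDerivAt.congr_deriv (f := wloAmp L s i j) h4 ?_
  unfold wloAmp'
  have hI : Complex.I ≠ 0 := Complex.I_ne_zero
  simp only [Pi.sub_apply]
  field_simp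

theorem wlo_one_le (i j : Fin 2) : ‖((1 : Mat) i j)‖ ≤ 1 := by
  rw [Matrix.one_apply]
  split_ifs <;> simp

theorem wlo_num_le {L : List (ℝ × ℝ)} (hL : Adm L) (s : ℝ) (i j : Fin 2) (η : ℝ) :
    ‖mono L (η : ℂ) i j - Complex.exp (-(Complex.I * ((s * Real.arccos (Dr L η) : ℝ) : ℂ))) *
      (1 : Mat) i j‖ ≤ 2 := by
  have h1 := mono_entry_le hL η i j
  have h2 := wlo_one_le i j
  have h3 : ‖Complex.exp (-(Complex.I * ((s * Real.arccos (Dr L η) : ℝ) : ℂ)))‖ = 1 := by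
    rw [← mul_neg, ← Complex.ofReal_neg, mul_comm, Complex.norm_exp_ofReal_mul_I]
  refine (norm_sub_le _ _).trans ?_
  rw [norm_mul, h3]
  linarith

theorem wlo_amp_le {L : List (ℝ × ℝ)} (hL : Adm L) (s : ℝ) (i j : Fin 2) (η : ℝ) {w : ℝ}
    (hw : 0 < w) (hw' : w ≤ Real.sqrt (1 - Dr L η ^ 2)) :
    ‖wloAmp L s i j η‖ ≤ 1 / w := by
  unfold wloAmp
  rw [norm_div]
  have h1 := wlo_num_le hL s i j η
  have h2 : ‖2 * Complex.I * ((Real.sqrt (1 - Dr L η ^ 2) : ℝ) : ℂ)‖ =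
      2 * Real.sqrt (1 - Dr L η ^ 2) := by
    rw [norm_mul, norm_mul, Complex.norm_I, Complex.norm_real, Real.norm_of_nonneg (Real.sqrt_nonneg _)]
    simp
  rw [h2]
  have h3 : 0 < Real.sqrt (1 - Dr L η ^ 2) := lt_of_lt_of_le hw hw'
  rw [div_le_div_iff₀ (by positivity) hw]
  nlinarith [norm_nonneg (mono L (η : ℂ) i j -
    Complex.exp (-(Complex.I * ((s * Real.arccos (Dr L η) : ℝ) : ℂ))) * (1 : Mat) i j)]

theorem wlo_amp'_le {L : List (ℝ × ℝ)} (hL : Adm L) {s : ℝ} (hs : |s| = 1) (i j : Fin 2) (η : ℝ)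
    {w Cm Ct : ℝ} (hw : 0 < w) (hw' : w ≤ Real.sqrt (1 - Dr L η ^ 2))
    (hm : ‖deriv (fun η : ℝ => mono L (η : ℂ) i j) η‖ ≤ Cm) (ht : |wloT L η| ≤ Ct) :
    ‖wloAmp' L s i j η‖ ≤ (Cm + Ct) / w + Ct / w ^ 2 := by
  unfold wloAmp'
  have hq : 0 < Real.sqrt (1 - Dr L η ^ 2) := lt_of_lt_of_le hw hw'
  have hCt : 0 ≤ Ct := (abs_nonneg _).trans ht
  have hCm : 0 ≤ Cm := (norm_nonneg _).trans hm
  have h1 := wlo_num_le hL s i j η
  have h2 : ‖2 * Complex.I * ((Real.sqrt (1 - Dr L η ^ 2) : ℝ) : ℂ)‖ =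
      2 * Real.sqrt (1 - Dr L η ^ 2) := by
    rw [norm_mul, norm_mul, Complex.norm_I, Complex.norm_real, Real.norm_of_nonneg (Real.sqrt_nonneg _)]
    simp
  have h2' : ‖2 * Complex.I * ((Real.sqrt (1 - Dr L η ^ 2) : ℝ) : ℂ) ^ 2‖ =
      2 * Real.sqrt (1 - Dr L η ^ 2) ^ 2 := by
    rw [norm_mul, norm_mul, Complex.norm_I, norm_pow, Complex.norm_real,
      Real.norm_of_nonneg (Real.sqrt_nonneg _)]
    simp
  have h3 : ‖Complex.exp (-(Complex.I * ((s * Real.arccos (Dr L η) : ℝ) : ℂ)))‖ = 1 := by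
    rw [← mul_neg, ← Complex.ofReal_neg, mul_comm, Complex.norm_exp_ofReal_mul_I]
  have h4 : ‖-(Complex.I * ((s * wloT L η : ℝ) : ℂ))‖ ≤ Ct := by
    rw [norm_neg, norm_mul, Complex.norm_I, Complex.norm_real, Real.norm_eq_abs, abs_mul, hs]
    linarith
  have h5 : |Dr L η| ≤ 1 := Dr_abs_le hL η
  refine (norm_sub_le _ _).trans (add_le_add ?_ ?_)
  · rw [norm_div, h2]
    have h6 : ‖deriv (fun η : ℝ => mono L (η : ℂ) i j) η -
      Complex.exp (-(Complex.I * ((s * Real.arccos (Dr L η) : ℝ) : ℂ))) *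
        (-(Complex.I * ((s * wloT L η : ℝ) : ℂ))) * (1 : Mat) i j‖ ≤ Cm + Ct := by
      refine (norm_sub_le _ _).trans (add_le_add hm ?_)
      rw [norm_mul, norm_mul, h3, one_mul]
      calc _ ≤ Ct * 1 := mul_le_mul h4 (wlo_one_le i j) (norm_nonneg _) hCt
        _ = Ct := mul_one _
    rw [div_le_div_iff₀ (by positivity) hw]
    have : 0 ≤ Cm + Ct := by positivity
    calc _ ≤ (Cm + Ct) * Real.sqrt (1 - Dr L η ^ 2) := mul_le_mul h6 hw' hw.le this
      _ ≤ (Cm + Ct) * (2 * Real.sqrt (1 - Dr L η ^ 2)) := by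
          apply mul_le_mul_of_nonneg_left _ this
          linarith
  · rw [norm_div, h2', norm_mul, Complex.norm_real, Real.norm_eq_abs, abs_mul]
    rw [div_le_div_iff₀ (by positivity) (by positivity)]
    have h7 : |Dr L η| * |wloT L η| ≤ Ct := by
      calc _ ≤ 1 * Ct := mul_le_mul h5 ht (abs_nonneg _) zero_le_one
        _ = Ct := one_mul _
    have h8 : w ^ 2 ≤ Real.sqrt (1 - Dr L η ^ 2) ^ 2 := by gcongr
    calc _ ≤ (2 * Ct) * Real.sqrt (1 - Dr L η ^ 2) ^ 2 := by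
          apply mul_le_mul _ h8 (by positivity) (by positivity)
          exact mul_le_mul h1 h7 (by positivity) (by norm_num)
      _ = _ := by ring

theorem wlo_theta_cont {L : List (ℝ × ℝ)} (hL : Adm L) :
    Continuous (fun y => Real.arccos (Dr L y)) :=
  Real.continuous_arccos.comp (Dr_contDiff hL).continuous

theorem wlo_T_cont {L : List (ℝ × ℝ)} (hL : Adm L) {S : Set ℝ}
    (h : ∀ η ∈ S, 0 < 1 - Dr L η ^ 2) : ContinuousOn (wloT L) S := by
  have hc := (Dr_contDiff hL).continuous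
  have hd : Continuous (deriv (Dr L)) := (Dr_contDiff hL).continuous_deriv (by simp)
  unfold wloT
  refine ContinuousOn.div hd.neg.continuousOn ?_ fun η hη => (Real.sqrt_pos.2 (h η hη)).ne'
  exact (by fun_prop : Continuous fun η => Real.sqrt (1 - Dr L η ^ 2)).continuousOn

theorem wlo_T2_cont {L : List (ℝ × ℝ)} (hL : Adm L) {S : Set ℝ}
    (h : ∀ η ∈ S, 0 < 1 - Dr L η ^ 2) : ContinuousOn (wloT2 L) S := by
  have hc := (Dr_contDiff hL).continuous
  have hd : Continuous (G L) := (G_contDiff hL).continuous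
  unfold wloT2
  refine ContinuousOn.div hd.neg.continuousOn ?_ fun η hη =>
    (pow_pos (Real.sqrt_pos.2 (h η hη)) 3).ne'
  exact (by fun_prop : Continuous fun η => Real.sqrt (1 - Dr L η ^ 2) ^ 3).continuousOn

theorem wlo_amp'_cont {L : List (ℝ × ℝ)} (hL : Adm L) (s : ℝ) (i j : Fin 2) {S : Set ℝ}
    (h : ∀ η ∈ S, 0 < 1 - Dr L η ^ 2) : ContinuousOn (wloAmp' L s i j) S := by
  have hc := (Dr_contDiff hL).continuous
  have hm := (mono_contDiff hL i j).continuous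
  have hm' : Continuous (deriv (fun η : ℝ => mono L (η : ℂ) i j)) :=
    (mono_contDiff hL i j).continuous_deriv (by simp)
  have hth := wlo_theta_cont hL
  have hT := wlo_T_cont hL h
  have hT' : ContinuousOn (fun η => ((wloT L η : ℝ) : ℂ)) S :=
    Complex.continuous_ofReal.comp_continuousOn hT
  have hsq : Continuous fun η => ((Real.sqrt (1 - Dr L η ^ 2) : ℝ) : ℂ) := by fun_prop
  have hexp : Continuous fun η => Complex.exp (-(Complex.I *
      ((s * Real.arccos (Dr L η) : ℝ) : ℂ))) := by fun_prop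
  have hne : ∀ η ∈ S, ((Real.sqrt (1 - Dr L η ^ 2) : ℝ) : ℂ) ≠ 0 := fun η hη => by
    exact_mod_cast (Real.sqrt_pos.2 (h η hη)).ne'
  unfold wloAmp'
  refine ContinuousOn.sub (ContinuousOn.div ?_ ?_ ?_) (ContinuousOn.div ?_ ?_ ?_)
  · refine hm'.continuousOn.sub (ContinuousOn.mul (ContinuousOn.mul hexp.continuousOn ?_)
      continuousOn_const)
    refine (ContinuousOn.mul continuousOn_const ?_).neg
    refine Complex.continuous_ofReal.comp_continuousOn ?_
    exact continuousOn_const.mul hT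
  · exact (continuous_const.mul hsq).continuousOn
  · intro η hη
    simpa using hne η hη
  · refine ContinuousOn.mul (hm.sub (hexp.mul continuous_const)).continuousOn ?_
    refine Complex.continuous_ofReal.comp_continuousOn ?_
    exact hc.continuousOn.mul hT
  · exact (continuous_const.mul (hsq.pow 2)).continuousOn
  · intro η hη
    have := hne η hη
    simpa using this

theorem wlo_half {L : List (ℝ × ℝ)} (hL : Adm L) : ∃ K : ℝ, 0 ≤ K ∧
    ∀ (s : ℝ) (n : ℕ) (lam u v x B : ℝ) (a a' : ℝ → ℂ), |s| = 1 → 1 ≤ n → 0 < lam → lam ≤ 1 →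
      u ≤ v → v ≤ u + 1 →
      (∀ η ∈ Icc u v, lam ≤ |G L η|) → (∀ η : ℝ, HasDerivAt a (a' η) η) → Continuous a' →
      (∀ η ∈ Icc u v, ‖a η‖ ≤ B ∧ ‖a' η‖ ≤ B) → ∀ i j : Fin 2,
      ‖∫ η in u..v, Complex.exp (Complex.I * ((x * η + s * (n * Real.arccos (Dr L η)) : ℝ) : ℂ)) *
        (a η * wloAmp L s i j η)‖ ≤ K * B * (n : ℝ) ^ (-(1 / 2 : ℝ)) * lam ^ (-(2 : ℝ)) := by
  obtain ⟨c, Ct, hc, hCt, hth⟩ := theta_facts hL
  have hCm : ∃ Cm : ℝ, 0 ≤ Cm ∧ ∀ (η : ℝ) (i j : Fin 2),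
      ‖deriv (fun η : ℝ => mono L (η : ℂ) i j) η‖ ≤ Cm := by
    obtain ⟨C, h⟩ := mono_deriv_bdd hL 1
    refine ⟨C, (norm_nonneg _).trans (h 0 0 0), fun η i j => ?_⟩
    have := h η i j
    rwa [iteratedDeriv_one] at this
  obtain ⟨Cm, hCm0, hCm⟩ := hCm
  set sc := Real.sqrt c with hsc
  have hscpos : 0 < sc := Real.sqrt_pos.2 hc
  refine ⟨16 * (1 / sc + (1 / sc + ((Cm + Ct) / sc + Ct / c))), by positivity, ?_⟩
  intro s n lam u v x B a a' hs hn hlam hlam1 huv huv1 hG ha ha' hB i j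
  have hB0 : 0 ≤ B := (norm_nonneg _).trans (hB u ⟨le_rfl, huv⟩).1
  have hn0 : (0 : ℝ) < n := by exact_mod_cast hn
  set w := sc * Real.sqrt lam with hw
  have hslam : 0 < Real.sqrt lam := Real.sqrt_pos.2 hlam
  have hwpos : 0 < w := by positivity
  have hwle : ∀ η ∈ Icc u v, w ≤ Real.sqrt (1 - Dr L η ^ 2) := fun η hη => by
    rw [hw, hsc, ← Real.sqrt_mul hc.le]
    exact Real.sqrt_le_sqrt (hth lam hlam hlam1 η (hG η hη)).1
  have hpos : ∀ η ∈ Icc u v, 0 < 1 - Dr L η ^ 2 := fun η hη =>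
    lt_of_lt_of_le (by positivity) (hth lam hlam hlam1 η (hG η hη)).1
  have hT : ∀ η ∈ Icc u v, |wloT L η| ≤ Ct / Real.sqrt lam := fun η hη =>
    (hth lam hlam hlam1 η (hG η hη)).2.2.2.2.2.2
  have hderθ : ∀ η ∈ Icc u v, HasDerivAt (fun y => Real.arccos (Dr L y)) (wloT L η) η :=
    fun η hη => (hth lam hlam hlam1 η (hG η hη)).2.2.2.1
  have hderT : ∀ η ∈ Icc u v, HasDerivAt (wloT L) (wloT2 L η) η :=
    fun η hη => (hth lam hlam hlam1 η (hG η hη)).2.2.2.2.1
  have hT2 : ∀ η ∈ Icc u v, lam ≤ |wloT2 L η| :=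
    fun η hη => (hth lam hlam hlam1 η (hG η hη)).2.2.2.2.2.1
  have key := vdc (u := u) (v := v) (lam := n * lam) (B := B * (1 / w))
    (B' := B * (1 / w) + B * ((Cm + Ct / Real.sqrt lam) / w + Ct / Real.sqrt lam / w ^ 2))
    huv huv1 (by positivity)
    (φ := fun η => x * η + s * (n * Real.arccos (Dr L η)))
    (φ' := fun η => x + s * (n * wloT L η)) (φ'' := fun η => s * (n * wloT2 L η))
    (fun η hη => by
      have := ((hasDerivAt_id η).const_mul x).add (((hderθ η hη).const_mul (n : ℝ)).const_mul s)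
      refine HasDerivAt.congr_deriv
        (f := fun η => x * η + s * (n * Real.arccos (Dr L η))) this ?_
      ring)
    (fun η hη => by
      exact (((hderT η hη).const_mul (n : ℝ)).const_mul s).const_add x)
    (continuousOn_const.mul (continuousOn_const.mul (wlo_T2_cont hL hpos)))
    (fun η hη => by
      rw [abs_mul, hs, one_mul, abs_mul, abs_of_pos hn0]
      exact mul_le_mul_of_nonneg_left (hT2 η hη) hn0.le)
    (b := fun η => a η * wloAmp L s i j η)
    (b' := fun η => a' η * wloAmp L s i j η + a η * wloAmp' L s i j η)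
    (fun η hη => (ha η).mul (wlo_amp_hasDeriv hL s i j (hpos η hη) (hderθ η hη)))
    (by
      have h1 : ContinuousOn (wloAmp L s i j) (Icc u v) := fun η hη =>
        (wlo_amp_hasDeriv hL s i j (hpos η hη) (hderθ η hη)).continuousAt.continuousWithinAt
      have h2 : Continuous a := continuous_iff_continuousAt.2 fun η => (ha η).continuousAt
      exact (ha'.continuousOn.mul h1).add (h2.continuousOn.mul (wlo_amp'_cont hL s i j hpos)))
    (fun η hη => by
      rw [norm_mul]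
      exact mul_le_mul (hB η hη).1 (wlo_amp_le hL s i j η hwpos (hwle η hη)) (norm_nonneg _) hB0)
    (fun η hη => by
      refine (norm_add_le _ _).trans (add_le_add ?_ ?_)
      · rw [norm_mul]
        exact mul_le_mul (hB η hη).2 (wlo_amp_le hL s i j η hwpos (hwle η hη)) (norm_nonneg _) hB0
      · rw [norm_mul]
        exact mul_le_mul (hB η hη).1
          (wlo_amp'_le hL hs i j η hwpos (hwle η hη) (hCm η i j) (hT η hη)) (norm_nonneg _) hB0)
  refine key.trans ?_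
  -- numerical estimates
  have e1 : Real.sqrt (n * lam) = Real.sqrt n * Real.sqrt lam := Real.sqrt_mul hn0.le _
  have e2 : (n : ℝ) ^ (-(1 / 2 : ℝ)) = 1 / Real.sqrt n := by
    rw [Real.rpow_neg hn0.le, Real.sqrt_eq_rpow, one_div ((n : ℝ) ^ (1 / 2 : ℝ))]
  have e3 : lam ^ (-(2 : ℝ)) = 1 / Real.sqrt lam ^ 4 := by
    rw [Real.rpow_neg hlam.le, one_div]
    congr 1
    have : Real.sqrt lam ^ 4 = (Real.sqrt lam ^ 2) ^ 2 := by ring
    rw [this, Real.sq_sqrt hlam.le]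
    norm_num
  have hq1 : Real.sqrt lam ≤ 1 := by
    rw [Real.sqrt_le_left zero_le_one]
    simpa using hlam1
  rw [e1, e2, e3]
  set q := Real.sqrt lam with hq
  have hc2 : sc ^ 2 = c := Real.sq_sqrt hc.le
  have hsn : 0 < Real.sqrt n := Real.sqrt_pos.2 hn0
  -- q ≤ 1
  have b1 : 1 / w ≤ 1 / sc / q ^ 3 := by
    rw [hw, div_div, div_le_div_iff₀ (by positivity) (by positivity)]
    have : q ^ 3 ≤ q := by nlinarith [mul_pos hslam hslam, sq_nonneg q]
    nlinarith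
  have b2 : (Cm + Ct / q) / w ≤ (Cm + Ct) / sc / q ^ 3 := by
    have h1 : Cm + Ct / q ≤ (Cm + Ct) / q := by
      rw [add_div]
      have : Cm ≤ Cm / q := by
        rw [le_div_iff₀ hslam]
        nlinarith
      linarith
    have h2 : (Cm + Ct / q) / w ≤ ((Cm + Ct) / q) / w := by gcongr
    refine h2.trans ?_
    rw [hw, div_div, div_div]
    have : q * (sc * q) = sc * q ^ 2 := by ring
    rw [this]
    have hq3 : q ^ 3 ≤ q ^ 2 := by nlinarith [mul_pos hslam hslam, sq_nonneg q]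
    gcongr
  have b3 : Ct / q / w ^ 2 = Ct / c / q ^ 3 := by
    rw [hw, mul_pow, hc2, div_div, div_div]
    congr 1
    ring
  rw [b3]
  have h5 : B * (1 / w) + (B * (1 / w) + B * ((Cm + Ct / q) / w + Ct / c / q ^ 3)) ≤
      B * (1 / sc + (1 / sc + ((Cm + Ct) / sc + Ct / c))) / q ^ 3 := by
    have : B * (1 / sc + (1 / sc + ((Cm + Ct) / sc + Ct / c))) / q ^ 3 =
      B * (1 / sc / q ^ 3) + (B * (1 / sc / q ^ 3) + B * ((Cm + Ct) / sc / q ^ 3 + Ct / c / q ^ 3)) := by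
        ring
    rw [this]
    gcongr
  calc 16 / (Real.sqrt n * q) *
        (B * (1 / w) + (B * (1 / w) + B * ((Cm + Ct / q) / w + Ct / c / q ^ 3)))
      ≤ 16 / (Real.sqrt n * q) *
        (B * (1 / sc + (1 / sc + ((Cm + Ct) / sc + Ct / c))) / q ^ 3) := by gcongr
    _ = _ := by
      field_simp

theorem window_local {L : List (ℝ × ℝ)} (hL : Adm L) : ∃ C : ℝ, 0 ≤ C ∧
    ∀ (n : ℕ) (lam u v x B : ℝ) (a a' : ℝ → ℂ), 1 ≤ n → 0 < lam → lam ≤ 1 → u ≤ v → v ≤ u + 1 →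
      (∀ η ∈ Icc u v, lam ≤ |G L η|) → (∀ η : ℝ, HasDerivAt a (a' η) η) → Continuous a' →
      (∀ η ∈ Icc u v, ‖a η‖ ≤ B ∧ ‖a' η‖ ≤ B) → ∀ i j : Fin 2,
      ‖∫ η in u..v, Complex.exp (Complex.I * x * η) * a η * ((mono L (η : ℂ)) ^ n) i j‖ ≤
        C * B * (n : ℝ) ^ (-(1 / 2 : ℝ)) * lam ^ (-(2 : ℝ)) := by
  obtain ⟨K, hK, hhalf⟩ := wlo_half hL
  obtain ⟨c, Ct, hc, hCt, hth⟩ := theta_facts hL
  refine ⟨2 * K, by positivity, ?_⟩
  intro n lam u v x B a a' hn hlam hlam1 huv huv1 hG ha ha' hB i j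
  have hpos : ∀ η ∈ Icc u v, 0 < 1 - Dr L η ^ 2 := fun η hη =>
    lt_of_lt_of_le (by positivity) (hth lam hlam hlam1 η (hG η hη)).1
  have hderθ : ∀ η ∈ Icc u v, HasDerivAt (fun y => Real.arccos (Dr L y)) (wloT L η) η :=
    fun η hη => (hth lam hlam hlam1 η (hG η hη)).2.2.2.1
  have e : ∀ η ∈ Icc u v, Complex.exp (Complex.I * x * η) * a η * ((mono L (η : ℂ)) ^ n) i j =
      Complex.exp (Complex.I * ((x * η + 1 * (n * Real.arccos (Dr L η)) : ℝ) : ℂ)) *
        (a η * wloAmp L 1 i j η) -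
      Complex.exp (Complex.I * ((x * η + (-1) * (n * Real.arccos (Dr L η)) : ℝ) : ℂ)) *
        (a η * wloAmp L (-1) i j η) := by
    intro η hη
    obtain ⟨-, h2, h3, -⟩ := hth lam hlam hlam1 η (hG η hη)
    have hdet : (mono L (η : ℂ)).det = 1 := mono_det hL (fun p hp => by
      simpa using (hL p hp).2)
    have htr : (mono L (η : ℂ)).trace = ((2 * Real.cos (Real.arccos (Dr L η)) : ℝ) : ℂ) := by
      rw [h3]
      have := D_real hL η
      unfold D at this
      rw [Matrix.trace_fin_two]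
      push_cast
      rw [← this]
      ring
    have hsin : Real.sin (Real.arccos (Dr L η)) ≠ 0 := by
      rw [h2]
      exact (Real.sqrt_pos.2 (hpos η hη)).ne'
    rw [pow_formula_exp hdet htr hsin hn i j, h2]
    unfold wloAmp
    have e1 : Complex.exp (Complex.I * ((x * η + 1 * (n * Real.arccos (Dr L η)) : ℝ) : ℂ)) =
        Complex.exp (Complex.I * x * η) *
          Complex.exp (Complex.I * ((n * Real.arccos (Dr L η) : ℝ) : ℂ)) := by
      rw [← Complex.exp_add]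
      congr 1
      push_cast
      ring
    have e2 : Complex.exp (Complex.I * ((x * η + (-1) * (n * Real.arccos (Dr L η)) : ℝ) : ℂ)) =
        Complex.exp (Complex.I * x * η) *
          Complex.exp (Complex.I * ((-(n * Real.arccos (Dr L η)) : ℝ) : ℂ)) := by
      rw [← Complex.exp_add]
      congr 1
      push_cast
      ring
    have e3 : -(Complex.I * ((1 * Real.arccos (Dr L η) : ℝ) : ℂ)) =
        -(Complex.I * ((Real.arccos (Dr L η) : ℝ) : ℂ)) := by
      rw [one_mul]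
    have e4 : -(Complex.I * ((-1 * Real.arccos (Dr L η) : ℝ) : ℂ)) =
        Complex.I * ((Real.arccos (Dr L η) : ℝ) : ℂ) := by
      push_cast
      ring
    rw [e1, e2, e3, e4]
    ring
  have hint : ∀ s : ℝ, IntervalIntegrable (fun η => Complex.exp (Complex.I *
      ((x * η + s * (n * Real.arccos (Dr L η)) : ℝ) : ℂ)) * (a η * wloAmp L s i j η))
      volume u v := by
    intro s
    apply ContinuousOn.intervalIntegrable
    rw [uIcc_of_le huv]
    have h1 : ContinuousOn (wloAmp L s i j) (Icc u v) := fun η hη =>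
      (wlo_amp_hasDeriv hL s i j (hpos η hη) (hderθ η hη)).continuousAt.continuousWithinAt
    have h2 : Continuous a := continuous_iff_continuousAt.2 fun η => (ha η).continuousAt
    have h3 := wlo_theta_cont hL
    have h4 : Continuous fun η : ℝ => Complex.exp (Complex.I *
      ((x * η + s * (n * Real.arccos (Dr L η)) : ℝ) : ℂ)) := by fun_prop
    exact h4.continuousOn.mul (h2.continuousOn.mul h1)
  have e' : (∫ η in u..v, Complex.exp (Complex.I * x * η) * a η * ((mono L (η : ℂ)) ^ n) i j) =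
      (∫ η in u..v, Complex.exp (Complex.I * ((x * η + 1 * (n * Real.arccos (Dr L η)) : ℝ) : ℂ)) *
        (a η * wloAmp L 1 i j η)) -
      ∫ η in u..v, Complex.exp (Complex.I *
        ((x * η + (-1) * (n * Real.arccos (Dr L η)) : ℝ) : ℂ)) * (a η * wloAmp L (-1) i j η) := by
    rw [← intervalIntegral.integral_sub (hint 1) (hint (-1))]
    apply intervalIntegral.integral_congr
    intro η hη
    rw [uIcc_of_le huv] at hη
    exact e η hη
  rw [e']
  refine (norm_sub_le _ _).trans ?_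
  have h1 := hhalf 1 n lam u v x B a a' (by simp) hn hlam hlam1 huv huv1 hG ha ha' hB i j
  have h2 := hhalf (-1) n lam u v x B a a' (by simp) hn hlam hlam1 huv huv1 hG ha ha' hB i j
  linarith

end Pool.Agent.H5.DF
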