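import Pool.Agent.H5.DF.Defs
import Pool.Agent.H5.DF.Wlo
import Pool.Agent.H5.DF.Par
import Pool.Agent.H5.DF.Glow
import Pool.Agent.H5.DF.Ana
import Pool.Agent.H5.DF.Ana2
import Pool.Agent.H5.DF.AlgM

set_option autoImplicit false
open MeasureTheory Set Filter Topology
open scoped ENNReal NNReal FourierTransform

namespace Pool.Agent.H5.DF

/-!
Part WIN. Decay of the oscillatory integral over a unit window.
Paper proof: `part_int` with `F = G L` (`G_lower`, `G_deriv_bdd`), `lam = n^{-1/8}`, and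
`Φ = e^{ixη} a(η) (M^n)_{ij} / B` (if `B = 0` the integral is `0`; `|(M^n)_{ij}| ≤ 1`); `window_local`
gives `δ = C n^{-1/2} lam^{-2} = C n^{-1/4}`.  Result `≤ C (1+|ℓ|)^A B (n^{-1/4} + n^{-c₁/8})`,
`σ₀ = min (1/4) (c₁/8)`.
-/

theorem win_pow_cont {L : List (ℝ × ℝ)} (hL : Adm L) (n : ℕ) (k j : Fin 2) :
    Continuous fun η : ℝ => ((mono L (η : ℂ)) ^ n) k j := by
  have h : Continuous fun η : ℝ => mono L (η : ℂ) := by
    refine continuous_matrix fun a b => ?_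
    exact (mono_contDiff hL a b).continuous
  exact (continuous_apply_apply k j).comp (h.pow n)

theorem win_pow_le {L : List (ℝ × ℝ)} (hL : Adm L) (n : ℕ) (k j : Fin 2) (η : ℝ) :
    ‖((mono L (η : ℂ)) ^ n) k j‖ ≤ 1 := by
  rw [← mono_flatten]
  exact mono_entry_le (Adm_flatten hL n) η k j

theorem window {L : List (ℝ × ℝ)} (hL : Adm L) (hM : Mixed L) :
    ∃ A C σ₀ : ℝ, 0 ≤ A ∧ 0 ≤ C ∧ 0 < σ₀ ∧
      ∀ (n : ℕ) (ℓ x B : ℝ) (a a' : ℝ → ℂ), 1 ≤ n → (∀ η : ℝ, HasDerivAt a (a' η) η) →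
        Continuous a' → (∀ η ∈ Icc ℓ (ℓ + 1), ‖a η‖ ≤ B ∧ ‖a' η‖ ≤ B) → ∀ i j : Fin 2,
        ‖∫ η in ℓ..(ℓ + 1), Complex.exp (Complex.I * x * η) * a η * ((mono L (η : ℂ)) ^ n) i j‖ ≤
          C * (1 + |ℓ|) ^ A * B * (n : ℝ) ^ (-σ₀) := by
  obtain ⟨N, c, hc, hlow⟩ := G_lower hL hM
  obtain ⟨A, C, c₁, hA, hC, hc₁, H⟩ := part_int (G_contDiff hL) hc hlow (G_deriv_bdd hL)
  obtain ⟨Cw, hCw, W⟩ := window_local hL
  refine ⟨A, C * (Cw + 1), min (1 / 4) (c₁ / 8), hA, by positivity, by positivity, ?_⟩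
  intro n ℓ x B a a' hn ha ha' hb i j
  have hn1 : (1 : ℝ) ≤ n := by exact_mod_cast hn
  have hn0 : (0 : ℝ) < n := by linarith
  have hacont : Continuous a := continuous_iff_continuousAt.mpr fun η => (ha η).continuousAt
  have hexp : ∀ η : ℝ, ‖Complex.exp (Complex.I * x * η)‖ = 1 := fun η => by
    rw [show Complex.I * x * η = ((x * η : ℝ) : ℂ) * Complex.I by push_cast; ring]
    exact Complex.norm_exp_ofReal_mul_I _
  have hB : 0 ≤ B := (norm_nonneg _).trans (hb ℓ ⟨le_rfl, by linarith⟩).1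
  rcases hB.eq_or_lt with hB0 | hB0
  · have h1 : (∫ η in ℓ..(ℓ + 1), Complex.exp (Complex.I * x * η) * a η *
        ((mono L (η : ℂ)) ^ n) i j) = ∫ η in ℓ..(ℓ + 1), (0 : ℂ) := by
      refine intervalIntegral.integral_congr fun η hη => ?_
      rw [uIcc_of_le (by linarith)] at hη
      have h2 := (hb η hη).1
      rw [← hB0] at h2
      have h3 : a η = 0 := norm_le_zero_iff.mp h2
      simp [h3]
    rw [h1, intervalIntegral.integral_zero, norm_zero, ← hB0]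
    simp
  set lam : ℝ := (n : ℝ) ^ (-(1 / 8 : ℝ)) with hlam
  have hlam0 : 0 < lam := Real.rpow_pos_of_pos hn0 _
  have hlam1 : lam ≤ 1 := Real.rpow_le_one_of_one_le_of_nonpos hn1 (by norm_num)
  set δ : ℝ := Cw * (n : ℝ) ^ (-(1 / 4 : ℝ)) with hδ
  have hδ0 : 0 ≤ δ := by positivity
  set f : ℝ → ℂ := fun η => Complex.exp (Complex.I * x * η) * a η * ((mono L (η : ℂ)) ^ n) i j
    with hf
  have hfc : Continuous f := (Continuous.mul (by fun_prop) hacont).mul (win_pow_cont hL n i j)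
  have hBc : (B : ℂ) ≠ 0 := by exact_mod_cast hB0.ne'
  have hint : ∀ u v : ℝ, (∫ η in u..v, f η / B) = (∫ η in u..v, f η) / B := fun u v =>
    intervalIntegral.integral_div _ _
  have hnB : ‖(B : ℂ)‖ = B := by rw [Complex.norm_real, Real.norm_eq_abs, abs_of_pos hB0]
  have h1 := H ℓ lam δ (fun η => f η / B) hlam0 hlam1 hδ0 (fun η hη => by
    rw [norm_div, hnB, div_le_one hB0, hf]
    simp only
    rw [norm_mul, norm_mul, hexp, one_mul]
    calc ‖a η‖ * ‖((mono L (η : ℂ)) ^ n) i j‖ ≤ ‖a η‖ * 1 :=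
          mul_le_mul_of_nonneg_left (win_pow_le hL n i j η) (norm_nonneg _)
      _ ≤ B := by rw [mul_one]; exact (hb η hη).1) (hfc.div_const _)
    (fun u v hu huv hv hG => by
      rw [hint, norm_div, hnB, div_le_iff₀ hB0]
      refine (W n lam u v x B a a' hn hlam0 hlam1 huv (by linarith) hG ha ha'
        (fun η hη => hb η ⟨hu.trans hη.1, hη.2.trans hv⟩) i j).trans (le_of_eq ?_)
      have e1 : (n : ℝ) ^ (-(1 / 2 : ℝ)) * lam ^ (-(2 : ℝ)) = (n : ℝ) ^ (-(1 / 4 : ℝ)) := by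
        rw [hlam, ← Real.rpow_mul hn0.le, ← Real.rpow_add hn0]
        norm_num
      rw [hδ, ← e1]
      ring)
  rw [hint, norm_div, hnB, div_le_iff₀ hB0] at h1
  refine h1.trans ?_
  have e2 : lam ^ c₁ = (n : ℝ) ^ (-(c₁ / 8)) := by
    rw [hlam, ← Real.rpow_mul hn0.le]
    congr 1
    ring
  have h2 : (n : ℝ) ^ (-(1 / 4 : ℝ)) ≤ (n : ℝ) ^ (-(min (1 / 4) (c₁ / 8))) :=
    Real.rpow_le_rpow_of_exponent_le hn1 (neg_le_neg (min_le_left _ _))
  have h3 : (n : ℝ) ^ (-(c₁ / 8)) ≤ (n : ℝ) ^ (-(min (1 / 4) (c₁ / 8))) :=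
    Real.rpow_le_rpow_of_exponent_le hn1 (neg_le_neg (min_le_right _ _))
  have h4 : δ + lam ^ c₁ ≤ (Cw + 1) * (n : ℝ) ^ (-(min (1 / 4) (c₁ / 8))) := by
    rw [e2, hδ]
    nlinarith [mul_le_mul_of_nonneg_left h2 hCw]
  have h5 : 0 ≤ C * (1 + |ℓ|) ^ A * B := by positivity
  calc C * (1 + |ℓ|) ^ A * (δ + lam ^ c₁) * B = C * (1 + |ℓ|) ^ A * B * (δ + lam ^ c₁) := by ring
    _ ≤ C * (1 + |ℓ|) ^ A * B * ((Cw + 1) * (n : ℝ) ^ (-(min (1 / 4) (c₁ / 8)))) :=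
        mul_le_mul_of_nonneg_left h4 h5
    _ = _ := by ring

end Pool.Agent.H5.DF
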