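import Pool.Agent.H5.DF.Defs
import Pool.Agent.H5.DF.Win
import Pool.Agent.H5.DF.Prb

set_option autoImplicit false
open MeasureTheory Set Filter Topology
open scoped ENNReal NNReal FourierTransform

namespace Pool.Agent.H5.DF

/-!
Part KER. The kernel bound.
Paper proof: `r = A + 2 ≥ 2`.  `t = nT + s`, `prop L t η = part L s η * M^n` (`prop_decomp`).
`n = 0` (`t < T`): `‖∫‖ ≤ ∫ (1+η²)^{-r/2} < ∞` and `t^{-σ₀} ≥ T^{-σ₀}`.  `n ≥ 1`: for fixed `k` the amplitude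
`a(η) = (1+η²)^{-r/2} part_{ik}(s,η)` has `|a|, |a'| ≤ C (1+η²)^{-r/2} ≤ C' (1+|ℓ|)^{-r}` on `[ℓ,ℓ+1]`
(`ℓ ∈ ℤ`, `1+|ℓ| ≤ 3 sqrt(1+η²)`), `window` gives `≤ C (1+|ℓ|)^{A-r} n^{-σ₀}`; sum over `ℓ ∈ ℤ`
(`MeasureTheory.Integrable.hasSum_intervalIntegral`), `n ≥ t/(2T)`, and sum over `k ∈ {0,1}`.
-/

/-- the weight -/
noncomputable def kerW (r : ℝ) (η : ℝ) : ℝ := (1 + η ^ 2) ^ (-(r / 2))

/-- its derivative -/
noncomputable def kerW' (r : ℝ) (η : ℝ) : ℝ := 2 * η * (-(r / 2)) * (1 + η ^ 2) ^ (-(r / 2) - 1)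

theorem kerW_pos (r η : ℝ) : 0 < kerW r η := Real.rpow_pos_of_pos (by positivity) _

theorem kerW_hasDeriv (r η : ℝ) : HasDerivAt (kerW r) (kerW' r η) η := by
  have h1 : HasDerivAt (fun η : ℝ => 1 + η ^ 2) (2 * η) η := by
    simpa using (hasDerivAt_pow 2 η).const_add 1
  exact h1.rpow_const (p := -(r / 2)) (Or.inl (by positivity))

theorem kerW_cont (r : ℝ) : Continuous (kerW r) :=
  continuous_iff_continuousAt.mpr fun η => (kerW_hasDeriv r η).continuousAt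

theorem kerW'_cont (r : ℝ) : Continuous (kerW' r) := by
  refine Continuous.mul (by fun_prop) (Continuous.rpow_const (by fun_prop) fun x => Or.inl ?_)
  positivity

theorem kerW'_le {r : ℝ} (hr : 0 ≤ r) (η : ℝ) : |kerW' r η| ≤ r * kerW r η := by
  have h0 : (0 : ℝ) < 1 + η ^ 2 := by positivity
  have h1 : (1 + η ^ 2) ^ (-(r / 2) - 1) = kerW r η * (1 + η ^ 2)⁻¹ := by
    rw [kerW, Real.rpow_sub h0, Real.rpow_one, div_eq_mul_inv]
  have h2 : |kerW' r η| = r * kerW r η * (|η| * (1 + η ^ 2)⁻¹) := by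
    rw [kerW', h1, abs_mul, abs_mul, abs_mul, abs_mul, abs_of_pos (kerW_pos r η), abs_neg,
      abs_of_nonneg (show 0 ≤ r / 2 by positivity), abs_of_pos (inv_pos.mpr h0), abs_two]
    ring
  rw [h2]
  have h3 : |η| * (1 + η ^ 2)⁻¹ ≤ 1 := by
    rw [← div_eq_mul_inv, div_le_one h0]
    nlinarith [sq_nonneg (|η| - 1), sq_abs η]
  exact mul_le_of_le_one_right (mul_nonneg hr (kerW_pos r η).le) h3

theorem kerW_window {r : ℝ} (hr : 0 ≤ r) {l η : ℝ} (h : η ∈ Icc l (l + 1)) :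
    kerW r η ≤ 3 ^ r * (1 + |l|) ^ (-r) := by
  have h0 : (0 : ℝ) < 1 + η ^ 2 := by positivity
  have hl : 0 < 1 + |l| := by positivity
  have h1 : ((1 + |l|) / 3) ^ 2 ≤ 1 + η ^ 2 := by
    have h2 : |l| ≤ |η| + 1 := by
      have := abs_sub_abs_le_abs_sub l η
      have h3 : |l - η| ≤ 1 := by rw [abs_le]; constructor <;> linarith [h.1, h.2]
      linarith
    have h3 : (1 + |l|) / 3 ≤ (2 + |η|) / 3 := by linarith
    have h4 : ((1 + |l|) / 3) ^ 2 ≤ ((2 + |η|) / 3) ^ 2 := by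
      apply pow_le_pow_left₀ (by positivity) h3
    nlinarith [sq_nonneg (2 * |η| - 1), sq_abs η, abs_nonneg η, sq_nonneg (|η| - 1)]
  have h2 : kerW r η ≤ (((1 + |l|) / 3) ^ 2) ^ (-(r / 2)) :=
    Real.rpow_le_rpow_of_nonpos (by positivity) h1 (by linarith)
  have h3 : (((1 + |l|) / 3) ^ 2) ^ (-(r / 2)) = 3 ^ r * (1 + |l|) ^ (-r) := by
    rw [← Real.rpow_natCast, ← Real.rpow_mul (by positivity), Real.div_rpow hl.le (by norm_num),
      show ((2 : ℕ) : ℝ) * (-(r / 2)) = -r by push_cast; ring,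
      Real.rpow_neg (show (0 : ℝ) ≤ 3 by norm_num)]
    field_simp
  rw [← h3]
  exact h2

theorem kerW_le {r : ℝ} (hr : 2 ≤ r) (η : ℝ) : kerW r η ≤ (1 + η ^ 2)⁻¹ := by
  have h1 : (1 : ℝ) ≤ 1 + η ^ 2 := by nlinarith [sq_nonneg η]
  rw [kerW, ← Real.rpow_neg_one]
  exact Real.rpow_le_rpow_of_exponent_le h1 (by linarith)

theorem ker_summable : Summable fun l : ℤ => (1 + |(l : ℝ)|) ^ (-(2 : ℝ)) := by
  have h : Summable fun n : ℕ => (1 + (n : ℝ)) ^ (-(2 : ℝ)) := by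
    have h1 := (summable_nat_add_iff 1).mpr (Real.summable_nat_rpow_inv.mpr (one_lt_two : (1 : ℝ) < 2))
    refine h1.congr fun n => ?_
    rw [Real.rpow_neg (by positivity)]
    push_cast
    rw [add_comm]
  refine Summable.of_nat_of_neg ?_ ?_
  · refine h.congr fun n => ?_
    simp
  · refine h.congr fun n => ?_
    simp

/-- one amplitude -/
theorem ker_sum {L : List (ℝ × ℝ)} (hL : Adm L) {A C σ₀ : ℝ} (hA : 0 ≤ A) (hC : 0 ≤ C)
    (hwin : ∀ (n : ℕ) (ℓ x B : ℝ) (a a' : ℝ → ℂ), 1 ≤ n → (∀ η : ℝ, HasDerivAt a (a' η) η) →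
        Continuous a' → (∀ η ∈ Icc ℓ (ℓ + 1), ‖a η‖ ≤ B ∧ ‖a' η‖ ≤ B) → ∀ i j : Fin 2,
        ‖∫ η in ℓ..(ℓ + 1), Complex.exp (Complex.I * x * η) * a η * ((mono L (η : ℂ)) ^ n) i j‖ ≤
          C * (1 + |ℓ|) ^ A * B * (n : ℝ) ^ (-σ₀))
    {K : ℝ} (n : ℕ) (hn : 1 ≤ n) (a a' : ℝ → ℂ)
    (ha : ∀ η, HasDerivAt a (a' η) η) (ha' : Continuous a')
    (hb : ∀ η, ‖a η‖ ≤ K * kerW (A + 2) η ∧ ‖a' η‖ ≤ K * kerW (A + 2) η)
    (x : ℝ) (i j : Fin 2)
    (hint : Integrable fun η : ℝ =>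
      Complex.exp (Complex.I * x * η) * a η * ((mono L (η : ℂ)) ^ n) i j) :
    ‖∫ η : ℝ, Complex.exp (Complex.I * x * η) * a η * ((mono L (η : ℂ)) ^ n) i j‖ ≤
      C * K * 3 ^ (A + 2) * (∑' l : ℤ, (1 + |(l : ℝ)|) ^ (-(2 : ℝ))) * (n : ℝ) ^ (-σ₀) := by
  have hK : 0 ≤ K := by
    have := (norm_nonneg _).trans (hb 0).1
    exact nonneg_of_mul_nonneg_left this (kerW_pos _ _)
  have h1 := hint.hasSum_intervalIntegral 0
  have h2 : HasSum (fun l : ℤ => C * K * 3 ^ (A + 2) * (1 + |(l : ℝ)|) ^ (-(2 : ℝ)) *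
      (n : ℝ) ^ (-σ₀)) (C * K * 3 ^ (A + 2) * (∑' l : ℤ, (1 + |(l : ℝ)|) ^ (-(2 : ℝ))) *
      (n : ℝ) ^ (-σ₀)) := (ker_summable.hasSum.mul_left _).mul_right _
  refine h1.norm_le_of_bounded h2 fun l => ?_
  have hl : (0 : ℝ) < 1 + |(l : ℝ)| := by positivity
  have h3 := hwin n l x (K * (3 ^ (A + 2) * (1 + |(l : ℝ)|) ^ (-(A + 2)))) a a' hn ha ha'
    (fun η hη => ⟨(hb η).1.trans (mul_le_mul_of_nonneg_left (kerW_window (by linarith) hη) hK),
      (hb η).2.trans (mul_le_mul_of_nonneg_left (kerW_window (by linarith) hη) hK)⟩) i j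
  rw [zero_add]
  refine h3.trans (le_of_eq ?_)
  have h4 : (1 + |(l : ℝ)|) ^ A * (1 + |(l : ℝ)|) ^ (-(A + 2)) = (1 + |(l : ℝ)|) ^ (-(2 : ℝ)) := by
    rw [← Real.rpow_add hl]
    congr 1
    ring
  rw [← h4]
  ring

theorem kernel {L : List (ℝ × ℝ)} (hL : Adm L) (hM : Mixed L) :
    ∃ r σ C : ℝ, 2 ≤ r ∧ 0 < σ ∧ ∀ t : ℝ, 0 < t → ∀ (x : ℝ) (i j : Fin 2),
      ‖∫ η : ℝ, Complex.exp (Complex.I * x * η) * (((1 + η ^ 2) ^ (-(r / 2)) : ℝ) : ℂ) *
        prop L t (η : ℂ) i j‖ ≤ C / t ^ σ := by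
  have hne : L ≠ [] := by
    rintro rfl
    obtain ⟨⟨p, hp, -⟩, -⟩ := hM
    exact absurd hp (by simp)
  have hT : 0 < dur L := dur_pos hL hne
  obtain ⟨A, C, σ₀, hA, hC, hσ, hwin⟩ := window hL hM
  obtain ⟨Cp, hCp, hpd⟩ := part_deriv_bdd hL
  set S := ∑' l : ℤ, (1 + |(l : ℝ)|) ^ (-(2 : ℝ)) with hS
  have hS0 : 0 ≤ S := tsum_nonneg fun l => by positivity
  set K : ℝ := 1 + (A + 2) + Cp with hK
  have hK0 : 0 ≤ K := by positivity
  refine ⟨A + 2, σ₀, Real.pi * dur L ^ σ₀ + 2 * (C * K * 3 ^ (A + 2) * S * (2 * dur L) ^ σ₀),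
    by linarith, hσ, fun t ht x i j => ?_⟩
  obtain ⟨n, s, hs0, hsT, hts, hprop⟩ := prop_decomp hL hne ht.le
  change ‖∫ η : ℝ, Complex.exp (Complex.I * x * η) * (kerW (A + 2) η : ℂ) *
        prop L t (η : ℂ) i j‖ ≤ _
  have htσ : 0 < t ^ σ₀ := Real.rpow_pos_of_pos ht _
  have hexp : ∀ η : ℝ, ‖Complex.exp (Complex.I * x * η)‖ = 1 := fun η => by
    rw [show Complex.I * x * η = ((x * η : ℝ) : ℂ) * Complex.I by push_cast; ring]
    exact Complex.norm_exp_ofReal_mul_I _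
  have hmc : ∀ (n : ℕ) (k : Fin 2), Continuous fun η : ℝ => ((mono L (η : ℂ)) ^ n) k j := by
    intro n k
    have h : Continuous fun η : ℝ => mono L (η : ℂ) := by
      refine continuous_matrix fun a b => ?_
      exact (mono_contDiff hL a b).continuous
    exact (continuous_apply_apply k j).comp (h.pow n)
  have hmb : ∀ (n : ℕ) (k : Fin 2) (η : ℝ), ‖((mono L (η : ℂ)) ^ n) k j‖ ≤ 1 := by
    intro n k η
    rw [← mono_flatten]
    exact mono_entry_le (Adm_flatten hL n) η k j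
  rcases Nat.eq_zero_or_pos n with hn | hn
  · -- short times
    have htT : t ≤ dur L := by
      rw [hts, hn]; simpa using hsT.le
    have h1 : ‖∫ η : ℝ, Complex.exp (Complex.I * x * η) * (kerW (A + 2) η : ℂ) *
        prop L t (η : ℂ) i j‖ ≤ ∫ η : ℝ, (1 + η ^ 2)⁻¹ := by
      refine norm_integral_le_of_norm_le integrable_inv_one_add_sq (Eventually.of_forall fun η => ?_)
      rw [norm_mul, norm_mul, hexp, one_mul, Complex.norm_real, Real.norm_eq_abs,
        abs_of_pos (kerW_pos _ _)]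
      calc kerW (A + 2) η * ‖prop L t (η : ℂ) i j‖ ≤ kerW (A + 2) η * 1 :=
            mul_le_mul_of_nonneg_left (prop_entry_le hL t η i j) (kerW_pos _ _).le
        _ ≤ (1 + η ^ 2)⁻¹ := by rw [mul_one]; exact kerW_le (by linarith) η
    rw [integral_univ_inv_one_add_sq] at h1
    refine h1.trans ?_
    rw [le_div_iff₀ htσ]
    have h2 : t ^ σ₀ ≤ dur L ^ σ₀ := Real.rpow_le_rpow ht.le htT hσ.le
    have h3 : 0 ≤ 2 * (C * K * 3 ^ (A + 2) * S * (2 * dur L) ^ σ₀) := by positivity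
    nlinarith [Real.pi_pos, mul_le_mul_of_nonneg_left h2 Real.pi_pos.le]
  · -- long times
    set a : Fin 2 → ℝ → ℂ := fun k η => (kerW (A + 2) η : ℂ) * part L s (η : ℂ) i k with ha
    set a' : Fin 2 → ℝ → ℂ := fun k η => (kerW' (A + 2) η : ℂ) * part L s (η : ℂ) i k +
      (kerW (A + 2) η : ℂ) * deriv (fun η : ℝ => part L s (η : ℂ) i k) η with ha'
    have hpc : ∀ k, ContDiff ℝ (⊤ : ℕ∞) (fun η : ℝ => part L s (η : ℂ) i k) :=
      fun k => part_contDiff hL s i k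
    have had : ∀ k η, HasDerivAt (a k) (a' k η) η := fun k η => by
      have h1 : HasDerivAt (fun η : ℝ => (kerW (A + 2) η : ℂ)) (kerW' (A + 2) η : ℂ) η :=
        (kerW_hasDeriv (A + 2) η).ofReal_comp
      have h2 : HasDerivAt (fun η : ℝ => part L s (η : ℂ) i k)
          (deriv (fun η : ℝ => part L s (η : ℂ) i k) η) η :=
        ((hpc k).differentiable (by simp)).differentiableAt.hasDerivAt
      exact h1.mul h2
    have hac : ∀ k, Continuous (a' k) := fun k => by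
      have h1 : Continuous (deriv (fun η : ℝ => part L s (η : ℂ) i k)) :=
        (hpc k).continuous_deriv (by simp)
      exact ((Complex.continuous_ofReal.comp (kerW'_cont _)).mul (hpc k).continuous).add
        ((Complex.continuous_ofReal.comp (kerW_cont _)).mul h1)
    have hw : ∀ η : ℝ, ‖(kerW (A + 2) η : ℂ)‖ = kerW (A + 2) η := fun η => by
      rw [Complex.norm_real, Real.norm_eq_abs, abs_of_pos (kerW_pos _ _)]
    have hbd : ∀ k η, ‖a k η‖ ≤ K * kerW (A + 2) η ∧ ‖a' k η‖ ≤ K * kerW (A + 2) η := by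
      intro k η
      have hw0 := (kerW_pos (A + 2) η).le
      have h1 : ‖a k η‖ ≤ kerW (A + 2) η := by
        rw [ha]
        simp only
        rw [norm_mul, hw]
        exact mul_le_of_le_one_right hw0 (part_entry_le hL s η i k)
      have h2 : ‖a' k η‖ ≤ (A + 2) * kerW (A + 2) η + kerW (A + 2) η * Cp := by
        rw [ha']
        simp only
        refine (norm_add_le _ _).trans (add_le_add ?_ ?_)
        · rw [norm_mul, Complex.norm_real, Real.norm_eq_abs]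
          calc |kerW' (A + 2) η| * ‖part L s (η : ℂ) i k‖ ≤ |kerW' (A + 2) η| * 1 :=
                mul_le_mul_of_nonneg_left (part_entry_le hL s η i k) (abs_nonneg _)
            _ ≤ (A + 2) * kerW (A + 2) η := by rw [mul_one]; exact kerW'_le (by linarith) η
        · rw [norm_mul, hw]
          exact mul_le_mul_of_nonneg_left (hpd s ⟨hs0, hsT.le⟩ η i k) hw0
      constructor
      · refine h1.trans ?_
        rw [hK]
        nlinarith [mul_nonneg (by linarith : 0 ≤ A + 2 + Cp) hw0]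
      · refine h2.trans ?_
        rw [hK]
        nlinarith
    have hint : ∀ k, Integrable fun η : ℝ =>
        Complex.exp (Complex.I * x * η) * a k η * ((mono L (η : ℂ)) ^ n) k j := by
      intro k
      have hcont : Continuous fun η : ℝ =>
          Complex.exp (Complex.I * x * η) * a k η * ((mono L (η : ℂ)) ^ n) k j := by
        refine Continuous.mul (Continuous.mul (by fun_prop) ?_) (hmc n k)
        exact (Complex.continuous_ofReal.comp (kerW_cont _)).mul (hpc k).continuous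
      refine Integrable.mono' (integrable_inv_one_add_sq.const_mul K) hcont.aestronglyMeasurable
        (Eventually.of_forall fun η => ?_)
      rw [norm_mul, norm_mul, hexp, one_mul]
      calc ‖a k η‖ * ‖((mono L (η : ℂ)) ^ n) k j‖ ≤ ‖a k η‖ * 1 :=
            mul_le_mul_of_nonneg_left (hmb n k η) (norm_nonneg _)
        _ ≤ K * kerW (A + 2) η := by rw [mul_one]; exact (hbd k η).1
        _ ≤ K * (1 + η ^ 2)⁻¹ := mul_le_mul_of_nonneg_left (kerW_le (by linarith) η) hK0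
    have hsum : ∀ η : ℝ, Complex.exp (Complex.I * x * η) * (kerW (A + 2) η : ℂ) *
        prop L t (η : ℂ) i j = ∑ k : Fin 2,
          Complex.exp (Complex.I * x * η) * a k η * ((mono L (η : ℂ)) ^ n) k j := by
      intro η
      rw [hprop, Matrix.mul_apply, Finset.mul_sum]
      refine Finset.sum_congr rfl fun k _ => ?_
      rw [ha]
      ring
    have h1 : (∫ η : ℝ, Complex.exp (Complex.I * x * η) * (kerW (A + 2) η : ℂ) *
        prop L t (η : ℂ) i j) = ∑ k : Fin 2, ∫ η : ℝ,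
          Complex.exp (Complex.I * x * η) * a k η * ((mono L (η : ℂ)) ^ n) k j := by
      rw [← integral_finset_sum _ fun k _ => hint k]
      exact integral_congr_ae (Eventually.of_forall hsum)
    rw [h1]
    have h2 : ∀ k : Fin 2, ‖∫ η : ℝ,
        Complex.exp (Complex.I * x * η) * a k η * ((mono L (η : ℂ)) ^ n) k j‖ ≤
        C * K * 3 ^ (A + 2) * S * (n : ℝ) ^ (-σ₀) := fun k =>
      ker_sum hL hA hC hwin n hn (a k) (a' k) (had k) (hac k) (hbd k) x k j (hint k)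
    have hn0 : (0 : ℝ) < n := by exact_mod_cast hn
    have h3 : (n : ℝ) ^ (-σ₀) ≤ (2 * dur L) ^ σ₀ / t ^ σ₀ := by
      have h4 : t ≤ 2 * dur L * n := by
        have : (1 : ℝ) ≤ n := by exact_mod_cast hn
        rw [hts]
        nlinarith
      rw [Real.rpow_neg hn0.le, le_div_iff₀ htσ, inv_mul_le_iff₀ (Real.rpow_pos_of_pos hn0 _),
        mul_comm, ← Real.mul_rpow (by positivity) hn0.le]
      exact Real.rpow_le_rpow ht.le h4 hσ.le
    have h5 : ‖∑ k : Fin 2, ∫ η : ℝ,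
          Complex.exp (Complex.I * x * η) * a k η * ((mono L (η : ℂ)) ^ n) k j‖ ≤
        2 * (C * K * 3 ^ (A + 2) * S * (n : ℝ) ^ (-σ₀)) := by
      rw [Fin.sum_univ_two]
      refine (norm_add_le _ _).trans ?_
      linarith [h2 0, h2 1]
    refine h5.trans ?_
    have h6 : 0 ≤ C * K * 3 ^ (A + 2) * S := by positivity
    have h7 : 0 ≤ Real.pi * dur L ^ σ₀ / t ^ σ₀ := by positivity
    have h8 := mul_le_mul_of_nonneg_left h3 h6
    rw [add_div, mul_div_assoc (2 : ℝ), mul_div_assoc (C * K * 3 ^ (A + 2) * S)]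
    linarith

end Pool.Agent.H5.DF
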