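import Pool.Agent.H5.DF.Defs
import Pool.Agent.H5.DF.AlgE
import Pool.Agent.H5.DF.Prb

set_option autoImplicit false
open MeasureTheory Set Filter Topology
open scoped ENNReal NNReal FourierTransform

namespace Pool.Agent.H5.DF

/-!
Part ODEE. The differential equation on one period.
`d/dτ E τ μ η = -i (η σ₃ + μ σ₁) E τ μ η` (`(cos τω)' = -ω sin τω`, `(sin(τω)/ω)' = cos τω`,
`X² = ω²`).  `part_int_eq`: induction on the list: on `[0, p.1]` fundamental theorem of calculus; for
`s > p.1` split the integral at `p.1` and substitute.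
-/

theorem E_hasDerivAt_time {μ : ℝ} (hμ : μ ≠ 0) (η τ : ℝ) (i j : Fin 2) :
    HasDerivAt (fun τ : ℝ => E τ μ (η : ℂ) i j)
      (-Complex.I * ((((η : ℂ) • s3 + (μ : ℂ) • s1) * E τ μ (η : ℂ)) i j)) τ := by
  have hw0 : om μ (η : ℂ) ≠ 0 := om_ne hμ (by simpa using abs_pos.2 hμ)
  have hw2 : om μ (η : ℂ) ^ 2 = (η : ℂ) ^ 2 + (μ : ℂ) ^ 2 := om_sq μ _
  generalize hw : om μ (η : ℂ) = w at hw0 hw2
  have hlin : HasDerivAt (fun τ : ℝ => (τ : ℂ) * w) w τ := by
    simpa using (Complex.ofRealCLM.hasDerivAt (x := τ)).mul_const w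
  have hc : HasDerivAt (fun τ : ℝ => Complex.cos (τ * w)) (-Complex.sin (τ * w) * w) τ :=
    (Complex.hasDerivAt_cos _).comp τ hlin
  have hs : HasDerivAt (fun τ : ℝ => Complex.sin (τ * w) / w) (Complex.cos (τ * w)) τ := by
    have := ((Complex.hasDerivAt_sin (τ * w)).comp τ hlin).div_const w
    rwa [mul_div_cancel_right₀ _ hw0] at this
  have hS : Complex.sin (τ * w) = w * (Complex.sin (τ * w) / w) := by field_simp
  have hI : Complex.I * Complex.I = -1 := Complex.I_mul_I
  fin_cases i <;> fin_cases j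
  · simp only [E, hw, Fin.zero_eta, Fin.isValue, Matrix.of_apply, Matrix.cons_val', Matrix.cons_val_zero,
      Matrix.cons_val_fin_one, s1, s3, Matrix.mul_apply, Fin.sum_univ_two, Matrix.add_apply,
      Matrix.smul_apply, Matrix.cons_val_one, smul_eq_mul]
    refine (hc.sub (hs.const_mul (Complex.I * η))).congr_deriv ?_
    generalize Complex.sin (τ * w) / w = S at hS
    rw [hS]
    linear_combination (-S) * hw2 - ((η:ℂ)^2+(μ:ℂ)^2) * S * hI
  · simp only [E, hw, Fin.zero_eta, Fin.isValue, Matrix.of_apply, Matrix.cons_val', Matrix.cons_val_zero,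
      Matrix.cons_val_fin_one, s1, s3, Matrix.mul_apply, Fin.sum_univ_two, Matrix.add_apply,
      Matrix.smul_apply, Matrix.cons_val_one, smul_eq_mul, Fin.mk_one]
    refine (hs.const_mul (Complex.I * μ)).neg.congr_deriv ?_
    ring
  · simp only [E, hw, Fin.zero_eta, Fin.isValue, Matrix.of_apply, Matrix.cons_val', Matrix.cons_val_zero,
      Matrix.cons_val_fin_one, s1, s3, Matrix.mul_apply, Fin.sum_univ_two, Matrix.add_apply,
      Matrix.smul_apply, Matrix.cons_val_one, smul_eq_mul, Fin.mk_one]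
    refine (hs.const_mul (Complex.I * μ)).neg.congr_deriv ?_
    ring
  · simp only [E, hw, Fin.isValue, Matrix.of_apply, Matrix.cons_val', Matrix.cons_val_zero,
      Matrix.cons_val_fin_one, s1, s3, Matrix.mul_apply, Fin.sum_univ_two, Matrix.add_apply,
      Matrix.smul_apply, Matrix.cons_val_one, smul_eq_mul, Fin.mk_one]
    refine (hc.add (hs.const_mul (Complex.I * η))).congr_deriv ?_
    generalize Complex.sin (τ * w) / w = S at hS
    rw [hS]
    linear_combination (-S) * hw2 - ((η:ℂ)^2+(μ:ℂ)^2) * S * hI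

/-- the integrand of the differential equation on one period -/
noncomputable def Odee_f (L : List (ℝ × ℝ)) (η : ℝ) (i j : Fin 2) (r : ℝ) : ℂ :=
  (((η : ℂ) • s3 + ((seg L r : ℝ) : ℂ) • s1) * part L r (η : ℂ)) i j

theorem Odee_dur_nonneg {L : List (ℝ × ℝ)} (hL : Adm L) : 0 ≤ dur L := by
  induction L with
  | nil => simp [dur]
  | cons p L ih =>
    have h1 : 0 < p.1 := (hL p (by simp)).1
    have h2 := ih (fun q hq => hL q (by simp [hq]))
    simp only [dur]
    linarith

theorem Odee_E_cont {μ : ℝ} (hμ : μ ≠ 0) (η : ℝ) (i j : Fin 2) :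
    Continuous (fun τ : ℝ => E τ μ (η : ℂ) i j) :=
  continuous_iff_continuousAt.2 fun τ => (E_hasDerivAt_time hμ η τ i j).continuousAt

theorem Odee_part_le {p : ℝ × ℝ} {L : List (ℝ × ℝ)} {t : ℝ} (ht : t ≤ p.1) (η : ℂ) :
    part (p :: L) t η = E t p.2 η := by
  simp [part, ht]

theorem Odee_part_ge {p : ℝ × ℝ} {L : List (ℝ × ℝ)} (hL : Adm (p :: L)) {t : ℝ} (ht : p.1 ≤ t)
    (η : ℂ) : part (p :: L) t η = part L (t - p.1) η * E p.1 p.2 η := by
  rcases ht.eq_or_lt with h | h
  · have hL' : Adm L := fun q hq => hL q (by simp [hq])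
    rw [Odee_part_le h.ge, ← h, sub_self, part_zero hL', one_mul]
  · simp [part, not_le.2 h]

theorem part_continuousOn {L : List (ℝ × ℝ)} (hL : Adm L) (η : ℝ) (i j : Fin 2) :
    ContinuousOn (fun s => part L s (η : ℂ) i j) (Icc 0 (dur L)) := by
  induction L generalizing i j with
  | nil => simp only [part]; exact continuousOn_const
  | cons p L ih =>
    have hL' : Adm L := fun q hq => hL q (by simp [hq])
    have hp := hL p (by simp)
    have hd := Odee_dur_nonneg hL'
    have hu : Icc 0 (dur (p :: L)) = Icc 0 p.1 ∪ Icc p.1 (p.1 + dur L) := by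
      simp only [dur]
      rw [Icc_union_Icc_eq_Icc hp.1.le (by linarith)]
    rw [hu]
    refine ContinuousOn.union_of_isClosed ?_ ?_ isClosed_Icc isClosed_Icc
    · refine (Odee_E_cont hp.2 η i j).continuousOn.congr fun t ht => ?_
      rw [Odee_part_le ht.2]
    · have h1 : ContinuousOn (fun t => (part L (t - p.1) (η : ℂ) * E p.1 p.2 (η : ℂ)) i j)
          (Icc p.1 (p.1 + dur L)) := by
        simp only [Matrix.mul_apply]
        refine continuousOn_finsetSum _ fun k _ => ContinuousOn.mul ?_ continuousOn_const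
        exact (ih hL' i k).comp (by fun_prop) fun t ht => ⟨by linarith [ht.1], by linarith [ht.2]⟩
      refine h1.congr fun t ht => ?_
      rw [Odee_part_ge hL ht.1]

theorem Odee_seg_lt {p : ℝ × ℝ} {L : List (ℝ × ℝ)} {t : ℝ} (ht : t < p.1) :
    seg (p :: L) t = p.2 := by
  simp [seg, ht]

theorem Odee_seg_ge {p : ℝ × ℝ} {L : List (ℝ × ℝ)} {t : ℝ} (ht : p.1 ≤ t) :
    seg (p :: L) t = seg L (t - p.1) := by
  simp [seg, not_lt.2 ht]

theorem Odee_main {L : List (ℝ × ℝ)} (hL : Adm L) (η : ℝ) : ∀ s, 0 ≤ s → s ≤ dur L →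
    ∀ i j, IntervalIntegrable (Odee_f L η i j) volume 0 s ∧
      ∫ r in (0 : ℝ)..s, Odee_f L η i j r = Complex.I * (part L s (η : ℂ) i j - (1 : Mat) i j) := by
  induction L with
  | nil =>
    intro s hs hs' i j
    have : s = 0 := le_antisymm (by simpa [dur] using hs') hs
    subst this
    simp [part]
  | cons p L ih =>
    have hL' : Adm L := fun q hq => hL q (by simp [hq])
    have hp := hL p (by simp)
    have hd := Odee_dur_nonneg hL'
    have ih' := ih hL'
    -- the first piece
    have A : ∀ s, 0 ≤ s → s ≤ p.1 → ∀ i j,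
        IntervalIntegrable (Odee_f (p :: L) η i j) volume 0 s ∧
        ∫ r in (0 : ℝ)..s, Odee_f (p :: L) η i j r =
          Complex.I * (E s p.2 (η : ℂ) i j - (1 : Mat) i j) := by
      intro s hs hs' i j
      set g : ℝ → ℂ := fun r => (((η : ℂ) • s3 + (p.2 : ℂ) • s1) * E r p.2 (η : ℂ)) i j with hg
      have hgc : Continuous g := by
        simp only [hg, Matrix.mul_apply]
        exact continuous_finsetSum _ fun k _ => continuous_const.mul (Odee_E_cont hp.2 η k j)
      have hfg : EqOn g (Odee_f (p :: L) η i j) (Ioo 0 s) := by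
        intro r hr
        have h1 : r < p.1 := hr.2.trans_le hs'
        simp only [hg, Odee_f]
        rw [Odee_seg_lt h1, Odee_part_le h1.le]
      have hgi : IntervalIntegrable g volume 0 s := hgc.intervalIntegrable _ _
      have hftc : ∫ r in (0 : ℝ)..s, (-Complex.I * g r) = E s p.2 (η : ℂ) i j - E 0 p.2 (η : ℂ) i j :=
        intervalIntegral.integral_eq_sub_of_hasDerivAt
          (fun r _ => E_hasDerivAt_time hp.2 η r i j) (hgi.const_mul _)
      rw [intervalIntegral.integral_const_mul, E_zero_time] at hftc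
      have h2 : ∫ r in (0 : ℝ)..s, g r = Complex.I * (E s p.2 (η : ℂ) i j - (1 : Mat) i j) := by
        rw [← hftc]
        linear_combination (∫ r in (0 : ℝ)..s, g r) * Complex.I_mul_I
      refine ⟨hgi.congr_uIoo (by rwa [uIoo_of_le hs]), ?_⟩
      rw [← h2]
      exact (intervalIntegral.integral_congr_Ioo_of_le hs hfg).symm
    intro s hs hs' i j
    rcases le_total s p.1 with h | h
    · rw [Odee_part_le h]
      exact A s hs h i j
    · have hs2 : s - p.1 ≤ dur L := by simp only [dur] at hs'; linarith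
      have hs3 : 0 ≤ s - p.1 := by linarith
      obtain ⟨A1, A2⟩ := A p.1 hp.1.le le_rfl i j
      set g : ℝ → ℂ := fun r => ∑ k, Odee_f L η i k (r - p.1) * E p.1 p.2 (η : ℂ) k j with hg
      have hgk : ∀ k, IntervalIntegrable (fun r => Odee_f L η i k (r - p.1)) volume p.1 s := by
        intro k
        have := (ih' _ hs3 hs2 i k).1.comp_sub_right p.1
        simpa using this
      have hgi : IntervalIntegrable g volume p.1 s := by
        have := IntervalIntegrable.sum (μ := volume) (a := p.1) (b := s) Finset.univ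
          (f := fun k r => Odee_f L η i k (r - p.1) * E p.1 p.2 (η : ℂ) k j)
          (fun k _ => (hgk k).mul_const _)
        refine this.congr fun r _ => ?_
        simp [hg]
      have hfg : EqOn g (Odee_f (p :: L) η i j) (Ioo p.1 s) := by
        intro r hr
        simp only [hg, Odee_f]
        rw [Odee_seg_ge hr.1.le, Odee_part_ge hL hr.1.le, ← Matrix.mul_assoc]
        rw [Matrix.mul_apply (M := _ * part L (r - p.1) (η : ℂ))]
      have hgint : ∫ r in p.1..s, g r = Complex.I * ((part L (s - p.1) (η : ℂ) * E p.1 p.2 (η : ℂ)) i j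
          - E p.1 p.2 (η : ℂ) i j) := by
        simp only [hg]
        rw [intervalIntegral.integral_finsetSum (fun k _ => (hgk k).mul_const _)]
        have : ∀ k, ∫ r in p.1..s, Odee_f L η i k (r - p.1) * E p.1 p.2 (η : ℂ) k j =
            Complex.I * (part L (s - p.1) (η : ℂ) i k - (1 : Mat) i k) * E p.1 p.2 (η : ℂ) k j := by
          intro k
          rw [intervalIntegral.integral_mul_const,
            intervalIntegral.integral_comp_sub_right (fun r => Odee_f L η i k r), sub_self,
            (ih' _ hs3 hs2 i k).2]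
        simp only [this]
        have h1 : E p.1 p.2 (η : ℂ) i j = ((1 : Mat) * E p.1 p.2 (η : ℂ)) i j := by rw [one_mul]
        rw [h1, Matrix.mul_apply, Matrix.mul_apply, ← Finset.sum_sub_distrib, Finset.mul_sum]
        refine Finset.sum_congr rfl fun k _ => ?_
        ring
      have B1 : IntervalIntegrable (Odee_f (p :: L) η i j) volume p.1 s :=
        hgi.congr_uIoo (by rwa [uIoo_of_le h])
      have B2 : ∫ r in p.1..s, Odee_f (p :: L) η i j r = ∫ r in p.1..s, g r :=
        (intervalIntegral.integral_congr_Ioo_of_le h hfg).symm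
      refine ⟨A1.trans B1, ?_⟩
      rw [← intervalIntegral.integral_add_adjacent_intervals A1 B1, A2, B2, hgint,
        Odee_part_ge hL h]
      ring

theorem part_int_eq {L : List (ℝ × ℝ)} (hL : Adm L) (η : ℝ) {s : ℝ} (hs : 0 ≤ s)
    (hs' : s ≤ dur L) (i j : Fin 2) :
    part L s (η : ℂ) i j = (1 : Mat) i j - Complex.I *
      ∫ r in (0 : ℝ)..s, (((η : ℂ) • s3 + ((seg L r : ℝ) : ℂ) • s1) * part L r (η : ℂ)) i j := by
  have h := (Odee_main hL η s hs hs' i j).2
  simp only [Odee_f] at h
  rw [h]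
  linear_combination (part L s (η : ℂ) i j - (1 : Mat) i j) * Complex.I_mul_I

end Pool.Agent.H5.DF
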