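import Pool.Agent.H5.DF.Defs
import Pool.Agent.H5.DF.Odee
import Pool.Agent.H5.DF.Prb
import Pool.Agent.H5.DF.For

set_option autoImplicit false
open MeasureTheory Set Filter Topology
open scoped ENNReal NNReal FourierTransform

namespace Pool.Agent.H5.DF

/-!
Part ODEP. The differential equation for all `t ≥ 0`: induction on the number of periods,
`prop L (nT + s) = part L s * M^n`, `mass L (nT + s) = seg L s` for `0 ≤ s < T` (at the single point
`s = T` the integrand may be changed), `part L 0 = 1`, `part L T = M`.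
-/

theorem odep_prop {L : List (ℝ × ℝ)} (hL : Adm L) (hne : L ≠ []) (η : ℂ) (n : ℕ) {s : ℝ}
    (hs : 0 ≤ s) (hs' : s ≤ dur L) :
    prop L (n * dur L + s) η = part L s η * mono L η ^ n := by
  have hT := dur_pos hL hne
  rcases hs'.lt_or_eq with h | h
  · have h1 : (n * dur L + s) / dur L = n + s / dur L := by field_simp
    have h2 : ⌊(n : ℝ) + s / dur L⌋ = (n : ℤ) := by
      rw [Int.floor_eq_iff]
      push_cast
      constructor
      · have : 0 ≤ s / dur L := by positivity
        linarith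
      · have : s / dur L < 1 := (div_lt_one hT).mpr h
        linarith
    have h3 : dur L * ((n : ℝ) + s / dur L - ((n : ℤ) : ℝ)) = s := by
      push_cast
      field_simp
      ring
    rw [prop, h1, Int.fract, h2, h3, Int.toNat_natCast]
  · have h1 : (n * dur L + s) / dur L = ((n + 1 : ℕ) : ℝ) := by
      rw [h]
      push_cast
      field_simp
    rw [prop, h1, Int.fract_natCast, mul_zero, part_zero hL, Int.floor_natCast, Int.toNat_natCast,
      one_mul, h, part_dur hL, pow_succ']

theorem odep_mass {L : List (ℝ × ℝ)} (hL : Adm L) (hne : L ≠ []) (n : ℕ) {s : ℝ}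
    (hs : 0 ≤ s) (hs' : s < dur L) : mass L (n * dur L + s) = seg L s := by
  have hT := dur_pos hL hne
  have h1 : (n * dur L + s) / dur L = n + s / dur L := by field_simp
  have h2 : ⌊(n : ℝ) + s / dur L⌋ = (n : ℤ) := by
    rw [Int.floor_eq_iff]
    push_cast
    constructor
    · have : 0 ≤ s / dur L := by positivity
      linarith
    · have : s / dur L < 1 := (div_lt_one hT).mpr hs'
      linarith
  have h3 : dur L * ((n : ℝ) + s / dur L - ((n : ℤ) : ℝ)) = s := by
    push_cast
    field_simp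
    ring
  rw [mass, h1, Int.fract, h2, h3]

theorem odep_mul_cont {S : Set ℝ} {A : ℝ → Mat} (hA : ∀ i j, ContinuousOn (fun t => A t i j) S)
    (B : Mat) (i j : Fin 2) : ContinuousOn (fun t => (B * A t) i j) S := by
  have h : (fun t => (B * A t) i j) = fun t => B i 0 * A t 0 j + B i 1 * A t 1 j := by
    funext t
    rw [Matrix.mul_apply, Fin.sum_univ_two]
  rw [h]
  exact (continuousOn_const.mul (hA 0 j)).add (continuousOn_const.mul (hA 1 j))

theorem odep_cont_mul {S : Set ℝ} {A : ℝ → Mat} (hA : ∀ i j, ContinuousOn (fun t => A t i j) S)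
    (B : Mat) (i j : Fin 2) : ContinuousOn (fun t => (A t * B) i j) S := by
  have h : (fun t => (A t * B) i j) = fun t => A t i 0 * B 0 j + A t i 1 * B 1 j := by
    funext t
    rw [Matrix.mul_apply, Fin.sum_univ_two]
  rw [h]
  exact ((hA i 0).mul continuousOn_const).add ((hA i 1).mul continuousOn_const)

theorem odep_int {m : ℝ → ℝ} (hm : Measurable m) {C : ℝ} (hC : ∀ t, |m t| ≤ C) {a b : ℝ}
    (hab : a ≤ b) {A : ℝ → Mat} (hA : ∀ i j, ContinuousOn (fun t => A t i j) (Icc a b)) (η : ℂ)
    (i j : Fin 2) :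
    IntervalIntegrable (fun s => ((η • s3 + ((m s : ℝ) : ℂ) • s1) * A s) i j) volume a b := by
  have e : (fun s => ((η • s3 + ((m s : ℝ) : ℂ) • s1) * A s) i j) =
      fun s => η * (s3 * A s) i j + ((m s : ℝ) : ℂ) * (s1 * A s) i j := by
    funext s
    rw [Matrix.add_mul, Matrix.smul_mul, Matrix.smul_mul]
    rfl
  rw [e]
  have h1 : ContinuousOn (fun s => η * (s3 * A s) i j) (Icc a b) :=
    continuousOn_const.mul (odep_mul_cont hA s3 i j)
  have h2 := odep_mul_cont hA s1 i j
  refine IntervalIntegrable.add (ContinuousOn.intervalIntegrable (by rwa [uIcc_of_le hab])) ?_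
  rw [intervalIntegrable_iff_integrableOn_Ioc_of_le hab]
  obtain ⟨M, hM⟩ := isCompact_Icc.exists_bound_of_continuousOn h2
  have hC0 : 0 ≤ C := (abs_nonneg _).trans (hC 0)
  refine Integrable.of_bound (C := C * M) ?_ ?_
  · have hm' : AEStronglyMeasurable (fun s => ((m s : ℝ) : ℂ)) (volume.restrict (Ioc a b)) :=
      (Complex.measurable_ofReal.comp hm).aestronglyMeasurable
    exact hm'.mul ((h2.mono Ioc_subset_Icc_self).aestronglyMeasurable measurableSet_Ioc)
  · refine (ae_restrict_iff' measurableSet_Ioc).mpr (Eventually.of_forall fun s hs => ?_)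
    rw [norm_mul, Complex.norm_real, Real.norm_eq_abs]
    exact mul_le_mul (hC s) (hM s ⟨hs.1.le, hs.2⟩) (norm_nonneg _) hC0

theorem odep_piece {L : List (ℝ × ℝ)} (hL : Adm L) (hne : L ≠ []) (η : ℝ) (n : ℕ) (i j : Fin 2) :
    ContinuousOn (fun t => prop L t (η : ℂ) i j) (Icc (n * dur L) ((n + 1 : ℕ) * dur L)) := by
  have h1 : ContinuousOn (fun t => (part L (t - n * dur L) (η : ℂ) * mono L (η : ℂ) ^ n) i j)
      (Icc (n * dur L) ((n + 1 : ℕ) * dur L)) := by
    refine odep_cont_mul (A := fun t => part L (t - n * dur L) (η : ℂ)) (fun i j => ?_) _ i j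
    refine (part_continuousOn hL η i j).comp (by fun_prop) fun t ht => ?_
    have h2 := ht.2
    push_cast at h2
    exact ⟨by linarith [ht.1], by linarith⟩
  refine h1.congr fun t ht => ?_
  have h2 := ht.2
  push_cast at h2
  have h3 := odep_prop hL hne (η : ℂ) n (s := t - n * dur L) (by linarith [ht.1]) (by linarith)
  rw [add_sub_cancel] at h3
  simp only
  rw [h3]

theorem prop_continuousOn {L : List (ℝ × ℝ)} (hL : Adm L) (hne : L ≠ []) (η : ℝ) (i j : Fin 2) :
    ContinuousOn (fun t => prop L t (η : ℂ) i j) (Ici 0) := by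
  have hT := dur_pos hL hne
  have h1 : ∀ n : ℕ, ContinuousOn (fun t => prop L t (η : ℂ) i j) (Icc 0 (n * dur L)) := by
    intro n
    induction n with
    | zero => simp
    | succ n ih =>
      have h2 := ih.union_of_isClosed (odep_piece hL hne η n i j) isClosed_Icc isClosed_Icc
      rwa [Icc_union_Icc_eq_Icc (by positivity) (by gcongr; omega)] at h2
  intro t ht
  obtain ⟨n, hn⟩ := exists_nat_gt (t / dur L)
  rw [div_lt_iff₀ hT] at hn
  have h2 := h1 n t ⟨ht, hn.le⟩
  refine h2.mono_of_mem_nhdsWithin ?_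
  have h3 : Ici (0 : ℝ) ∩ Iio (n * dur L) ⊆ Icc 0 (n * dur L) := fun x hx => ⟨hx.1, hx.2.le⟩
  exact mem_of_superset (inter_mem self_mem_nhdsWithin
    (mem_nhdsWithin_of_mem_nhds (Iio_mem_nhds hn))) h3

theorem odep_Qint {L : List (ℝ × ℝ)} (hL : Adm L) (hne : L ≠ []) (η : ℝ) (i j : Fin 2) {a b : ℝ}
    (ha : 0 ≤ a) (hab : a ≤ b) :
    IntervalIntegrable (fun s => (((η : ℂ) • s3 + nu L s) * prop L s (η : ℂ)) i j) volume a b := by
  obtain ⟨C, hC⟩ := mass_bdd L
  exact odep_int (mass_measurable L) hC hab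
    (fun i j => (prop_continuousOn hL hne η i j).mono fun x hx => ha.trans hx.1) (η : ℂ) i j

theorem odep_step {L : List (ℝ × ℝ)} (hL : Adm L) (hne : L ≠ []) (η : ℝ) (n : ℕ) {s : ℝ}
    (hs : 0 ≤ s) (hs' : s ≤ dur L) (i j : Fin 2) :
    prop L (n * dur L + s) (η : ℂ) i j = (mono L (η : ℂ) ^ n) i j - Complex.I *
      ∫ r in (n * dur L)..(n * dur L + s), (((η : ℂ) • s3 + nu L r) * prop L r (η : ℂ)) i j := by
  obtain ⟨C, hC⟩ := seg_bdd L
  have h1 : (∫ r in (n * dur L)..(n * dur L + s), (((η : ℂ) • s3 + nu L r) *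
      prop L r (η : ℂ)) i j) = ∫ r in (0 : ℝ)..s, (((η : ℂ) • s3 + nu L (r + n * dur L)) *
      prop L (r + n * dur L) (η : ℂ)) i j := by
    rw [intervalIntegral.integral_comp_add_right (fun r => (((η : ℂ) • s3 + nu L r) *
      prop L r (η : ℂ)) i j) (n * dur L), zero_add, add_comm s]
  have hae : ∀ᵐ x ∂(volume : Measure ℝ), x ≠ dur L := by
    rw [ae_iff]
    simp
  have h2 : (∫ r in (0 : ℝ)..s, (((η : ℂ) • s3 + nu L (r + n * dur L)) *
      prop L (r + n * dur L) (η : ℂ)) i j) = ∫ r in (0 : ℝ)..s,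
        ((((η : ℂ) • s3 + ((seg L r : ℝ) : ℂ) • s1) * part L r (η : ℂ)) i 0 *
          (mono L (η : ℂ) ^ n) 0 j +
        (((η : ℂ) • s3 + ((seg L r : ℝ) : ℂ) • s1) * part L r (η : ℂ)) i 1 *
          (mono L (η : ℂ) ^ n) 1 j) := by
    refine intervalIntegral.integral_congr_ae ?_
    filter_upwards [hae] with r hr hrs
    rw [uIoc_of_le hs] at hrs
    have h3 : r < dur L := lt_of_le_of_ne (hrs.2.trans hs') hr
    rw [add_comm r, odep_prop hL hne _ n hrs.1.le h3.le, nu, odep_mass hL hne n hrs.1.le h3,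
      ← Matrix.mul_assoc, Matrix.mul_apply, Fin.sum_univ_two]
  have hint : ∀ k, IntervalIntegrable (fun r => (((η : ℂ) • s3 + ((seg L r : ℝ) : ℂ) • s1) *
      part L r (η : ℂ)) i k) volume 0 s := fun k =>
    odep_int (seg_measurable L) hC hs
      (fun i j => (part_continuousOn hL η i j).mono (Icc_subset_Icc_right hs')) (η : ℂ) i k
  rw [h1, h2, intervalIntegral.integral_add ((hint 0).mul_const _) ((hint 1).mul_const _),
    intervalIntegral.integral_mul_const, intervalIntegral.integral_mul_const,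
    odep_prop hL hne _ n hs hs', Matrix.mul_apply, Fin.sum_univ_two,
    part_int_eq hL η hs hs' i 0, part_int_eq hL η hs hs' i 1]
  have h3 : (mono L (η : ℂ) ^ n) i j = (1 : Mat) i 0 * (mono L (η : ℂ) ^ n) 0 j +
      (1 : Mat) i 1 * (mono L (η : ℂ) ^ n) 1 j := by
    conv_lhs => rw [← Matrix.one_mul (mono L (η : ℂ) ^ n)]
    rw [Matrix.mul_apply, Fin.sum_univ_two]
  rw [h3]
  ring

theorem prop_int_eq {L : List (ℝ × ℝ)} (hL : Adm L) (hne : L ≠ []) (η : ℝ) {t : ℝ} (ht : 0 ≤ t)
    (i j : Fin 2) :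
    prop L t (η : ℂ) i j = (1 : Mat) i j - Complex.I *
      ∫ s in (0 : ℝ)..t, (((η : ℂ) • s3 + nu L s) * prop L s (η : ℂ)) i j := by
  have hT := dur_pos hL hne
  have h1 : ∀ n : ℕ, (mono L (η : ℂ) ^ n) i j = (1 : Mat) i j - Complex.I *
      ∫ s in (0 : ℝ)..(n * dur L), (((η : ℂ) • s3 + nu L s) * prop L s (η : ℂ)) i j := by
    intro n
    induction n with
    | zero => simp
    | succ n ih =>
      have h2 := odep_step hL hne η n hT.le le_rfl i j
      rw [odep_prop hL hne _ n hT.le le_rfl, part_dur hL, ← pow_succ', ih] at h2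
      have h3 := intervalIntegral.integral_add_adjacent_intervals
        (odep_Qint hL hne η i j (le_refl 0) (b := n * dur L) (by positivity))
        (odep_Qint hL hne η i j (a := n * dur L) (b := n * dur L + dur L) (by positivity)
          (by linarith))
      have e : ((n + 1 : ℕ) : ℝ) * dur L = n * dur L + dur L := by push_cast; ring
      rw [e, ← h3, h2]
      ring
  have hn0 : (0 : ℤ) ≤ ⌊t / dur L⌋ := Int.floor_nonneg.mpr (by positivity)
  obtain ⟨n, hn⟩ := Int.eq_ofNat_of_zero_le hn0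
  have hn1 : (n : ℝ) ≤ t / dur L := by
    have := Int.floor_le (t / dur L)
    rw [hn] at this
    exact_mod_cast this
  have hn2 : t / dur L < n + 1 := by
    have := Int.lt_floor_add_one (t / dur L)
    rw [hn] at this
    exact_mod_cast this
  rw [le_div_iff₀ hT] at hn1
  rw [div_lt_iff₀ hT] at hn2
  have h2 := odep_step hL hne η n (s := t - n * dur L) (by linarith) (by linarith) i j
  rw [add_sub_cancel, h1 n] at h2
  have h3 := intervalIntegral.integral_add_adjacent_intervals
    (odep_Qint hL hne η i j (le_refl 0) (b := n * dur L) (by positivity))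
    (odep_Qint hL hne η i j (a := n * dur L) (b := t) (by positivity) hn1)
  rw [h2, ← h3]
  ring

end Pool.Agent.H5.DF
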