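import Pool.Agent.H5.DF.Defs
import Pool.Agent.H5.DF.Odep
import Pool.Agent.H5.DF.For
import Pool.Agent.H5.DF.Prb

set_option autoImplicit false
open MeasureTheory Set Filter Topology
open scoped ENNReal NNReal FourierTransform

namespace Pool.Agent.H5.DF

/-!
Part UNI. `act (prop L t η) v` solves the integral equation (from `prop_int_eq`, entry by entry) and
continuous solutions are unique (Grönwall: the difference `w` satisfies
`‖w t‖ ≤ K ∫ s in 0..t, ‖w s‖`, `K` a bound for `‖act (η σ₃ + nu L s)‖`, so `w = 0`).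
-/

theorem act_add (A B : Mat) (v : V) : act (A + B) v = act A v + act B v := by
  rw [act, Matrix.add_mulVec]; rfl

theorem act_sub_vec (A : Mat) (v w : V) : act A (v - w) = act A v - act A w := by
  rw [act, WithLp.ofLp_sub, Matrix.mulVec_sub]; rfl

theorem act_smul_vec (A : Mat) (c : ℂ) (v : V) : act A (c • v) = c • act A v := by
  rw [act, WithLp.ofLp_smul, Matrix.mulVec_smul]; rfl

theorem act_mul (A B : Mat) (v : V) : act (A * B) v = act A (act B v) := by
  rw [act, act, act, ← Matrix.mulVec_mulVec]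

theorem act_one (v : V) : act 1 v = v := by
  rw [act, Matrix.one_mulVec]

/-- coordinates -/
noncomputable def uniP (i : Fin 2) : V →L[ℂ] ℂ := EuclideanSpace.proj i

theorem uniP_apply (i : Fin 2) (v : V) : uniP i v = v i := rfl

theorem uni_act_apply (A : Mat) (v : V) (i : Fin 2) :
    act A v i = A i 0 * v 0 + A i 1 * v 1 := by
  change ∑ j, A i j * v j = _
  rw [Fin.sum_univ_two]

theorem act_norm_le {A : Mat} {C : ℝ} (hA : ∀ i j, ‖A i j‖ ≤ C) (v : V) :
    ‖act A v‖ ≤ 2 * C * ‖v‖ := by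
  have hC : 0 ≤ C := (norm_nonneg _).trans (hA 0 0)
  have h1 : ∀ i, ‖act A v i‖ ≤ C * (‖v 0‖ + ‖v 1‖) := by
    intro i
    rw [uni_act_apply]
    refine (norm_add_le _ _).trans ?_
    rw [norm_mul, norm_mul, mul_add]
    exact add_le_add (mul_le_mul_of_nonneg_right (hA i 0) (norm_nonneg _))
      (mul_le_mul_of_nonneg_right (hA i 1) (norm_nonneg _))
  have h2 : ‖v‖ ^ 2 = ‖v 0‖ ^ 2 + ‖v 1‖ ^ 2 := by
    rw [EuclideanSpace.norm_sq_eq, Fin.sum_univ_two]
  have h3 : ‖act A v‖ ^ 2 = ‖act A v 0‖ ^ 2 + ‖act A v 1‖ ^ 2 := by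
    rw [EuclideanSpace.norm_sq_eq, Fin.sum_univ_two]
  refine pow_le_pow_left₀ (norm_nonneg _) le_rfl 2 |>.trans ?_ |> fun h => abs_le_of_sq_le_sq' h
    (by positivity) |>.2
  rw [h3, mul_pow, h2]
  have h4 := pow_le_pow_left₀ (norm_nonneg _) (h1 0) 2
  have h5 := pow_le_pow_left₀ (norm_nonneg _) (h1 1) 2
  have h6 : (‖v 0‖ + ‖v 1‖) ^ 2 ≤ 2 * (‖v 0‖ ^ 2 + ‖v 1‖ ^ 2) := by
    nlinarith [sq_nonneg (‖v 0‖ - ‖v 1‖)]
  have h7 : (C * (‖v 0‖ + ‖v 1‖)) ^ 2 ≤ C ^ 2 * (2 * (‖v 0‖ ^ 2 + ‖v 1‖ ^ 2)) := by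
    rw [mul_pow]
    exact mul_le_mul_of_nonneg_left h6 (sq_nonneg C)
  nlinarith

theorem uni_cont {S : Set ℝ} {A : ℝ → Mat} {w : ℝ → V} (hA : ∀ i j, ContinuousOn (fun t => A t i j) S)
    (hw : ContinuousOn w S) : ContinuousOn (fun t => act (A t) (w t)) S := by
  have h : ∀ i, ContinuousOn (fun t => act (A t) (w t) i) S := by
    intro i
    have h1 : ∀ j, ContinuousOn (fun t => w t j) S := fun j =>
      (uniP j).continuous.comp_continuousOn hw
    have h2 : (fun t => act (A t) (w t) i) = fun t => A t i 0 * w t 0 + A t i 1 * w t 1 :=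
      funext fun t => uni_act_apply _ _ _
    rw [h2]
    exact ((hA i 0).mul (h1 0)).add ((hA i 1).mul (h1 1))
  have h3 : ContinuousOn (fun t => WithLp.ofLp (act (A t) (w t))) S := continuousOn_pi.mpr h
  exact (PiLp.continuous_toLp 2 (fun _ : Fin 2 => ℂ)).comp_continuousOn h3

theorem uni_X_le {L : List (ℝ × ℝ)} {Cm : ℝ} (hCm : ∀ t, |mass L t| ≤ Cm) (η s : ℝ) (i j : Fin 2) :
    ‖((η : ℂ) • s3 + nu L s) i j‖ ≤ |η| + Cm := by
  have h0 := abs_nonneg (mass L s)
  have h1 := hCm s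
  have h2 := abs_nonneg η
  fin_cases i <;> fin_cases j <;>
    simp [s3, nu, s1, Complex.norm_real, Real.norm_eq_abs] <;> linarith

/-- the integrand is integrable -/
theorem uni_int {L : List (ℝ × ℝ)} (η : ℝ) {w : ℝ → V} (hw : ContinuousOn w (Ici 0)) {t : ℝ}
    (ht : 0 ≤ t) :
    IntervalIntegrable (fun s => act ((η : ℂ) • s3 + nu L s) (w s)) volume 0 t := by
  rw [intervalIntegrable_iff_integrableOn_Ioc_of_le ht]
  obtain ⟨Cm, hCm⟩ := mass_bdd L
  have hw' : ContinuousOn w (Icc 0 t) := hw.mono Icc_subset_Ici_self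
  obtain ⟨M, hM⟩ := isCompact_Icc.exists_bound_of_continuousOn hw'
  have hC : 0 ≤ |η| + Cm := (norm_nonneg _).trans (uni_X_le hCm η 0 0 0)
  refine Integrable.of_bound (C := 2 * (|η| + Cm) * M) ?_ ?_
  · have e : (fun s => act ((η : ℂ) • s3 + nu L s) (w s)) =
        fun s => act ((η : ℂ) • s3) (w s) + ((mass L s : ℝ) : ℂ) • act s1 (w s) := by
      funext s
      rw [act_add]
      congr 1
      rw [nu, act, Matrix.smul_mulVec]
      rfl
    rw [e]
    have hc : ∀ A : Mat, AEStronglyMeasurable (fun s => act A (w s)) (volume.restrict (Ioc 0 t)) :=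
      fun A => ((uni_cont (A := fun _ => A) (fun i j => continuousOn_const)
        (hw'.mono Ioc_subset_Icc_self))).aestronglyMeasurable measurableSet_Ioc
    have hm : AEStronglyMeasurable (fun s => ((mass L s : ℝ) : ℂ)) (volume.restrict (Ioc 0 t)) :=
      (Complex.measurable_ofReal.comp (mass_measurable L)).aestronglyMeasurable
    exact (hc _).add (hm.smul (hc s1))
  · refine (ae_restrict_iff' measurableSet_Ioc).mpr (Eventually.of_forall fun s hs => ?_)
    refine (act_norm_le (fun i j => uni_X_le hCm η s i j) (w s)).trans ?_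
    exact mul_le_mul_of_nonneg_left (hM s ⟨hs.1.le, hs.2⟩) (by positivity)

theorem prop_sol {L : List (ℝ × ℝ)} (hL : Adm L) (hne : L ≠ []) (η : ℝ) (v : V) :
    ContinuousOn (fun t => act (prop L t (η : ℂ)) v) (Ici 0) ∧ ∀ t : ℝ, 0 ≤ t →
      act (prop L t (η : ℂ)) v = v - Complex.I •
        ∫ s in (0 : ℝ)..t, act ((η : ℂ) • s3 + nu L s) (act (prop L s (η : ℂ)) v) := by
  have hc : ContinuousOn (fun t => act (prop L t (η : ℂ)) v) (Ici 0) :=
    uni_cont (fun i j => prop_continuousOn hL hne η i j) continuousOn_const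
  refine ⟨hc, fun t ht => ?_⟩
  have hint := uni_int (L := L) η hc ht
  -- integrability of the entries
  have hX : ∀ j : Fin 2, ContinuousOn (fun t => act (prop L t (η : ℂ))
      (EuclideanSpace.single j (1 : ℂ))) (Ici 0) := fun j =>
    uni_cont (fun i j => prop_continuousOn hL hne η i j) continuousOn_const
  have hent : ∀ i j : Fin 2, ∀ s, (((η : ℂ) • s3 + nu L s) * prop L s (η : ℂ)) i j =
      (uniP i) (act ((η : ℂ) • s3 + nu L s) (act (prop L s (η : ℂ))
        (EuclideanSpace.single j (1 : ℂ)))) := by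
    intro i j s
    rw [← act_mul]
    change _ = act _ _ i
    rw [uni_act_apply]
    fin_cases j <;> simp
  have hie : ∀ i j : Fin 2, IntervalIntegrable
      (fun s => (((η : ℂ) • s3 + nu L s) * prop L s (η : ℂ)) i j) volume 0 t := by
    intro i j
    have h1 := uni_int (L := L) η (hX j) ht
    have h2 : IntervalIntegrable (fun s => (uniP i)
        (act ((η : ℂ) • s3 + nu L s) (act (prop L s (η : ℂ))
        (EuclideanSpace.single j (1 : ℂ))))) volume 0 t :=
      ⟨(uniP i).integrable_comp h1.1,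
        (uniP i).integrable_comp h1.2⟩
    exact h2.congr fun s _ => (hent i j s).symm
  ext i
  rw [uni_act_apply, prop_int_eq hL hne η ht, prop_int_eq hL hne η ht]
  have h1 : (v - Complex.I • ∫ s in (0 : ℝ)..t, act ((η : ℂ) • s3 + nu L s)
      (act (prop L s (η : ℂ)) v)) i = v i - Complex.I * ∫ s in (0 : ℝ)..t,
        (((((η : ℂ) • s3 + nu L s) * prop L s (η : ℂ)) i 0) * v 0 +
        ((((η : ℂ) • s3 + nu L s) * prop L s (η : ℂ)) i 1) * v 1) := by
    have h2 := (uniP i).intervalIntegral_comp_comm hint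
    change v i - Complex.I * (uniP i) (∫ s in (0 : ℝ)..t, act ((η : ℂ) • s3 + nu L s) (act (prop L s (η : ℂ)) v)) = _
    rw [← h2]
    congr 2
    refine intervalIntegral.integral_congr fun s _ => ?_
    simp only
    rw [← act_mul]
    exact uni_act_apply _ _ _
  rw [h1, intervalIntegral.integral_add ((hie i 0).mul_const _) ((hie i 1).mul_const _),
    intervalIntegral.integral_mul_const, intervalIntegral.integral_mul_const]
  have hone := uni_act_apply 1 v i
  rw [act_one] at hone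
  linear_combination -hone

theorem sol_unique {L : List (ℝ × ℝ)} (hL : Adm L) (hne : L ≠ []) (η : ℝ) {F : ℝ → V}
    (hc : ContinuousOn F (Ici 0))
    (h : ∀ t, 0 ≤ t → F t = F 0 - Complex.I •
      ∫ s in (0 : ℝ)..t, act ((η : ℂ) • s3 + nu L s) (F s)) {t : ℝ} (ht : 0 ≤ t) :
    F t = act (prop L t (η : ℂ)) (F 0) := by
  obtain ⟨hc', h'⟩ := prop_sol hL hne η (F 0)
  obtain ⟨Cm, hCm⟩ := mass_bdd L
  set K : ℝ := 2 * (|η| + Cm) with hK
  have hK0 : 0 ≤ K := by
    have : 0 ≤ |η| + Cm := (norm_nonneg _).trans (uni_X_le hCm η 0 0 0)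
    positivity
  set w : ℝ → V := fun t => F t - act (prop L t (η : ℂ)) (F 0) with hw
  have hwc : ContinuousOn w (Ici 0) := hc.sub hc'
  have hwi : ∀ t, 0 ≤ t → ‖w t‖ ≤ K * ∫ s in (0 : ℝ)..t, ‖w s‖ := by
    intro t ht
    have h1 : w t = -(Complex.I • ∫ s in (0 : ℝ)..t, act ((η : ℂ) • s3 + nu L s) (w s)) := by
      have h2 : (∫ s in (0 : ℝ)..t, act ((η : ℂ) • s3 + nu L s) (w s)) =
          (∫ s in (0 : ℝ)..t, act ((η : ℂ) • s3 + nu L s) (F s)) -
          ∫ s in (0 : ℝ)..t, act ((η : ℂ) • s3 + nu L s) (act (prop L s (η : ℂ)) (F 0)) := by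
        rw [← intervalIntegral.integral_sub (uni_int η hc ht) (uni_int η hc' ht)]
        refine intervalIntegral.integral_congr fun s _ => ?_
        exact act_sub_vec _ _ _
      rw [h2, smul_sub]
      have h3 := h t ht
      have h4 := h' t ht
      simp only [hw]
      rw [h4]
      nth_rewrite 1 [h3]
      abel
    rw [h1, norm_neg, norm_smul, Complex.norm_I, one_mul, ← intervalIntegral.integral_const_mul]
    refine intervalIntegral.norm_integral_le_of_norm_le ht ?_ ?_
    · exact Eventually.of_forall fun s _ => act_norm_le (fun i j => uni_X_le hCm η s i j) (w s)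
    · refine (ContinuousOn.intervalIntegrable ?_).const_mul _
      rw [uIcc_of_le ht]
      exact (hwc.mono Icc_subset_Ici_self).norm
  -- Grönwall
  set W : ℝ → ℝ := fun s => ‖w (max s 0)‖ with hW
  have hWc : Continuous W :=
    (hwc.comp_continuous (by fun_prop) fun s => le_max_right s 0).norm
  have hWi : ∀ t, 0 ≤ t → (∫ s in (0 : ℝ)..t, ‖w s‖) = ∫ s in (0 : ℝ)..t, W s := by
    intro t ht
    refine intervalIntegral.integral_congr fun s hs => ?_
    rw [uIcc_of_le ht] at hs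
    simp only [hW]
    rw [max_eq_left hs.1]
  have hd : ∀ x, HasDerivAt (fun t => ∫ s in (0 : ℝ)..t, W s) (W x) x := fun x =>
    (hWc.integral_hasStrictDerivAt 0 x).hasDerivAt
  have h0 : ∀ x ∈ Icc 0 t, ‖∫ s in (0 : ℝ)..x, W s‖ ≤ gronwallBound 0 K 0 (x - 0) := by
    refine norm_le_gronwallBound_of_norm_deriv_right_le (f' := W)
      (fun x _ => (hd x).continuousAt.continuousWithinAt)
      (fun x _ => (hd x).hasDerivWithinAt) (by simp) fun x hx => ?_
    have h1 := hwi x hx.1
    rw [hWi x hx.1] at h1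
    rw [add_zero, Real.norm_eq_abs, Real.norm_eq_abs, abs_of_nonneg (norm_nonneg _)]
    simp only [hW]
    rw [max_eq_left hx.1]
    exact h1.trans (mul_le_mul_of_nonneg_left (le_abs_self _) hK0)
  have h1 := h0 t ⟨ht, le_rfl⟩
  rw [gronwallBound_ε0_δ0] at h1
  have h2 := hwi t ht
  rw [hWi t ht, norm_le_zero_iff.mp h1, mul_zero] at h2
  exact sub_eq_zero.mp (norm_le_zero_iff.mp h2)

end Pool.Agent.H5.DF
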