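import Pool.Agent.H5.DF.Defs
import Pool.Agent.H5.DF.Prb
import Pool.Agent.H5.DF.Uni

set_option autoImplicit false
open MeasureTheory Set Filter Topology
open scoped ENNReal NNReal FourierTransform

namespace Pool.Agent.H5.DF

/-!
Part KIN. From the scalar kernel bound to a bound for the inverse Fourier transform.
Paper proof: `𝓕⁻ H x = ∫ e^{2πixξ} act (prop L t (-2πξ)) ((1+(2πξ)²)^{-r/2} ∫ e^{-2πiyξ} g(y) dy) dξ`; as
`(1+(2πξ)²)^{-r/2}` is integrable (`r ≥ 2`), entries of `prop` are bounded by `1` and `g` is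
integrable, Fubini gives `∫ act (K(x-y)) (g y) dy` with
`K(z)_{ij} = ∫ e^{2πizξ}(1+(2πξ)²)^{-r/2} prop_{ij}(-2πξ) dξ = (1/2π) ∫ e^{-izη}(1+η²)^{-r/2} prop_{ij}(η) dη`
(`η = -2πξ`), so `|K_{ij}| ≤ C/(2π) ≤ C` and `‖act K v‖ ≤ 2 C ‖v‖` (`act_norm_le`).
-/

/-- the symbol -/
noncomputable def symb (L : List (ℝ × ℝ)) (r t : ℝ) (g : ℝ → V) (ξ : ℝ) : V :=
  act (prop L t ((-(2 * Real.pi * ξ) : ℝ) : ℂ))
    ((((1 + (2 * Real.pi * ξ) ^ 2) ^ (-(r / 2)) : ℝ) : ℂ) • (𝓕 g : ℝ → V) ξ)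

theorem KIN_act_apply (A : Mat) (v : V) (i : Fin 2) :
    (act A v).ofLp i = ∑ j, A i j * v.ofLp j := rfl

/-- `act A` as a continuous linear map -/
noncomputable def KIN_L (A : Mat) : V →L[ℂ] V :=
  LinearMap.toContinuousLinearMap (Matrix.toEuclideanLin A)

theorem KIN_L_apply (A : Mat) (v : V) : KIN_L A v = act A v := rfl

theorem KIN_cont {X : Type*} [TopologicalSpace X] {M : X → Mat} {v : X → V}
    (hM : ∀ i j, Continuous fun ξ => M ξ i j) (hv : Continuous v) :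
    Continuous fun ξ => act (M ξ) (v ξ) := by
  unfold act
  refine (PiLp.continuous_toLp 2 _).comp (continuous_pi fun i => ?_)
  have : (fun ξ => (M ξ).mulVec (v ξ).ofLp i) = fun ξ => ∑ j, M ξ i j * (v ξ).ofLp j := by
    funext ξ
    rfl
  rw [this]
  refine continuous_finsetSum _ fun j _ => (hM i j).mul ?_
  exact (EuclideanSpace.proj (𝕜 := ℂ) j).continuous.comp hv

/-- the weight -/
noncomputable def KIN_w (r ξ : ℝ) : ℝ := (1 + (2 * Real.pi * ξ) ^ 2) ^ (-(r / 2))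

theorem KIN_w_pos (r ξ : ℝ) : 0 < KIN_w r ξ := Real.rpow_pos_of_pos (by positivity) _

theorem KIN_w_le {r : ℝ} (hr : 2 ≤ r) (ξ : ℝ) : KIN_w r ξ ≤ (1 + (2 * Real.pi * ξ) ^ 2)⁻¹ := by
  unfold KIN_w
  rw [← Real.rpow_neg_one]
  apply Real.rpow_le_rpow_of_exponent_le
  · have := sq_nonneg (2 * Real.pi * ξ)
    linarith
  · linarith

theorem KIN_w_le_one {r : ℝ} (hr : 2 ≤ r) (ξ : ℝ) : KIN_w r ξ ≤ 1 := by
  refine (KIN_w_le hr ξ).trans (inv_le_one_of_one_le₀ ?_)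
  have := sq_nonneg (2 * Real.pi * ξ)
  linarith

theorem KIN_w_cont (r : ℝ) : Continuous (KIN_w r) := by
  unfold KIN_w
  refine Continuous.rpow_const (by fun_prop) fun x => Or.inl ?_
  positivity

theorem KIN_w_int {r : ℝ} (hr : 2 ≤ r) : Integrable (KIN_w r) := by
  have h1 : Integrable fun ξ : ℝ => (1 + (2 * Real.pi * ξ) ^ 2)⁻¹ :=
    (integrable_inv_one_add_sq).comp_mul_left' (by positivity)
  refine h1.mono' (KIN_w_cont r).aestronglyMeasurable (Eventually.of_forall fun ξ => ?_)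
  rw [Real.norm_of_nonneg (KIN_w_pos r ξ).le]
  exact KIN_w_le hr ξ

theorem KIN_fourier_cont {g : ℝ → V} (hg : Integrable g) : Continuous (𝓕 g : ℝ → V) :=
  VectorFourier.fourierIntegral_continuous Real.continuous_fourierChar
    (innerSL ℝ).continuous₂ hg

theorem KIN_fourier_le (g : ℝ → V) (ξ : ℝ) : ‖(𝓕 g : ℝ → V) ξ‖ ≤ ∫ y, ‖g y‖ :=
  VectorFourier.norm_fourierIntegral_le_integral_norm _ _ _ _ _

theorem KIN_symb_cont {L : List (ℝ × ℝ)} (hL : Adm L) (r t : ℝ) {g : ℝ → V}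
    (hg : Integrable g) : Continuous (symb L r t g) := by
  unfold symb
  refine KIN_cont (fun i j => ?_) ?_
  · have h1 := prop_continuous hL t i j
    exact h1.comp (by fun_prop : Continuous fun ξ : ℝ => -(2 * Real.pi * ξ))
  · have h1 : Continuous fun ξ : ℝ => ((KIN_w r ξ : ℝ) : ℂ) :=
      Complex.continuous_ofReal.comp (KIN_w_cont r)
    exact h1.smul (KIN_fourier_cont hg)

theorem KIN_symb_le {L : List (ℝ × ℝ)} (hL : Adm L) (r t : ℝ) (g : ℝ → V) (ξ : ℝ) :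
    ‖symb L r t g ξ‖ ≤ 2 * (∫ y, ‖g y‖) * KIN_w r ξ := by
  unfold symb
  refine (act_norm_le (C := 1) (fun i j => prop_entry_le hL t _ i j) _).trans ?_
  rw [norm_smul, Complex.norm_real]
  have h1 : ‖(1 + (2 * Real.pi * ξ) ^ 2) ^ (-(r / 2))‖ = KIN_w r ξ :=
    Real.norm_of_nonneg (KIN_w_pos r ξ).le
  rw [h1]
  have h2 := mul_le_mul_of_nonneg_left (KIN_fourier_le g ξ) (KIN_w_pos r ξ).le
  linarith

theorem symb_memLp {L : List (ℝ × ℝ)} (hL : Adm L) {r : ℝ} (hr : 2 ≤ r) (t : ℝ) {g : ℝ → V}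
    (hg : Integrable g) : MemLp (symb L r t g) 1 volume ∧ MemLp (symb L r t g) 2 volume := by
  have hm := (KIN_symb_cont hL r t hg).aestronglyMeasurable (μ := volume)
  have hA : 0 ≤ ∫ y, ‖g y‖ := integral_nonneg fun y => norm_nonneg _
  constructor
  · rw [memLp_one_iff_integrable]
    refine ((KIN_w_int hr).const_mul (2 * (∫ y, ‖g y‖))).mono' hm
      (Eventually.of_forall fun ξ => ?_)
    exact KIN_symb_le hL r t g ξ
  · rw [memLp_two_iff_integrable_sq_norm hm]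
    refine ((KIN_w_int hr).const_mul ((2 * (∫ y, ‖g y‖)) ^ 2)).mono' (hm.norm.pow 2)
      (Eventually.of_forall fun ξ => ?_)
    rw [Real.norm_of_nonneg (by positivity)]
    have h1 := KIN_symb_le hL r t g ξ
    have h2 := KIN_w_pos r ξ
    have h3 := KIN_w_le_one hr ξ
    calc ‖symb L r t g ξ‖ ^ 2 ≤ (2 * (∫ y, ‖g y‖) * KIN_w r ξ) ^ 2 :=
          pow_le_pow_left₀ (norm_nonneg _) h1 2
      _ = (2 * (∫ y, ‖g y‖)) ^ 2 * (KIN_w r ξ * KIN_w r ξ) := by ring
      _ ≤ (2 * (∫ y, ‖g y‖)) ^ 2 * (KIN_w r ξ * 1) := by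
          apply mul_le_mul_of_nonneg_left _ (by positivity)
          exact mul_le_mul_of_nonneg_left h3 h2.le
      _ = _ := by ring

/-- the matrix of the integrand -/
noncomputable def KIN_M (L : List (ℝ × ℝ)) (r t : ℝ) (x : ℝ) (z : ℝ × ℝ) : Mat :=
  Matrix.of fun i j => Complex.exp (((2 * Real.pi * ((x - z.2) * z.1) : ℝ) : ℂ) * Complex.I) *
    (KIN_w r z.1 : ℂ) * prop L t ((-(2 * Real.pi * z.1) : ℝ) : ℂ) i j

theorem KIN_M_apply (L : List (ℝ × ℝ)) (r t : ℝ) (x : ℝ) (z : ℝ × ℝ) (i j : Fin 2) :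
    KIN_M L r t x z i j =
      Complex.exp (((2 * Real.pi * ((x - z.2) * z.1) : ℝ) : ℂ) * Complex.I) *
      (KIN_w r z.1 : ℂ) * prop L t ((-(2 * Real.pi * z.1) : ℝ) : ℂ) i j := rfl

theorem KIN_M_cont {L : List (ℝ × ℝ)} (hL : Adm L) (r t x : ℝ) (i j : Fin 2) :
    Continuous fun z => KIN_M L r t x z i j := by
  simp only [KIN_M_apply]
  have h1 : Continuous fun z : ℝ × ℝ =>
      Complex.exp (((2 * Real.pi * ((x - z.2) * z.1) : ℝ) : ℂ) * Complex.I) := by
    refine Complex.continuous_exp.comp ?_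
    refine Continuous.mul ?_ continuous_const
    exact Complex.continuous_ofReal.comp (by fun_prop)
  have h2 : Continuous fun z : ℝ × ℝ => (KIN_w r z.1 : ℂ) :=
    Complex.continuous_ofReal.comp ((KIN_w_cont r).comp continuous_fst)
  have h3 : Continuous fun z : ℝ × ℝ => prop L t ((-(2 * Real.pi * z.1) : ℝ) : ℂ) i j :=
    (prop_continuous hL t i j).comp
      (by fun_prop : Continuous fun z : ℝ × ℝ => -(2 * Real.pi * z.1))
  exact (h1.mul h2).mul h3

theorem KIN_M_le {L : List (ℝ × ℝ)} (hL : Adm L) (r t x : ℝ) (z : ℝ × ℝ) (i j : Fin 2) :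
    ‖KIN_M L r t x z i j‖ ≤ KIN_w r z.1 := by
  rw [KIN_M_apply, norm_mul, norm_mul, Complex.norm_exp_ofReal_mul_I, one_mul, Complex.norm_real,
    Real.norm_of_nonneg (KIN_w_pos r z.1).le]
  exact mul_le_of_le_one_right (KIN_w_pos r z.1).le (prop_entry_le hL t _ i j)

/-- the integrand -/
noncomputable def KIN_F (L : List (ℝ × ℝ)) (r t : ℝ) (g : ℝ → V) (x ξ y : ℝ) : V :=
  act (KIN_M L r t x (ξ, y)) (g y)

theorem KIN_F_norm {L : List (ℝ × ℝ)} (hL : Adm L) (r t : ℝ) (g : ℝ → V) (x ξ y : ℝ) :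
    ‖KIN_F L r t g x ξ y‖ ≤ 2 * (KIN_w r ξ * ‖g y‖) := by
  unfold KIN_F
  refine (act_norm_le (C := KIN_w r ξ) (fun i j => ?_) _).trans (by rw [mul_assoc])
  exact KIN_M_le hL r t x (ξ, y) i j

theorem KIN_F_int {L : List (ℝ × ℝ)} (hL : Adm L) {r : ℝ} (hr : 2 ≤ r) (t : ℝ) {g : ℝ → V}
    (hg : Integrable g) (x : ℝ) :
    Integrable (Function.uncurry (KIN_F L r t g x)) (volume.prod volume) := by
  have h1 : Integrable (fun z : ℝ × ℝ => KIN_w r z.1 * ‖g z.2‖) (volume.prod volume) :=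
    (KIN_w_int hr).mul_prod hg.norm
  refine (h1.const_mul 2).mono' ?_ (Eventually.of_forall fun z => KIN_F_norm hL r t g x z.1 z.2)
  have h2 : Continuous fun q : (ℝ × ℝ) × V => act (KIN_M L r t x q.1) q.2 :=
    KIN_cont (fun i j => (KIN_M_cont hL r t x i j).comp continuous_fst) continuous_snd
  have h3 : AEStronglyMeasurable (fun z : ℝ × ℝ => ((z, g z.2) : (ℝ × ℝ) × V))
      (volume.prod volume) :=
    (continuous_id.aestronglyMeasurable).prodMk hg.aestronglyMeasurable.comp_snd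
  have h4 := h2.comp_aestronglyMeasurable h3
  exact h4

theorem KIN_inner {L : List (ℝ × ℝ)} (hL : Adm L) {r t C : ℝ} (hr : 2 ≤ r)
    (hk : ∀ (x : ℝ) (i j : Fin 2),
      ‖∫ η : ℝ, Complex.exp (Complex.I * x * η) * (((1 + η ^ 2) ^ (-(r / 2)) : ℝ) : ℂ) *
        prop L t (η : ℂ) i j‖ ≤ C) (g : ℝ → V) (x y : ℝ) :
    ‖∫ ξ, KIN_F L r t g x ξ y‖ ≤ 2 * C * ‖g y‖ := by
  -- entries
  have hcy : Continuous fun ξ : ℝ => ((ξ, y) : ℝ × ℝ) := by fun_prop
  have hMint : ∀ i j : Fin 2, Integrable fun ξ : ℝ => KIN_M L r t x (ξ, y) i j := by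
    intro i j
    refine (KIN_w_int hr).mono' ((KIN_M_cont hL r t x i j).comp hcy).aestronglyMeasurable
      (Eventually.of_forall fun ξ => ?_)
    exact KIN_M_le hL r t x (ξ, y) i j
  have hFint : Integrable fun ξ => KIN_F L r t g x ξ y := by
    refine ((KIN_w_int hr).const_mul (2 * ‖g y‖)).mono' ?_ (Eventually.of_forall fun ξ => ?_)
    · refine Continuous.aestronglyMeasurable ?_
      exact KIN_cont (fun i j => (KIN_M_cont hL r t x i j).comp hcy) continuous_const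
    · have := KIN_F_norm hL r t g x ξ y
      linarith
  have hK : (∫ ξ, KIN_F L r t g x ξ y) = act (Matrix.of fun i j =>
      ∫ ξ : ℝ, KIN_M L r t x (ξ, y) i j) (g y) := by
    refine PiLp.ext fun i => ?_
    have h1 := (EuclideanSpace.proj (𝕜 := ℂ) i : V →L[ℂ] ℂ).integral_comp_comm hFint
    have h2 : (∫ ξ, KIN_F L r t g x ξ y).ofLp i = ∫ ξ, (KIN_F L r t g x ξ y).ofLp i := h1.symm
    rw [h2, KIN_act_apply]
    simp only [KIN_F, KIN_act_apply, Matrix.of_apply]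
    rw [integral_finsetSum _ fun j _ => (hMint i j).mul_const _]
    refine Finset.sum_congr rfl fun j _ => ?_
    rw [integral_mul_const]
  rw [hK]
  refine act_norm_le (fun i j => ?_) _
  simp only [Matrix.of_apply, KIN_M_apply]
  have h3 := Measure.integral_comp_mul_left (fun η : ℝ => Complex.exp (Complex.I * ((y - x : ℝ) : ℂ)
    * η) * (((1 + η ^ 2) ^ (-(r / 2)) : ℝ) : ℂ) * prop L t (η : ℂ) i j) (-(2 * Real.pi))
  have h4 : (fun ξ : ℝ => Complex.exp (((2 * Real.pi * ((x - y) * ξ) : ℝ) : ℂ) * Complex.I) *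
        (KIN_w r ξ : ℂ) * prop L t ((-(2 * Real.pi * ξ) : ℝ) : ℂ) i j) =
      fun ξ : ℝ => Complex.exp (Complex.I * ((y - x : ℝ) : ℂ) * ((-(2 * Real.pi) * ξ : ℝ) : ℂ)) *
        (((1 + (-(2 * Real.pi) * ξ) ^ 2) ^ (-(r / 2)) : ℝ) : ℂ) *
        prop L t ((-(2 * Real.pi) * ξ : ℝ) : ℂ) i j := by
    funext ξ
    have e1 : (((2 * Real.pi * ((x - y) * ξ) : ℝ) : ℂ) * Complex.I) =
        Complex.I * ((y - x : ℝ) : ℂ) * ((-(2 * Real.pi) * ξ : ℝ) : ℂ) := by
      push_cast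
      ring
    have e2 : -(2 * Real.pi * ξ) = -(2 * Real.pi) * ξ := by ring
    have e3 : KIN_w r ξ = (1 + (-(2 * Real.pi) * ξ) ^ 2) ^ (-(r / 2)) := by
      unfold KIN_w
      congr 2
      ring
    rw [e1, e2, e3]
  rw [h4, h3, norm_smul]
  have h5 := hk (y - x) i j
  have hC : 0 ≤ C := (norm_nonneg _).trans h5
  have h6 : ‖|(-(2 * Real.pi))⁻¹|‖ ≤ 1 := by
    rw [norm_abs_eq_norm, Real.norm_eq_abs, abs_inv, abs_neg,
      abs_of_pos (by positivity : (0 : ℝ) < 2 * Real.pi)]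
    apply inv_le_one_of_one_le₀
    have := Real.pi_gt_three
    linarith
  calc _ ≤ 1 * C := mul_le_mul h6 h5 (norm_nonneg _) zero_le_one
    _ = C := one_mul C

theorem inv_bound {L : List (ℝ × ℝ)} (hL : Adm L) {r t C : ℝ} (hr : 2 ≤ r)
    (hk : ∀ (x : ℝ) (i j : Fin 2),
      ‖∫ η : ℝ, Complex.exp (Complex.I * x * η) * (((1 + η ^ 2) ^ (-(r / 2)) : ℝ) : ℂ) *
        prop L t (η : ℂ) i j‖ ≤ C) {g : ℝ → V} (hg : Integrable g) (x : ℝ) :
    ‖(𝓕⁻ (symb L r t g) : ℝ → V) x‖ ≤ 2 * C * ∫ y, ‖g y‖ := by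
  have h1 : (𝓕⁻ (symb L r t g) : ℝ → V) x = ∫ ξ, ∫ y, KIN_F L r t g x ξ y := by
    rw [Real.fourierInv_eq']
    refine integral_congr_ae (Eventually.of_forall fun ξ => ?_)
    simp only [symb]
    rw [Real.fourier_real_eq_integral_exp_smul, ← integral_smul, ← KIN_L_apply]
    have hint : Integrable fun y : ℝ => (((1 + (2 * Real.pi * ξ) ^ 2) ^ (-(r / 2)) : ℝ) : ℂ) •
        Complex.exp (((-2 * Real.pi * y * ξ : ℝ) : ℂ) * Complex.I) • g y := by
      have hc : Continuous fun y : ℝ =>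
          Complex.exp (((-2 * Real.pi * y * ξ : ℝ) : ℂ) * Complex.I) := by
        refine Complex.continuous_exp.comp ?_
        refine Continuous.mul ?_ continuous_const
        exact Complex.continuous_ofReal.comp (by fun_prop)
      have h' : Integrable fun y : ℝ =>
          Complex.exp (((-2 * Real.pi * y * ξ : ℝ) : ℂ) * Complex.I) • g y := by
        refine hg.norm.mono' (hc.aestronglyMeasurable.smul hg.aestronglyMeasurable)
          (Eventually.of_forall fun y => ?_)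
        rw [norm_smul, Complex.norm_exp_ofReal_mul_I, one_mul]
      exact Integrable.smul ((((1 + (2 * Real.pi * ξ) ^ 2) ^ (-(r / 2)) : ℝ) : ℂ)) h'
    rw [← ContinuousLinearMap.integral_comp_comm _ hint, ← integral_smul]
    refine integral_congr_ae (Eventually.of_forall fun y => ?_)
    simp only [KIN_L_apply]
    unfold KIN_F
    refine PiLp.ext fun i => ?_
    rw [PiLp.smul_apply, KIN_act_apply, KIN_act_apply, smul_eq_mul, Finset.mul_sum]
    refine Finset.sum_congr rfl fun j _ => ?_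
    simp only [KIN_M_apply, PiLp.smul_apply, smul_eq_mul]
    have e1 : Complex.exp (((2 * Real.pi * ((x - y) * ξ) : ℝ) : ℂ) * Complex.I) =
        Complex.exp (((2 * Real.pi * inner ℝ ξ x : ℝ) : ℂ) * Complex.I) *
          Complex.exp (((-2 * Real.pi * y * ξ : ℝ) : ℂ) * Complex.I) := by
      rw [← Complex.exp_add]
      congr 1
      have e2 : inner ℝ ξ x = x * ξ := rfl
      rw [e2]
      push_cast
      ring
    rw [e1]
    unfold KIN_w
    ring
  rw [h1, integral_integral_swap (KIN_F_int hL hr t hg x)]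
  refine (norm_integral_le_of_norm_le (hg.norm.const_mul (2 * C))
    (Eventually.of_forall fun y => KIN_inner hL hr hk g x y)).trans (le_of_eq ?_)
  rw [integral_const_mul]

end Pool.Agent.H5.DF
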