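import Pool.Agent.H5.DF.Defs
import Pool.Agent.H5.DF.Fl

set_option autoImplicit false
open MeasureTheory Set Filter Topology
open scoped ENNReal NNReal FourierTransform

namespace Pool.Agent.H5.DF

theorem lin_norm_le_essSup {w : ℝ → V} (hw : Continuous w) (x : ℝ) :
    ENNReal.ofReal ‖w x‖ ≤ eLpNorm w ⊤ volume := by
  rw [eLpNorm_exponent_top]
  by_contra hcon
  push Not at hcon
  have h1 : ∀ᵐ y ∂(volume : Measure ℝ), ‖w y‖ₑ ≤ eLpNormEssSup w volume :=
    enorm_ae_le_eLpNormEssSup w volume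
  set S : Set ℝ := {y | eLpNormEssSup w volume < ENNReal.ofReal ‖w y‖} with hS
  have hSo : IsOpen S := by
    apply isOpen_lt continuous_const
    exact ENNReal.continuous_ofReal.comp hw.norm
  have hSx : x ∈ S := hcon
  have hpos : 0 < volume S := hSo.measure_pos volume ⟨x, hSx⟩
  have h0 : volume S = 0 := by
    rw [ae_iff] at h1
    refine measure_mono_null ?_ h1
    intro y hy
    simp only [Set.mem_ofPred_eq, not_le]
    have : eLpNormEssSup w volume < ENNReal.ofReal ‖w y‖ := hy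
    rwa [ofReal_norm] at this
  rw [h0] at hpos
  exact lt_irrefl _ hpos

theorem linf_lower {u : Lp V 2 (volume : Measure ℝ)} {H : ℝ → V} (hH : Continuous H)
    (hs : HasCompactSupport H)
    (hu : (𝓕 u : Lp V 2 (volume : Measure ℝ)) =ᵐ[volume] H) :
    ENNReal.ofReal ((∫ ξ, (H ξ).ofLp 0).re) ≤ eLpNorm u ⊤ volume := by
  have hint : Integrable H volume := hH.integrable_of_hasCompactSupport hs
  have h1 : MemLp H 1 volume := memLp_one_iff_integrable.mpr hint
  have h2 : MemLp H 2 volume := hH.memLp_of_hasCompactSupport hs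
  have hE := eq_fourierInv h1 h2 hu
  rw [eLpNorm_congr_ae hE]
  have hc : Continuous (𝓕⁻ H : ℝ → V) := by
    have hF : Continuous (𝓕 H : ℝ → V) := by
      have := VectorFourier.fourierIntegral_continuous (μ := (volume : Measure ℝ))
        Real.continuous_fourierChar (L := innerₗ ℝ) (by simpa using (continuous_inner (𝕜 := ℝ) (E := ℝ))) hint
      exact this
    have e : (𝓕⁻ H : ℝ → V) = fun w => (𝓕 H : ℝ → V) (-w) := by
      funext w
      exact Real.fourierInv_eq_fourier_neg H w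
    rw [e]
    exact hF.comp continuous_neg
  refine le_trans ?_ (lin_norm_le_essSup hc 0)
  apply ENNReal.ofReal_le_ofReal
  have e0 : (𝓕⁻ H : ℝ → V) 0 = ∫ ξ, H ξ := by
    rw [Real.fourierInv_eq]
    simp
  rw [e0]
  have e1 : (∫ ξ, (H ξ).ofLp 0) = (∫ ξ, H ξ).ofLp 0 := by
    have := (EuclideanSpace.proj (0 : Fin 2) : V →L[ℂ] ℂ).integral_comp_comm hint
    simpa using this
  rw [e1]
  calc ((∫ ξ, H ξ).ofLp 0).re ≤ ‖(∫ ξ, H ξ).ofLp 0‖ := Complex.re_le_norm _
    _ ≤ ‖∫ ξ, H ξ‖ := PiLp.norm_apply_le _ 0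

end Pool.Agent.H5.DF
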