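import Pool.Agent.H5.DF.Defs
import Pool.Agent.H5.DF.AlgM

set_option autoImplicit false
open MeasureTheory Set Filter Topology
open scoped ENNReal NNReal FourierTransform

namespace Pool.Agent.H5.DF

/-!
Part NEGM. `M^n - 1 = Σ_{j<n} M^j (M - 1)`, entries of `M^j` are `≤ 1` (unitary), so
`|(M^n - 1)_{00}| ≤ 2 n C |η|^k ≤ 1/2` if `|η| ≤ c₀ n^{-1/k}`, `|η| ≤ 1`.
-/

theorem NEGM_pow_entry {L : List (ℝ × ℝ)} (hL : Adm L) (η : ℝ) (n : ℕ) (i j : Fin 2) :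
    ‖(mono L (η : ℂ) ^ n) i j‖ ≤ 1 := by
  rw [← mono_flatten]
  exact mono_entry_le (Adm_flatten hL n) η i j

theorem NEGM_diff {L : List (ℝ × ℝ)} (hL : Adm L) (η : ℝ) (n : ℕ) (c : ℝ)
    (hc : ∀ i k, ‖(mono L (η : ℂ) - 1) i k‖ ≤ c) :
    ‖(mono L (η : ℂ) ^ n - 1) 0 0‖ ≤ n * (2 * c) := by
  have h1 : mono L (η : ℂ) ^ n - 1 =
      ∑ j ∈ Finset.range n, mono L (η : ℂ) ^ j * (mono L (η : ℂ) - 1) := by
    rw [← Finset.sum_mul, geom_sum_mul]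
  rw [h1, Matrix.sum_apply]
  refine (norm_sum_le _ _).trans ?_
  have h2 : ∀ j ∈ Finset.range n, ‖(mono L (η : ℂ) ^ j * (mono L (η : ℂ) - 1)) 0 0‖ ≤ 2 * c := by
    intro j _
    rw [Matrix.mul_apply, Fin.sum_univ_two]
    refine (norm_add_le _ _).trans ?_
    rw [norm_mul, norm_mul]
    have h3 := NEGM_pow_entry hL η j 0 0
    have h4 := NEGM_pow_entry hL η j 0 1
    have h5 := hc 0 0
    have h6 := hc 1 0
    have h7 : ‖(mono L (η : ℂ) ^ j) 0 0‖ * ‖(mono L (η : ℂ) - 1) 0 0‖ ≤ 1 * c :=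
      mul_le_mul h3 h5 (norm_nonneg _) zero_le_one
    have h8 : ‖(mono L (η : ℂ) ^ j) 0 1‖ * ‖(mono L (η : ℂ) - 1) 1 0‖ ≤ 1 * c :=
      mul_le_mul h4 h6 (norm_nonneg _) zero_le_one
    linarith
  refine (Finset.sum_le_sum h2).trans ?_
  rw [Finset.sum_const, Finset.card_range, nsmul_eq_mul]

theorem pow_near {k : ℕ} (hk : 1 ≤ k) {L : List (ℝ × ℝ)} (hL : Adm L) (h : NearId k L) :
    ∃ c₀ : ℝ, 0 < c₀ ∧ c₀ ≤ 1 ∧ ∀ (n : ℕ) (η : ℝ), 1 ≤ n → |η| ≤ c₀ * (n : ℝ) ^ (-(1 / (k : ℝ))) →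
      1 / 2 ≤ (((mono L (η : ℂ)) ^ n) 0 0).re := by
  obtain ⟨C, hC⟩ := h
  set C' := max C 1 with hC'
  have hC1 : 1 ≤ C' := le_max_right _ _
  have hC2 : C ≤ C' := le_max_left _ _
  have hC0 : 0 < C' := by linarith
  have hc0 : 0 < 1 / (4 * C') := by positivity
  have hc1 : 1 / (4 * C') ≤ 1 := by
    rw [div_le_one (by positivity)]
    linarith
  refine ⟨1 / (4 * C'), hc0, hc1, ?_⟩
  intro n η hn hη
  have hk0 : (0 : ℝ) < k := by exact_mod_cast hk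
  have hn1 : (1 : ℝ) ≤ n := by exact_mod_cast hn
  have hn0 : (0 : ℝ) < n := by linarith
  have hp1 : (n : ℝ) ^ (-(1 / (k : ℝ))) ≤ 1 := by
    apply Real.rpow_le_one_of_one_le_of_nonpos hn1
    have : 0 < 1 / (k : ℝ) := by positivity
    linarith
  have hp0 : 0 < (n : ℝ) ^ (-(1 / (k : ℝ))) := Real.rpow_pos_of_pos hn0 _
  have hη1 : |η| ≤ 1 := by
    refine hη.trans ?_
    calc 1 / (4 * C') * (n : ℝ) ^ (-(1 / (k : ℝ))) ≤ 1 * 1 :=
          mul_le_mul hc1 hp1 hp0.le zero_le_one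
      _ = 1 := one_mul 1
  have hηk : |η| ^ k ≤ 1 / (4 * C') / n := by
    calc |η| ^ k ≤ (1 / (4 * C') * (n : ℝ) ^ (-(1 / (k : ℝ)))) ^ k :=
          pow_le_pow_left₀ (abs_nonneg _) hη k
      _ = (1 / (4 * C')) ^ k * ((n : ℝ) ^ (-(1 / (k : ℝ)))) ^ k := mul_pow _ _ _
      _ = (1 / (4 * C')) ^ k * (n : ℝ)⁻¹ := by
          congr 1
          rw [← Real.rpow_natCast, ← Real.rpow_mul hn0.le]
          rw [show -(1 / (k : ℝ)) * (k : ℝ) = -1 by field_simp]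
          exact Real.rpow_neg_one _
      _ ≤ (1 / (4 * C')) * (n : ℝ)⁻¹ := by
          apply mul_le_mul_of_nonneg_right _ (by positivity)
          calc (1 / (4 * C')) ^ k ≤ (1 / (4 * C')) ^ 1 :=
                pow_le_pow_of_le_one hc0.le hc1 hk
            _ = 1 / (4 * C') := pow_one _
      _ = 1 / (4 * C') / n := by rw [div_eq_mul_inv (1 / (4 * C')) (n : ℝ)]
  have hbound : ∀ i j, ‖(mono L (η : ℂ) - 1) i j‖ ≤ 1 / (4 * n) := by
    intro i j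
    refine (hC η hη1 i j).trans ?_
    calc C * |η| ^ k ≤ C' * |η| ^ k := mul_le_mul_of_nonneg_right hC2 (by positivity)
      _ ≤ C' * (1 / (4 * C') / n) := mul_le_mul_of_nonneg_left hηk hC0.le
      _ = 1 / (4 * n) := by field_simp
  have hd := NEGM_diff hL η n _ hbound
  have hd2 : (n : ℝ) * (2 * (1 / (4 * n))) = 1 / 2 := by field_simp; norm_num
  rw [hd2, Matrix.sub_apply, Matrix.one_apply_eq] at hd
  have h3 := (abs_le.1 ((Complex.abs_re_le_norm _).trans hd)).1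
  rw [Complex.sub_re, Complex.one_re] at h3
  linarith

end Pool.Agent.H5.DF
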