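import Pool.Agent.H5.DF.Defs
import Pool.Agent.H5.DF.Uni
import Pool.Agent.H5.DF.Prb

set_option autoImplicit false
open MeasureTheory Set Filter Topology
open scoped ENNReal NNReal FourierTransform

namespace Pool.Agent.H5.DF

/-!
Part SOL. Existence of the solution with given (continuous, compactly supported) Fourier transform
`Φ` of the data: `α t = 𝓕⁻ (toLp (fun ξ => act (prop L t (-2πξ)) (Φ ξ)))` for `t ≥ 0`
(`prop_continuous`, compact support, so in `L²`), `F t ξ = act (prop L t (-2πξ)) (Φ ξ)`,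
`prop_sol`, `prop_zero`.
-/

/-- the propagated Fourier transform -/
noncomputable def solF (L : List (ℝ × ℝ)) (Φ : ℝ → V) (t ξ : ℝ) : V :=
  act (prop L t ((-(2 * Real.pi * ξ) : ℝ) : ℂ)) (Φ ξ)

lemma sol_act_continuous {A : ℝ → Mat} {v : ℝ → V} (hA : ∀ i j, Continuous fun x => A x i j)
    (hv : Continuous v) : Continuous fun x => act (A x) (v x) := by
  have hA' : Continuous A := by
    apply continuous_matrix
    exact hA
  unfold act
  apply (PiLp.continuous_toLp 2 _).comp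
  apply Continuous.matrix_mulVec hA'
  exact (PiLp.continuous_ofLp 2 _).comp hv

lemma sol_act_zero (A : Mat) : act A 0 = 0 := by
  unfold act
  simp

lemma solF_continuous {L : List (ℝ × ℝ)} (hL : Adm L) {Φ : ℝ → V} (hΦ : Continuous Φ) (t : ℝ) :
    Continuous (solF L Φ t) := by
  unfold solF
  apply sol_act_continuous _ hΦ
  intro i j
  exact (prop_continuous hL t i j).comp (by fun_prop : Continuous fun ξ : ℝ => -(2 * Real.pi * ξ))

lemma solF_compact {L : List (ℝ × ℝ)} {Φ : ℝ → V} (hs : HasCompactSupport Φ) (t : ℝ) :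
    HasCompactSupport (solF L Φ t) := by
  apply hs.mono
  intro ξ hξ
  simp only [Function.mem_support] at hξ ⊢
  intro h
  apply hξ
  unfold solF
  rw [h, sol_act_zero]

lemma solF_memLp {L : List (ℝ × ℝ)} (hL : Adm L) {Φ : ℝ → V} (hΦ : Continuous Φ)
    (hs : HasCompactSupport Φ) (t : ℝ) : MemLp (solF L Φ t) 2 volume :=
  (solF_continuous hL hΦ t).memLp_of_hasCompactSupport (solF_compact hs t)

theorem exists_sol {L : List (ℝ × ℝ)} (hL : Adm L) (hne : L ≠ []) {Φ : ℝ → V}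
    (hΦ : Continuous Φ) (hs : HasCompactSupport Φ) :
    ∃ (f : Lp V 2 (volume : Measure ℝ)) (α : ℝ → Lp V 2 (volume : Measure ℝ)),
      ((𝓕 f : Lp V 2 (volume : Measure ℝ)) =ᵐ[volume] Φ) ∧ IsSol (nu L) f α ∧
      ∀ t : ℝ, 0 ≤ t → (𝓕 (α t) : Lp V 2 (volume : Measure ℝ)) =ᵐ[volume]
        fun ξ => act (prop L t ((-(2 * Real.pi * ξ) : ℝ) : ℂ)) (Φ ξ) := by
  set α : ℝ → Lp V 2 (volume : Measure ℝ) := fun t => 𝓕⁻ ((solF_memLp hL hΦ hs t).toLp (solF L Φ t))
    with hα
  have h1 : ∀ t, (𝓕 (α t) : Lp V 2 (volume : Measure ℝ)) =ᵐ[volume] solF L Φ t := by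
    intro t
    have e : (𝓕 (α t) : Lp V 2 (volume : Measure ℝ)) =
        (solF_memLp hL hΦ hs t).toLp (solF L Φ t) := by
      rw [hα]
      exact FourierTransform.fourier_fourierInv_eq _
    rw [e]
    exact (solF_memLp hL hΦ hs t).coeFn_toLp
  have h0 : solF L Φ 0 = Φ := by
    funext ξ
    unfold solF
    rw [prop_zero hL, act_one]
  refine ⟨α 0, α, ?_, ?_, ?_⟩
  · have := h1 0
    rwa [h0] at this
  · refine ⟨solF L Φ, fun t _ => h1 t, h1 0, ?_⟩
    intro ξ
    obtain ⟨hc, hi⟩ := prop_sol hL hne (-(2 * Real.pi * ξ)) (Φ ξ)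
    refine ⟨hc, ?_⟩
    intro t ht
    have h2 := hi t ht
    have h3 : solF L Φ 0 ξ = Φ ξ := by rw [h0]
    rw [h3]
    have e : ((-(2 * Real.pi * ξ) : ℝ) : ℂ) = (-(2 * Real.pi * ξ) : ℂ) := by push_cast; ring
    rw [← e]
    exact h2
  · intro t _
    exact h1 t

end Pool.Agent.H5.DF
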