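import Pool.Agent.H5.DF.Defs
import Pool.Agent.H5.DF.Negm
import Pool.Agent.H5.DF.Dat
import Pool.Agent.H5.DF.Sol
import Pool.Agent.H5.DF.Lin
import Pool.Agent.H5.DF.Prb

set_option autoImplicit false
open MeasureTheory Set Filter Topology
open scoped ENNReal NNReal FourierTransform

namespace Pool.Agent.H5.DF

/-!
Part NEG. No decay faster than `t^{-1/k}` for a forcing whose period map is `1 + O(η^k)`.
Paper proof: `pow_near` gives `c₀`; `data_exists` gives `χ`, `K`.  For `n ≥ 1` let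
`h = (c₀/(2π)) n^{-1/k} ≤ 1`, `g` from `data_exists`, `Φ ξ = (1+(2πξ)²)^{-r/2} χ(ξ/h) e₀` (continuous,
supported in `|ξ| ≤ h`), `f, α` from `exists_sol`.  `Decay` at `t = n T`, `T = dur L`:
`‖α(nT)‖_∞ ≤ c (nT)^{-σ} K`.  `linf_lower` with `H ξ = act (prop L (nT) (-2πξ)) (Φ ξ)`, whose `0`-th
component is `(M(-2πξ)^n)_{00} (1+(2πξ)²)^{-r/2} χ(ξ/h)` (`prop_nat`), with real part
`≥ (1/2) (1+(2π)²)^{-r/2} χ(ξ/h)` (for `|ξ| ≤ h`: `|2πξ| ≤ c₀ n^{-1/k} ≤ 1`); the integral is
`≥ (1/2) (1+(2π)²)^{-r/2} h ∫ χ`.  So `c' n^{-1/k} ≤ c'' n^{-σ}` for all `n ≥ 1`, hence `σ ≤ 1/k`.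
-/

/-- the Fourier transform of the data -/
noncomputable def negPhi (χ : ℝ → ℝ) (r h : ℝ) (ξ : ℝ) : V :=
  (((1 + (2 * Real.pi * ξ) ^ 2) ^ (-(r / 2)) * χ (ξ / h) : ℝ) : ℂ) •
    (EuclideanSpace.single 0 (1 : ℂ) : V)

theorem neg_jb_pos (ξ : ℝ) : 0 < 1 + (2 * Real.pi * ξ) ^ 2 := by positivity

theorem neg_jb_cont (s : ℝ) : Continuous fun ξ : ℝ => (1 + (2 * Real.pi * ξ) ^ 2) ^ s := by
  refine Continuous.rpow_const (by fun_prop) fun ξ => Or.inl (neg_jb_pos ξ).ne'

theorem negPhi_cont {χ : ℝ → ℝ} (hχ : Continuous χ) (r h : ℝ) : Continuous (negPhi χ r h) := by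
  unfold negPhi
  have h1 := neg_jb_cont (-(r / 2))
  have h2 : Continuous fun ξ : ℝ => χ (ξ / h) := hχ.comp (continuous_id.div_const h)
  exact (Complex.continuous_ofReal.comp (h1.mul h2)).smul continuous_const

theorem negPhi_supp {χ : ℝ → ℝ} (hs : ∀ x, 1 < |x| → χ x = 0) (r : ℝ) {h : ℝ} (hh : 0 < h) :
    HasCompactSupport (negPhi χ r h) := by
  refine HasCompactSupport.intro (isCompact_Icc (a := -h) (b := h)) fun ξ hξ => ?_
  unfold negPhi
  have : 1 < |ξ / h| := by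
    rw [abs_div, abs_of_pos hh, lt_div_iff₀ hh, one_mul]
    rw [mem_Icc, not_and_or, not_le, not_le] at hξ
    rcases hξ with h1 | h1
    · rw [lt_abs]; right; linarith
    · rw [lt_abs]; left; exact h1
  rw [hs _ this, mul_zero, Complex.ofReal_zero, zero_smul]

theorem neg_act_comp (A : Mat) (c : ℂ) :
    (act A (c • (EuclideanSpace.single 0 (1 : ℂ) : V))).ofLp 0 = A 0 0 * c := by
  unfold act
  simp [Matrix.mulVec, dotProduct]

theorem neg_growth {c' c'' p σ : ℝ} (hc' : 0 < c')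
    (h : ∀ n : ℕ, 1 ≤ n → c' * (n : ℝ) ^ (-p) ≤ c'' / (n : ℝ) ^ σ) : σ ≤ p := by
  by_contra hcon
  push Not at hcon
  have h1 : Tendsto (fun n : ℕ => (n : ℝ) ^ (σ - p)) atTop atTop :=
    (tendsto_rpow_atTop (by linarith)).comp tendsto_natCast_atTop_atTop
  obtain ⟨N, hN⟩ := (h1.eventually (eventually_gt_atTop (c'' / c'))).exists_forall_of_atTop
  have h2 := hN (max N 1) (le_max_left _ _)
  have h3 := h (max N 1) (le_max_right _ _)
  set n : ℕ := max N 1
  have hn : (0 : ℝ) < (n : ℝ) := by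
    have : 1 ≤ n := le_max_right _ _
    exact_mod_cast this
  rw [le_div_iff₀ (by positivity), mul_assoc, ← Real.rpow_add hn] at h3
  rw [div_lt_iff₀ hc'] at h2
  have e : -p + σ = σ - p := by ring
  rw [e] at h3
  linarith

theorem no_decay {L : List (ℝ × ℝ)} (hL : Adm L) (hne : L ≠ []) {k : ℕ} (hk : 1 ≤ k)
    (h : NearId k L) {r σ : ℝ} (hr : 0 ≤ r) (hσ : 0 < σ) (hd : Decay (nu L) r σ) :
    σ ≤ 1 / (k : ℝ) := by
  obtain ⟨c₀, hc₀, hc₀1, hpow⟩ := pow_near hk hL h
  obtain ⟨χ, K, hχc, hχ0, hχs, hχi, hK, hdat⟩ := data_exists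
  obtain ⟨c, hdec⟩ := hd
  have hT := dur_pos hL hne
  set T := dur L with hTdef
  have hpi := Real.pi_pos
  have hkpos : (0 : ℝ) < k := by exact_mod_cast hk
  set κ : ℝ := (1 + (2 * Real.pi) ^ 2) ^ (-(r / 2)) with hκ
  have hκpos : 0 < κ := by positivity
  have hχint : Integrable χ := by
    refine hχc.integrable_of_hasCompactSupport ?_
    refine HasCompactSupport.intro (isCompact_Icc (a := -1) (b := 1)) fun ξ hξ => hχs ξ ?_
    rw [mem_Icc, not_and_or, not_le, not_le] at hξ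
    rcases hξ with h1 | h1
    · rw [lt_abs]; right; linarith
    · rw [lt_abs]; left; exact h1
  refine neg_growth (c' := 1 / 2 * κ * (c₀ / (2 * Real.pi)) * ∫ x, χ x)
    (c'' := |c| / T ^ σ * K) (by positivity) fun n hn => ?_
  have hn0 : (0 : ℝ) < n := by exact_mod_cast hn
  have hn1 : (1 : ℝ) ≤ n := by exact_mod_cast hn
  set N : ℝ := (n : ℝ) ^ (-(1 / (k : ℝ))) with hN
  have hNpos : 0 < N := by positivity
  have hN1 : N ≤ 1 := Real.rpow_le_one_of_one_le_of_nonpos hn1 (by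
    rw [neg_nonpos]; positivity)
  set hh : ℝ := c₀ / (2 * Real.pi) * N with hhdef
  have hhpos : 0 < hh := by positivity
  obtain ⟨g, hg1, hgn, hgf⟩ := hdat hh hhpos
  have hΦc := negPhi_cont hχc r hh
  have hΦs := negPhi_supp hχs r hhpos
  obtain ⟨f, α, hf, hsol, hα⟩ := exists_sol hL hne hΦc hΦs
  have hcond : ((𝓕 g : ℝ → V) =ᵐ[volume] fun ξ =>
      (((1 + (2 * Real.pi * ξ) ^ 2) ^ (r / 2) : ℝ) : ℂ) •
        ((𝓕 f : Lp V 2 (volume : Measure ℝ)) : ℝ → V) ξ) := by
    filter_upwards [hf] with ξ hξ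
    rw [hξ, hgf, negPhi, smul_smul, ← Complex.ofReal_mul, ← mul_assoc,
      ← Real.rpow_add (neg_jb_pos ξ)]
    simp
  have hnT : 0 < (n : ℝ) * T := by positivity
  have hest := hdec f g α hg1 hcond hsol (n * T) hnT
  -- the solution at time n T
  set H : ℝ → V := fun ξ => act (prop L (n * T) ((-(2 * Real.pi * ξ) : ℝ) : ℂ))
    (negPhi χ r hh ξ) with hH
  have hHc : Continuous H := by
    have hp : ∀ i j, Continuous fun ξ : ℝ => prop L (n * T) ((-(2 * Real.pi * ξ) : ℝ) : ℂ) i j :=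
      fun i j => (prop_continuous hL (n * T) i j).comp (by fun_prop)
    rw [hH]
    unfold act
    refine (PiLp.continuous_toLp 2 _).comp ?_
    refine continuous_pi fun i => ?_
    simp only [Matrix.mulVec, dotProduct, Fin.sum_univ_two]
    have hΦi : ∀ j : Fin 2, Continuous fun ξ => (negPhi χ r hh ξ).ofLp j := fun j =>
      (continuous_apply j).comp ((PiLp.continuous_ofLp 2 _).comp hΦc)
    exact ((hp i 0).mul (hΦi 0)).add ((hp i 1).mul (hΦi 1))
  have hHs : HasCompactSupport H := by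
    refine hΦs.mono' ?_
    refine (Function.support_subset_iff'.2 fun ξ hξ => ?_).trans subset_closure
    rw [Function.mem_support, not_not] at hξ
    rw [hH]
    show act _ (negPhi χ r hh ξ) = 0
    rw [hξ]
    unfold act
    simp
  have hlow := linf_lower hHc hHs (hα (n * T) hnT.le)
  -- component
  have hcomp : ∀ ξ, ((H ξ).ofLp 0).re = ((mono L ((-(2 * Real.pi * ξ) : ℝ) : ℂ) ^ n) 0 0).re *
      ((1 + (2 * Real.pi * ξ) ^ 2) ^ (-(r / 2)) * χ (ξ / hh)) := by
    intro ξ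
    rw [hH]
    show ((act _ (negPhi χ r hh ξ)).ofLp 0).re = _
    unfold negPhi
    rw [neg_act_comp, prop_nat hL hne, Complex.re_mul_ofReal]
  have hcl : ∀ ξ, 1 / 2 * κ * χ (ξ / hh) ≤ ((H ξ).ofLp 0).re := by
    intro ξ
    rw [hcomp]
    by_cases hξ : 1 < |ξ / hh|
    · rw [hχs _ hξ]; simp
    · push Not at hξ
      rw [abs_div, abs_of_pos hhpos, div_le_one hhpos] at hξ
      have hξ1 : |-(2 * Real.pi * ξ)| ≤ c₀ * N := by
        rw [abs_neg, abs_mul, abs_of_pos (by positivity : (0 : ℝ) < 2 * Real.pi)]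
        calc 2 * Real.pi * |ξ| ≤ 2 * Real.pi * hh := by gcongr
          _ = c₀ * N := by
            rw [hhdef]
            field_simp
      have h1 := hpow n (-(2 * Real.pi * ξ)) hn hξ1
      have h2 : κ ≤ (1 + (2 * Real.pi * ξ) ^ 2) ^ (-(r / 2)) := by
        rw [hκ]
        apply Real.rpow_le_rpow_of_nonpos (neg_jb_pos ξ) _ (by linarith)
        have h3 : |ξ| ≤ 1 := by
          refine hξ.trans ?_
          rw [hhdef]
          have : c₀ / (2 * Real.pi) ≤ 1 := by
            rw [div_le_one (by positivity)]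
            nlinarith [Real.pi_gt_three]
          calc c₀ / (2 * Real.pi) * N ≤ 1 * 1 := mul_le_mul this hN1 hNpos.le zero_le_one
            _ = 1 := one_mul 1
        have h4 : ξ ^ 2 ≤ 1 := by
          rw [← sq_abs]
          nlinarith [abs_nonneg ξ]
        have : (2 * Real.pi * ξ) ^ 2 = (2 * Real.pi) ^ 2 * ξ ^ 2 := by ring
        rw [this]
        nlinarith [sq_nonneg (2 * Real.pi)]
      have h5 := hχ0 (ξ / hh)
      have h6 : κ * χ (ξ / hh) ≤ (1 + (2 * Real.pi * ξ) ^ 2) ^ (-(r / 2)) * χ (ξ / hh) := by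
        gcongr
      have h7 : 0 ≤ κ * χ (ξ / hh) := by positivity
      calc 1 / 2 * κ * χ (ξ / hh) = 1 / 2 * (κ * χ (ξ / hh)) := by ring
        _ ≤ _ := mul_le_mul h1 h6 h7 (by linarith)
  have hint2 : Integrable fun ξ => ((H ξ).ofLp 0).re := by
    refine Continuous.integrable_of_hasCompactSupport ?_ ?_
    · exact Complex.continuous_re.comp
        ((continuous_apply (0 : Fin 2)).comp ((PiLp.continuous_ofLp 2 _).comp hHc))
    · refine hHs.comp_left (g := fun v : V => ((v).ofLp 0).re) ?_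
      simp
  have hint1 : Integrable fun ξ => 1 / 2 * κ * χ (ξ / hh) :=
    (hχint.comp_div hhpos.ne').const_mul _
  have hintle := integral_mono hint1 hint2 hcl
  have hval : (∫ ξ, 1 / 2 * κ * χ (ξ / hh)) = 1 / 2 * κ * (c₀ / (2 * Real.pi)) * (∫ x, χ x) * N := by
    rw [integral_const_mul, Measure.integral_comp_div, smul_eq_mul, abs_of_pos hhpos, hhdef]
    ring
  have hre : (∫ ξ, ((H ξ).ofLp 0).re) = (∫ ξ, ((H ξ).ofLp 0)).re := by
    have hint3 : Integrable fun ξ => (H ξ).ofLp 0 := by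
      refine Continuous.integrable_of_hasCompactSupport ?_ ?_
      · exact (continuous_apply (0 : Fin 2)).comp ((PiLp.continuous_ofLp 2 _).comp hHc)
      · refine hHs.comp_left (g := fun v : V => (v).ofLp 0) ?_
        simp
    have := Complex.reCLM.integral_comp_comm hint3
    simpa using this
  have hfin : ENNReal.ofReal (1 / 2 * κ * (c₀ / (2 * Real.pi)) * (∫ x, χ x) * N) ≤
      ENNReal.ofReal (|c| / T ^ σ * K / (n : ℝ) ^ σ) := by
    calc ENNReal.ofReal (1 / 2 * κ * (c₀ / (2 * Real.pi)) * (∫ x, χ x) * N)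
        ≤ ENNReal.ofReal ((∫ ξ, (H ξ).ofLp 0).re) := by
          apply ENNReal.ofReal_le_ofReal
          rw [← hval, ← hre]
          exact hintle
      _ ≤ eLpNorm (α (n * T)) ⊤ volume := hlow
      _ ≤ ENNReal.ofReal (c / (n * T) ^ σ) * eLpNorm g 1 volume := hest
      _ ≤ ENNReal.ofReal (|c| / (n * T) ^ σ) * ENNReal.ofReal K := by
          gcongr
          exact le_abs_self c
      _ = ENNReal.ofReal (|c| / (n * T) ^ σ * K) := by
          rw [← ENNReal.ofReal_mul (by positivity)]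
      _ = _ := by
          congr 1
          rw [Real.mul_rpow hn0.le hT.le]
          field_simp
  rw [ENNReal.ofReal_le_ofReal_iff (by positivity)] at hfin
  exact hfin

end Pool.Agent.H5.DF
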