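import Pool.Agent.H5.DF.Defs
import Pool.Agent.H5.DF.Kin
import Pool.Agent.H5.DF.Fl
import Pool.Agent.H5.DF.Uni

set_option autoImplicit false
open MeasureTheory Set Filter Topology
open scoped ENNReal NNReal FourierTransform

namespace Pool.Agent.H5.DF

/-!
Part UPP. The decay estimate from the kernel bound.
Paper proof: let `F` be as in `IsSol`.  For every `ξ`, `F t ξ = act (prop L t (-2πξ)) (F 0 ξ)`
(`sol_unique` with `η = -2πξ`, casts), and a.e. `F 0 ξ = 𝓕 f ξ = (1+(2πξ)²)^{-r/2} 𝓕 g ξ`.  So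
`𝓕 (α t) = symb L r t g` a.e., `α t = 𝓕⁻ (symb L r t g)` a.e. (`symb_memLp`, `eq_fourierInv`), and
`inv_bound` with `C/t^σ`; `eLpNorm g 1 = ENNReal.ofReal (∫ ‖g‖)`.
-/

theorem decay_of_kernel {L : List (ℝ × ℝ)} (hL : Adm L) (hne : L ≠ []) {r σ C : ℝ} (hr : 2 ≤ r)
    (hk : ∀ t : ℝ, 0 < t → ∀ (x : ℝ) (i j : Fin 2),
      ‖∫ η : ℝ, Complex.exp (Complex.I * x * η) * (((1 + η ^ 2) ^ (-(r / 2)) : ℝ) : ℂ) *
        prop L t (η : ℂ) i j‖ ≤ C / t ^ σ) : Decay (nu L) r σ := by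
  refine ⟨2 * C, fun f g α hg hfg hsol t ht => ?_⟩
  obtain ⟨F, hF, hF0, hFs⟩ := hsol
  have hgi : Integrable g := memLp_one_iff_integrable.1 hg
  -- the solution of the differential equation
  have h1 : ∀ ξ : ℝ, F t ξ = act (prop L t ((-(2 * Real.pi * ξ) : ℝ) : ℂ)) (F 0 ξ) := by
    intro ξ
    obtain ⟨hc, hi⟩ := hFs ξ
    refine sol_unique hL hne (-(2 * Real.pi * ξ)) hc (fun s hs => ?_) ht.le
    have := hi s hs
    push_cast at this ⊢
    exact this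
  -- the Fourier transform at time `t`
  have h2 : (𝓕 (α t) : Lp V 2 (volume : Measure ℝ)) =ᵐ[volume] symb L r t g := by
    filter_upwards [hF t ht.le, hF0, hfg] with ξ e1 e2 e3
    rw [e1, h1 ξ, ← e2]
    unfold symb
    rw [e3, smul_smul]
    have hpos : 0 < 1 + (2 * Real.pi * ξ) ^ 2 := by positivity
    have e4 : (((1 + (2 * Real.pi * ξ) ^ 2) ^ (-(r / 2)) : ℝ) : ℂ) *
        (((1 + (2 * Real.pi * ξ) ^ 2) ^ (r / 2) : ℝ) : ℂ) = 1 := by
      rw [← Complex.ofReal_mul, ← Real.rpow_add hpos]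
      simp
    rw [e4, one_smul]
  obtain ⟨m1, m2⟩ := symb_memLp hL hr t hgi
  have h3 := eq_fourierInv m1 m2 h2
  have h4 : ∀ x : ℝ, ‖(𝓕⁻ (symb L r t g) : ℝ → V) x‖ ≤ 2 * (C / t ^ σ) * ∫ y, ‖g y‖ :=
    fun x => inv_bound hL hr (hk t ht) hgi x
  have hC : 0 ≤ C / t ^ σ := (norm_nonneg _).trans (hk t ht 0 0 0)
  calc eLpNorm (α t) ⊤ volume = eLpNorm (𝓕⁻ (symb L r t g) : ℝ → V) ⊤ volume :=
        eLpNorm_congr_ae h3
    _ ≤ ENNReal.ofReal (2 * (C / t ^ σ) * ∫ y, ‖g y‖) := by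
        rw [eLpNorm_exponent_top]
        exact eLpNormEssSup_le_of_ae_bound (Eventually.of_forall h4)
    _ = ENNReal.ofReal (2 * C / t ^ σ) * eLpNorm g 1 volume := by
        rw [ENNReal.ofReal_mul (by positivity), eLpNorm_one_eq_lintegral_enorm,
          ofReal_integral_norm_eq_lintegral_enorm hgi, mul_div_assoc]

end Pool.Agent.H5.DF
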