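import Pool.Agent.H5.DF.Defs
import Pool.Agent.H5.DF.Deg
import Pool.Agent.H5.DF.Ker
import Pool.Agent.H5.DF.Upp
import Pool.Agent.H5.DF.Neg
import Pool.Agent.H5.DF.For

set_option autoImplicit false
open MeasureTheory Set Filter Topology
open scoped ENNReal NNReal FourierTransform

namespace Pool.Agent.H5.DF

/-- **Full answer (yes) to Q1.** -/
theorem main (ε : ℝ) (hε : 0 < ε) : ∃ (T : ℝ) (ν : ℝ → Mat), 0 < T ∧ Forcing T ν ∧
    Dispersive ν ∧ ∀ r σ : ℝ, 0 ≤ r → 0 < σ → Decay ν r σ → σ ≤ ε := by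
  obtain ⟨k, hk⟩ := exists_nat_gt (1 / ε)
  obtain ⟨L, hL, hM, hid⟩ := near_id_exists (k + 1)
  have hne : L ≠ [] := by
    rintro rfl
    obtain ⟨⟨p, hp, -⟩, -⟩ := hM
    simp at hp
  obtain ⟨r, σ, C, hr, hσ, hker⟩ := kernel hL hM
  obtain ⟨hT, hF⟩ := forcing hL hne
  refine ⟨dur L, nu L, hT, hF, ⟨r, σ, by linarith, hσ, decay_of_kernel hL hne hr hker⟩, ?_⟩
  intro r' σ' hr' hσ' hd
  have h1 := no_decay hL hne (Nat.le_add_left 1 k) hid hr' hσ' hd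
  refine h1.trans ?_
  have h2 : (0 : ℝ) < k := lt_trans (by positivity) hk
  rw [div_lt_iff₀ hε] at hk
  rw [div_le_iff₀ (by positivity)]
  push_cast
  nlinarith

end Pool.Agent.H5.DF
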