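import Pool.Agent.H5.DF.Main

set_option autoImplicit false
open MeasureTheory Set Filter Topology
open scoped ENNReal NNReal FourierTransform

namespace Pool.Agent.H5.DF

theorem solves_iff (ν : ℝ → Mat) (f : L2) (α : ℝ → L2) : Solves ν f α ↔ IsSol ν f α := Iff.rfl

theorem decayEstimate_iff (ν : ℝ → Mat) (r σ : ℝ) : DecayEstimate ν r σ ↔ Decay ν r σ :=
  ⟨fun ⟨c, h⟩ => ⟨c, fun f g α h1 h2 h3 => h f g α ⟨h1, h2⟩ h3⟩,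
    fun ⟨c, h⟩ => ⟨c, fun f g α h1 h3 => h f g α h1.1 h1.2 h3⟩⟩

theorem main' (ε : ℝ) (hε : 0 < ε) : ∃ (T : ℝ) (ν : ℝ → Mat), 0 < T ∧ Forcing T ν ∧
    IsDispersive ν ∧ ∀ r σ : ℝ, 0 ≤ r → 0 < σ → DecayEstimate ν r σ → σ ≤ ε := by
  obtain ⟨T, ν, hT, hF, ⟨r, σ, hr, hσ, hd⟩, h⟩ := main ε hε
  exact ⟨T, ν, hT, hF, ⟨r, σ, hr, hσ, (decayEstimate_iff ν r σ).2 hd⟩,
    fun r σ hr hσ hd => h r σ hr hσ ((decayEstimate_iff ν r σ).1 hd)⟩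

end Pool.Agent.H5.DF
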